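import Mathlib

/-!
# Cutting an arc at finitely many abscissas

Induction on `Z` or: let `z_1 < ... < z_r` be the elements of `Z` in `Ioo a b`, `z_0 = a`, `z_(r+1) = b`; the intervals
`(z_i, z_(i+1))`. Padding with empty intervals (`a' = b' = 0`). A compact way: index the intervals by `Option` or by
`Fin (#Z + 1)`; or take for every `z ∈ Z ∪ {a}` the interval `(max a z, next z)` with `next z` the least element of `Z ∪ {b}` greater than `z`.
-/

set_option autoImplicit false

namespace Pool.Agent.H39.HG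

open Finset
open scoped Classical

theorem cut (n : ℕ) (a b : ℝ) (Z : Finset ℝ) (hZ : Z.card ≤ n) :
    ∃ a' b' : Fin (n + 1) → ℝ, (∀ i, Set.Ioo (a' i) (b' i) ⊆ Set.Ioo a b) ∧
      (∀ i, ∀ x ∈ Set.Ioo (a' i) (b' i), x ∉ Z) ∧
      (∀ x ∈ Set.Ioo a b, x ∉ Z → ∃ i, x ∈ Set.Ioo (a' i) (b' i)) := by
  induction n generalizing b Z with
  | zero =>
    have h : Z = ∅ := Finset.card_eq_zero.1 (Nat.le_zero.1 hZ)
    subst h
    exact ⟨fun _ => a, fun _ => b, fun _ => subset_rfl, fun _ x _ => Finset.notMem_empty x,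
      fun _ hx _ => ⟨0, hx⟩⟩
  | succ n ih =>
    by_cases hne : (Z.filter (fun z => z ∈ Set.Ioo a b)).Nonempty
    · obtain ⟨z, hz, hmax⟩ := Finset.exists_max_image _ id hne
      rw [Finset.mem_filter] at hz
      obtain ⟨hzZ, hza, hzb⟩ := hz
      have hc : (Z.erase z).card ≤ n := by
        rw [Finset.card_erase_of_mem hzZ]
        omega
      obtain ⟨a', b', h1, h2, h3⟩ := ih z (Z.erase z) hc
      refine ⟨Fin.cons z a', Fin.cons b b', ?_, ?_, ?_⟩
      · intro i
        refine Fin.cases ?_ ?_ i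
        · simp only [Fin.cons_zero]
          exact Set.Ioo_subset_Ioo_left hza.le
        · intro j
          simp only [Fin.cons_succ]
          exact (h1 j).trans (Set.Ioo_subset_Ioo_right hzb.le)
      · intro i
        refine Fin.cases ?_ ?_ i
        · simp only [Fin.cons_zero]
          intro x hx hxZ
          have h4 := hmax x (Finset.mem_filter.2 ⟨hxZ, hza.trans hx.1, hx.2⟩)
          exact absurd hx.1 (not_lt.2 h4)
        · intro j
          simp only [Fin.cons_succ]
          intro x hx hxZ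
          have hxz : x < z := (h1 j hx).2
          exact h2 j x hx (Finset.mem_erase.2 ⟨hxz.ne, hxZ⟩)
      · intro x hx hxZ
        rcases lt_trichotomy x z with h | h | h
        · obtain ⟨j, hj⟩ := h3 x ⟨hx.1, h⟩ (fun h' => hxZ (Finset.mem_of_mem_erase h'))
          exact ⟨j.succ, by simpa only [Fin.cons_succ] using hj⟩
        · exact absurd (h ▸ hzZ) hxZ
        · refine ⟨0, ?_⟩
          simp only [Fin.cons_zero]
          exact ⟨h, hx.2⟩
    · refine ⟨fun _ => a, fun _ => b, fun _ => subset_rfl, ?_, fun _ hx _ => ⟨0, hx⟩⟩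
      intro i x hx hxZ
      exact hne ⟨x, Finset.mem_filter.2 ⟨hxZ, hx⟩⟩

end Pool.Agent.H39.HG
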