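import Mathlib

/-!
# Kovari, Sos and Turan with parameters

For `i ∈ W` put `d_i = #{q ∈ Q : i ∈ thr q}`, so `∑_q #(thr q) = ∑_{i ∈ W} d_i`. Double counting of the pairs
(`S ⊆ Q` with `#S = s`, `i ∈ W` with `i ∈ thr q` for all `q ∈ S`) gives
`∑_{i ∈ W} (d_i choose s) ≤ t (#Q choose s) ≤ t #Q ^ s` (`powersetCard`). Since
`(d + 1 - s) ^ s ≤ s! (d choose s)` (`Nat.pow_sub_le_descFactorial`, natural subtraction),
`∑_i x_i ^ s ≤ s! t #Q ^ s` with `x_i = d_i + 1 - s`. For `λ = #Q / a > 0` we have `x ≤ λ + x ^ s / λ ^ (s - 1)` for every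
`x ≥ 0` (if `x > λ` then `x ≤ x (x / λ) ^ (s - 1)`), hence
`∑ x_i ≤ #W #Q / a + s! t #Q a ^ (s - 1) ≤ (4 + s! t) #Q a ^ (s - 1)` as `#W ≤ 4 a ^ s`, and `d_i ≤ x_i + (s - 1)`.
So `C = 4 + s! t + 4 (s - 1)`. If `#Q = 0` the left side is `0`.
-/

set_option autoImplicit false

namespace Pool.Agent.H39.HG

open Finset
open scoped Classical

private lemma kst_elem (s : ℕ) (hs : 1 ≤ s) (l x : ℝ) (hl : 0 < l) (hx : 0 ≤ x) :
    x ≤ l + x ^ s / l ^ (s - 1) := by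
  obtain ⟨r, rfl⟩ : ∃ r, s = r + 1 := ⟨s - 1, by omega⟩
  rw [Nat.add_sub_cancel]
  rcases le_or_gt x l with h | h
  · have : 0 ≤ x ^ (r + 1) / l ^ r := by positivity
    linarith
  · have h1 : l ^ r ≤ x ^ r := pow_le_pow_left₀ hl.le h.le r
    have h2 : x ≤ x ^ (r + 1) / l ^ r := by
      rw [le_div_iff₀ (by positivity), pow_succ]
      nlinarith [h1, hx]
    linarith

private lemma kst_dc {α ι : Type} (s t : ℕ) (Q : Finset α) (W : Finset ι) (thr : α → Finset ι)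
    (h : ∀ S ⊆ Q, S.card = s → (W.filter fun i => ∀ q ∈ S, i ∈ thr q).card < t) :
    ∑ i ∈ W, ((Q.filter fun q => i ∈ thr q).card).choose s ≤ t * (Q.card).choose s := by
  have h1 : ∀ i ∈ W, ((Q.filter fun q => i ∈ thr q).card).choose s =
      ∑ S ∈ Q.powersetCard s, if (∀ q ∈ S, i ∈ thr q) then 1 else 0 := by
    intro i _
    rw [← Finset.card_powersetCard, ← Finset.card_filter]
    congr 1
    ext S
    simp only [Finset.mem_powersetCard, Finset.mem_filter]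
    constructor
    · rintro ⟨a, b⟩
      refine ⟨⟨fun q hq => (Finset.mem_filter.mp (a hq)).1, b⟩, fun q hq => (Finset.mem_filter.mp (a hq)).2⟩
    · rintro ⟨⟨a, b⟩, c⟩
      exact ⟨fun q hq => Finset.mem_filter.mpr ⟨a hq, c q hq⟩, b⟩
  rw [Finset.sum_congr rfl h1, Finset.sum_comm]
  have h2 : ∀ S ∈ Q.powersetCard s, (∑ i ∈ W, if (∀ q ∈ S, i ∈ thr q) then 1 else 0) ≤ t := by
    intro S hS
    rw [← Finset.card_filter]
    obtain ⟨a, b⟩ := Finset.mem_powersetCard.mp hS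
    exact (h S a b).le
  refine (Finset.sum_le_sum h2).trans ?_
  rw [Finset.sum_const, Finset.card_powersetCard, smul_eq_mul, mul_comm]

theorem kst_s (s t : ℕ) (hs : 1 ≤ s) : ∃ C : ℝ, 0 ≤ C ∧ ∀ (α ι : Type) (Q : Finset α)
    (W : Finset ι) (thr : α → Finset ι), (∀ q ∈ Q, thr q ⊆ W) →
    (∀ S ⊆ Q, S.card = s → (W.filter fun i => ∀ q ∈ S, i ∈ thr q).card < t) →
    ∀ a : ℕ, 1 ≤ a → W.card ≤ 4 * a ^ s →
    ((∑ q ∈ Q, (thr q).card : ℕ) : ℝ) ≤ C * (Q.card * (a : ℝ) ^ (s - 1) + (a : ℝ) ^ s) := by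
  refine ⟨4 + t + 4 * s, by positivity, ?_⟩
  intro α ι Q W thr hW hS a ha hWa
  rcases Nat.eq_zero_or_pos Q.card with hQ | hQ
  · have : Q = ∅ := Finset.card_eq_zero.mp hQ
    subst this
    simp only [Finset.sum_empty, Finset.card_empty, Nat.cast_zero]
    positivity
  -- the degrees
  set d : ι → ℕ := fun i => (Q.filter fun q => i ∈ thr q).card with hd
  have hsum : ∑ q ∈ Q, (thr q).card = ∑ i ∈ W, d i := by
    have h1 : ∀ q ∈ Q, (thr q).card = ∑ i ∈ W, if i ∈ thr q then 1 else 0 := by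
      intro q hq
      rw [← Finset.card_filter]
      congr 1
      ext i
      simp only [Finset.mem_filter]
      exact ⟨fun hi => ⟨hW q hq hi, hi⟩, fun hi => hi.2⟩
    rw [Finset.sum_congr rfl h1, Finset.sum_comm]
    refine Finset.sum_congr rfl fun i _ => ?_
    exact (Finset.card_filter (fun q => i ∈ thr q) Q).symm
  have hdc := kst_dc s t Q W thr hS
  -- powers
  have hpow : ∑ i ∈ W, (d i + 1 - s) ^ s ≤ t * Q.card ^ s := by
    calc ∑ i ∈ W, (d i + 1 - s) ^ s ≤ ∑ i ∈ W, (d i).descFactorial s :=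
          Finset.sum_le_sum fun i _ => Nat.pow_sub_le_descFactorial (d i) s
      _ = ∑ i ∈ W, s.factorial * (d i).choose s :=
          Finset.sum_congr rfl fun i _ => Nat.descFactorial_eq_factorial_mul_choose (d i) s
      _ = s.factorial * ∑ i ∈ W, (d i).choose s := by rw [Finset.mul_sum]
      _ ≤ s.factorial * (t * (Q.card).choose s) := Nat.mul_le_mul_left _ hdc
      _ = t * (Q.card).descFactorial s := by
          rw [Nat.descFactorial_eq_factorial_mul_choose]; ring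
      _ ≤ t * Q.card ^ s := Nat.mul_le_mul_left _ (Nat.descFactorial_le_pow _ _)
  have hpowR : ∑ i ∈ W, (((d i + 1 - s : ℕ) : ℝ)) ^ s ≤ t * (Q.card : ℝ) ^ s := by
    exact_mod_cast hpow
  have ha' : (0 : ℝ) < a := by exact_mod_cast ha
  have hQ' : (0 : ℝ) < Q.card := by exact_mod_cast hQ
  have hl : (0 : ℝ) < Q.card / a := by positivity
  have hWr : (W.card : ℝ) ≤ 4 * (a : ℝ) ^ s := by exact_mod_cast hWa
  have hx : ∑ i ∈ W, ((d i + 1 - s : ℕ) : ℝ) ≤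
      W.card * ((Q.card : ℝ) / a) + (t * (Q.card : ℝ) ^ s) / ((Q.card : ℝ) / a) ^ (s - 1) := by
    calc ∑ i ∈ W, ((d i + 1 - s : ℕ) : ℝ)
        ≤ ∑ i ∈ W, ((Q.card : ℝ) / a + ((d i + 1 - s : ℕ) : ℝ) ^ s / ((Q.card : ℝ) / a) ^ (s - 1)) :=
          Finset.sum_le_sum fun i _ => kst_elem s hs _ _ hl (Nat.cast_nonneg _)
      _ = W.card * ((Q.card : ℝ) / a) +
            (∑ i ∈ W, ((d i + 1 - s : ℕ) : ℝ) ^ s) / ((Q.card : ℝ) / a) ^ (s - 1) := by
          rw [Finset.sum_add_distrib, Finset.sum_const, nsmul_eq_mul, Finset.sum_div]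
      _ ≤ _ := by
          gcongr
  obtain ⟨r, rfl⟩ : ∃ r, s = r + 1 := ⟨s - 1, by omega⟩
  rw [Nat.add_sub_cancel] at hx ⊢
  have e1 : (t * (Q.card : ℝ) ^ (r + 1)) / ((Q.card : ℝ) / a) ^ r = t * (Q.card * (a : ℝ) ^ r) := by
    rw [div_pow, pow_succ]
    field_simp
  have e2 : (W.card : ℝ) * ((Q.card : ℝ) / a) ≤ 4 * (Q.card * (a : ℝ) ^ r) := by
    calc (W.card : ℝ) * ((Q.card : ℝ) / a) ≤ (4 * (a : ℝ) ^ (r + 1)) * ((Q.card : ℝ) / a) := by
          gcongr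
      _ = 4 * (Q.card * (a : ℝ) ^ r) := by
          rw [pow_succ]; field_simp
  have hdx : ∀ i ∈ W, (d i : ℝ) ≤ ((d i + 1 - (r + 1) : ℕ) : ℝ) + r := by
    intro i _
    have : d i ≤ (d i + 1 - (r + 1)) + r := by omega
    exact_mod_cast this
  rw [hsum]
  have hfin : ((∑ i ∈ W, d i : ℕ) : ℝ) ≤
      (∑ i ∈ W, ((d i + 1 - (r + 1) : ℕ) : ℝ)) + W.card * r := by
    rw [Nat.cast_sum]
    calc ∑ i ∈ W, (d i : ℝ) ≤ ∑ i ∈ W, (((d i + 1 - (r + 1) : ℕ) : ℝ) + r) := Finset.sum_le_sum hdx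
      _ = _ := by rw [Finset.sum_add_distrib, Finset.sum_const, nsmul_eq_mul]
  have e3 : (W.card : ℝ) * r ≤ 4 * r * (a : ℝ) ^ (r + 1) := by
    have := mul_le_mul_of_nonneg_right hWr (Nat.cast_nonneg (α := ℝ) r)
    linarith [this]
  rw [e1] at hx
  have p1 : (0 : ℝ) ≤ (Q.card : ℝ) * (a : ℝ) ^ r := by positivity
  have p2 : (0 : ℝ) ≤ (a : ℝ) ^ (r + 1) := by positivity
  have ht : (0 : ℝ) ≤ t := Nat.cast_nonneg _
  have hr : (0 : ℝ) ≤ r := Nat.cast_nonneg _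
  refine hfin.trans ?_
  refine (add_le_add hx e3).trans ?_
  refine (add_le_add_left (add_le_add_left e2 _) _).trans ?_
  push_cast
  nlinarith [mul_nonneg ht p2, mul_nonneg hr p1, mul_nonneg hr p2, mul_nonneg ht p1]

end Pool.Agent.H39.HG
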