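import Mathlib

/-!
# Points with a poor piece

Claim by induction on `i ≤ J`: for every `v`, the number of `x ∈ X` with `f x / 2 ^ i = v` which have a poor piece at some level `j ≤ i` is at most
`κ 2 ^ i`. If the piece `{y ∈ X : f y / 2 ^ i = v}` has less than `κ 2 ^ i` points, done. Otherwise (for `i = 0` the set is empty) the points in question
have a poor piece at some level `j ≤ i - 1` and `f x / 2 ^ (i - 1)` is `2 v` or `2 v + 1` (`Nat.div_div_eq_div_mul`): `2 κ 2 ^ (i - 1)`.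
At the level `J` there are at most `M` values `v = f x / 2 ^ J < M` (`Nat.div_lt_of_lt_mul`).
-/

set_option autoImplicit false

namespace Pool.Agent.H39.HG

open Finset
open scoped Classical

private lemma Bad_step {α : Type} (X : Finset α) (f : α → ℕ) (κ : ℝ) (hκ : 0 ≤ κ) (i : ℕ) :
    ∀ v : ℕ, ((X.filter fun x => f x / 2 ^ i = v ∧ ∃ j ≤ i,
      ((X.filter fun y => f y / 2 ^ j = f x / 2 ^ j).card : ℝ) < κ * 2 ^ j).card : ℝ) ≤
      κ * 2 ^ i := by
  induction i with
  | zero =>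
    intro v
    by_cases h : ((X.filter fun y => f y / 2 ^ 0 = v).card : ℝ) < κ * 2 ^ 0
    · refine le_trans ?_ h.le
      have h1 := card_le_card (s := X.filter fun x => f x / 2 ^ 0 = v ∧ ∃ j ≤ 0,
          ((X.filter fun y => f y / 2 ^ j = f x / 2 ^ j).card : ℝ) < κ * 2 ^ j)
        (t := X.filter fun y => f y / 2 ^ 0 = v) (fun x hx => by
          rw [mem_filter] at hx ⊢
          exact ⟨hx.1, hx.2.1⟩)
      exact_mod_cast h1
    · have h0 : (X.filter fun x => f x / 2 ^ 0 = v ∧ ∃ j ≤ 0,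
          ((X.filter fun y => f y / 2 ^ j = f x / 2 ^ j).card : ℝ) < κ * 2 ^ j) = ∅ := by
        rw [filter_eq_empty_iff]
        rintro x _ ⟨h1, j, hj, h2⟩
        obtain rfl : j = 0 := by omega
        rw [h1] at h2
        exact h h2
      rw [h0]
      simpa using hκ
  | succ i ih =>
    intro v
    by_cases h : ((X.filter fun y => f y / 2 ^ (i + 1) = v).card : ℝ) < κ * 2 ^ (i + 1)
    · refine le_trans ?_ h.le
      have h1 := card_le_card (s := X.filter fun x => f x / 2 ^ (i + 1) = v ∧ ∃ j ≤ i + 1,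
          ((X.filter fun y => f y / 2 ^ j = f x / 2 ^ j).card : ℝ) < κ * 2 ^ j)
        (t := X.filter fun y => f y / 2 ^ (i + 1) = v) (fun x hx => by
          rw [mem_filter] at hx ⊢
          exact ⟨hx.1, hx.2.1⟩)
      exact_mod_cast h1
    · have hsub : (X.filter fun x => f x / 2 ^ (i + 1) = v ∧ ∃ j ≤ i + 1,
          ((X.filter fun y => f y / 2 ^ j = f x / 2 ^ j).card : ℝ) < κ * 2 ^ j) ⊆
          (X.filter fun x => f x / 2 ^ i = 2 * v ∧ ∃ j ≤ i,
            ((X.filter fun y => f y / 2 ^ j = f x / 2 ^ j).card : ℝ) < κ * 2 ^ j) ∪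
          (X.filter fun x => f x / 2 ^ i = 2 * v + 1 ∧ ∃ j ≤ i,
            ((X.filter fun y => f y / 2 ^ j = f x / 2 ^ j).card : ℝ) < κ * 2 ^ j) := by
        intro x hx
        rw [mem_filter] at hx
        obtain ⟨hxX, h1, j, hj, h2⟩ := hx
        have hji : j ≤ i := by
          rcases Nat.lt_or_ge i j with h3 | h3
          · obtain rfl : j = i + 1 := by omega
            rw [h1] at h2
            exact absurd h2 h
          · exact h3
        have h4 : f x / 2 ^ i / 2 = v := by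
          rw [Nat.div_div_eq_div_mul, ← pow_succ]
          exact h1
        rw [mem_union, mem_filter, mem_filter]
        have h5 : f x / 2 ^ i = 2 * v ∨ f x / 2 ^ i = 2 * v + 1 := by omega
        rcases h5 with h5 | h5
        · exact Or.inl ⟨hxX, h5, j, hji, h2⟩
        · exact Or.inr ⟨hxX, h5, j, hji, h2⟩
      have h6 := (card_le_card hsub).trans (card_union_le _ _)
      have h7 : ((X.filter fun x => f x / 2 ^ (i + 1) = v ∧ ∃ j ≤ i + 1,
          ((X.filter fun y => f y / 2 ^ j = f x / 2 ^ j).card : ℝ) < κ * 2 ^ j).card : ℝ) ≤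
          ((X.filter fun x => f x / 2 ^ i = 2 * v ∧ ∃ j ≤ i,
            ((X.filter fun y => f y / 2 ^ j = f x / 2 ^ j).card : ℝ) < κ * 2 ^ j).card : ℝ) +
          ((X.filter fun x => f x / 2 ^ i = 2 * v + 1 ∧ ∃ j ≤ i,
            ((X.filter fun y => f y / 2 ^ j = f x / 2 ^ j).card : ℝ) < κ * 2 ^ j).card : ℝ) := by
        exact_mod_cast h6
      have h8 := ih (2 * v)
      have h9 := ih (2 * v + 1)
      have h10 : κ * 2 ^ (i + 1) = κ * 2 ^ i + κ * 2 ^ i := by ring
      rw [h10]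
      linarith

theorem bad_card {α : Type} (X : Finset α) (f : α → ℕ) (J M : ℕ)
    (hf : ∀ x ∈ X, f x < M * 2 ^ J) (κ : ℝ) (hκ : 0 ≤ κ) :
    ((X.filter fun x => ∃ j ≤ J,
      ((X.filter fun y => f y / 2 ^ j = f x / 2 ^ j).card : ℝ) < κ * 2 ^ j).card : ℝ) ≤
      M * (κ * 2 ^ J) := by
  have hsub : (X.filter fun x => ∃ j ≤ J,
      ((X.filter fun y => f y / 2 ^ j = f x / 2 ^ j).card : ℝ) < κ * 2 ^ j) ⊆
      (range M).biUnion fun v => X.filter fun x => f x / 2 ^ J = v ∧ ∃ j ≤ J,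
        ((X.filter fun y => f y / 2 ^ j = f x / 2 ^ j).card : ℝ) < κ * 2 ^ j := by
    intro x hx
    rw [mem_filter] at hx
    rw [mem_biUnion]
    refine ⟨f x / 2 ^ J, ?_, ?_⟩
    · rw [mem_range]
      exact Nat.div_lt_of_lt_mul (by rw [mul_comm]; exact hf x hx.1)
    · rw [mem_filter]
      exact ⟨hx.1, rfl, hx.2⟩
  have h1 := (card_le_card hsub).trans card_biUnion_le
  have h2 : ((X.filter fun x => ∃ j ≤ J,
      ((X.filter fun y => f y / 2 ^ j = f x / 2 ^ j).card : ℝ) < κ * 2 ^ j).card : ℝ) ≤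
      ∑ v ∈ range M, ((X.filter fun x => f x / 2 ^ J = v ∧ ∃ j ≤ J,
        ((X.filter fun y => f y / 2 ^ j = f x / 2 ^ j).card : ℝ) < κ * 2 ^ j).card : ℝ) := by
    exact_mod_cast h1
  refine h2.trans ?_
  calc ∑ v ∈ range M, ((X.filter fun x => f x / 2 ^ J = v ∧ ∃ j ≤ J,
        ((X.filter fun y => f y / 2 ^ j = f x / 2 ^ j).card : ℝ) < κ * 2 ^ j).card : ℝ)
      ≤ ∑ _v ∈ range M, κ * 2 ^ J := sum_le_sum fun v _ => Bad_step X f κ hκ J v
    _ = M * (κ * 2 ^ J) := by rw [sum_const, card_range, nsmul_eq_mul]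

end Pool.Agent.H39.HG
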