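import Mathlib

/-!
# The crossing scale

Take the largest `j < J` with `C 8 ^ j ≤ t j` (`j = 0` is possible; `0 < J` since `C ≤ t 0` and `t J < C 8 ^ J`), or induction on `J`.
-/

set_option autoImplicit false

namespace Pool.Agent.H39.HG

open Finset
open scoped Classical

theorem crossing (t : ℕ → ℝ) (C : ℝ) (J : ℕ) (h0 : C ≤ t 0) (hJ : t J < C * 8 ^ J) :
    ∃ j < J, C * 8 ^ j ≤ t j ∧ t (j + 1) < C * 8 ^ (j + 1) := by
  have hex : ∃ j, t j < C * 8 ^ j := ⟨J, hJ⟩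
  have h1 := Nat.find_spec hex
  have h2 : Nat.find hex ≤ J := Nat.find_min' hex hJ
  have h3 : Nat.find hex ≠ 0 := by
    intro h
    rw [h, pow_zero, mul_one] at h1
    linarith
  obtain ⟨j, hj⟩ := Nat.exists_eq_succ_of_ne_zero h3
  have h4 : ¬ t j < C * 8 ^ j := Nat.find_min hex (by omega)
  refine ⟨j, by omega, not_lt.1 h4, ?_⟩
  rw [hj] at h1
  exact h1

theorem top_level (n : ℕ) (hn : 1 ≤ n) : ∃ J : ℕ, J < n + 1 ∧
    (2 : ℝ) ^ J ≤ (n : ℝ) ^ (1 / 3 : ℝ) ∧ (n : ℝ) ^ (1 / 3 : ℝ) < 2 ^ (J + 1) := by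
  have hn1 : (1 : ℝ) ≤ n := by exact_mod_cast hn
  have h1 : (1 : ℝ) ≤ (n : ℝ) ^ (1 / 3 : ℝ) := Real.one_le_rpow hn1 (by norm_num)
  obtain ⟨J, h2, h3⟩ := exists_nat_pow_near h1 (by norm_num : (1 : ℝ) < 2)
  refine ⟨J, ?_, h2, h3⟩
  have h4 : (n : ℝ) ^ (1 / 3 : ℝ) ≤ n := by
    calc (n : ℝ) ^ (1 / 3 : ℝ) ≤ (n : ℝ) ^ (1 : ℝ) :=
          Real.rpow_le_rpow_of_exponent_le hn1 (by norm_num)
      _ = n := Real.rpow_one _
  have h5 : ((2 ^ J : ℕ) : ℝ) ≤ (n : ℝ) := by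
    push_cast
    exact h2.trans h4
  have h6 : 2 ^ J ≤ n := by exact_mod_cast h5
  have h7 : J < 2 ^ J := Nat.lt_two_pow_self
  omega

end Pool.Agent.H39.HG
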