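import Pool.Agent.H39.HG.Defs

/-!
# Inclusions of tubes

For a point `(X, Y)` of `P`: `Y - y - m' (X - x) = (Y - yp - m (X - xp)) - (y - yp - m (x - xp)) - (m' - m) (X - x)`.
First inclusion: `3 d ^ 2 + d ^ 2 + d * 3 d = 7 d ^ 2`. Second: `7 d ^ 2 + d ^ 2 + 3 d ^ 2 = 11 d ^ 2`.
-/

set_option autoImplicit false

namespace Pool.Agent.H39.HG

open Finset
open scoped Classical

private theorem tubS_mem {P : Finset (ℝ × ℝ)} {a w x y m : ℝ} {p : ℝ × ℝ} :
    p ∈ tub P a w x y m ↔ p ∈ P ∧ |p.1 - x| ≤ a ∧ |p.2 - y - m * (p.1 - x)| ≤ w := by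
  unfold tub
  rw [Finset.mem_filter]

theorem tub_sub (P : Finset (ℝ × ℝ)) (d xp yp m x y m' : ℝ) (hx : |x - xp| ≤ d)
    (hm : |m' - m| ≤ d) (hy : |y - yp - m * (x - xp)| ≤ d ^ 2) :
    tub P (2 * d) (3 * d ^ 2) xp yp m ⊆ tub P (3 * d) (7 * d ^ 2) x y m' ∧
    tub P (3 * d) (7 * d ^ 2) x y m' ⊆ tub P (4 * d) (12 * d ^ 2) xp yp m := by
  have hd : 0 ≤ d := le_trans (abs_nonneg _) hx
  refine ⟨?_, ?_⟩
  · intro p hp
    rw [tubS_mem] at hp ⊢
    obtain ⟨h0, h1, h2⟩ := hp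
    have h3 : |p.1 - x| ≤ 3 * d := by
      have e : p.1 - x = (p.1 - xp) - (x - xp) := by ring
      rw [e]
      refine le_trans (abs_sub _ _) ?_
      linarith
    have h4 : |(m' - m) * (p.1 - x)| ≤ d * (3 * d) := by
      rw [abs_mul]
      exact mul_le_mul hm h3 (abs_nonneg _) hd
    refine ⟨h0, h3, ?_⟩
    have e : p.2 - y - m' * (p.1 - x) = (p.2 - yp - m * (p.1 - xp)) - (y - yp - m * (x - xp)) -
        (m' - m) * (p.1 - x) := by ring
    rw [e]
    refine le_trans (abs_sub _ _) ?_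
    have h5 := abs_sub (p.2 - yp - m * (p.1 - xp)) (y - yp - m * (x - xp))
    nlinarith
  · intro p hp
    rw [tubS_mem] at hp ⊢
    obtain ⟨h0, h1, h2⟩ := hp
    have h3 : |p.1 - xp| ≤ 4 * d := by
      have e : p.1 - xp = (p.1 - x) + (x - xp) := by ring
      rw [e]
      refine le_trans (abs_add_le _ _) ?_
      linarith
    have h4 : |(m' - m) * (p.1 - x)| ≤ d * (3 * d) := by
      rw [abs_mul]
      exact mul_le_mul hm h1 (abs_nonneg _) hd
    refine ⟨h0, h3, ?_⟩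
    have e : p.2 - yp - m * (p.1 - xp) = (p.2 - y - m' * (p.1 - x)) + (y - yp - m * (x - xp)) +
        (m' - m) * (p.1 - x) := by ring
    rw [e]
    refine le_trans (abs_add_le _ _) ?_
    have h5 := abs_add_le (p.2 - y - m' * (p.1 - x)) (y - yp - m * (x - xp))
    nlinarith [sq_nonneg d]

end Pool.Agent.H39.HG
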