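import Mathlib

/-!
# Choice of the parameter in the theorem of Pach and Sharir

If `m = 0`: the case `a = 1` is not enough, so `m = 0 → I = 0` is a hypothesis. Let `R = 4 C I / κ ^ 2` and let `a` be the least
natural number `≥ 1` with `a ^ s ≥ R` (`Nat.find`). `N ≤ I / κ`, so `C N ≤ I / 8` if `κ ≥ 8 C`, and
`C N ^ 2 / a ^ s ≤ C I ^ 2 / (κ ^ 2 R) = I / 4` (if `I > 0`). If `a = 1` then `I / 2 ≤ C (m + 1) ≤ 2 C m`.
If `a ≥ 2` then `(a - 1) ^ s < R`, `a ^ s ≤ 2 ^ s (a - 1) ^ s ≤ 2 ^ s R`, so `C a ^ s ≤ 2 ^ s 4 C ^ 2 I / κ ^ 2 ≤ I / 8` if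
`κ ^ 2 ≥ 2 ^ s 32 C ^ 2`; hence `I / 4 ≤ C m a ^ (s - 1)`,
`I ^ s ≤ (4 C m) ^ s (a ^ s) ^ (s - 1) ≤ (4 C m) ^ s (2 ^ s 4 C I / κ ^ 2) ^ (s - 1)`, and dividing by `I ^ (s - 1)`,
`I κ ^ (2 s - 2) ≤ (4 C) ^ s (2 ^ s 4 C) ^ (s - 1) m ^ s`. (Take `C ≥ 1` without loss of generality.)
-/

set_option autoImplicit false

namespace Pool.Agent.H39.HG

open Finset
open scoped Classical

theorem opt (s : ℕ) (C : ℝ) (hs : 2 ≤ s) (hC : 0 ≤ C) : ∃ C' κ0 : ℝ, 1 ≤ C' ∧ 1 ≤ κ0 ∧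
    ∀ (I N κ : ℝ) (m : ℕ), 0 ≤ I → 0 ≤ N → κ0 ≤ κ → N * κ ≤ I → (m = 0 → I = 0) →
    (∀ a : ℕ, 1 ≤ a → I ≤ C * (m * (a : ℝ) ^ (s - 1) + N + (a : ℝ) ^ s + N ^ 2 / (a : ℝ) ^ s)) →
    I * κ ^ (2 * s - 2) ≤ C' * ((m : ℝ) ^ s + m * κ ^ (2 * s - 2)) := by
  obtain ⟨t, rfl⟩ : ∃ t, s = t + 1 := ⟨s - 1, by omega⟩
  set D : ℝ := max C 1 with hD
  have hD1 : 1 ≤ D := le_max_right _ _
  have hCD : C ≤ D := le_max_left _ _
  have hD0 : 0 < D := by linarith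
  set K : ℝ := (4 * D) ^ (t + 1) * (2 ^ (t + 1) * (4 * D)) ^ t with hK
  have hK0 : 0 < K := by positivity
  have h2 : (2 : ℝ) ≤ 2 ^ (t + 1) := by
    calc (2 : ℝ) = 2 ^ 1 := by norm_num
      _ ≤ 2 ^ (t + 1) := pow_le_pow_right₀ (by norm_num) (by omega)
  have h3 : D ≤ D ^ 2 := by nlinarith
  have h64 : 64 * D ≤ 2 ^ (t + 1) * 32 * D ^ 2 := by
    have h : 2 * D ≤ 2 ^ (t + 1) * D ^ 2 := mul_le_mul h2 h3 hD0.le (by positivity)
    linarith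
  refine ⟨K + 8 * D, 2 ^ (t + 1) * 32 * D ^ 2, by linarith, by linarith, ?_⟩
  intro I N κ m hI hN hκ hNκ hm hyp
  simp only [Nat.add_sub_cancel] at hyp
  have e1 : 2 * (t + 1) - 2 = 2 * t := by omega
  rw [e1]
  have hκ8 : 8 * D ≤ κ := by linarith
  have hκ1 : 1 ≤ κ := by linarith
  have hκ0 : 0 < κ := by linarith
  have hκ2 : 2 ^ (t + 1) * 32 * D ^ 2 ≤ κ ^ 2 := by nlinarith
  rcases hI.eq_or_lt with rfl | hI'
  · rw [zero_mul]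
    positivity
  have hm1 : 1 ≤ m := by
    rcases Nat.eq_zero_or_pos m with h | h
    · exact absurd (hm h) hI'.ne'
    · exact h
  have hm1' : (1 : ℝ) ≤ m := by exact_mod_cast hm1
  set R : ℝ := 4 * D * I / κ ^ 2 with hR
  have hR0 : 0 < R := by positivity
  have hex : ∃ a : ℕ, 1 ≤ a ∧ R ≤ (a : ℝ) ^ (t + 1) := by
    obtain ⟨n, hn⟩ := exists_nat_ge R
    refine ⟨n + 1, by omega, ?_⟩
    have h4 : (1 : ℝ) ≤ ((n + 1 : ℕ) : ℝ) := by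
      push_cast
      linarith [Nat.cast_nonneg (α := ℝ) n]
    calc R ≤ (n : ℝ) := hn
      _ ≤ ((n + 1 : ℕ) : ℝ) := by
        push_cast
        linarith
      _ = ((n + 1 : ℕ) : ℝ) ^ 1 := (pow_one _).symm
      _ ≤ _ := pow_le_pow_right₀ h4 (by omega)
  obtain ⟨a, ⟨ha1, haR⟩, hmin⟩ : ∃ a : ℕ, (1 ≤ a ∧ R ≤ (a : ℝ) ^ (t + 1)) ∧
      ∀ b < a, ¬ (1 ≤ b ∧ R ≤ (b : ℝ) ^ (t + 1)) :=
    ⟨Nat.find hex, Nat.find_spec hex, fun b hb => Nat.find_min hex hb⟩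
  have ha0 : (0 : ℝ) < a := by exact_mod_cast ha1
  have hap : (0 : ℝ) < (a : ℝ) ^ (t + 1) := by positivity
  have h5 : D * N ≤ I / 8 := by nlinarith
  have h6 : D * (N ^ 2 / (a : ℝ) ^ (t + 1)) ≤ I / 4 := by
    have h7 : (N * κ) ^ 2 ≤ I ^ 2 := pow_le_pow_left₀ (by positivity) hNκ 2
    have h8 : N ^ 2 / (a : ℝ) ^ (t + 1) ≤ N ^ 2 / R :=
      div_le_div_of_nonneg_left (by positivity) hR0 haR
    have h9 : N ^ 2 / R = (N * κ) ^ 2 / (4 * D * I) := by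
      rw [hR]
      field_simp
    have h10 : (N * κ) ^ 2 / (4 * D * I) ≤ I ^ 2 / (4 * D * I) := by gcongr
    have h11 : I ^ 2 / (4 * D * I) = I / (4 * D) := by field_simp
    calc D * (N ^ 2 / (a : ℝ) ^ (t + 1)) ≤ D * (I / (4 * D)) :=
          mul_le_mul_of_nonneg_left (by linarith) hD0.le
      _ = I / 4 := by field_simp
  have h12 : I ≤ D * ((m : ℝ) * (a : ℝ) ^ t) + D * N + D * (a : ℝ) ^ (t + 1) +
      D * (N ^ 2 / (a : ℝ) ^ (t + 1)) := by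
    have h := hyp a ha1
    have hX : 0 ≤ (m : ℝ) * (a : ℝ) ^ t + N + (a : ℝ) ^ (t + 1) + N ^ 2 / (a : ℝ) ^ (t + 1) := by
      positivity
    calc I ≤ _ := h
      _ ≤ D * ((m : ℝ) * (a : ℝ) ^ t + N + (a : ℝ) ^ (t + 1) + N ^ 2 / (a : ℝ) ^ (t + 1)) :=
        mul_le_mul_of_nonneg_right hCD hX
      _ = _ := by ring
  have hA : 0 ≤ (m : ℝ) ^ (t + 1) := by positivity
  have hB : 0 ≤ (m : ℝ) * κ ^ (2 * t) := by positivity
  have hKA := mul_nonneg hK0.le hA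
  have hKB := mul_nonneg hK0.le hB
  have hDA := mul_nonneg hD0.le hA
  have hDB := mul_nonneg hD0.le hB
  have hb : a = 1 ∨ 2 ≤ a := by omega
  rcases hb with rfl | hb
  · simp only [Nat.cast_one, one_pow, mul_one, div_one] at h12 h6
    have h13 : D ≤ D * m := le_mul_of_one_le_right hD0.le hm1'
    have h14 : I ≤ 4 * D * m := by linarith
    calc I * κ ^ (2 * t) ≤ (4 * D * m) * κ ^ (2 * t) := by gcongr
      _ ≤ _ := by nlinarith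
  · have h13 : ((a - 1 : ℕ) : ℝ) ^ (t + 1) < R := by
      by_contra h
      exact hmin (a - 1) (by omega) ⟨by omega, not_lt.1 h⟩
    have h14 : (a : ℝ) ≤ 2 * ((a - 1 : ℕ) : ℝ) := by
      rw [Nat.cast_sub (by omega)]
      have : (2 : ℝ) ≤ a := by exact_mod_cast hb
      push_cast
      linarith
    have h15 : (a : ℝ) ^ (t + 1) ≤ 2 ^ (t + 1) * R := by
      calc (a : ℝ) ^ (t + 1) ≤ (2 * ((a - 1 : ℕ) : ℝ)) ^ (t + 1) := by gcongr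
        _ = 2 ^ (t + 1) * ((a - 1 : ℕ) : ℝ) ^ (t + 1) := mul_pow _ _ _
        _ ≤ 2 ^ (t + 1) * R := by gcongr
    have h16 : D * (a : ℝ) ^ (t + 1) ≤ I / 8 := by
      have h : D * (2 ^ (t + 1) * R) ≤ I / 8 := by
        have e : D * (2 ^ (t + 1) * (4 * D * I / κ ^ 2)) =
            (2 ^ (t + 1) * 32 * D ^ 2) * (I / (8 * κ ^ 2)) := by
          field_simp
          ring
        rw [hR, e]
        calc (2 ^ (t + 1) * 32 * D ^ 2) * (I / (8 * κ ^ 2)) ≤ κ ^ 2 * (I / (8 * κ ^ 2)) := by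
              gcongr
          _ = I / 8 := by field_simp
      exact (mul_le_mul_of_nonneg_left h15 hD0.le).trans h
    have h17 : I ≤ 4 * D * m * (a : ℝ) ^ t := by
      have h0 : 0 ≤ D * ((m : ℝ) * (a : ℝ) ^ t) := by positivity
      have e : 4 * D * m * (a : ℝ) ^ t = 4 * (D * ((m : ℝ) * (a : ℝ) ^ t)) := by ring
      rw [e]
      linarith
    have h18 : I ^ (t + 1) ≤ (4 * D * m) ^ (t + 1) * (2 ^ (t + 1) * R) ^ t := by
      calc I ^ (t + 1) ≤ (4 * D * m * (a : ℝ) ^ t) ^ (t + 1) := pow_le_pow_left₀ hI'.le h17 _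
        _ = (4 * D * m) ^ (t + 1) * ((a : ℝ) ^ (t + 1)) ^ t := by
          rw [mul_pow, ← pow_mul, ← pow_mul, mul_comm t (t + 1)]
        _ ≤ _ := by gcongr
    have h19 : (4 * D * m) ^ (t + 1) * (2 ^ (t + 1) * R) ^ t =
        K * (m : ℝ) ^ (t + 1) * (I ^ t / κ ^ (2 * t)) := by
      have h : (2 ^ (t + 1) * R) ^ t = (2 ^ (t + 1) * (4 * D)) ^ t * (I ^ t / κ ^ (2 * t)) := by
        rw [hR, show 2 ^ (t + 1) * (4 * D * I / κ ^ 2) = (2 ^ (t + 1) * (4 * D)) * (I / κ ^ 2) by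
          ring, mul_pow, div_pow, ← pow_mul]
      rw [h, mul_pow (4 * D) (m : ℝ), hK]
      ring
    have h20 : I * κ ^ (2 * t) ≤ K * (m : ℝ) ^ (t + 1) := by
      rw [h19] at h18
      have h : I ^ t * (I * κ ^ (2 * t)) ≤ I ^ t * (K * (m : ℝ) ^ (t + 1)) := by
        calc I ^ t * (I * κ ^ (2 * t)) = I ^ (t + 1) * κ ^ (2 * t) := by ring
          _ ≤ (K * (m : ℝ) ^ (t + 1) * (I ^ t / κ ^ (2 * t))) * κ ^ (2 * t) := by gcongr
          _ = I ^ t * (K * (m : ℝ) ^ (t + 1)) := by field_simp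
      exact le_of_mul_le_mul_left h (by positivity)
    nlinarith

end Pool.Agent.H39.HG
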