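import Pool.Agent.H19.RD.Hole

/-!
# Derivative of an implicit function

Fix `x ∈ Ioo a b`, `y = φ x`, `A = eval ![x, y] (pderiv 0 f)`, `B = eval ![x, y] (pderiv 1 f) ≠ 0`. For `x'` near `x`, `y' = φ x'`:
`0 = f (x', y') - f (x, y) = (f (x', y') - f (x, y')) + (f (x, y') - f (x, y)) = f_x (ξ, y') (x' - x) + f_y (x, η) (y' - y)`
with `ξ` between `x`, `x'` and `η` between `y`, `y'` (mean value theorem; `Pool.Agent.H19.RD.hasDerivAt_line` for the second
variable, and the same statement for the first variable, to be proved in the same way or by differentiating a polynomial).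
As `x' → x`: `y' → y` by continuity, `f_x (ξ, y') → A`, `f_y (x, η) → B` (`Pool.Agent.H19.RD.cont_eval`), so the slope
`(y' - y) / (x' - x) = - f_x (ξ, y') / f_y (x, η)` tends to `- A / B` (`hasDerivAt_iff_tendsto_slope`). Or: `f` as a function on
`ℝ × ℝ` is `C^1`, `HasStrictFDerivAt` or `HasFDerivAt` with little o: `A (x' - x) + B (y' - y) = o(|x' - x| + |y' - y|)`.
-/

set_option autoImplicit false

namespace Pool.Agent.H39.HG

open Finset MvPolynomial
open scoped Classical

theorem hasDerivAt_fst (f : MvPolynomial (Fin 2) ℝ) (x y : ℝ) :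
    HasDerivAt (fun t => eval ![t, y] f) (eval ![x, y] (pderiv 0 f)) x := by
  induction f using MvPolynomial.induction_on with
  | C a =>
    simp only [eval_C, pderiv_C, map_zero]
    exact hasDerivAt_const x a
  | add p q hp hq =>
    simp only [map_add]
    exact hp.add hq
  | mul_X p i hp =>
    have h1 : HasDerivAt (fun t : ℝ => (![t, y] : Fin 2 → ℝ) i) (eval ![x, y] (pderiv 0 (X i : MvPolynomial (Fin 2) ℝ))) x := by
      fin_cases i
      · simp only [Fin.zero_eta, Matrix.cons_val_zero, pderiv_X_self, map_one]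
        exact hasDerivAt_id x
      · have h2 : pderiv (0 : Fin 2) (X (1 : Fin 2) : MvPolynomial (Fin 2) ℝ) = 0 :=
          pderiv_X_of_ne (by decide)
        simp only [Fin.mk_one, Matrix.cons_val_one, h2, map_zero]
        exact hasDerivAt_const x _
    have h2 := hp.mul h1
    have h3 : eval ![x, y] (pderiv 0 (p * X i)) =
        eval ![x, y] (pderiv 0 p) * (![x, y] : Fin 2 → ℝ) i +
          eval ![x, y] p * eval ![x, y] (pderiv 0 (X i : MvPolynomial (Fin 2) ℝ)) := by
      rw [pderiv_mul, map_add, map_mul, map_mul, eval_X]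
    rw [h3]
    refine h2.congr_of_eventuallyEq (Filter.Eventually.of_forall fun t => ?_)
    change eval ![t, y] (p * X i) = eval ![t, y] p * (![t, y] : Fin 2 → ℝ) i
    rw [map_mul, eval_X]

/-- mean value theorem without order -/
private lemma imp_mvt {g g' : ℝ → ℝ} (hg : ∀ t, HasDerivAt g (g' t) t) (s t : ℝ) :
    ∃ ξ, |ξ - s| ≤ |t - s| ∧ g t - g s = g' ξ * (t - s) := by
  have hc : Continuous g := continuous_iff_continuousAt.2 fun t => (hg t).continuousAt
  rcases lt_trichotomy s t with h | h | h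
  · obtain ⟨ξ, hξ, h1⟩ := exists_hasDerivAt_eq_slope g g' h hc.continuousOn fun x _ => hg x
    refine ⟨ξ, ?_, ?_⟩
    · rw [abs_of_pos (by linarith [hξ.1]), abs_of_pos (by linarith)]
      linarith [hξ.2]
    · rw [h1]
      have : t - s ≠ 0 := by linarith
      field_simp
  · subst h
    exact ⟨s, by simp, by simp⟩
  · obtain ⟨ξ, hξ, h1⟩ := exists_hasDerivAt_eq_slope g g' h hc.continuousOn fun x _ => hg x
    refine ⟨ξ, ?_, ?_⟩
    · rw [abs_of_neg (by linarith [hξ.2]), abs_of_neg (by linarith)]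
      linarith [hξ.1]
    · rw [h1]
      have : s - t ≠ 0 := by linarith
      field_simp
      ring

/-- the analytic part, for functions -/
private lemma imp_main {F A B : ℝ → ℝ → ℝ} (hFA : ∀ s t, HasDerivAt (fun u => F u t) (A s t) s)
    (hFB : ∀ s t, HasDerivAt (fun u => F s u) (B s t) t) (hA : Continuous fun q : ℝ × ℝ => A q.1 q.2)
    (hB : Continuous fun q : ℝ × ℝ => B q.1 q.2) {φ : ℝ → ℝ} {a b x : ℝ} (hx : x ∈ Set.Ioo a b)
    (hφx : ContinuousAt φ x) (h0 : ∀ x ∈ Set.Ioo a b, F x (φ x) = 0) (h1 : B x (φ x) ≠ 0) :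
    HasDerivAt φ (-(A x (φ x)) / B x (φ x)) x := by
  have key : ∀ x' : ℝ, ∃ ξ η : ℝ, |ξ - x| ≤ |x' - x| ∧ |η - φ x| ≤ |φ x' - φ x| ∧
      F x' (φ x') - F x (φ x) = A ξ (φ x') * (x' - x) + B x η * (φ x' - φ x) := by
    intro x'
    obtain ⟨ξ, hξ, e1⟩ := imp_mvt (g := fun t => F t (φ x')) (g' := fun t => A t (φ x'))
      (fun t => hFA t (φ x')) x x'
    obtain ⟨η, hη, e2⟩ := imp_mvt (g := fun t => F x t) (g' := fun t => B x t)
      (fun t => hFB x t) (φ x) (φ x')
    refine ⟨ξ, η, hξ, hη, ?_⟩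
    have e1' : F x' (φ x') - F x (φ x') = A ξ (φ x') * (x' - x) := e1
    have e2' : F x (φ x') - F x (φ x) = B x η * (φ x' - φ x) := e2
    linarith
  choose ξ η hξ hη hkey using key
  have tξ : Filter.Tendsto ξ (nhds x) (nhds x) := by
    rw [tendsto_iff_norm_sub_tendsto_zero]
    refine squeeze_zero (fun _ => norm_nonneg _) (fun x' => hξ x') ?_
    have h2 : Filter.Tendsto (fun x' : ℝ => |x' - x|) (nhds x) (nhds |x - x|) :=
      ((continuous_id.sub continuous_const).abs).tendsto x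
    rwa [sub_self, abs_zero] at h2
  have tφ : Filter.Tendsto φ (nhds x) (nhds (φ x)) := hφx
  have tη : Filter.Tendsto η (nhds x) (nhds (φ x)) := by
    rw [tendsto_iff_norm_sub_tendsto_zero]
    refine squeeze_zero (fun _ => norm_nonneg _) (fun x' => hη x') ?_
    have h2 : Filter.Tendsto (fun x' : ℝ => |φ x' - φ x|) (nhds x) (nhds |φ x - φ x|) :=
      (tφ.sub_const (φ x)).abs
    rwa [sub_self, abs_zero] at h2
  have tA : Filter.Tendsto (fun x' => A (ξ x') (φ x')) (nhds x) (nhds (A x (φ x))) :=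
    (hA.tendsto (x, φ x)).comp (tξ.prodMk_nhds tφ)
  have tB : Filter.Tendsto (fun x' => B x (η x')) (nhds x) (nhds (B x (φ x))) :=
    (hB.tendsto (x, φ x)).comp (tendsto_const_nhds.prodMk_nhds tη)
  rw [hasDerivAt_iff_tendsto_slope]
  have tq := (tA.neg.div tB h1).mono_left (nhdsWithin_le_nhds (s := {x}ᶜ))
  refine tq.congr' ?_
  have hev1 : ∀ᶠ x' in nhds x, B x (η x') ≠ 0 := tB.eventually_ne h1
  have hev2 : ∀ᶠ x' in nhds x, x' ∈ Set.Ioo a b := Ioo_mem_nhds hx.1 hx.2
  filter_upwards [nhdsWithin_le_nhds hev1, nhdsWithin_le_nhds hev2, self_mem_nhdsWithin] with x' e1 e2 e3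
  have e3' : x' - x ≠ 0 := sub_ne_zero.2 e3
  have e4 := hkey x'
  rw [h0 x' e2, h0 x hx, sub_zero] at e4
  rw [slope_def_field]
  change -(A (ξ x') (φ x')) / B x (η x') = (φ x' - φ x) / (x' - x)
  rw [div_eq_div_iff e1 e3']
  linear_combination e4

theorem hasDeriv_imp (f : MvPolynomial (Fin 2) ℝ) (φ : ℝ → ℝ) (a b : ℝ)
    (hφ : ContinuousOn φ (Set.Ioo a b)) (h0 : ∀ x ∈ Set.Ioo a b, eval ![x, φ x] f = 0)
    (h1 : ∀ x ∈ Set.Ioo a b, eval ![x, φ x] (pderiv 1 f) ≠ 0) :
    ∀ x ∈ Set.Ioo a b, HasDerivAt φ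
      (-(eval ![x, φ x] (pderiv 0 f)) / eval ![x, φ x] (pderiv 1 f)) x := by
  intro x hx
  exact imp_main (F := fun s t => eval ![s, t] f) (A := fun s t => eval ![s, t] (pderiv 0 f))
    (B := fun s t => eval ![s, t] (pderiv 1 f)) (fun s t => hasDerivAt_fst f s t)
    (fun s t => Pool.Agent.H19.RD.hasDerivAt_line f s t) (Pool.Agent.H19.RD.cont_eval (pderiv 0 f))
    (Pool.Agent.H19.RD.cont_eval (pderiv 1 f)) hx (hφ.continuousAt (Ioo_mem_nhds hx.1 hx.2)) h0 (h1 x hx)

end Pool.Agent.H39.HG
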