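import Pool.Agent.H22.PS.Defs
import Pool.Agent.H19.RD.Grid

/-!
# Points of a curve with a given slope

Let `h = pderiv 0 f + C v * pderiv 1 f ≠ 0`. Its total degree is at most `f.totalDegree - 1` (`Pool.Agent.H19.RD.pderiv_deg`) and
`1 ≤ f.totalDegree` (`irr_deg`), so `f ∤ h` (`deg_le_of_dvd`), hence `IsRelPrime f h` (irreducible), and every finite set of common
zeros has at most `k * k` elements (`bez_pts`, with `Fin 2 → ℝ` points `![x, y]`); so the set of common zeros is finite
(`Set.infinite` would contain a finite subset with `k * k + 1` elements) and has at most `k * k` elements.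
`ne_both`: an irreducible `f` with both derivatives zero does not depend on `x` and on `y` (`const_of_pderiv` and the same for the
other variable), or directly: `pderiv_deg`-free argument: `f` would be constant, against `irr_deg`. (Coefficients: for a monomial `m` in the
support with `m i > 0` the coefficient of `m - single i 1` in `pderiv i f` is `m i * coeff m f ≠ 0`, `MvPolynomial.coeff_pderiv` if available.)
-/

set_option autoImplicit false

namespace Pool.Agent.H39.HG

open Finset MvPolynomial Pool.Agent.H22.PS
open scoped Classical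

private lemma slo_deg (f : MvPolynomial (Fin 2) ℝ) (v : ℝ) :
    (pderiv 0 f + C v * pderiv 1 f).totalDegree ≤ f.totalDegree - 1 := by
  refine (totalDegree_add _ _).trans (max_le (Pool.Agent.H19.RD.pderiv_deg f 0) ?_)
  refine (totalDegree_mul _ _).trans ?_
  rw [totalDegree_C, zero_add]
  exact Pool.Agent.H19.RD.pderiv_deg f 1

private lemma slo_bez (k : ℕ) (f : MvPolynomial (Fin 2) ℝ) (hf : Irreducible f)
    (hk : f.totalDegree ≤ k) (h : MvPolynomial (Fin 2) ℝ) (h0 : h ≠ 0)
    (hd : h.totalDegree ≤ f.totalDegree - 1) (T : Finset (ℝ × ℝ))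
    (hT : ∀ p ∈ T, eval ![p.1, p.2] f = 0 ∧ eval ![p.1, p.2] h = 0) : T.card ≤ k * k := by
  have h1 := Pool.Agent.H19.RD.irr_deg f hf
  have hrel : IsRelPrime f h := by
    refine (hf.dvd_or_isRelPrime).resolve_left ?_
    intro hdvd
    have h2 := Pool.Agent.H19.RD.deg_le_of_dvd f _ h0 hdvd
    omega
  have hinj : Set.InjOn (fun p : ℝ × ℝ => (![p.1, p.2] : Fin 2 → ℝ)) T := by
    intro p _ q _ hpq
    have h3 : p.1 = q.1 := by simpa using congrFun hpq 0
    have h4 : p.2 = q.2 := by simpa using congrFun hpq 1
    exact Prod.ext h3 h4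
  have h4 := Pool.Agent.H19.RD.bez_pts f h hf.ne_zero h0 hrel
    (T.image (fun p : ℝ × ℝ => (![p.1, p.2] : Fin 2 → ℝ))) (by
      intro t ht
      rw [Finset.mem_image] at ht
      obtain ⟨p, hp, rfl⟩ := ht
      exact hT p hp)
  rw [Finset.card_image_of_injOn hinj] at h4
  exact h4.trans (Nat.mul_le_mul hk (by omega))

theorem slope_fin (k : ℕ) (f : MvPolynomial (Fin 2) ℝ) (hf : Irreducible f)
    (hk : f.totalDegree ≤ k) (v : ℝ) :
    pderiv 0 f + C v * pderiv 1 f = 0 ∨
      ∃ T : Finset (ℝ × ℝ), T.card ≤ k * k ∧ ∀ p ∈ Zs f,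
        eval ![p.1, p.2] (pderiv 0 f + C v * pderiv 1 f) = 0 → p ∈ T := by
  by_cases h0 : pderiv 0 f + C v * pderiv 1 f = 0
  · exact Or.inl h0
  right
  have hb := slo_bez k f hf hk _ h0 (slo_deg f v)
  have hfin : {p : ℝ × ℝ | p ∈ Zs f ∧
      eval ![p.1, p.2] (pderiv 0 f + C v * pderiv 1 f) = 0}.Finite := by
    by_contra hinf
    obtain ⟨T, hT, hc⟩ := Set.Infinite.exists_subset_card_eq hinf (k * k + 1)
    have h1 := hb T (fun p hp => hT hp)
    omega
  refine ⟨hfin.toFinset, hb _ ?_, ?_⟩
  · intro p hp
    rw [Set.Finite.mem_toFinset] at hp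
    exact hp
  · intro p hp h1
    rw [Set.Finite.mem_toFinset]
    exact ⟨hp, h1⟩

private lemma slo_coeff (f : MvPolynomial (Fin 2) ℝ) (i : Fin 2) (m : Fin 2 →₀ ℕ)
    (hm : m i ≠ 0) : coeff (m - Finsupp.single i 1) (pderiv i f) = m i * coeff m f := by
  induction f using MvPolynomial.induction_on' with
  | monomial u a =>
      rw [pderiv_monomial, coeff_monomial, coeff_monomial]
      by_cases hu : u = m
      · subst hu
        rw [if_pos rfl, if_pos rfl]
        ring
      · rw [if_neg hu, mul_zero]
        split_ifs with h1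
        · by_cases h2 : u i = 0
          · rw [h2]; simp
          · exfalso
            apply hu
            ext j
            have h3 := DFunLike.congr_fun h1 j
            simp only [Finsupp.coe_tsub, Pi.sub_apply] at h3
            by_cases hj : i = j
            · subst hj
              simp at h3
              omega
            · rw [Finsupp.single_eq_of_ne (Ne.symm hj)] at h3
              simpa using h3
        · rfl
  | add p q hp hq =>
      rw [map_add, coeff_add, coeff_add, hp, hq]
      ring

theorem ne_both (f : MvPolynomial (Fin 2) ℝ) (hf : Irreducible f) :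
    pderiv 0 f ≠ 0 ∨ pderiv 1 f ≠ 0 := by
  by_contra hcon
  push Not at hcon
  have hall : ∀ i : Fin 2, pderiv i f = 0 := by
    intro i
    fin_cases i
    · exact hcon.1
    · exact hcon.2
  have h1 := Pool.Agent.H19.RD.irr_deg f hf
  have h2 : f.totalDegree ≤ 0 := by
    rw [totalDegree]
    refine Finset.sup_le ?_
    intro m hm
    have hz : ∀ i, m i = 0 := by
      intro i
      by_contra hi
      have h3 := slo_coeff f i m hi
      rw [hall i, coeff_zero] at h3
      have h4 : coeff m f ≠ 0 := mem_support_iff.1 hm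
      have h5 : (m i : ℝ) ≠ 0 := by exact_mod_cast hi
      exact (mul_ne_zero h5 h4) h3.symm
    have : m = 0 := by ext i; exact hz i
    rw [this]
    simp
  omega

end Pool.Agent.H39.HG
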