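import Pool.Agent.H39.HG.AlgS
import Pool.Agent.H39.HG.Opt

/-!
# The rich form of the theorem of Pach and Sharir

Split `Λ` into the curves with `pderiv 1 (g i) = 0` and the others. (a) If `pderiv 1 (g i) = 0` then `Zs (g i)` contains with a
point the whole vertical line through it (`Pool.Agent.H19.RD.const_of_pderiv`); so two different such curves have no common point
(otherwise their intersection, finite by hypothesis, would contain a line), and the total number of points of `Q` on them is at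
most `#Q`. (b) For the others apply `alg_s s t k μ` with the index type `{i // i ∈ Λ ∧ pderiv 1 (g i) ≠ 0}` and `opt`
(`I` = the number of incidences, `N` = the number of these curves, `N κ ≤ I` since each of them has at least `κ` points of `Q`,
`m = #Q`); exchange of the sums over points and curves by `Finset.sum_card_bipartiteAbove_eq_sum_card_bipartiteBelow` or
`Finset.sum_comm'`. Adding up, `(I_a + I_b) κ ^ (2 s - 2) ≤ #Q κ ^ (2 s - 2) + C' (...)`.
-/

set_option autoImplicit false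

namespace Pool.Agent.H39.HG

open Finset MvPolynomial Pool.Agent.H22.PS
open scoped Classical

/-- two different curves with `pderiv 1 = 0` which meet in finitely many points have no common point -/
private lemma Rich_disj {μ : ℕ} {f h : MvPolynomial (Fin 2) ℝ} (hf : pderiv 1 f = 0) (hh : pderiv 1 h = 0)
    (hfin : ∃ T : Finset (ℝ × ℝ), T.card ≤ μ ∧ Zs f ∩ Zs h ⊆ T) (p : ℝ × ℝ) (h1 : p ∈ Zs f) (h2 : p ∈ Zs h) : False := by
  obtain ⟨T, -, hT⟩ := hfin
  have hall : ∀ y : ℝ, ((p.1, y) : ℝ × ℝ) ∈ (T : Set (ℝ × ℝ)) := by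
    intro y
    apply hT
    refine ⟨?_, ?_⟩
    · have h3 := H19.RD.const_of_pderiv f hf p.1 y p.2
      have h4 : MvPolynomial.eval ![p.1, p.2] f = 0 := h1
      show MvPolynomial.eval ![p.1, y] f = 0
      rw [h3, h4]
    · have h3 := H19.RD.const_of_pderiv h hh p.1 y p.2
      have h4 : MvPolynomial.eval ![p.1, p.2] h = 0 := h2
      show MvPolynomial.eval ![p.1, y] h = 0
      rw [h3, h4]
  have hinj : Function.Injective (fun y : ℝ => ((p.1, y) : ℝ × ℝ)) := fun a b hab => (Prod.mk.inj hab).2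
  have hinf := Set.infinite_range_of_injective hinj
  exact hinf (T.finite_toSet.subset (by rintro _ ⟨y, rfl⟩; exact hall y))

/-- the number of points on the curves with `pderiv 1 = 0` -/
private lemma Rich_vert {μ : ℕ} {ι : Type} [Fintype ι] (g : ι → MvPolynomial (Fin 2) ℝ)
    (h2 : ∀ i j, i ≠ j → ∃ T : Finset (ℝ × ℝ), T.card ≤ μ ∧ Zs (g i) ∩ Zs (g j) ⊆ T)
    (Q : Finset (ℝ × ℝ)) (Λ : Finset ι) (hΛ : ∀ i ∈ Λ, pderiv 1 (g i) = 0) :
    (∑ i ∈ Λ, (Q.filter fun p => p ∈ Zs (g i)).card) ≤ Q.card := by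
  rw [← Finset.card_biUnion]
  · apply Finset.card_le_card
    intro p hp
    obtain ⟨i, -, hi⟩ := Finset.mem_biUnion.mp hp
    exact (Finset.mem_filter.mp hi).1
  · intro i hi j hj hij
    rw [Function.onFun, Finset.disjoint_left]
    intro p hp hp'
    exact Rich_disj (hΛ i hi) (hΛ j hj) (h2 i j hij) p (Finset.mem_filter.mp hp).2 (Finset.mem_filter.mp hp').2

theorem ps_rich (s t k μ : ℕ) (hs : 2 ≤ s) : ∃ C κ0 : ℝ, 1 ≤ C ∧ 1 ≤ κ0 ∧
    ∀ (ι : Type) [Fintype ι] (g : ι → MvPolynomial (Fin 2) ℝ) (P : Finset (ℝ × ℝ)),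
    (∀ i, Irreducible (g i) ∧ (g i).totalDegree ≤ k) →
    (∀ i j, i ≠ j → ∃ T : Finset (ℝ × ℝ), T.card ≤ μ ∧ Zs (g i) ∩ Zs (g j) ⊆ T) →
    (∀ S ⊆ P, S.card = s → (univ.filter fun i => ∀ p ∈ S, p ∈ Zs (g i)).card < t) →
    ∀ Q ⊆ P, ∀ κ : ℝ, κ0 ≤ κ → ∀ Λ : Finset ι,
    (∀ i ∈ Λ, κ ≤ ((Q.filter fun p => p ∈ Zs (g i)).card : ℝ)) →
    (∑ i ∈ Λ, ((Q.filter fun p => p ∈ Zs (g i)).card : ℝ)) * κ ^ (2 * s - 2) ≤
      C * ((Q.card : ℝ) ^ s + Q.card * κ ^ (2 * s - 2)) := by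
  obtain ⟨C1, hC1, halg⟩ := alg_s s t k μ hs
  obtain ⟨C', κ0, hC', hκ0, hopt⟩ := opt s C1 hs hC1
  refine ⟨C' + 1, κ0, by linarith, hκ0, ?_⟩
  intro ι _ g P h1 h2 h3 Q hQ κ hκ Λ hΛ
  have hκpos : 0 < κ := by linarith
  set A := Λ.filter fun i => pderiv 1 (g i) = 0 with hA
  set B := Λ.filter fun i => ¬ pderiv 1 (g i) = 0 with hB
  have hsplit : (∑ i ∈ Λ, ((Q.filter fun p => p ∈ Zs (g i)).card : ℝ)) =
      (∑ i ∈ A, ((Q.filter fun p => p ∈ Zs (g i)).card : ℝ)) +
        ∑ i ∈ B, ((Q.filter fun p => p ∈ Zs (g i)).card : ℝ) :=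
    (Finset.sum_filter_add_sum_filter_not Λ (fun i => pderiv 1 (g i) = 0) _).symm
  have hIa : (∑ i ∈ A, ((Q.filter fun p => p ∈ Zs (g i)).card : ℝ)) ≤ (Q.card : ℝ) := by
    have h4 := Rich_vert g h2 Q A (fun i hi => (Finset.mem_filter.mp hi).2)
    exact_mod_cast h4
  set I : ℝ := ∑ i ∈ B, ((Q.filter fun p => p ∈ Zs (g i)).card : ℝ) with hI
  have hI0 : 0 ≤ I := Finset.sum_nonneg fun i _ => Nat.cast_nonneg _
  -- the index type of the other curves
  have hIalg : ∀ a : ℕ, 1 ≤ a → I ≤ C1 * (Q.card * (a : ℝ) ^ (s - 1) + (B.card : ℝ) + (a : ℝ) ^ s +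
      (B.card : ℝ) ^ 2 / (a : ℝ) ^ s) := by
    intro a ha
    have h5 := halg {i // i ∈ B} (fun i => g i.1) Q
      (fun i => ⟨(h1 i.1).1, (h1 i.1).2, (Finset.mem_filter.mp i.2).2⟩)
      (fun i j hij => h2 i.1 j.1 (fun h => hij (Subtype.ext h)))
      (fun S hS hSc => by
        refine lt_of_le_of_lt ?_ (h3 S (hS.trans hQ) hSc)
        apply Finset.card_le_card_of_injOn (fun i => i.1)
        · intro i hi
          have hi' := (Finset.mem_filter.mp hi).2
          exact Finset.mem_coe.mpr (Finset.mem_filter.mpr ⟨Finset.mem_univ _, hi'⟩)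
        · intro i _ j _ hij
          exact Subtype.ext hij) a ha
    have h6 : ((∑ p ∈ Q, (univ.filter fun i : {i // i ∈ B} => p ∈ Zs (g i.1)).card : ℕ) : ℝ) = I := by
      have h7 : (∑ p ∈ Q, (univ.filter fun i : {i // i ∈ B} => p ∈ Zs (g i.1)).card) =
          ∑ i ∈ B, (Q.filter fun p => p ∈ Zs (g i)).card := by
        have h8 := Finset.sum_card_bipartiteAbove_eq_sum_card_bipartiteBelow
          (s := Q) (t := (univ : Finset {i // i ∈ B})) (fun p i => p ∈ Zs (g i.1))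
        unfold Finset.bipartiteAbove Finset.bipartiteBelow at h8
        rw [h8, ← Finset.sum_coe_sort B]
      rw [h7, hI]
      push_cast
      rfl
    rw [h6, Fintype.card_coe] at h5
    exact h5
  have hNκ : (B.card : ℝ) * κ ≤ I := by
    have h7 : (∑ i ∈ B, κ) ≤ I :=
      Finset.sum_le_sum fun i hi => hΛ i (Finset.mem_filter.mp hi).1
    rw [Finset.sum_const, nsmul_eq_mul] at h7
    exact h7
  have hm : Q.card = 0 → I = 0 := by
    intro h
    have hQ0 : Q = ∅ := Finset.card_eq_zero.mp h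
    rw [hI]
    apply Finset.sum_eq_zero
    intro i _
    rw [hQ0]
    simp
  have hfin := hopt I (B.card : ℝ) κ Q.card hI0 (Nat.cast_nonneg _) hκ hNκ hm hIalg
  have hpow : 0 ≤ κ ^ (2 * s - 2) := by positivity
  have hms : 0 ≤ (Q.card : ℝ) ^ s := by positivity
  rw [hsplit, add_mul]
  have h9 : (∑ i ∈ A, ((Q.filter fun p => p ∈ Zs (g i)).card : ℝ)) * κ ^ (2 * s - 2) ≤
      Q.card * κ ^ (2 * s - 2) := mul_le_mul_of_nonneg_right hIa hpow
  nlinarith [h9, hfin, hms]

end Pool.Agent.H39.HG
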