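import Pool.Agent.H39.HG.Defs

/-!
# Points of a homogeneous set in a rectangle

Map `p` to `(⌊(p.1 - x0) / r⌋₊, ⌊(p.2 - y0) / r⌋₊)`, an element of `range (⌊A / r⌋₊ + 1) ×ˢ range (⌊B / r⌋₊ + 1)`; every fibre is contained in a
closed square of side `r`, so it has at most `h` points (`card_le_mul_card_image` or `card_eq_sum_card_fiberwise`);
`⌊A / r⌋₊ ≤ A / r`.
-/

set_option autoImplicit false

namespace Pool.Agent.H39.HG

open Finset
open scoped Classical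

theorem rect_card (h : ℕ) (r : ℝ) (hr : 0 < r) (P : Finset (ℝ × ℝ)) (hP : Hom h r P)
    (x0 y0 A B : ℝ) (hA : 0 ≤ A) (hB : 0 ≤ B) :
    ((P.filter fun p => (x0 ≤ p.1 ∧ p.1 ≤ x0 + A) ∧ y0 ≤ p.2 ∧ p.2 ≤ y0 + B).card : ℝ) ≤
      h * (A / r + 1) * (B / r + 1) := by
  set F := P.filter fun p => (x0 ≤ p.1 ∧ p.1 ≤ x0 + A) ∧ y0 ≤ p.2 ∧ p.2 ≤ y0 + B with hF
  set g : ℝ × ℝ → ℕ × ℕ := fun p => (⌊(p.1 - x0) / r⌋₊, ⌊(p.2 - y0) / r⌋₊) with hg
  set T : Finset (ℕ × ℕ) := range (⌊A / r⌋₊ + 1) ×ˢ range (⌊B / r⌋₊ + 1) with hT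
  have hmaps : ∀ p ∈ F, g p ∈ T := by
    intro p hp
    rw [hF, mem_filter] at hp
    obtain ⟨_, ⟨h1, h2⟩, h3, h4⟩ := hp
    rw [hT, mem_product, mem_range, mem_range]
    refine ⟨Nat.lt_succ_of_le (Nat.floor_mono ?_), Nat.lt_succ_of_le (Nat.floor_mono ?_)⟩
    · exact (div_le_div_iff_of_pos_right hr).2 (by linarith)
    · exact (div_le_div_iff_of_pos_right hr).2 (by linarith)
  have hfib : ∀ b ∈ T, (F.filter fun p => g p = b).card ≤ h := by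
    intro b _
    refine le_trans (card_le_card ?_) (hP (x0 + b.1 * r) (y0 + b.2 * r))
    intro p hp
    rw [mem_filter] at hp
    obtain ⟨hp1, hp2⟩ := hp
    rw [hF, mem_filter] at hp1
    obtain ⟨hpP, ⟨h1, h2⟩, h3, h4⟩ := hp1
    have e1 : ⌊(p.1 - x0) / r⌋₊ = b.1 := congrArg Prod.fst hp2
    have e2 : ⌊(p.2 - y0) / r⌋₊ = b.2 := congrArg Prod.snd hp2
    have n1 : 0 ≤ (p.1 - x0) / r := div_nonneg (by linarith) hr.le
    have n2 : 0 ≤ (p.2 - y0) / r := div_nonneg (by linarith) hr.le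
    have a1 := Nat.floor_le n1
    have a2 := Nat.floor_le n2
    have b1 := Nat.lt_floor_add_one ((p.1 - x0) / r)
    have b2 := Nat.lt_floor_add_one ((p.2 - y0) / r)
    rw [e1] at a1 b1
    rw [e2] at a2 b2
    rw [le_div_iff₀ hr] at a1 a2
    rw [div_lt_iff₀ hr] at b1 b2
    rw [mem_filter]
    refine ⟨hpP, ⟨?_, ?_⟩, ?_, ?_⟩ <;> nlinarith
  have hc := card_le_mul_card_image_of_maps_to hmaps h hfib
  have hTc : T.card = (⌊A / r⌋₊ + 1) * (⌊B / r⌋₊ + 1) := by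
    rw [hT, card_product, card_range, card_range]
  rw [hTc] at hc
  have hA' : (⌊A / r⌋₊ : ℝ) ≤ A / r := Nat.floor_le (div_nonneg hA hr.le)
  have hB' : (⌊B / r⌋₊ : ℝ) ≤ B / r := Nat.floor_le (div_nonneg hB hr.le)
  have hc' : (F.card : ℝ) ≤ h * (((⌊A / r⌋₊ : ℝ) + 1) * ((⌊B / r⌋₊ : ℝ) + 1)) := by
    exact_mod_cast hc
  refine hc'.trans ?_
  rw [mul_assoc]
  refine mul_le_mul_of_nonneg_left ?_ (Nat.cast_nonneg _)
  exact mul_le_mul (by linarith) (by linarith) (by positivity) (by positivity)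

end Pool.Agent.H39.HG
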