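import Pool.Agent.H22.PS.Defs

/-!
# Exchange of the two variables

`sw f = rename (Equiv.swap 0 1) f`; `renameEquiv` is a ring isomorphism (`MulEquiv.irreducible_iff`), `totalDegree_renameEquiv` or
`totalDegree_rename_of_injective`; `eval_rename`, `![x, y] ∘ swap = ![y, x]`. Derivatives: induction on `f` (`MvPolynomial.induction_on`), or
`MvPolynomial.pderiv_rename` if available.
-/

set_option autoImplicit false

namespace Pool.Agent.H39.HG

open Finset MvPolynomial Pool.Agent.H22.PS
open scoped Classical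

/-- exchange of the variables -/
noncomputable def sw (f : MvPolynomial (Fin 2) ℝ) : MvPolynomial (Fin 2) ℝ :=
  rename (Equiv.swap (0 : Fin 2) 1) f

theorem sw_irr (f : MvPolynomial (Fin 2) ℝ) (hf : Irreducible f) : Irreducible (sw f) := by
  have h := (MulEquiv.irreducible_iff (renameEquiv ℝ (Equiv.swap (0 : Fin 2) 1))).2 hf
  exact h

theorem sw_deg (f : MvPolynomial (Fin 2) ℝ) : (sw f).totalDegree = f.totalDegree := by
  have h := totalDegree_renameEquiv (R := ℝ) (Equiv.swap (0 : Fin 2) 1) f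
  exact h

theorem sw_eval (f : MvPolynomial (Fin 2) ℝ) (x y : ℝ) :
    eval ![x, y] (sw f) = eval ![y, x] f := by
  unfold sw
  rw [eval_rename]
  congr 2
  funext i
  fin_cases i <;> simp

theorem sw_pd0 (f : MvPolynomial (Fin 2) ℝ) : pderiv 0 (sw f) = sw (pderiv 1 f) := by
  have h := pderiv_rename (R := ℝ) (Equiv.swap (0 : Fin 2) 1).injective 1 f
  rw [Equiv.swap_apply_right] at h
  exact h

theorem sw_pd1 (f : MvPolynomial (Fin 2) ℝ) : pderiv 1 (sw f) = sw (pderiv 0 f) := by
  have h := pderiv_rename (R := ℝ) (Equiv.swap (0 : Fin 2) 1).injective 0 f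
  rw [Equiv.swap_apply_left] at h
  exact h

theorem sw_mem (f : MvPolynomial (Fin 2) ℝ) (p : ℝ × ℝ) :
    p ∈ Zs (sw f) ↔ (p.2, p.1) ∈ Zs f := by
  unfold Zs
  simp only [Set.mem_ofPred_eq]
  rw [sw_eval]

end Pool.Agent.H39.HG
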