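import Mathlib

/-!
# Telescoping with weights (pure real numbers)

`∑_{i<n} (T i / W i - T (i+1) / W (i+1)) = T 0 / W 0 - T n / W n` with `W i = 2 ^ i w0`; the terms are
`v i / (2 W i)`, `v i = 2 T i - T (i+1)`. Cauchy-Schwarz with the weights `ρ ^ i`, `ρ = √2`: `(∑ u_i) ^ 2 ≤ (∑ ρ^(-i)) (∑ ρ^i u_i ^ 2)` and
`∑ ρ^(-i) ≤ 1 / (1 - 1 / √2) ≤ 4`. Here `u_i = v i / (2 W i)`.
-/

set_option autoImplicit false

namespace Pool.Agent.H39.HG

open Finset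
open scoped Classical

private theorem tel_geo (q : ℝ) (h0 : 0 ≤ q) (h1 : q ≤ 3 / 4) (n : ℕ) : ∑ i ∈ range n, q ^ i ≤ 4 := by
  induction n with
  | zero => simp
  | succ n ih =>
    rw [Finset.sum_range_succ']
    have h2 : ∑ i ∈ range n, q ^ (i + 1) = q * ∑ i ∈ range n, q ^ i := by
      rw [Finset.mul_sum]
      exact Finset.sum_congr rfl fun i _ => by ring
    have h3 : 0 ≤ ∑ i ∈ range n, q ^ i := Finset.sum_nonneg fun i _ => pow_nonneg h0 i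
    rw [h2, pow_zero]
    nlinarith

private theorem tel_s0 : (0 : ℝ) < Real.sqrt 2 := Real.sqrt_pos.mpr (by norm_num)

private theorem tel_s1 : (Real.sqrt 2)⁻¹ ≤ 3 / 4 := by
  have h1 : (4 : ℝ) / 3 ≤ Real.sqrt 2 := by
    rw [show (4 : ℝ) / 3 = Real.sqrt ((4 / 3) ^ 2) by rw [Real.sqrt_sq (by norm_num)]]
    exact Real.sqrt_le_sqrt (by norm_num)
  calc (Real.sqrt 2)⁻¹ ≤ (4 / 3 : ℝ)⁻¹ := inv_anti₀ (by norm_num) h1
    _ = 3 / 4 := by norm_num

theorem tel (n : ℕ) (w0 : ℝ) (hw : 0 < w0) (T : ℕ → ℝ) :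
    (T 0 / w0 - T n / (2 ^ n * w0)) ^ 2 ≤
      4 * ∑ i ∈ range n, (Real.sqrt 2) ^ i * ((2 * T i - T (i + 1)) / (2 * (2 ^ i * w0))) ^ 2 := by
  have h1 : T 0 / w0 - T n / (2 ^ n * w0) =
      ∑ i ∈ range n, (2 * T i - T (i + 1)) / (2 * (2 ^ i * w0)) := by
    have h2 : ∀ i ∈ range n, (2 * T i - T (i + 1)) / (2 * (2 ^ i * w0)) =
        (fun i => T i / (2 ^ i * w0)) i - (fun i => T i / (2 ^ i * w0)) (i + 1) := by
      intro i _
      have h3 : (2 : ℝ) ^ i ≠ 0 := by positivity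
      simp only [pow_succ]
      field_simp
    rw [Finset.sum_congr rfl h2, Finset.sum_range_sub']
    simp
  rw [h1]
  have h3 := Finset.sum_sq_le_sum_mul_sum_of_sq_le_mul (range n)
    (r := fun i => (2 * T i - T (i + 1)) / (2 * (2 ^ i * w0)))
    (f := fun i => ((Real.sqrt 2)⁻¹) ^ i)
    (g := fun i => (Real.sqrt 2) ^ i * ((2 * T i - T (i + 1)) / (2 * (2 ^ i * w0))) ^ 2)
    (fun i _ => by positivity) (fun i _ => by positivity)
    (fun i _ => by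
      have h4 : ((Real.sqrt 2)⁻¹) ^ i * (Real.sqrt 2) ^ i = 1 := by
        rw [← mul_pow, inv_mul_cancel₀ tel_s0.ne', one_pow]
      rw [← mul_assoc ((Real.sqrt 2)⁻¹ ^ i), h4, one_mul])
  refine h3.trans ?_
  refine mul_le_mul_of_nonneg_right (tel_geo _ (by positivity) tel_s1 n) ?_
  exact Finset.sum_nonneg fun i _ => by positivity

theorem geo (n : ℕ) : ∑ i ∈ range n, (Real.sqrt 2) ^ i / 2 ^ i ≤ 4 := by
  have h1 : ∀ i ∈ range n, (Real.sqrt 2) ^ i / 2 ^ i = (Real.sqrt 2 / 2) ^ i := fun i _ => by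
    rw [div_pow]
  rw [Finset.sum_congr rfl h1]
  refine tel_geo _ (by positivity) ?_ n
  have h2 : Real.sqrt 2 ≤ 3 / 2 := by
    rw [show (3 : ℝ) / 2 = Real.sqrt ((3 / 2) ^ 2) by rw [Real.sqrt_sq (by norm_num)]]
    exact Real.sqrt_le_sqrt (by norm_num)
  linarith

end Pool.Agent.H39.HG
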