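import Pool.Agent.H39.HG.Cov

/-!
# Points of a homogeneous set in a wide tube

Let `i p = ⌊(p.1 - (x - a)) / r⌋₊ ≤ ⌊2 a / r⌋₊` for `p ∈ tub P a w x y m`; the number of values of `i` is at most `2 a / r + 1 ≤ 3 a / r`.
For `i p = i` put `u = x - a + i r`: `u ≤ p.1 ≤ u + r` and `|p.2 - (y + m (u - x))| ≤ w + |m| |p.1 - u| ≤ w + 2 r`, so the fibre is contained in
the rectangle with `A = r`, `B = 2 w + 4 r ≤ 6 w`, and has at most `h * 2 * (6 w / r + 1) ≤ 14 h w / r` points (`rect_card`).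
Total at most `42 h a w / r ^ 2`.
-/

set_option autoImplicit false

namespace Pool.Agent.H39.HG

open Finset
open scoped Classical

theorem top_card (h : ℕ) (r : ℝ) (hr : 0 < r) (P : Finset (ℝ × ℝ)) (hP : Hom h r P)
    (a w x y m : ℝ) (hm : |m| ≤ 2) (hw : r ≤ w) (ha : r ≤ a) :
    ((tub P a w x y m).card : ℝ) ≤ 50 * h * (a * w / r ^ 2) := by
  set F := tub P a w x y m with hF
  set g : ℝ × ℝ → ℕ := fun p => ⌊(p.1 - (x - a)) / r⌋₊ with hg
  set T : Finset ℕ := range (⌊2 * a / r⌋₊ + 1) with hT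
  have ha0 : 0 < a := lt_of_lt_of_le hr ha
  have hw0 : 0 < w := lt_of_lt_of_le hr hw
  have hmaps : ∀ p ∈ F, g p ∈ T := by
    intro p hp
    rw [hF, tub, mem_filter] at hp
    obtain ⟨_, h1, _⟩ := hp
    rw [abs_le] at h1
    rw [hT, mem_range]
    refine Nat.lt_succ_of_le (Nat.floor_mono ?_)
    exact (div_le_div_iff_of_pos_right hr).2 (by linarith)
  have hfib : ∀ k ∈ T, ((F.filter fun p => g p = k).card : ℝ) ≤ 14 * h * (w / r) := by
    intro k _
    have hsub : (F.filter fun p => g p = k) ⊆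
        P.filter fun p => ((x - a + k * r) ≤ p.1 ∧ p.1 ≤ (x - a + k * r) + r) ∧
          (y + m * ((x - a + k * r) - x) - w - 2 * r) ≤ p.2 ∧
          p.2 ≤ (y + m * ((x - a + k * r) - x) - w - 2 * r) + (2 * w + 4 * r) := by
      intro p hp
      rw [mem_filter] at hp
      obtain ⟨hp1, hp2⟩ := hp
      rw [hF, tub, mem_filter] at hp1
      obtain ⟨hpP, h1, h2⟩ := hp1
      rw [abs_le] at h1 h2
      have n1 : 0 ≤ (p.1 - (x - a)) / r := div_nonneg (by linarith) hr.le
      have a1 := Nat.floor_le n1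
      have b1 := Nat.lt_floor_add_one ((p.1 - (x - a)) / r)
      have e1 : ⌊(p.1 - (x - a)) / r⌋₊ = k := hp2
      rw [e1] at a1 b1
      rw [le_div_iff₀ hr] at a1
      rw [div_lt_iff₀ hr] at b1
      have c1 : (x - a + k * r) ≤ p.1 := by linarith
      have c2 : p.1 ≤ (x - a + k * r) + r := by linarith
      have d0 : 0 ≤ p.1 - (x - a + k * r) := by linarith
      have d1 : p.1 - (x - a + k * r) ≤ r := by linarith
      have hm2 := abs_le.1 hm
      have d2 : |m * (p.1 - (x - a + k * r))| ≤ 2 * r := by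
        rw [abs_mul, abs_of_nonneg d0]
        exact mul_le_mul hm d1 d0 (by norm_num)
      rw [abs_le] at d2
      have e2 : m * (p.1 - x) = m * ((x - a + k * r) - x) + m * (p.1 - (x - a + k * r)) := by ring
      rw [mem_filter]
      refine ⟨hpP, ⟨c1, c2⟩, ?_, ?_⟩ <;> linarith [d2.1, d2.2, h2.1, h2.2]
    have hc := rect_card h r hr P hP (x - a + k * r) (y + m * ((x - a + k * r) - x) - w - 2 * r)
      r (2 * w + 4 * r) hr.le (by linarith)
    have hc2 : ((F.filter fun p => g p = k).card : ℝ) ≤ h * (r / r + 1) * ((2 * w + 4 * r) / r + 1) :=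
      le_trans (by exact_mod_cast card_le_card hsub) hc
    refine hc2.trans ?_
    have q1 : r / r = 1 := div_self hr.ne'
    have q2 : (2 * w + 4 * r) / r = 2 * (w / r) + 4 := by field_simp
    have q3 : 1 ≤ w / r := by rw [le_div_iff₀ hr]; linarith
    have hh : (0:ℝ) ≤ h := Nat.cast_nonneg h
    rw [q1, q2]
    nlinarith [mul_nonneg hh (sub_nonneg.2 q3)]
  have hsum : (F.card : ℝ) = ∑ k ∈ T, ((F.filter fun p => g p = k).card : ℝ) := by
    exact_mod_cast card_eq_sum_card_fiberwise hmaps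
  have hTc : (T.card : ℝ) ≤ 3 * (a / r) := by
    rw [hT, card_range]
    push_cast
    have q4 : (⌊2 * a / r⌋₊ : ℝ) ≤ 2 * a / r := Nat.floor_le (by positivity)
    have q5 : 1 ≤ a / r := by rw [le_div_iff₀ hr]; linarith
    have q6 : 2 * a / r = 2 * (a / r) := by ring
    linarith
  have hh : (0:ℝ) ≤ h := Nat.cast_nonneg h
  calc (F.card : ℝ) = ∑ k ∈ T, ((F.filter fun p => g p = k).card : ℝ) := hsum
    _ ≤ ∑ _k ∈ T, 14 * h * (w / r) := sum_le_sum hfib
    _ = T.card * (14 * h * (w / r)) := by rw [sum_const, nsmul_eq_mul]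
    _ ≤ 3 * (a / r) * (14 * h * (w / r)) := by
        refine mul_le_mul_of_nonneg_right hTc ?_
        positivity
    _ = 42 * h * (a * w / r ^ 2) := by field_simp; ring
    _ ≤ 50 * h * (a * w / r ^ 2) := by
        have : 0 ≤ (h:ℝ) * (a * w / r ^ 2) := by positivity
        linarith

end Pool.Agent.H39.HG
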