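import Pool.Agent.H39.HG.Defs

/-!
# The volume of a neighbourhood

Closed set; for fixed `x` the section is a rectangle `{(y, m') : |m' - m| ≤ d, |y - (p.2 + m (x - p.1))| ≤ d ^ 2}` of area
`(2 d) (2 d ^ 2)`, so the volume is `(2 d) * 4 d ^ 3` (`Measure.prod_apply`, `lintegral` of an indicator of `Icc`, `Real.volume_Icc`,
`Measure.prod_prod`).
-/

set_option autoImplicit false

namespace Pool.Agent.H39.HG

open Finset MeasureTheory
open scoped Classical

/-- the neighbourhood of a point with a slope -/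
def nbh (d : ℝ) (p : ℝ × ℝ) (m : ℝ) : Set (ℝ × ℝ × ℝ) :=
  {z | |z.1 - p.1| ≤ d ∧ |z.2.2 - m| ≤ d ∧ |z.2.1 - p.2 - m * (z.1 - p.1)| ≤ d ^ 2}

theorem nb_meas (d : ℝ) (p : ℝ × ℝ) (m : ℝ) : MeasurableSet (nbh d p m) := by
  have h1 : IsClosed {z : ℝ × ℝ × ℝ | |z.1 - p.1| ≤ d} :=
    isClosed_le (by fun_prop) continuous_const
  have h2 : IsClosed {z : ℝ × ℝ × ℝ | |z.2.2 - m| ≤ d} :=
    isClosed_le (by fun_prop) continuous_const
  have h3 : IsClosed {z : ℝ × ℝ × ℝ | |z.2.1 - p.2 - m * (z.1 - p.1)| ≤ d ^ 2} :=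
    isClosed_le (by fun_prop) continuous_const
  exact (h1.inter (h2.inter h3)).measurableSet

private theorem nb_sec (d : ℝ) (p : ℝ × ℝ) (m x : ℝ) (hx : |x - p.1| ≤ d) :
    Prod.mk x ⁻¹' (nbh d p m) =
      Set.Icc (p.2 + m * (x - p.1) - d ^ 2) (p.2 + m * (x - p.1) + d ^ 2) ×ˢ
        Set.Icc (m - d) (m + d) := by
  ext ⟨y, m'⟩
  simp only [nbh, Set.mem_preimage, Set.mem_ofPred_eq, Set.mem_prod, Set.mem_Icc, abs_le]
  rw [abs_le] at hx
  constructor
  · rintro ⟨_, ⟨h1, h2⟩, h3, h4⟩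
    refine ⟨⟨by linarith, by linarith⟩, by linarith, by linarith⟩
  · rintro ⟨⟨h3, h4⟩, h1, h2⟩
    exact ⟨hx, ⟨by linarith, by linarith⟩, by linarith, by linarith⟩

private theorem nb_sec' (d : ℝ) (p : ℝ × ℝ) (m x : ℝ) (hx : ¬ |x - p.1| ≤ d) :
    Prod.mk x ⁻¹' (nbh d p m) = ∅ := by
  ext ⟨y, m'⟩
  simp only [nbh, Set.mem_preimage, Set.mem_ofPred_eq, Set.mem_empty_iff_false, iff_false]
  exact fun h => hx h.1

theorem nb_vol (d : ℝ) (hd : 0 ≤ d) (p : ℝ × ℝ) (m : ℝ) :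
    volume (nbh d p m) = ENNReal.ofReal (8 * d ^ 4) := by
  have h0 : (volume : Measure (ℝ × ℝ × ℝ)) = (volume : Measure ℝ).prod (volume : Measure (ℝ × ℝ)) := rfl
  rw [h0, Measure.prod_apply (nb_meas d p m)]
  have h1 : ∀ x : ℝ, volume (Prod.mk x ⁻¹' (nbh d p m)) =
      (Set.Icc (p.1 - d) (p.1 + d)).indicator (fun _ => ENNReal.ofReal (4 * d ^ 3)) x := by
    intro x
    by_cases hx : |x - p.1| ≤ d
    · have hx' : x ∈ Set.Icc (p.1 - d) (p.1 + d) := by
        rw [abs_le] at hx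
        exact ⟨by linarith, by linarith⟩
      have h2 : (volume : Measure (ℝ × ℝ)) = (volume : Measure ℝ).prod (volume : Measure ℝ) := rfl
      rw [nb_sec d p m x hx, Set.indicator_of_mem hx', h2, Measure.prod_prod, Real.volume_Icc,
        Real.volume_Icc, ← ENNReal.ofReal_mul (by nlinarith [sq_nonneg d])]
      congr 1
      ring
    · have hx' : x ∉ Set.Icc (p.1 - d) (p.1 + d) := by
        intro h
        apply hx
        rw [abs_le]
        exact ⟨by linarith [h.1], by linarith [h.2]⟩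
      rw [nb_sec' d p m x hx, Set.indicator_of_notMem hx', measure_empty]
  simp_rw [h1]
  rw [lintegral_indicator measurableSet_Icc, setLIntegral_const, Real.volume_Icc,
    ← ENNReal.ofReal_mul (by positivity)]
  congr 1
  ring

end Pool.Agent.H39.HG
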