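import Pool.Agent.H39.HG.TubS
import Pool.Agent.H39.HG.Nb

/-!
# One level

`c z = #{e ∈ 𝒢 : z ∈ nbh d e.2 (m e.1 e.2)}`; `∫⁻ c = #𝒢 * ENNReal.ofReal (8 d ^ 4)` (sum of indicators, `lintegral_finset_sum`, `nb_vol`).
Claim: `c z ≤ B` and `c z = 0` outside the set `R` of `hV`. Let `e ∈ 𝒢` with `z ∈ nbh`: by `tub_sub` (`z = (x, y, m')`)
`tub P (2 d) (3 d ^ 2) e ⊆ Q := tub P (3 d) (7 d ^ 2) z ⊆ tub P (4 d) (12 d ^ 2) e`, so `T ≤ #Q ≤ 8 T` and `|z.2.2| ≤ |m| + d ≤ 2`: `z ∈ R`.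
Let `Λ = {g : κ ≤ #(Pg g ∩ Q)}`; every `e ∈ 𝒢` with `z ∈ nbh` has `e.1 ∈ Λ` (`h4`) and `e.2 ∈ Pg e.1 ∩ Q` (`e.2` is in its own tube
`tub P (2 d) (3 d ^ 2)`, as `0 < d`). So `c z ≤ ∑_{g ∈ Λ} #(Pg g ∩ Q) ≤ B` (`hB`; map `e ↦ e` into the sigma set, `card_sigma`). Hence
`∫⁻ c ≤ ENNReal.ofReal B * volume R` (`lintegral_indicator_const_le`), and go back to real numbers.
-/

set_option autoImplicit false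

namespace Pool.Agent.H39.HG

open Finset MeasureTheory
open scoped Classical

private theorem lev_mem (P : Finset (ℝ × ℝ)) (ι : Type) [Fintype ι] (Pg : ι → Finset (ℝ × ℝ))
    (hPg : ∀ g, Pg g ⊆ P) (m : ι → ℝ × ℝ → ℝ) (𝒢 : Finset (ι × (ℝ × ℝ))) (d T κ : ℝ)
    (hd : 0 < d) (hd1 : d ≤ 1)
    (h1 : ∀ e ∈ 𝒢, e.2 ∈ Pg e.1 ∧ |m e.1 e.2| ≤ 1)
    (h2 : ∀ e ∈ 𝒢, T ≤ ((tub P (2 * d) (3 * d ^ 2) e.2.1 e.2.2 (m e.1 e.2)).card : ℝ))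
    (h3 : ∀ e ∈ 𝒢, ((tub P (4 * d) (12 * d ^ 2) e.2.1 e.2.2 (m e.1 e.2)).card : ℝ) ≤ 8 * T)
    (h4 : ∀ e ∈ 𝒢, κ ≤
      ((Pg e.1 ∩ tub P (2 * d) (3 * d ^ 2) e.2.1 e.2.2 (m e.1 e.2)).card : ℝ))
    (z : ℝ × ℝ × ℝ) (e : ι × (ℝ × ℝ)) (he : e ∈ 𝒢) (hz : z ∈ nbh d e.2 (m e.1 e.2)) :
    (|z.2.2| ≤ 2 ∧ T ≤ ((tub P (3 * d) (7 * d ^ 2) z.1 z.2.1 z.2.2).card : ℝ)) ∧
    ((tub P (3 * d) (7 * d ^ 2) z.1 z.2.1 z.2.2).card : ℝ) ≤ 8 * T ∧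
    κ ≤ ((Pg e.1 ∩ tub P (3 * d) (7 * d ^ 2) z.1 z.2.1 z.2.2).card : ℝ) ∧
    e.2 ∈ Pg e.1 ∩ tub P (3 * d) (7 * d ^ 2) z.1 z.2.1 z.2.2 := by
  obtain ⟨z1, z2, z3⟩ := hz
  obtain ⟨s1, s2⟩ := tub_sub P d e.2.1 e.2.2 (m e.1 e.2) z.1 z.2.1 z.2.2 z1 z2 z3
  obtain ⟨a1, a2⟩ := h1 e he
  have c1 : ((tub P (2 * d) (3 * d ^ 2) e.2.1 e.2.2 (m e.1 e.2)).card : ℝ) ≤
      ((tub P (3 * d) (7 * d ^ 2) z.1 z.2.1 z.2.2).card : ℝ) := by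
    exact_mod_cast card_le_card s1
  have c2 : ((tub P (3 * d) (7 * d ^ 2) z.1 z.2.1 z.2.2).card : ℝ) ≤
      ((tub P (4 * d) (12 * d ^ 2) e.2.1 e.2.2 (m e.1 e.2)).card : ℝ) := by
    exact_mod_cast card_le_card s2
  have c3 : ((Pg e.1 ∩ tub P (2 * d) (3 * d ^ 2) e.2.1 e.2.2 (m e.1 e.2)).card : ℝ) ≤
      ((Pg e.1 ∩ tub P (3 * d) (7 * d ^ 2) z.1 z.2.1 z.2.2).card : ℝ) := by
    exact_mod_cast card_le_card (inter_subset_inter_left s1)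
  refine ⟨⟨?_, (h2 e he).trans c1⟩, c2.trans (h3 e he), (h4 e he).trans c3, ?_⟩
  · have e1 : z.2.2 = (z.2.2 - m e.1 e.2) + m e.1 e.2 := by ring
    rw [e1]
    refine (abs_add_le _ _).trans ?_
    linarith
  · refine mem_inter.2 ⟨a1, s1 ?_⟩
    unfold tub
    rw [mem_filter]
    refine ⟨hPg _ a1, ?_, ?_⟩
    · rw [sub_self, abs_zero]
      linarith
    · rw [sub_self, sub_self, mul_zero, sub_zero, abs_zero]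
      positivity

private theorem lev_card (P : Finset (ℝ × ℝ)) (ι : Type) [Fintype ι] (Pg : ι → Finset (ℝ × ℝ))
    (hPg : ∀ g, Pg g ⊆ P) (m : ι → ℝ × ℝ → ℝ) (𝒢 : Finset (ι × (ℝ × ℝ))) (d T κ B : ℝ)
    (hd : 0 < d) (hd1 : d ≤ 1) (hB0 : 0 ≤ B)
    (h1 : ∀ e ∈ 𝒢, e.2 ∈ Pg e.1 ∧ |m e.1 e.2| ≤ 1)
    (h2 : ∀ e ∈ 𝒢, T ≤ ((tub P (2 * d) (3 * d ^ 2) e.2.1 e.2.2 (m e.1 e.2)).card : ℝ))
    (h3 : ∀ e ∈ 𝒢, ((tub P (4 * d) (12 * d ^ 2) e.2.1 e.2.2 (m e.1 e.2)).card : ℝ) ≤ 8 * T)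
    (h4 : ∀ e ∈ 𝒢, κ ≤
      ((Pg e.1 ∩ tub P (2 * d) (3 * d ^ 2) e.2.1 e.2.2 (m e.1 e.2)).card : ℝ))
    (hB : ∀ Q ⊆ P, (Q.card : ℝ) ≤ 8 * T → ∀ Λ : Finset ι,
      (∀ g ∈ Λ, κ ≤ ((Pg g ∩ Q).card : ℝ)) → ∑ g ∈ Λ, ((Pg g ∩ Q).card : ℝ) ≤ B)
    (z : ℝ × ℝ × ℝ) :
    (((𝒢.filter fun e => z ∈ nbh d e.2 (m e.1 e.2)).card : ℕ) : ENNReal) ≤
      ({z : ℝ × ℝ × ℝ | |z.2.2| ≤ 2 ∧
        T ≤ ((tub P (3 * d) (7 * d ^ 2) z.1 z.2.1 z.2.2).card : ℝ)}).indicator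
        (fun _ => ENNReal.ofReal B) z := by
  rcases (𝒢.filter fun e => z ∈ nbh d e.2 (m e.1 e.2)).eq_empty_or_nonempty with h0 | ⟨e, he⟩
  · rw [h0, card_empty, Nat.cast_zero]
    exact bot_le
  · rw [mem_filter] at he
    have key := lev_mem P ι Pg hPg m 𝒢 d T κ hd hd1 h1 h2 h3 h4 z
    obtain ⟨k1, k2, _, _⟩ := key e he.1 he.2
    have hzR : z ∈ {z : ℝ × ℝ × ℝ | |z.2.2| ≤ 2 ∧
        T ≤ ((tub P (3 * d) (7 * d ^ 2) z.1 z.2.1 z.2.2).card : ℝ)} := k1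
    rw [Set.indicator_of_mem hzR]
    set Q := tub P (3 * d) (7 * d ^ 2) z.1 z.2.1 z.2.2 with hQ
    have hQP : Q ⊆ P := filter_subset _ _
    have hBB := hB Q hQP k2 (univ.filter fun g => κ ≤ ((Pg g ∩ Q).card : ℝ)) (by
      intro g hg
      exact (mem_filter.1 hg).2)
    have hc : (𝒢.filter fun e => z ∈ nbh d e.2 (m e.1 e.2)).card ≤
        ∑ g ∈ univ.filter (fun g => κ ≤ ((Pg g ∩ Q).card : ℝ)), (Pg g ∩ Q).card := by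
      rw [← card_sigma]
      refine card_le_card_of_injOn (fun e => (⟨e.1, e.2⟩ : Σ _ : ι, ℝ × ℝ)) ?_ ?_
      · intro e' he'
        have he2 : e' ∈ 𝒢 ∧ z ∈ nbh d e'.2 (m e'.1 e'.2) := mem_filter.1 he'
        obtain ⟨_, _, q3, q4⟩ := key e' he2.1 he2.2
        rw [mem_coe, mem_sigma]
        exact ⟨mem_filter.2 ⟨mem_univ _, q3⟩, q4⟩
      · rintro ⟨g, p⟩ _ ⟨g', p'⟩ _ heq
        simp only [Sigma.mk.injEq, heq_eq_eq] at heq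
        rw [heq.1, heq.2]
    have hc' : ((𝒢.filter fun e => z ∈ nbh d e.2 (m e.1 e.2)).card : ℝ) ≤ B := by
      refine le_trans ?_ hBB
      exact_mod_cast hc
    rw [← ENNReal.ofReal_natCast]
    exact ENNReal.ofReal_le_ofReal hc'

theorem level (P : Finset (ℝ × ℝ)) (ι : Type) [Fintype ι] (Pg : ι → Finset (ℝ × ℝ))
    (hPg : ∀ g, Pg g ⊆ P) (m : ι → ℝ × ℝ → ℝ) (𝒢 : Finset (ι × (ℝ × ℝ))) (d T κ B V : ℝ)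
    (hd : 0 < d) (hd1 : d ≤ 1) (hB0 : 0 ≤ B) (hV0 : 0 ≤ V)
    (h1 : ∀ e ∈ 𝒢, e.2 ∈ Pg e.1 ∧ |m e.1 e.2| ≤ 1)
    (h2 : ∀ e ∈ 𝒢, T ≤ ((tub P (2 * d) (3 * d ^ 2) e.2.1 e.2.2 (m e.1 e.2)).card : ℝ))
    (h3 : ∀ e ∈ 𝒢, ((tub P (4 * d) (12 * d ^ 2) e.2.1 e.2.2 (m e.1 e.2)).card : ℝ) ≤ 8 * T)
    (h4 : ∀ e ∈ 𝒢, κ ≤
      ((Pg e.1 ∩ tub P (2 * d) (3 * d ^ 2) e.2.1 e.2.2 (m e.1 e.2)).card : ℝ))
    (hB : ∀ Q ⊆ P, (Q.card : ℝ) ≤ 8 * T → ∀ Λ : Finset ι,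
      (∀ g ∈ Λ, κ ≤ ((Pg g ∩ Q).card : ℝ)) → ∑ g ∈ Λ, ((Pg g ∩ Q).card : ℝ) ≤ B)
    (hV : volume {z : ℝ × ℝ × ℝ | |z.2.2| ≤ 2 ∧
      T ≤ ((tub P (3 * d) (7 * d ^ 2) z.1 z.2.1 z.2.2).card : ℝ)} ≤ ENNReal.ofReal V) :
    (𝒢.card : ℝ) * (8 * d ^ 4) ≤ V * B := by
  have hmeas : ∀ e : ι × (ℝ × ℝ), MeasurableSet (nbh d e.2 (m e.1 e.2)) := fun e => nb_meas _ _ _
  set R := {z : ℝ × ℝ × ℝ | |z.2.2| ≤ 2 ∧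
      T ≤ ((tub P (3 * d) (7 * d ^ 2) z.1 z.2.1 z.2.2).card : ℝ)} with hR
  have i1 : ∫⁻ z : ℝ × ℝ × ℝ, (((𝒢.filter fun e => z ∈ nbh d e.2 (m e.1 e.2)).card : ℕ) : ENNReal) =
      𝒢.card * ENNReal.ofReal (8 * d ^ 4) := by
    have e1 : ∀ z : ℝ × ℝ × ℝ,
        (((𝒢.filter fun e => z ∈ nbh d e.2 (m e.1 e.2)).card : ℕ) : ENNReal) =
        ∑ e ∈ 𝒢, (nbh d e.2 (m e.1 e.2)).indicator (fun _ => (1 : ENNReal)) z := by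
      intro z
      rw [card_filter, Nat.cast_sum]
      refine sum_congr rfl fun e _ => ?_
      by_cases h : z ∈ nbh d e.2 (m e.1 e.2)
      · rw [if_pos h, Set.indicator_of_mem h, Nat.cast_one]
      · rw [if_neg h, Set.indicator_of_notMem h, Nat.cast_zero]
    simp_rw [e1]
    rw [lintegral_finsetSum _ fun e _ => measurable_const.indicator (hmeas e)]
    have e2 : ∀ e ∈ 𝒢, ∫⁻ z : ℝ × ℝ × ℝ, (nbh d e.2 (m e.1 e.2)).indicator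
        (fun _ => (1 : ENNReal)) z = ENNReal.ofReal (8 * d ^ 4) := by
      intro e _
      rw [lintegral_indicator_const (hmeas e), one_mul, nb_vol d hd.le]
    rw [sum_congr rfl e2, sum_const, nsmul_eq_mul]
  have i2 : ∫⁻ z : ℝ × ℝ × ℝ, (((𝒢.filter fun e => z ∈ nbh d e.2 (m e.1 e.2)).card : ℕ) : ENNReal) ≤
      ENNReal.ofReal B * ENNReal.ofReal V := by
    refine le_trans (lintegral_mono fun z =>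
      lev_card P ι Pg hPg m 𝒢 d T κ B hd hd1 hB0 h1 h2 h3 h4 hB z) ?_
    refine le_trans (lintegral_indicator_const_le _ _) ?_
    gcongr
  rw [i1, ← ENNReal.ofReal_natCast, ← ENNReal.ofReal_mul (Nat.cast_nonneg _),
    ← ENNReal.ofReal_mul hB0, ENNReal.ofReal_le_ofReal_iff (mul_nonneg hB0 hV0)] at i2
  linarith [mul_comm V B]

end Pool.Agent.H39.HG
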