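import Pool.Agent.H22.PS.Cells
import Pool.Agent.H22.PS.KST
import Pool.Agent.H39.HG.Kst

/-!
# Discrete Pach and Sharir theorem, `K_(s,t)`-free form

Copy of `Pool/Agent/H22/PS/Comb.lean` (read it) with `L = a ^ s` and `kst_s` in place of `kst`.
Points `q ∈ pts` with `#(D.thr q) > L` contribute at most `μ N ^ 2 / L` (`rich`, with `D.tie`; `N = Fintype.card ι`).
Points with `#(D.thr q) ≤ L`, non empty: `cells D pts hodd L` gives `cell`; in a cell `x` put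
`Q_x = pts.filter (poor, non empty, cell q = x)`, `W_x = Q_x.biUnion D.thr`, `#W_x ≤ 4 L = 4 a ^ s`, so
`kst_s s t` gives `∑_{Q_x} #(D.thr q) ≤ C0 (#Q_x a ^ (s - 1) + a ^ s)` (the hypothesis about `S ⊆ Q_x` from the one about
`S ⊆ pts`, by `card_le_card`). Sum over the cells of the image: `∑ #Q_x ≤ #(pts)` and (number of cells) `* L ≤
2 N + 3 L + (2 μ + 2) N ^ 2 / L`.
-/

set_option autoImplicit false

namespace Pool.Agent.H39.HG

open Finset Pool.Agent.H22.PS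
open scoped Classical

private lemma combs_pair {ι : Type} [Fintype ι] {μ : ℕ} (D : Arr ι μ) (pts : Finset (ℕ × ℝ))
    (i j : ι) (hij : i ≠ j) :
    (pts.filter fun q => i ∈ D.thr q ∧ j ∈ D.thr q).card ≤ μ := by
  refine le_trans ?_ (D.tie i j hij)
  apply card_le_card_of_injOn (fun q => q.1)
  · intro q hq
    simp only [Arr.thr, coe_filter, mem_filter, mem_univ, true_and, Set.mem_ofPred_eq] at hq
    simp only [coe_filter, mem_range, Set.mem_ofPred_eq]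
    obtain ⟨-, ⟨h1, h2⟩, h3, h4⟩ := hq
    exact ⟨lt_of_lt_of_le h1.2 (D.hB i), h1, h3, h2.trans h4.symm⟩
  · intro p hp q hq hpq
    simp only [Arr.thr, coe_filter, mem_filter, mem_univ, true_and, Set.mem_ofPred_eq] at hp hq
    simp only at hpq
    refine Prod.ext hpq ?_
    rw [← hp.2.1.2, ← hq.2.1.2, hpq]

private lemma combs_poor (s t : ℕ) (C0 : ℝ) (hC0 : 0 ≤ C0)
    (hk : ∀ (α ι : Type) (Q : Finset α)
    (W : Finset ι) (thr : α → Finset ι), (∀ q ∈ Q, thr q ⊆ W) →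
    (∀ S ⊆ Q, S.card = s → (W.filter fun i => ∀ q ∈ S, i ∈ thr q).card < t) →
    ∀ a : ℕ, 1 ≤ a → W.card ≤ 4 * a ^ s →
    ((∑ q ∈ Q, (thr q).card : ℕ) : ℝ) ≤ C0 * (Q.card * (a : ℝ) ^ (s - 1) + (a : ℝ) ^ s))
    {ι : Type} [Fintype ι] {μ : ℕ} (D : Arr ι μ) (pts : Finset (ℕ × ℝ))
    (hodd : ∀ q ∈ pts, Odd q.1)
    (h2 : ∀ S ⊆ pts, S.card = s → (univ.filter fun i => ∀ q ∈ S, i ∈ D.thr q).card < t)
    (a : ℕ) (ha : 1 ≤ a) :
    ∃ K : ℕ, (a ^ s) ^ 2 * K ≤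
      2 * (a ^ s) * Fintype.card ι + 3 * (a ^ s) ^ 2 + (2 * μ + 2) * Fintype.card ι ^ 2 ∧
    ((∑ q ∈ pts.filter (fun q => (D.thr q).card ≤ a ^ s), (D.thr q).card : ℕ) : ℝ) ≤
      C0 * (pts.card * (a : ℝ) ^ (s - 1) + K * (a : ℝ) ^ s) := by
  have hL : 0 < a ^ s := by positivity
  set L := a ^ s with hLdef
  obtain ⟨cell, hc1, hc2⟩ := cells D pts hodd L hL
  set Q := pts.filter fun q => (D.thr q).card ≤ L ∧ (D.thr q).Nonempty with hQ
  refine ⟨(Q.image cell).card, hc2, ?_⟩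
  have h0 : ∑ q ∈ pts.filter (fun q => (D.thr q).card ≤ L), (D.thr q).card =
      ∑ q ∈ Q, (D.thr q).card := by
    symm
    apply sum_subset
    · intro q hq
      rw [hQ, mem_filter] at hq
      rw [mem_filter]
      exact ⟨hq.1, hq.2.1⟩
    · intro q hq hq'
      rw [mem_filter] at hq
      rw [hQ, mem_filter] at hq'
      by_contra hcon
      apply hq'
      refine ⟨hq.1, hq.2, ?_⟩
      rw [← card_pos]
      omega
  have h1 : ∑ q ∈ Q, (D.thr q).card =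
      ∑ x ∈ Q.image cell, ∑ q ∈ Q.filter (fun q => cell q = x), (D.thr q).card := by
    rw [sum_fiberwise_of_maps_to]
    intro q hq
    exact mem_image_of_mem _ hq
  have h3 : ∀ x ∈ Q.image cell,
      ((∑ q ∈ Q.filter (fun q => cell q = x), (D.thr q).card : ℕ) : ℝ) ≤
      C0 * ((Q.filter (fun q => cell q = x)).card * (a : ℝ) ^ (s - 1) + (a : ℝ) ^ s) := by
    intro x _
    have hsub : Q.filter (fun q => cell q = x) ⊆ pts := by
      intro q hq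
      rw [mem_filter, hQ, mem_filter] at hq
      exact hq.1.1
    refine hk _ _ (Q.filter (fun q => cell q = x))
      ((Q.filter (fun q => cell q = x)).biUnion D.thr) D.thr
      (fun q hq => subset_biUnion_of_mem D.thr hq) ?_ a ha ?_
    · intro S hS hSc
      refine lt_of_le_of_lt (card_le_card ?_) (h2 S (hS.trans hsub) hSc)
      intro i hi
      rw [mem_filter] at hi ⊢
      exact ⟨mem_univ _, hi.2⟩
    · have h6 := hc1 x
      have h7 : Q.filter (fun q => cell q = x) = pts.filter fun q =>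
          ((D.thr q).card ≤ L ∧ (D.thr q).Nonempty) ∧ cell q = x := by
        rw [hQ, filter_filter]
      rw [h7]
      exact h6
  rw [h0, h1, Nat.cast_sum]
  refine (sum_le_sum h3).trans ?_
  rw [← mul_sum, sum_add_distrib, ← sum_mul, sum_const, nsmul_eq_mul]
  apply mul_le_mul_of_nonneg_left _ hC0
  apply add_le_add _ le_rfl
  apply mul_le_mul_of_nonneg_right _ (by positivity)
  rw [← Nat.cast_sum, ← card_eq_sum_card_image]
  exact_mod_cast card_le_card (filter_subset _ _)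

theorem comb_s (s t μ : ℕ) (hs : 2 ≤ s) : ∃ C : ℝ, 0 ≤ C ∧ ∀ (ι : Type) [Fintype ι]
    (D : Arr ι μ) (pts : Finset (ℕ × ℝ)), (∀ q ∈ pts, Odd q.1) →
    (∀ S ⊆ pts, S.card = s → (univ.filter fun i => ∀ q ∈ S, i ∈ D.thr q).card < t) →
    ∀ a : ℕ, 1 ≤ a →
    ((∑ q ∈ pts, (D.thr q).card : ℕ) : ℝ) ≤
      C * (pts.card * (a : ℝ) ^ (s - 1) + Fintype.card ι + (a : ℝ) ^ s +
        (Fintype.card ι : ℝ) ^ 2 / (a : ℝ) ^ s) := by
  obtain ⟨C0, hC0, hk⟩ := kst_s s t (by omega)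
  refine ⟨μ + C0 * (2 * μ + 5), by positivity, ?_⟩
  intro ι _ D pts hodd h2 a ha
  obtain ⟨K, hK1, hK2⟩ := combs_poor s t C0 hC0 hk D pts hodd h2 a ha
  have hr := rich pts univ D.thr (fun q _ => subset_univ _) μ (a ^ s)
    (fun i _ j _ hij => combs_pair D pts i j hij)
  rw [card_univ] at hr
  set n := Fintype.card ι with hn
  have ha' : (0 : ℝ) < a := by exact_mod_cast ha
  have hL : (0 : ℝ) < (a : ℝ) ^ s := by positivity
  have hsplit : ((∑ q ∈ pts, (D.thr q).card : ℕ) : ℝ) =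
      ((∑ q ∈ pts.filter (fun q => a ^ s < (D.thr q).card), (D.thr q).card : ℕ) : ℝ) +
      ((∑ q ∈ pts.filter (fun q => (D.thr q).card ≤ a ^ s), (D.thr q).card : ℕ) : ℝ) := by
    rw [← Nat.cast_add]
    congr 1
    rw [← sum_filter_add_sum_filter_not pts (fun q => a ^ s < (D.thr q).card)]
    congr 2
    ext q
    simp
  have hrich : ((∑ q ∈ pts.filter (fun q => a ^ s < (D.thr q).card), (D.thr q).card : ℕ) : ℝ) ≤
      μ * ((n : ℝ) ^ 2 / (a : ℝ) ^ s) := by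
    rw [← mul_div_assoc, le_div_iff₀ hL, mul_comm]
    exact_mod_cast hr
  have hK : (K : ℝ) * (a : ℝ) ^ s ≤
      2 * n + 3 * (a : ℝ) ^ s + (2 * μ + 2) * ((n : ℝ) ^ 2 / (a : ℝ) ^ s) := by
    have h3 : ((a : ℝ) ^ s) ^ 2 * K ≤
        2 * (a : ℝ) ^ s * n + 3 * ((a : ℝ) ^ s) ^ 2 + (2 * μ + 2) * (n : ℝ) ^ 2 := by
      exact_mod_cast hK1
    have h5 : (a : ℝ) ^ s * ((K : ℝ) * (a : ℝ) ^ s) ≤ (a : ℝ) ^ s *
        (2 * n + 3 * (a : ℝ) ^ s + (2 * μ + 2) * ((n : ℝ) ^ 2 / (a : ℝ) ^ s)) := by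
      have h6 : (a : ℝ) ^ s *
          (2 * n + 3 * (a : ℝ) ^ s + (2 * μ + 2) * ((n : ℝ) ^ 2 / (a : ℝ) ^ s)) =
          2 * (a : ℝ) ^ s * n + 3 * ((a : ℝ) ^ s) ^ 2 + (2 * μ + 2) * (n : ℝ) ^ 2 := by
        field_simp
      rw [h6]
      nlinarith
    exact le_of_mul_le_mul_left h5 hL
  rw [hsplit]
  refine (add_le_add hrich hK2).trans ?_
  have hX : (0 : ℝ) ≤ (n : ℝ) ^ 2 / (a : ℝ) ^ s := by positivity
  have hm : (0 : ℝ) ≤ (pts.card : ℝ) * (a : ℝ) ^ (s - 1) := by positivity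
  have hn0 : (0 : ℝ) ≤ n := Nat.cast_nonneg _
  have hμ : (0 : ℝ) ≤ μ := Nat.cast_nonneg _
  set X : ℝ := (n : ℝ) ^ 2 / (a : ℝ) ^ s with hXdef
  set Y : ℝ := (pts.card : ℝ) * (a : ℝ) ^ (s - 1) with hYdef
  set L : ℝ := (a : ℝ) ^ s with hLdef
  have h1 : C0 * (Y + K * L) ≤ C0 * (Y + (2 * n + 3 * L + (2 * μ + 2) * X)) :=
    mul_le_mul_of_nonneg_left (by linarith) hC0
  have h4 : C0 * (Y + (2 * n + 3 * L + (2 * μ + 2) * X)) ≤
      C0 * ((2 * μ + 5) * (Y + n + L + X)) := by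
    apply mul_le_mul_of_nonneg_left _ hC0
    nlinarith [mul_nonneg hμ hX, mul_nonneg hμ hm, mul_nonneg hμ hn0, mul_nonneg hμ hL.le]
  have h6 : (μ : ℝ) * X ≤ μ * (Y + n + L + X) :=
    mul_le_mul_of_nonneg_left (by linarith) hμ
  calc (μ : ℝ) * X + C0 * (Y + K * L) ≤ μ * (Y + n + L + X) + C0 * ((2 * μ + 5) * (Y + n + L + X)) :=
        add_le_add h6 (h1.trans h4)
    _ = (μ + C0 * (2 * μ + 5)) * (Y + n + L + X) := by ring

end Pool.Agent.H39.HG
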