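import Pool.Agent.H22.PS.ArcDec
import Pool.Agent.H39.HG.ArcsS

/-!
# Incidences of points and irreducible algebraic curves, `K_(s,t)`-free form

Copy of the proof of `ps_alg` in `Pool/Agent/H22/PS/Alg.lean` (read it) with `arcs_s s (N * t + 1) μ'` in place of `ps_arcs μ`,
index type `ι × Fin N`, `N` from `arcDec k`: if the arc `(i, j)` goes through all points of `S` then so does the curve `i`, so at
most `N` times (number of curves through `S`) arcs go through `S`. Exceptional points of `arcDec`: at most `N` for every curve.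
-/

set_option autoImplicit false

namespace Pool.Agent.H39.HG

open Finset MvPolynomial Pool.Agent.H22.PS
open scoped Classical

private theorem algS_mem {α : Type} {p : α → Prop} {I : DecidablePred p} {s : Finset α} {a : α}
    (h : a ∈ @Finset.filter α p I s) : a ∈ s ∧ p a := Finset.mem_filter.mp h

theorem alg_s (s t k μ : ℕ) (hs : 2 ≤ s) : ∃ C : ℝ, 0 ≤ C ∧ ∀ (ι : Type) [Fintype ι]
    (g : ι → MvPolynomial (Fin 2) ℝ) (Q : Finset (ℝ × ℝ)),
    (∀ i, Irreducible (g i) ∧ (g i).totalDegree ≤ k ∧ pderiv 1 (g i) ≠ 0) →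
    (∀ i j, i ≠ j → ∃ T : Finset (ℝ × ℝ), T.card ≤ μ ∧ Zs (g i) ∩ Zs (g j) ⊆ T) →
    (∀ S ⊆ Q, S.card = s → (univ.filter fun i => ∀ p ∈ S, p ∈ Zs (g i)).card < t) →
    ∀ a : ℕ, 1 ≤ a →
    ((∑ p ∈ Q, (univ.filter fun i => p ∈ Zs (g i)).card : ℕ) : ℝ) ≤
      C * (Q.card * (a : ℝ) ^ (s - 1) + Fintype.card ι + (a : ℝ) ^ s +
        (Fintype.card ι : ℝ) ^ 2 / (a : ℝ) ^ s) := by
  obtain ⟨N, hN⟩ := arcDec k
  obtain ⟨C, hC0, hC⟩ := arcs_s s (N * t + 1) μ hs
  refine ⟨C + C * N + C * (N : ℝ) ^ 2 + N, by positivity, ?_⟩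
  intro ι _ g Q hg hT hQ A hA1
  let M : ℝ := (∑ p ∈ Q, |p.1|) + 1
  have hM : ∀ p ∈ Q, |p.1| < M := by
    intro p hp
    have := Finset.single_le_sum (f := fun p : ℝ × ℝ => |p.1|) (fun q _ => abs_nonneg _) hp
    have h2 : |p.1| ≤ ∑ p ∈ Q, |p.1| := this
    have : M = (∑ p ∈ Q, |p.1|) + 1 := rfl
    linarith
  have hdec := fun i => hN (g i) (hg i).1 (hg i).2.1 (hg i).2.2 M
  choose a b φ E hE1 hE2 hE3 hE4 hE5 using hdec
  let a' : ι × Fin N → ℝ := fun z => a z.1 z.2
  let b' : ι × Fin N → ℝ := fun z => b z.1 z.2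
  let f' : ι × Fin N → ℝ → ℝ := fun z => φ z.1 z.2
  -- an arc through `p` lies on a curve through `p`
  have hthr : ∀ (p : ℝ × ℝ) (z : ι × Fin N), z ∈ thrA a' b' f' p →
      (a z.1 z.2 < p.1 ∧ p.1 < b z.1 z.2) ∧ φ z.1 z.2 p.1 = p.2 := by
    intro p z hz
    rw [thrA, Finset.mem_filter] at hz
    exact hz.2
  have hthrZ : ∀ (p : ℝ × ℝ) (z : ι × Fin N), z ∈ thrA a' b' f' p → p ∈ Zs (g z.1) := by
    intro p z hz
    obtain ⟨h1, h2⟩ := hthr p z hz
    have := hE3 z.1 z.2 p.1 h1
    rw [h2] at this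
    exact this
  have hmain := hC (ι × Fin N) a' b' f' Q (fun z => hE2 z.1 z.2) ?_ ?_ A hA1
  · -- the final computation
    have hpt : ∀ p ∈ Q, (univ.filter fun i => p ∈ Zs (g i)).card ≤
        (thrA a' b' f' p).card + (univ.filter fun i => p ∈ E i).card := by
      intro p hp
      have hsub : (univ.filter fun i => p ∈ Zs (g i)) ⊆
          (thrA a' b' f' p).image Prod.fst ∪ (univ.filter fun i => p ∈ E i) := by
        intro i hi
        rw [Finset.mem_filter] at hi
        rw [Finset.mem_union]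
        by_cases hpE : p ∈ E i
        · right
          rw [Finset.mem_filter]
          exact ⟨Finset.mem_univ _, hpE⟩
        · left
          obtain ⟨j, hj1, hj2⟩ := hE5 i p hi.2 (hM p hp) hpE
          rw [Finset.mem_image]
          refine ⟨(i, j), ?_, rfl⟩
          rw [thrA, Finset.mem_filter]
          exact ⟨Finset.mem_univ _, hj1, hj2⟩
      refine le_trans (Finset.card_le_card hsub) (le_trans (Finset.card_union_le _ _) ?_)
      exact Nat.add_le_add_right Finset.card_image_le _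
    have hE : ∑ p ∈ Q, (univ.filter fun i => p ∈ E i).card ≤ N * Fintype.card ι := by
      have h1 : ∑ p ∈ Q, (univ.filter fun i => p ∈ E i).card =
          ∑ i : ι, (Q.filter fun p => p ∈ E i).card :=
        Finset.sum_card_bipartiteAbove_eq_sum_card_bipartiteBelow (fun p i => p ∈ E i)
      rw [h1]
      have h2 : ∀ i ∈ (univ : Finset ι), (Q.filter fun p => p ∈ E i).card ≤ N := by
        intro i _
        refine le_trans (Finset.card_le_card ?_) (hE1 i)
        intro p hp
        exact (Finset.mem_filter.mp hp).2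
      refine le_trans (Finset.sum_le_card_nsmul _ _ _ h2) ?_
      rw [smul_eq_mul, Finset.card_univ, mul_comm]
    have hsum : ∑ p ∈ Q, (univ.filter fun i => p ∈ Zs (g i)).card ≤
        (∑ p ∈ Q, (thrA a' b' f' p).card) + N * Fintype.card ι := by
      refine le_trans (Finset.sum_le_sum hpt) ?_
      rw [Finset.sum_add_distrib]
      exact Nat.add_le_add_left hE _
    have hsum' : ((∑ p ∈ Q, (univ.filter fun i => p ∈ Zs (g i)).card : ℕ) : ℝ) ≤
        ((∑ p ∈ Q, (thrA a' b' f' p).card : ℕ) : ℝ) + N * Fintype.card ι := by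
      exact_mod_cast hsum
    have hcard : (Fintype.card (ι × Fin N) : ℝ) = (Fintype.card ι : ℝ) * N := by
      rw [Fintype.card_prod, Fintype.card_fin]
      push_cast
      ring
    rw [hcard] at hmain
    have hq : 0 ≤ (Q.card : ℝ) := Nat.cast_nonneg _
    have hm : 0 ≤ (Fintype.card ι : ℝ) := Nat.cast_nonneg _
    have hNN : 0 ≤ (N : ℝ) := Nat.cast_nonneg _
    have hAA : 0 ≤ (A : ℝ) := Nat.cast_nonneg _
    have hP0 : 0 ≤ (A : ℝ) ^ (s - 1) := by positivity
    have hR0 : 0 ≤ (A : ℝ) ^ s := by positivity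
    have hI0 : 0 ≤ ((A : ℝ) ^ s)⁻¹ := by positivity
    refine le_trans hsum' (le_trans (add_le_add_left hmain _) ?_)
    rw [div_eq_mul_inv, div_eq_mul_inv, mul_pow]
    set P : ℝ := (A : ℝ) ^ (s - 1) with hPdef
    set I : ℝ := ((A : ℝ) ^ s)⁻¹ with hIdef
    set R : ℝ := (A : ℝ) ^ s with hRdef
    set q : ℝ := (Q.card : ℝ) with hqdef
    set m : ℝ := (Fintype.card ι : ℝ) with hmdef
    set n : ℝ := (N : ℝ) with hndef
    have e : (C + C * n + C * n ^ 2 + n) * (q * P + m + R + m ^ 2 * I) -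
        (C * (q * P + m * n + R + m ^ 2 * n ^ 2 * I) + n * m) =
        (C * n + C * n ^ 2 + n) * (q * P) + (C + C * n ^ 2) * m + (C * n + C * n ^ 2 + n) * R +
          (C + C * n + n) * (m ^ 2 * I) := by
      ring
    have t1 : 0 ≤ (C * n + C * n ^ 2 + n) * (q * P) := by positivity
    have t2 : 0 ≤ (C + C * n ^ 2) * m := by positivity
    have t3 : 0 ≤ (C * n + C * n ^ 2 + n) * R := by positivity
    have t4 : 0 ≤ (C + C * n + n) * (m ^ 2 * I) := by positivity
    linarith
  · -- intersections of two arcs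
    intro z w hzw
    by_cases h : z.1 = w.1
    · refine ⟨∅, by simp, ?_⟩
      intro x hx hx' hxx
      exfalso
      have hne : z.2 ≠ w.2 := fun h' => hzw (Prod.ext h h')
      have hx2 : x ∈ Set.Ioo (a z.1 w.2) (b z.1 w.2) := by
        rw [h]
        exact hx'
      refine hE4 z.1 z.2 w.2 hne x hx hx2 ?_
      have : φ z.1 z.2 x = φ w.1 w.2 x := hxx
      rw [this, h]
    · obtain ⟨T, hT1, hT2⟩ := hT z.1 w.1 h
      refine ⟨T.image Prod.fst, le_trans Finset.card_image_le hT1, ?_⟩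
      intro x hx hx' hxx
      have h1 : (x, φ z.1 z.2 x) ∈ Zs (g z.1) := hE3 z.1 z.2 x hx
      have h2 : (x, φ w.1 w.2 x) ∈ Zs (g w.1) := hE3 w.1 w.2 x hx'
      have h3 : φ z.1 z.2 x = φ w.1 w.2 x := hxx
      rw [← h3] at h2
      have h4 := hT2 ⟨h1, h2⟩
      exact Finset.mem_image.mpr ⟨_, h4, rfl⟩
  · -- the common arcs of `s` points
    intro S hS hcS
    have hlt := hQ S hS hcS
    have h2 : (univ.filter fun i => ∀ p ∈ S, p ∈ Zs (g i)).card * N ≤ N * t := by
      rw [mul_comm]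
      exact Nat.mul_le_mul_left _ hlt.le
    refine lt_of_le_of_lt (Finset.card_le_card
      (t := (univ.filter fun i => ∀ p ∈ S, p ∈ Zs (g i)) ×ˢ (univ : Finset (Fin N))) ?_) ?_
    · intro z hz
      replace hz := algS_mem hz
      rw [Finset.mem_product]
      refine ⟨?_, Finset.mem_univ _⟩
      rw [Finset.mem_filter]
      exact ⟨Finset.mem_univ _, fun p hp => hthrZ p z (hz.2 p hp)⟩
    · rw [Finset.card_product, Finset.card_univ, Fintype.card_fin]
      exact Nat.lt_succ_of_le h2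

end Pool.Agent.H39.HG
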