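import Pool.Agent.H22.PS.ArcDec
import Pool.Agent.H39.HG.Slo
import Pool.Agent.H39.HG.Cut

/-!
# Arcs with controlled slopes

`arcDec k` (with `M = 2`) gives `N0` arcs and `E0`. Let `Z` be the set of `Pool.Agent.H22.PS.crit` (abscissas of the common zeros of `f`
and `pderiv 1 f`, at most `k * k`) together with the abscissas of the sets `T` of `slope_fin` for `v = 1` and `v = -1` (if the
polynomial `pderiv 0 f + C v * pderiv 1 f` is not zero), so `#Z ≤ 3 k k =: n`. Cut every arc with `cut n`: `N = N0 (n + 1) + N0 + N0 n`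
arcs (reindex `Fin N0 × Fin (n + 1)`, pad by empty arcs) and `E = E0 ∪ {(z, φ_j z) : z ∈ Z, j}`. On a new arc `f_y ≠ 0`
(`Z` contains the critical abscissas). The function `ρ x = f_x / f_y` along the arc is continuous (`Pool.Agent.H19.RD.cont_eval`).
If `f_x + f_y = 0` or `f_x - f_y = 0` as polynomials then `|f_x| = |f_y|` on the whole arc (first alternative). Otherwise `ρ` does not
take the values `1` and `-1` on the arc, so `|ρ| - 1` has no zero on an interval and has a constant sign (intermediate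
value theorem, `isPreconnected_Ioo`), which gives one of the two alternatives.
-/

set_option autoImplicit false

namespace Pool.Agent.H39.HG

open Finset MvPolynomial Pool.Agent.H22.PS
open scoped Classical

private theorem arc1_slope (k : ℕ) (f : MvPolynomial (Fin 2) ℝ) (hf : Irreducible f)
    (hk : f.totalDegree ≤ k) (v : ℝ) :
    ∃ Z : Finset ℝ, Z.card ≤ k * k ∧ (pderiv 0 f + C v * pderiv 1 f = 0 ∨
      ∀ x y : ℝ, (x, y) ∈ Zs f → eval ![x, y] (pderiv 0 f + C v * pderiv 1 f) = 0 → x ∈ Z) := by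
  rcases slope_fin k f hf hk v with h | ⟨T, hT, h⟩
  · exact ⟨∅, by simp, Or.inl h⟩
  · refine ⟨T.image Prod.fst, Finset.card_image_le.trans hT, Or.inr ?_⟩
    intro x y hxy h0
    exact Finset.mem_image.2 ⟨(x, y), h (x, y) hxy h0, rfl⟩

private theorem arc1_cont (p : MvPolynomial (Fin 2) ℝ) (φ : ℝ → ℝ) (S : Set ℝ)
    (h : ContinuousOn φ S) : ContinuousOn (fun x => eval ![x, φ x] p) S := by
  have h3 : ContinuousOn (fun x : ℝ => ((x, φ x) : ℝ × ℝ)) S := continuousOn_id.prodMk h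
  have h4 := Continuous.comp_continuousOn (Pool.Agent.H19.RD.cont_eval p) h3
  exact h4

private theorem arc1_eval (f : MvPolynomial (Fin 2) ℝ) (v x y : ℝ) :
    eval ![x, y] (pderiv 0 f + C v * pderiv 1 f) =
      eval ![x, y] (pderiv 0 f) + v * eval ![x, y] (pderiv 1 f) := by
  rw [map_add, map_mul, eval_C]

private theorem arc1_alt (a b : ℝ) (g h : ℝ → ℝ) (hg : ContinuousOn g (Set.Ioo a b))
    (hh : ContinuousOn h (Set.Ioo a b))
    (h1 : (∀ x ∈ Set.Ioo a b, g x + h x = 0) ∨ ∀ x ∈ Set.Ioo a b, g x + h x ≠ 0)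
    (h2 : (∀ x ∈ Set.Ioo a b, g x - h x = 0) ∨ ∀ x ∈ Set.Ioo a b, g x - h x ≠ 0) :
    (∀ x ∈ Set.Ioo a b, |g x| ≤ |h x|) ∨ ∀ x ∈ Set.Ioo a b, |h x| < |g x| := by
  rcases h1 with h1 | h1
  · left
    intro x hx
    have : g x = -h x := by linarith [h1 x hx]
    rw [this, abs_neg]
  rcases h2 with h2 | h2
  · left
    intro x hx
    have : g x = h x := by linarith [h2 x hx]
    rw [this]
  by_contra hcon
  rw [not_or] at hcon
  obtain ⟨hc1, hc2⟩ := hcon
  push Not at hc1 hc2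
  obtain ⟨x1, hx1, h3⟩ := hc1
  obtain ⟨x2, hx2, h4⟩ := hc2
  have h5 : 0 ≤ g x1 ^ 2 - h x1 ^ 2 := by
    have := sq_lt_sq.2 h3
    linarith
  have h6 : g x2 ^ 2 - h x2 ^ 2 ≤ 0 := by
    have := sq_le_sq.2 h4
    linarith
  have hc : ContinuousOn (fun x => g x ^ 2 - h x ^ 2) (Set.Ioo a b) := (hg.pow 2).sub (hh.pow 2)
  obtain ⟨x, hx, h7⟩ := isPreconnected_Ioo.intermediate_value hx2 hx1 hc ⟨h6, h5⟩
  have h8 : (g x + h x) * (g x - h x) = 0 := by
    have h9 : g x ^ 2 - h x ^ 2 = 0 := h7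
    linear_combination h9
  rcases mul_eq_zero.1 h8 with h9 | h9
  · exact h1 x hx h9
  · exact h2 x hx h9

theorem arc_ref (k : ℕ) : ∃ N : ℕ, ∀ f : MvPolynomial (Fin 2) ℝ, Irreducible f →
    f.totalDegree ≤ k → pderiv 1 f ≠ 0 →
    ∃ (a b : Fin N → ℝ) (φ : Fin N → ℝ → ℝ) (E : Finset (ℝ × ℝ)), E.card ≤ N ∧
      (∀ j, ContinuousOn (φ j) (Set.Ioo (a j) (b j))) ∧
      (∀ j, ∀ x ∈ Set.Ioo (a j) (b j), (x, φ j x) ∈ Zs f ∧
        eval ![x, φ j x] (pderiv 1 f) ≠ 0) ∧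
      (∀ j, (∀ x ∈ Set.Ioo (a j) (b j),
          |eval ![x, φ j x] (pderiv 0 f)| ≤ |eval ![x, φ j x] (pderiv 1 f)|) ∨
        ∀ x ∈ Set.Ioo (a j) (b j),
          |eval ![x, φ j x] (pderiv 1 f)| < |eval ![x, φ j x] (pderiv 0 f)|) ∧
      (∀ p ∈ Zs f, (0 ≤ p.1 ∧ p.1 ≤ 1) → p ∉ E →
        ∃ j, (a j < p.1 ∧ p.1 < b j) ∧ φ j p.1 = p.2) := by
  obtain ⟨N0, hN0⟩ := arcDec k
  refine ⟨N0 * (3 * (k * k) + 1), fun f hf hk h1 => ?_⟩
  obtain ⟨a0, b0, φ0, E0, hE0, hc0, hz0, -, hcov⟩ := hN0 f hf hk h1 2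
  obtain ⟨Z1, hZ1c, hZ1⟩ := crit k f hf hk h1
  obtain ⟨Z2, hZ2c, hZ2⟩ := arc1_slope k f hf hk 1
  obtain ⟨Z3, hZ3c, hZ3⟩ := arc1_slope k f hf hk (-1)
  obtain ⟨Z, hZ⟩ : ∃ Z, Z = Z1 ∪ (Z2 ∪ Z3) := ⟨_, rfl⟩
  have hZc : Z.card ≤ 3 * (k * k) := by
    rw [hZ]
    have e1 := Finset.card_union_le Z1 (Z2 ∪ Z3)
    have e2 := Finset.card_union_le Z2 Z3
    omega
  have hs1 : ∀ x, x ∉ Z → x ∉ Z1 := fun x hx h => hx (hZ ▸ Finset.mem_union_left _ h)
  have hs2 : ∀ x, x ∉ Z → x ∉ Z2 := fun x hx h =>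
    hx (hZ ▸ Finset.mem_union_right _ (Finset.mem_union_left _ h))
  have hs3 : ∀ x, x ∉ Z → x ∉ Z3 := fun x hx h =>
    hx (hZ ▸ Finset.mem_union_right _ (Finset.mem_union_right _ h))
  choose a' b' hsub hnot hcut using fun j => cut (3 * (k * k)) (a0 j) (b0 j) Z hZc
  obtain ⟨e, -⟩ : ∃ e : Fin N0 × Fin (3 * (k * k) + 1) ≃ Fin (N0 * (3 * (k * k) + 1)), True :=
    ⟨finProdFinEquiv, trivial⟩
  obtain ⟨E1, hE1⟩ : ∃ E1 : Finset (ℝ × ℝ), E1 =
      (Z ×ˢ (univ : Finset (Fin N0))).image fun t => (t.1, φ0 t.2 t.1) := ⟨_, rfl⟩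
  have hE1c : E1.card ≤ 3 * (k * k) * N0 := by
    rw [hE1]
    refine Finset.card_image_le.trans ?_
    rw [Finset.card_product, Finset.card_univ, Fintype.card_fin]
    exact Nat.mul_le_mul_right _ hZc
  refine ⟨fun i => a' (e.symm i).1 (e.symm i).2, fun i => b' (e.symm i).1 (e.symm i).2,
    fun i => φ0 (e.symm i).1, E0 ∪ E1, ?_, ?_, ?_, ?_, ?_⟩
  · refine (Finset.card_union_le _ _).trans ?_
    have e1 : N0 * (3 * (k * k) + 1) = 3 * (k * k) * N0 + N0 := by ring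
    rw [e1]
    omega
  · intro i
    exact (hc0 (e.symm i).1).mono (hsub (e.symm i).1 (e.symm i).2)
  · intro i x hx
    have hx1 : (x, φ0 (e.symm i).1 x) ∈ Zs f :=
      hz0 (e.symm i).1 x (hsub (e.symm i).1 (e.symm i).2 hx)
    refine ⟨hx1, fun h0 => ?_⟩
    exact hs1 x (hnot (e.symm i).1 (e.symm i).2 x hx) (hZ1 x (φ0 (e.symm i).1 x) hx1 h0)
  · intro i
    beta_reduce
    generalize e.symm i = t
    obtain ⟨j, l⟩ := t
    change (∀ x ∈ Set.Ioo (a' j l) (b' j l), |eval ![x, φ0 j x] (pderiv 0 f)| ≤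
      |eval ![x, φ0 j x] (pderiv 1 f)|) ∨ ∀ x ∈ Set.Ioo (a' j l) (b' j l),
      |eval ![x, φ0 j x] (pderiv 1 f)| < |eval ![x, φ0 j x] (pderiv 0 f)|
    have hcont : ContinuousOn (φ0 j) (Set.Ioo (a' j l) (b' j l)) := (hc0 j).mono (hsub j l)
    refine arc1_alt (a' j l) (b' j l) (fun x => eval ![x, φ0 j x] (pderiv 0 f))
      (fun x => eval ![x, φ0 j x] (pderiv 1 f)) (arc1_cont _ _ _ hcont) (arc1_cont _ _ _ hcont) ?_ ?_
    · rcases hZ2 with h | h
      · left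
        intro x _
        have h3 := arc1_eval f 1 x (φ0 j x)
        rw [h, map_zero, one_mul] at h3
        exact h3.symm
      · right
        intro x hx h3
        refine hs2 x (hnot j l x hx) (h x _ (hz0 j x (hsub j l hx)) ?_)
        rw [arc1_eval, one_mul]
        exact h3
    · rcases hZ3 with h | h
      · left
        intro x _
        have h3 := arc1_eval f (-1) x (φ0 j x)
        rw [h, map_zero, neg_one_mul, ← sub_eq_add_neg] at h3
        exact h3.symm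
      · right
        intro x hx h3
        refine hs3 x (hnot j l x hx) (h x _ (hz0 j x (hsub j l hx)) ?_)
        rw [arc1_eval, neg_one_mul, ← sub_eq_add_neg]
        exact h3
  · intro p hp hp1 hpE
    rw [Finset.mem_union, not_or] at hpE
    have habs : |p.1| < 2 := by
      rw [abs_lt]
      constructor <;> linarith [hp1.1, hp1.2]
    obtain ⟨j, hj, hφ⟩ := hcov p hp habs hpE.1
    have hnZ : p.1 ∉ Z := by
      intro hz
      refine hpE.2 ?_
      rw [hE1, Finset.mem_image]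
      refine ⟨(p.1, j), Finset.mem_product.2 ⟨hz, Finset.mem_univ _⟩, ?_⟩
      exact Prod.ext rfl hφ
    obtain ⟨i, hi⟩ := hcut j p.1 hj hnZ
    refine ⟨e (j, i), ?_, ?_⟩
    · beta_reduce
      rw [Equiv.symm_apply_apply]
      exact hi
    · beta_reduce
      rw [Equiv.symm_apply_apply]
      exact hφ

end Pool.Agent.H39.HG
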