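import Pool.Agent.H39.HG.Defs

/-!
# Balancing (pure real numbers)

`n, N ≥ 1`. `bal4`: `K = max Cst ((n / N) ^ (1/3))`: `K n ^ (1/3) N ≤ Cst n ^ (1/3) N + n ^ (2/3) N ^ (2/3)` and
`n ^ (4/3) / K ^ 2 ≤ n ^ (4/3) (n / N) ^ (-2/3) = n ^ (2/3) N ^ (2/3)`. `bal5`: `K = max (that) ((n X / N) ^ (1 / (2 s - 1)))`,
`X = n ^ ((s-5)/12) log (n + 2)`: `(n X / N) ^ (1/(2s-1)) n ^ (1/3) N = n ^ (1/3) N ^ (1 - 1/(2s-1)) (n X) ^ (1/(2s-1))` and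
`n ^ (4/3) X / K ^ (2s-2) ≤ n ^ (4/3) X (n X / N) ^ (-(2s-2)/(2s-1)) =` the same.
-/

set_option autoImplicit false

namespace Pool.Agent.H39.HG

open Finset
open scoped Classical

private lemma Bal_pw (n : ℕ) : ((n : ℝ) ^ (1 / 3 : ℝ)) ^ 3 = n ∧
    (n : ℝ) ^ (2 / 3 : ℝ) = ((n : ℝ) ^ (1 / 3 : ℝ)) ^ 2 ∧
    (n : ℝ) ^ (4 / 3 : ℝ) = ((n : ℝ) ^ (1 / 3 : ℝ)) ^ 4 := by
  have h0 : (0 : ℝ) ≤ n := Nat.cast_nonneg n
  refine ⟨?_, ?_, ?_⟩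
  · rw [← Real.rpow_natCast, ← Real.rpow_mul h0]
    norm_num
  · rw [← Real.rpow_natCast, ← Real.rpow_mul h0]
    norm_num
  · rw [← Real.rpow_natCast, ← Real.rpow_mul h0]
    norm_num

private lemma Bal_third (s n N : ℕ) : 0 ≤ (if s ≤ 4 then (0 : ℝ) else
    (n : ℝ) ^ (1 / 3 : ℝ) * (N : ℝ) ^ (1 - 1 / (2 * s - 1) : ℝ) *
      ((n : ℝ) * (n : ℝ) ^ ((s - 5) / 12 : ℝ) * Real.log (n + 2)) ^ (1 / (2 * s - 1) : ℝ)) := by
  split_ifs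
  · exact le_refl 0
  · have hl : 0 ≤ Real.log ((n : ℝ) + 2) := Real.log_nonneg (by
      have : (0 : ℝ) ≤ n := Nat.cast_nonneg n
      linarith)
    positivity

/-- the abstract version: `x`, `y` are the cube roots, `T` the third term -/
private lemma Bal_core (x y T Cst : ℝ) (hx : 0 < x) (hy : 0 < y) (hT : 0 ≤ T) (hC : 1 ≤ Cst)
    (m : ℝ) (hm : m * x * y ^ 3 ≤ T) :
    max (max Cst (x / y)) m * x * y ^ 3 ≤ Cst * (x ^ 2 * y ^ 2 + x * y ^ 3 + T) ∧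
      x ^ 4 / (max (max Cst (x / y)) m) ^ 2 ≤ x ^ 2 * y ^ 2 + x * y ^ 3 + T := by
  have hpos : 0 ≤ x ^ 2 * y ^ 2 + x * y ^ 3 + T := by positivity
  have h1 : x ^ 2 * y ^ 2 + x * y ^ 3 + T ≤ Cst * (x ^ 2 * y ^ 2 + x * y ^ 3 + T) :=
    le_mul_of_one_le_left hpos hC
  have hxy : 0 < x / y := div_pos hx hy
  have hx2 : 0 ≤ x ^ 2 * y ^ 2 := by positivity
  have hx3 : 0 ≤ x * y ^ 3 := by positivity
  constructor
  · rcases le_total (max Cst (x / y)) m with h | h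
    · rw [max_eq_right h]
      linarith
    · rw [max_eq_left h]
      rcases le_total Cst (x / y) with h' | h'
      · rw [max_eq_right h']
        have : x / y * x * y ^ 3 = x ^ 2 * y ^ 2 := by
          field_simp
        rw [this]
        linarith
      · rw [max_eq_left h']
        have : Cst * x * y ^ 3 = Cst * (x * y ^ 3) := by ring
        rw [this]
        apply mul_le_mul_of_nonneg_left _ (by linarith)
        linarith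
  · have hK : x / y ≤ max (max Cst (x / y)) m := le_trans (le_max_right _ _) (le_max_left _ _)
    have h2 : (x / y) ^ 2 ≤ (max (max Cst (x / y)) m) ^ 2 := pow_le_pow_left₀ hxy.le hK 2
    have h3 : x ^ 4 / (max (max Cst (x / y)) m) ^ 2 ≤ x ^ 4 / (x / y) ^ 2 :=
      div_le_div_of_nonneg_left (by positivity) (by positivity) h2
    have h4 : x ^ 4 / (x / y) ^ 2 = x ^ 2 * y ^ 2 := by
      field_simp
    linarith

theorem bal4 (s n N : ℕ) (hn : 1 ≤ n) (hN : 1 ≤ N) (Cst : ℝ) (hC : 1 ≤ Cst) :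
    ∃ K : ℝ, Cst ≤ K ∧ K * (n : ℝ) ^ (1 / 3 : ℝ) * N ≤ Cst * FF s n N ∧
      (n : ℝ) ^ (4 / 3 : ℝ) / K ^ 2 ≤ FF s n N := by
  obtain ⟨hn3, hn2, hn4⟩ := Bal_pw n
  obtain ⟨hN3, hN2, hN4⟩ := Bal_pw N
  have hT := Bal_third s n N
  have hx : 0 < (n : ℝ) ^ (1 / 3 : ℝ) := Real.rpow_pos_of_pos (by exact_mod_cast hn) _
  have hy : 0 < (N : ℝ) ^ (1 / 3 : ℝ) := Real.rpow_pos_of_pos (by exact_mod_cast hN) _
  obtain ⟨h1, h2⟩ := Bal_core _ _ _ Cst hx hy hT hC 0 (by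
    rw [zero_mul, zero_mul]
    exact hT)
  refine ⟨max (max Cst ((n : ℝ) ^ (1 / 3 : ℝ) / (N : ℝ) ^ (1 / 3 : ℝ))) 0,
    le_trans (le_max_left _ _) (le_max_left _ _), ?_, ?_⟩
  · unfold FF
    rw [hN3, ← hn2, ← hN2] at h1
    exact h1
  · unfold FF
    rw [hN3, ← hn4, ← hn2, ← hN2] at h2
    exact h2

theorem bal5 (s n N : ℕ) (hs : 5 ≤ s) (hn : 1 ≤ n) (hN : 1 ≤ N) (Cst : ℝ) (hC : 1 ≤ Cst) :
    ∃ K : ℝ, Cst ≤ K ∧ K * (n : ℝ) ^ (1 / 3 : ℝ) * N ≤ Cst * FF s n N ∧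
      (n : ℝ) ^ (4 / 3 : ℝ) / K ^ 2 ≤ FF s n N ∧
      (n : ℝ) ^ (4 / 3 : ℝ) * (((n : ℝ) ^ ((s - 5) / 12 : ℝ) * Real.log (n + 2)) /
        K ^ (2 * s - 2)) ≤ FF s n N := by
  obtain ⟨hn3, hn2, hn4⟩ := Bal_pw n
  obtain ⟨hN3, hN2, hN4⟩ := Bal_pw N
  have hT := Bal_third s n N
  have hn0 : (0 : ℝ) < n := by exact_mod_cast hn
  have hN0 : (0 : ℝ) < N := by exact_mod_cast hN
  have hx : 0 < (n : ℝ) ^ (1 / 3 : ℝ) := Real.rpow_pos_of_pos hn0 _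
  have hy : 0 < (N : ℝ) ^ (1 / 3 : ℝ) := Real.rpow_pos_of_pos hN0 _
  have hs5 : (5 : ℝ) ≤ s := by exact_mod_cast hs
  have hs1 : (0 : ℝ) < 2 * s - 1 := by linarith
  have hlog : 0 < Real.log ((n : ℝ) + 2) := Real.log_pos (by linarith)
  have hns : 0 < (n : ℝ) ^ ((s - 5) / 12 : ℝ) := Real.rpow_pos_of_pos hn0 _
  set X : ℝ := (n : ℝ) ^ ((s - 5) / 12 : ℝ) * Real.log (n + 2) with hX
  have hX0 : 0 < X := mul_pos hns hlog
  have hnX : (n : ℝ) * (n : ℝ) ^ ((s - 5) / 12 : ℝ) * Real.log (n + 2) = n * X := by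
    rw [hX]; ring
  set M : ℝ := n * X / N with hM
  have hM0 : 0 < M := by positivity
  set e : ℝ := 1 / (2 * s - 1) with he
  have hMe : 0 < M ^ e := Real.rpow_pos_of_pos hM0 _
  have hTe : (n : ℝ) ^ (1 / 3 : ℝ) * (N : ℝ) ^ (1 - e) * ((n : ℝ) * X) ^ e =
      M ^ e * (n : ℝ) ^ (1 / 3 : ℝ) * N := by
    rw [hM, Real.div_rpow (by positivity) hN0.le, Real.rpow_sub hN0, Real.rpow_one]
    have : (N : ℝ) ^ e ≠ 0 := (Real.rpow_pos_of_pos hN0 _).ne'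
    field_simp
  have hif : (if s ≤ 4 then (0 : ℝ) else
      (n : ℝ) ^ (1 / 3 : ℝ) * (N : ℝ) ^ (1 - 1 / (2 * s - 1) : ℝ) *
      ((n : ℝ) * (n : ℝ) ^ ((s - 5) / 12 : ℝ) * Real.log (n + 2)) ^ (1 / (2 * s - 1) : ℝ)) =
      M ^ e * (n : ℝ) ^ (1 / 3 : ℝ) * N := by
    rw [if_neg (by omega), hnX, ← he, hTe]
  obtain ⟨h1, h2⟩ := Bal_core _ _ _ Cst hx hy hT hC (M ^ e) (by
    rw [hN3, hif])
  refine ⟨max (max Cst ((n : ℝ) ^ (1 / 3 : ℝ) / (N : ℝ) ^ (1 / 3 : ℝ))) (M ^ e),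
    le_trans (le_max_left _ _) (le_max_left _ _), ?_, ?_, ?_⟩
  · unfold FF
    rw [hN3, ← hn2, ← hN2] at h1
    exact h1
  · unfold FF
    rw [hN3, ← hn4, ← hn2, ← hN2] at h2
    exact h2
  · set K : ℝ := max (max Cst ((n : ℝ) ^ (1 / 3 : ℝ) / (N : ℝ) ^ (1 / 3 : ℝ))) (M ^ e) with hK
    have hKM : M ^ e ≤ K := le_max_right _ _
    have h3 : (M ^ e) ^ (2 * s - 2) ≤ K ^ (2 * s - 2) := pow_le_pow_left₀ hMe.le hKM _
    have h4 : M ^ e * (M ^ e) ^ (2 * s - 2) = M := by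
      rw [← pow_succ', ← Real.rpow_natCast, ← Real.rpow_mul hM0.le]
      have : e * ((2 * s - 2 + 1 : ℕ) : ℝ) = 1 := by
        have h5 : ((2 * s - 2 + 1 : ℕ) : ℝ) = 2 * s - 1 := by
          have : 2 * s - 2 + 1 = 2 * s - 1 := by omega
          rw [this, Nat.cast_sub (by omega)]
          push_cast
          ring
        rw [h5, he]
        field_simp
      rw [this, Real.rpow_one]
    have h5 : (n : ℝ) ^ (4 / 3 : ℝ) * (X / K ^ (2 * s - 2)) ≤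
        (n : ℝ) ^ (4 / 3 : ℝ) * (X / (M ^ e) ^ (2 * s - 2)) := by
      apply mul_le_mul_of_nonneg_left _ (by positivity)
      exact div_le_div_of_nonneg_left hX0.le (by positivity) h3
    have h6 : (n : ℝ) ^ (4 / 3 : ℝ) * (X / (M ^ e) ^ (2 * s - 2)) =
        M ^ e * (n : ℝ) ^ (1 / 3 : ℝ) * N := by
      have h7 : (M ^ e) ^ (2 * s - 2) = M / M ^ e := by
        rw [eq_div_iff hMe.ne', mul_comm]
        exact h4
      have h8 : (n : ℝ) ^ (4 / 3 : ℝ) = n * (n : ℝ) ^ (1 / 3 : ℝ) := by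
        rw [hn4]
        nth_rewrite 2 [← hn3]
        ring
      rw [h7, h8, hM]
      have := hMe.ne'
      rw [hM] at this
      field_simp
    have h9 : M ^ e * (n : ℝ) ^ (1 / 3 : ℝ) * N ≤ FF s n N := by
      unfold FF
      rw [hif]
      have : 0 ≤ (n : ℝ) ^ (2 / 3 : ℝ) * (N : ℝ) ^ (2 / 3 : ℝ) + (n : ℝ) ^ (1 / 3 : ℝ) * N := by
        positivity
      linarith
    linarith

end Pool.Agent.H39.HG
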