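import Pool.Agent.H39.HG.DefsB

/-!
# Balancing, general scale (pure real numbers)

Compare `Pool/Agent/H39/HG/Bal.lean` (finished proofs there; copy and adapt). `n, N, h ≥ 1`, `E = h n`. `balB4`: `K = max Cst ((E / N) ^ (1/3))`:
`K N ≤ Cst N + E ^ (1/3) N ^ (2/3)` and `E / K ^ 2 ≤ E (E / N) ^ (-2/3) = E ^ (1/3) N ^ (2/3)`. `balB5`: `K = max (that) ((E X / N) ^ (1 / (2 s - 1)))`,
`X = (h / u) ^ ((s-5)/4) log (h / u + 2) > 0`: `(E X / N) ^ (1/(2s-1)) N = N ^ (1 - 1/(2s-1)) (E X) ^ (1/(2s-1))` and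
`E X / K ^ (2s-2) ≤ E X (E X / N) ^ (-(2s-2)/(2s-1)) =` the same.
-/

set_option autoImplicit false

namespace Pool.Agent.H39.HG

open Finset
open scoped Classical

private lemma BalB_pw (z : ℝ) (h0 : 0 ≤ z) : (z ^ (1 / 3 : ℝ)) ^ 3 = z ∧
    z ^ (2 / 3 : ℝ) = (z ^ (1 / 3 : ℝ)) ^ 2 := by
  refine ⟨?_, ?_⟩
  · rw [← Real.rpow_natCast, ← Real.rpow_mul h0]
    norm_num
  · rw [← Real.rpow_natCast, ← Real.rpow_mul h0]
    norm_num

private lemma BalB_third (s h : ℕ) (u : ℝ) (hu : 0 < u) (n N : ℕ) : 0 ≤ (if s ≤ 4 then (0 : ℝ) else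
    (N : ℝ) ^ (1 - 1 / (2 * s - 1) : ℝ) *
      ((h : ℝ) * n * (((h : ℝ) / u) ^ ((s - 5) / 4 : ℝ) * Real.log (h / u + 2))) ^
        (1 / (2 * s - 1) : ℝ)) := by
  split_ifs
  · exact le_refl 0
  · have hl : 0 ≤ Real.log ((h : ℝ) / u + 2) := Real.log_nonneg (by
      have : (0 : ℝ) ≤ (h : ℝ) / u := by positivity
      linarith)
    positivity

/-- the abstract version: `x`, `y` are the cube roots, `T` the third term -/
private lemma BalB_core (x y T Cst : ℝ) (hx : 0 < x) (hy : 0 < y) (hT : 0 ≤ T) (hC : 1 ≤ Cst)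
    (m : ℝ) (hm : m * y ^ 3 ≤ T) :
    max (max Cst (x / y)) m * y ^ 3 ≤ Cst * (x * y ^ 2 + y ^ 3 + T) ∧
      x ^ 3 / (max (max Cst (x / y)) m) ^ 2 ≤ x * y ^ 2 + y ^ 3 + T := by
  have hpos : 0 ≤ x * y ^ 2 + y ^ 3 + T := by positivity
  have h1 : x * y ^ 2 + y ^ 3 + T ≤ Cst * (x * y ^ 2 + y ^ 3 + T) :=
    le_mul_of_one_le_left hpos hC
  have hxy : 0 < x / y := div_pos hx hy
  have hx2 : 0 ≤ x * y ^ 2 := by positivity
  have hx3 : 0 ≤ y ^ 3 := by positivity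
  constructor
  · rcases le_total (max Cst (x / y)) m with h | h
    · rw [max_eq_right h]
      linarith
    · rw [max_eq_left h]
      rcases le_total Cst (x / y) with h' | h'
      · rw [max_eq_right h']
        have : x / y * y ^ 3 = x * y ^ 2 := by
          field_simp
        rw [this]
        linarith
      · rw [max_eq_left h']
        apply mul_le_mul_of_nonneg_left _ (by linarith)
        linarith
  · have hK : x / y ≤ max (max Cst (x / y)) m := le_trans (le_max_right _ _) (le_max_left _ _)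
    have h2 : (x / y) ^ 2 ≤ (max (max Cst (x / y)) m) ^ 2 := pow_le_pow_left₀ hxy.le hK 2
    have h3 : x ^ 3 / (max (max Cst (x / y)) m) ^ 2 ≤ x ^ 3 / (x / y) ^ 2 :=
      div_le_div_of_nonneg_left (by positivity) (by positivity) h2
    have h4 : x ^ 3 / (x / y) ^ 2 = x * y ^ 2 := by
      field_simp
    linarith

theorem balB4 (s h : ℕ) (u : ℝ) (hu : 0 < u) (n N : ℕ) (hh : 1 ≤ h) (hn : 1 ≤ n) (hN : 1 ≤ N)
    (Cst : ℝ) (hC : 1 ≤ Cst) :
    ∃ K : ℝ, Cst ≤ K ∧ K * N ≤ Cst * GF s h u n N ∧ (h : ℝ) * n / K ^ 2 ≤ GF s h u n N := by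
  have hn0 : (0 : ℝ) < n := by exact_mod_cast hn
  have hh0 : (0 : ℝ) < h := by exact_mod_cast hh
  have hN0 : (0 : ℝ) < N := by exact_mod_cast hN
  have hE : (0 : ℝ) < (h : ℝ) * n := mul_pos hh0 hn0
  obtain ⟨hE3, hE2⟩ := BalB_pw ((h : ℝ) * n) hE.le
  obtain ⟨hN3, hN2⟩ := BalB_pw (N : ℝ) hN0.le
  have hT := BalB_third s h u hu n N
  have hx : 0 < ((h : ℝ) * n) ^ (1 / 3 : ℝ) := Real.rpow_pos_of_pos hE _
  have hy : 0 < (N : ℝ) ^ (1 / 3 : ℝ) := Real.rpow_pos_of_pos hN0 _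
  obtain ⟨h1, h2⟩ := BalB_core _ _ _ Cst hx hy hT hC 0 (by
    rw [zero_mul]
    exact hT)
  refine ⟨max (max Cst (((h : ℝ) * n) ^ (1 / 3 : ℝ) / (N : ℝ) ^ (1 / 3 : ℝ))) 0,
    le_trans (le_max_left _ _) (le_max_left _ _), ?_, ?_⟩
  · unfold GF
    rw [hN3, ← hN2] at h1
    exact h1
  · unfold GF
    rw [hE3, hN3, ← hN2] at h2
    exact h2

theorem balB5 (s h : ℕ) (u : ℝ) (hs : 5 ≤ s) (hu : 0 < u) (n N : ℕ) (hh : 1 ≤ h) (hn : 1 ≤ n)
    (hN : 1 ≤ N) (Cst : ℝ) (hC : 1 ≤ Cst) :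
    ∃ K : ℝ, Cst ≤ K ∧ K * N ≤ Cst * GF s h u n N ∧ (h : ℝ) * n / K ^ 2 ≤ GF s h u n N ∧
      (h : ℝ) * n * ((((h : ℝ) / u) ^ ((s - 5) / 4 : ℝ) * Real.log (h / u + 2)) /
        K ^ (2 * s - 2)) ≤ GF s h u n N := by
  have hn0 : (0 : ℝ) < n := by exact_mod_cast hn
  have hh0 : (0 : ℝ) < h := by exact_mod_cast hh
  have hN0 : (0 : ℝ) < N := by exact_mod_cast hN
  have hE : (0 : ℝ) < (h : ℝ) * n := mul_pos hh0 hn0
  have hhu : (0 : ℝ) < (h : ℝ) / u := div_pos hh0 hu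
  obtain ⟨hE3, hE2⟩ := BalB_pw ((h : ℝ) * n) hE.le
  obtain ⟨hN3, hN2⟩ := BalB_pw (N : ℝ) hN0.le
  have hT := BalB_third s h u hu n N
  have hx : 0 < ((h : ℝ) * n) ^ (1 / 3 : ℝ) := Real.rpow_pos_of_pos hE _
  have hy : 0 < (N : ℝ) ^ (1 / 3 : ℝ) := Real.rpow_pos_of_pos hN0 _
  have hs5 : (5 : ℝ) ≤ s := by exact_mod_cast hs
  have hs1 : (0 : ℝ) < 2 * s - 1 := by linarith
  have hlog : 0 < Real.log ((h : ℝ) / u + 2) := Real.log_pos (by linarith)
  have hns : 0 < ((h : ℝ) / u) ^ ((s - 5) / 4 : ℝ) := Real.rpow_pos_of_pos hhu _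
  set X : ℝ := ((h : ℝ) / u) ^ ((s - 5) / 4 : ℝ) * Real.log (h / u + 2) with hX
  have hX0 : 0 < X := mul_pos hns hlog
  set E : ℝ := (h : ℝ) * n with hEdef
  set M : ℝ := E * X / N with hM
  have hM0 : 0 < M := by positivity
  set e : ℝ := 1 / (2 * s - 1) with he
  have hMe : 0 < M ^ e := Real.rpow_pos_of_pos hM0 _
  have hTe : (N : ℝ) ^ (1 - e) * (E * X) ^ e = M ^ e * N := by
    rw [hM, Real.div_rpow (by positivity) hN0.le, Real.rpow_sub hN0, Real.rpow_one]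
    have : (N : ℝ) ^ e ≠ 0 := (Real.rpow_pos_of_pos hN0 _).ne'
    field_simp
  have hif : (if s ≤ 4 then (0 : ℝ) else
      (N : ℝ) ^ (1 - e) * (E * X) ^ e) = M ^ e * N := by
    rw [if_neg (by omega), hTe]
  obtain ⟨h1, h2⟩ := BalB_core _ _ _ Cst hx hy hT hC (M ^ e) (by
    rw [hN3, hif])
  refine ⟨max (max Cst (E ^ (1 / 3 : ℝ) / (N : ℝ) ^ (1 / 3 : ℝ))) (M ^ e),
    le_trans (le_max_left _ _) (le_max_left _ _), ?_, ?_, ?_⟩
  · unfold GF
    rw [hN3, ← hN2] at h1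
    exact h1
  · unfold GF
    rw [hE3, hN3, ← hN2] at h2
    exact h2
  · set K : ℝ := max (max Cst (E ^ (1 / 3 : ℝ) / (N : ℝ) ^ (1 / 3 : ℝ))) (M ^ e) with hK
    have hKM : M ^ e ≤ K := le_max_right _ _
    have h3 : (M ^ e) ^ (2 * s - 2) ≤ K ^ (2 * s - 2) := pow_le_pow_left₀ hMe.le hKM _
    have h4 : M ^ e * (M ^ e) ^ (2 * s - 2) = M := by
      rw [← pow_succ', ← Real.rpow_natCast, ← Real.rpow_mul hM0.le]
      have : e * ((2 * s - 2 + 1 : ℕ) : ℝ) = 1 := by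
        have h5 : ((2 * s - 2 + 1 : ℕ) : ℝ) = 2 * s - 1 := by
          have : 2 * s - 2 + 1 = 2 * s - 1 := by omega
          rw [this, Nat.cast_sub (by omega)]
          push_cast
          ring
        rw [h5, he]
        field_simp
      rw [this, Real.rpow_one]
    have h5 : E * (X / K ^ (2 * s - 2)) ≤ E * (X / (M ^ e) ^ (2 * s - 2)) := by
      apply mul_le_mul_of_nonneg_left _ (by positivity)
      exact div_le_div_of_nonneg_left hX0.le (by positivity) h3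
    have h6 : E * (X / (M ^ e) ^ (2 * s - 2)) = M ^ e * N := by
      have h7 : (M ^ e) ^ (2 * s - 2) = M / M ^ e := by
        rw [eq_div_iff hMe.ne', mul_comm]
        exact h4
      have hEX : E * X = M * N := by
        rw [hM]
        field_simp
      have hMe' := hMe.ne'
      have hM' := hM0.ne'
      rw [h7, ← mul_div_assoc, hEX]
      generalize M ^ e = Z at hMe' ⊢
      field_simp
    have h9 : M ^ e * N ≤ GF s h u n N := by
      unfold GF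
      rw [hif]
      have : 0 ≤ E ^ (1 / 3 : ℝ) * (N : ℝ) ^ (2 / 3 : ℝ) + N := by
        positivity
      linarith
    linarith

end Pool.Agent.H39.HG
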