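import Mathlib

/-!
# The sums over the scales (pure real numbers)

`geo4`: the terms with `K < C 4 ^ j` are at most `1 / 16 ^ j`, a geometric sum starting at the least such `j`, whose first term is at
most `(C / K) ^ 2`, so the sum is at most `(16 / 15) (C / K) ^ 2`. `geo1`: the same with `1 / 2 ^ j`: at most `2 (C / K) ^ (1/2) ≤ 2 (C + 1)` for `K ≥ 1`.
(Only the stated forms are needed: for `geo1` it is enough that `∑ 1 / 2 ^ j ≤ 2`.)
`geo5`: with `4 ^ j < n ^ (1/6)`, `(2 ^ j) ^ (s + 2) / (2 ^ j) ^ 7 = (2 ^ j) ^ (s - 5) ≤ n ^ ((s - 5) / 12)` and the number of such `j` is at most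
`1 + log n / (12 log 2) ≤ 3 log (n + 2)` (`j log 4 < log n / 6`, `log (n + 2) ≥ 1`).
-/

set_option autoImplicit false

namespace Pool.Agent.H39.HG

open Finset
open scoped Classical

private theorem Geo_aux (n : ℕ) (C K : ℝ) (hC : 1 ≤ C) (hK : 1 ≤ K) :
    ∑ j ∈ (range n).filter (fun j => K < C * 4 ^ j), 1 / ((2 : ℝ) ^ j) ^ 4 ≤
      16 / 15 * max 0 ((C / K) ^ 2 - 1 / ((2 : ℝ) ^ n) ^ 4) := by
  have hK0 : 0 < K := by linarith
  have hC0 : 0 < C := by linarith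
  induction n with
  | zero =>
    simp only [range_zero, filter_empty, sum_empty]
    positivity
  | succ n ih =>
    have h2 : (0 : ℝ) < 2 ^ n := by positivity
    have h16 : 1 / ((2 : ℝ) ^ (n + 1)) ^ 4 = 1 / 16 * (1 / ((2 : ℝ) ^ n) ^ 4) := by
      rw [pow_succ (2 : ℝ) n, mul_pow]
      field_simp
      norm_num
    have h4 : ((4 : ℝ) ^ n) ^ 2 = ((2 : ℝ) ^ n) ^ 4 := by
      rw [← pow_mul, ← pow_mul, show (4 : ℝ) = 2 ^ 2 by norm_num, ← pow_mul]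
      congr 1
      ring
    rw [range_add_one, filter_insert]
    by_cases hn : K < C * 4 ^ n
    · rw [if_pos hn, sum_insert (by simp)]
      have hb : 1 / ((2 : ℝ) ^ n) ^ 4 < (C / K) ^ 2 := by
        rw [← h4, div_pow, div_lt_div_iff₀ (by positivity) (by positivity), one_mul, ← mul_pow]
        exact pow_lt_pow_left₀ hn hK0.le two_ne_zero
      rw [max_eq_right (by linarith)] at ih
      rw [h16, max_eq_right (by
        have : (0 : ℝ) < 1 / ((2 : ℝ) ^ n) ^ 4 := by positivity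
        linarith)]
      linarith
    · rw [if_neg hn]
      refine ih.trans ?_
      have h0 : (0 : ℝ) < 1 / ((2 : ℝ) ^ n) ^ 4 := by positivity
      refine mul_le_mul_of_nonneg_left (max_le_max le_rfl ?_) (by norm_num)
      rw [h16]
      linarith

theorem geo4 (n : ℕ) (C K : ℝ) (hC : 1 ≤ C) (hK : 1 ≤ K) :
    ∑ j ∈ (range n).filter (fun j => K < C * 4 ^ j), 1 / ((2 : ℝ) ^ j) ^ 4 ≤
      2 * C ^ 2 / K ^ 2 := by
  have hK0 : 0 < K := by linarith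
  refine (Geo_aux n C K hC hK).trans ?_
  have h0 : (0 : ℝ) < 1 / ((2 : ℝ) ^ n) ^ 4 := by positivity
  have h1 : max 0 ((C / K) ^ 2 - 1 / ((2 : ℝ) ^ n) ^ 4) ≤ (C / K) ^ 2 :=
    max_le (by positivity) (by linarith)
  have h2 : (0 : ℝ) ≤ (C / K) ^ 2 := by positivity
  have h3 : 2 * C ^ 2 / K ^ 2 = 2 * (C / K) ^ 2 := by
    rw [div_pow]
    ring
  rw [h3]
  linarith

theorem geo1 (n : ℕ) (K : ℝ) (hK : 1 ≤ K) :
    ∑ j ∈ range n, ((2 : ℝ) ^ j) ^ 6 / (((2 : ℝ) ^ j) ^ 7 * K ^ 6) ≤ 2 / K ^ 2 := by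
  have hK0 : 0 < K := by linarith
  have h1 : ∀ m : ℕ, ∑ j ∈ range m, ((2 : ℝ) ^ j) ^ 6 / (((2 : ℝ) ^ j) ^ 7 * K ^ 6) =
      (2 - 2 / 2 ^ m) / K ^ 6 := by
    intro m
    induction m with
    | zero => norm_num
    | succ m ih =>
      rw [sum_range_succ, ih]
      have h2 : (0 : ℝ) < 2 ^ m := by positivity
      field_simp
      ring
  rw [h1]
  have h3 : K ^ 2 ≤ K ^ 6 := pow_le_pow_right₀ hK (by norm_num)
  have h4 : (0 : ℝ) < 2 / 2 ^ n := by positivity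
  calc (2 - 2 / 2 ^ n) / K ^ 6 ≤ 2 / K ^ 6 := by
        gcongr
        linarith
    _ ≤ 2 / K ^ 2 := by gcongr

theorem geo5 (s n : ℕ) (K : ℝ) (hs : 5 ≤ s) (hn : 1 ≤ n) (hK : 1 ≤ K) :
    ∑ j ∈ (range n).filter (fun j => (4 : ℝ) ^ j < (n : ℝ) ^ (1 / 6 : ℝ)),
      ((2 : ℝ) ^ j) ^ (s + 2) / (((2 : ℝ) ^ j) ^ 7 * K ^ (2 * s - 2)) ≤
      3 * ((n : ℝ) ^ ((s - 5) / 12 : ℝ) * Real.log (n + 2)) / K ^ (2 * s - 2) := by
  have hK0 : 0 < K := by linarith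
  have hn1 : (1 : ℝ) ≤ n := by exact_mod_cast hn
  have hn0 : (0 : ℝ) < n := by linarith
  obtain ⟨t, rfl⟩ := Nat.exists_eq_add_of_le hs
  set S := (range n).filter (fun j => (4 : ℝ) ^ j < (n : ℝ) ^ (1 / 6 : ℝ)) with hS
  have ht : (((5 + t : ℕ) : ℝ) - 5) / 12 = (1 / 12 : ℝ) * t := by
    push_cast
    ring
  rw [ht]
  -- each term
  have hterm : ∀ j ∈ S, ((2 : ℝ) ^ j) ^ (5 + t + 2) / (((2 : ℝ) ^ j) ^ 7 * K ^ (2 * (5 + t) - 2)) ≤
      (n : ℝ) ^ ((1 / 12 : ℝ) * t) / K ^ (2 * (5 + t) - 2) := by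
    intro j hj
    have hj4 : (4 : ℝ) ^ j < (n : ℝ) ^ (1 / 6 : ℝ) := (mem_filter.1 hj).2
    have h2 : (0 : ℝ) < 2 ^ j := by positivity
    have h12 : (0 : ℝ) < (n : ℝ) ^ (1 / 12 : ℝ) := Real.rpow_pos_of_pos hn0 _
    have hsq : ((n : ℝ) ^ (1 / 12 : ℝ)) ^ 2 = (n : ℝ) ^ (1 / 6 : ℝ) := by
      rw [← Real.rpow_natCast, ← Real.rpow_mul hn0.le]
      norm_num
    have h44 : ((2 : ℝ) ^ j) ^ 2 = 4 ^ j := by
      rw [← pow_mul, mul_comm, pow_mul]
      norm_num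
    have hle : (2 : ℝ) ^ j ≤ (n : ℝ) ^ (1 / 12 : ℝ) := by
      refine le_of_lt (lt_of_pow_lt_pow_left₀ 2 h12.le ?_)
      rw [hsq, h44]
      exact hj4
    have he : ((2 : ℝ) ^ j) ^ (5 + t + 2) / (((2 : ℝ) ^ j) ^ 7 * K ^ (2 * (5 + t) - 2)) =
        ((2 : ℝ) ^ j) ^ t / K ^ (2 * (5 + t) - 2) := by
      rw [show 5 + t + 2 = 7 + t by ring, pow_add]
      rw [mul_div_mul_left _ _ (by positivity)]
    rw [he, Real.rpow_mul hn0.le, Real.rpow_natCast]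
    gcongr
  -- the number of terms
  have hlog2 : 0 < Real.log 2 := Real.log_pos (by norm_num)
  have hcard : (S.card : ℝ) ≤ 3 * Real.log (n + 2) := by
    set x : ℝ := Real.log n / (12 * Real.log 2) with hx
    have hx0 : 0 ≤ x := div_nonneg (Real.log_nonneg hn1) (by positivity)
    have hsub : S ⊆ range (⌊x⌋₊ + 1) := by
      intro j hj
      have hj4 : (4 : ℝ) ^ j < (n : ℝ) ^ (1 / 6 : ℝ) := (mem_filter.1 hj).2
      have h1 := Real.log_lt_log (by positivity) hj4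
      rw [Real.log_pow, Real.log_rpow hn0, show (4 : ℝ) = 2 ^ 2 by norm_num, Real.log_pow] at h1
      push_cast at h1
      have h2 : (j : ℝ) ≤ x := by
        rw [hx, le_div_iff₀ (by positivity)]
        linarith
      rw [mem_range]
      exact Nat.lt_succ_of_le (Nat.le_floor h2)
    have hc : S.card ≤ ⌊x⌋₊ + 1 := by
      have := card_le_card hsub
      rwa [card_range] at this
    have hc2 : (S.card : ℝ) ≤ x + 1 := by
      have h3 : (S.card : ℝ) ≤ (⌊x⌋₊ : ℝ) + 1 := by exact_mod_cast hc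
      have h4 := Nat.floor_le hx0
      linarith
    have hl2 : (0.6931471803 : ℝ) < Real.log 2 := Real.log_two_gt_d9
    have hxl : x ≤ Real.log n := by
      rw [hx]
      refine div_le_self (Real.log_nonneg hn1) ?_
      linarith
    have h5 : Real.log n ≤ Real.log (n + 2) := Real.log_le_log hn0 (by linarith)
    have h6 : (1 : ℝ) ≤ 2 * Real.log (n + 2) := by
      have h7 : Real.log 2 ≤ Real.log (n + 2) := Real.log_le_log (by norm_num) (by linarith)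
      linarith
    linarith
  have hb : (0 : ℝ) ≤ (n : ℝ) ^ ((1 / 12 : ℝ) * t) / K ^ (2 * (5 + t) - 2) := by positivity
  calc ∑ j ∈ S, ((2 : ℝ) ^ j) ^ (5 + t + 2) / (((2 : ℝ) ^ j) ^ 7 * K ^ (2 * (5 + t) - 2))
      ≤ S.card • ((n : ℝ) ^ ((1 / 12 : ℝ) * t) / K ^ (2 * (5 + t) - 2)) :=
        sum_le_card_nsmul _ _ _ hterm
    _ = (S.card : ℝ) * ((n : ℝ) ^ ((1 / 12 : ℝ) * t) / K ^ (2 * (5 + t) - 2)) := nsmul_eq_mul _ _
    _ ≤ (3 * Real.log (n + 2)) * ((n : ℝ) ^ ((1 / 12 : ℝ) * t) / K ^ (2 * (5 + t) - 2)) :=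
        mul_le_mul_of_nonneg_right hcard hb
    _ = 3 * ((n : ℝ) ^ ((1 / 12 : ℝ) * t) * Real.log (n + 2)) / K ^ (2 * (5 + t) - 2) := by
        ring

end Pool.Agent.H39.HG
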