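import Pool.Agent.H39.HG.Scal
import Pool.Agent.H39.HG.Geo
import Pool.Agent.H39.HG.Bal

/-!
# Theorem A

If `Fintype.card ι = 0` the left side is `0`. Otherwise take `K` from `bal4` (for `s = 4`) or `bal5` (for `s ≥ 5`) and apply `scales`; the sum
over `j` is at most (drop one of the two filter conditions for every part, `sum_le_sum_of_subset_of_nonneg`) `geo4 + geo1` for `s = 4`
(`s + 2 = 6`, `2 s - 2 = 6`) and `geo4 + geo5` for `s ≥ 5`.
-/

set_option autoImplicit false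

namespace Pool.Agent.H39.HG

open Finset
open scoped Classical

theorem core (s h : ℕ) (hs : 4 ≤ s) (S C1 κ0 : ℝ) (hS : 0 ≤ S) (hC1 : 0 ≤ C1) :
    ∃ C : ℝ, 1 ≤ C ∧
    ∀ (P : Finset (ℝ × ℝ)) (ι : Type) [Fintype ι] (U : ι → Set (ℝ × ℝ))
    (m σ : ι → ℝ × ℝ → ℝ), 1 ≤ P.card → Hom h ((P.card : ℝ) ^ (-(1 / 2) : ℝ)) P →
    (∀ i, Lab S (U i) (m i) (σ i)) →
    (∀ Q ⊆ P, ∀ κ : ℝ, κ0 ≤ κ → ∀ Λ : Finset ι,
      (∀ i ∈ Λ, κ ≤ ((Q.filter fun p => p ∈ U i).card : ℝ)) →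
      (∑ i ∈ Λ, ((Q.filter fun p => p ∈ U i).card : ℝ)) * κ ^ (2 * s - 2) ≤
        C1 * ((Q.card : ℝ) ^ s + Q.card * κ ^ (2 * s - 2))) →
    (∑ i, ((P.filter fun p => p ∈ U i).card : ℝ)) ≤ C * FF s P.card (Fintype.card ι) := by
  obtain ⟨C, Cst, hC, hCst, H⟩ := scales s h (by omega) S C1 κ0 hS hC1
  have hC' : 1 ≤ C * (Cst + 3 + 2 * C ^ 2) := by
    have h1 : 1 ≤ Cst + 3 + 2 * C ^ 2 := by nlinarith [sq_nonneg C]
    nlinarith [mul_le_mul hC h1 (by norm_num) (by linarith)]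
  refine ⟨C * (Cst + 3 + 2 * C ^ 2), hC', ?_⟩
  intro P ι _ U m σ hP hHom hLab hcomb
  have h0 := H P ι U m σ hP hHom hLab hcomb
  rcases Nat.eq_zero_or_pos (Fintype.card ι) with hι | hι
  · have hemp : IsEmpty ι := Fintype.card_eq_zero_iff.mp hι
    have hn1 : (1 : ℝ) ≤ P.card := by exact_mod_cast hP
    have hF : 0 ≤ FF s P.card (Fintype.card ι) := by
      unfold FF
      rw [hι]
      have hlog : 0 ≤ Real.log ((P.card : ℝ) + 2) := Real.log_nonneg (by linarith)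
      positivity
    rw [Finset.univ_eq_empty, Finset.sum_empty]
    exact mul_nonneg (by linarith) hF
  · have key : ∀ K : ℝ, Cst ≤ K →
        K * (P.card : ℝ) ^ (1 / 3 : ℝ) * (Fintype.card ι : ℝ) ≤ Cst * FF s P.card (Fintype.card ι) →
        (P.card : ℝ) ^ (4 / 3 : ℝ) / K ^ 2 ≤ FF s P.card (Fintype.card ι) →
        ∀ T : ℝ, (P.card : ℝ) ^ (4 / 3 : ℝ) * T ≤ 3 * FF s P.card (Fintype.card ι) →
        ∑ j ∈ (range P.card).filter
            (fun j => K < C * 4 ^ j ∧ (4 : ℝ) ^ j < (P.card : ℝ) ^ (1 / 6 : ℝ)),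
          ((2 : ℝ) ^ j) ^ (s + 2) / (((2 : ℝ) ^ j) ^ 7 * K ^ (2 * s - 2)) ≤ T →
        (∑ i, ((P.filter fun p => p ∈ U i).card : ℝ)) ≤
          C * (Cst + 3 + 2 * C ^ 2) * FF s P.card (Fintype.card ι) := by
      intro K hK hb1 hb2 T hT hsum
      have hK1 : 1 ≤ K := le_trans hCst hK
      have hg4 := geo4 P.card C K hC hK1
      have hsub : ∑ j ∈ (range P.card).filter
            (fun j => K < C * 4 ^ j ∧ (4 : ℝ) ^ j < (P.card : ℝ) ^ (1 / 6 : ℝ)),
          1 / ((2 : ℝ) ^ j) ^ 4 ≤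
          ∑ j ∈ (range P.card).filter (fun j => K < C * 4 ^ j), 1 / ((2 : ℝ) ^ j) ^ 4 := by
        apply Finset.sum_le_sum_of_subset_of_nonneg
        · intro j hj
          rw [Finset.mem_filter] at hj ⊢
          exact ⟨hj.1, hj.2.1⟩
        · intro j _ _
          positivity
      have hn0 : (0 : ℝ) ≤ (P.card : ℝ) ^ (4 / 3 : ℝ) := by positivity
      have h2 := h0 K hK
      rw [Finset.sum_add_distrib] at h2
      have h3 : (P.card : ℝ) ^ (4 / 3 : ℝ) *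
          (∑ j ∈ (range P.card).filter
            (fun j => K < C * 4 ^ j ∧ (4 : ℝ) ^ j < (P.card : ℝ) ^ (1 / 6 : ℝ)),
            ((2 : ℝ) ^ j) ^ (s + 2) / (((2 : ℝ) ^ j) ^ 7 * K ^ (2 * s - 2)) +
          ∑ j ∈ (range P.card).filter
            (fun j => K < C * 4 ^ j ∧ (4 : ℝ) ^ j < (P.card : ℝ) ^ (1 / 6 : ℝ)),
            1 / ((2 : ℝ) ^ j) ^ 4) ≤
          (3 + 2 * C ^ 2) * FF s P.card (Fintype.card ι) := by
        have e1 : (P.card : ℝ) ^ (4 / 3 : ℝ) *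
          (∑ j ∈ (range P.card).filter
            (fun j => K < C * 4 ^ j ∧ (4 : ℝ) ^ j < (P.card : ℝ) ^ (1 / 6 : ℝ)),
            ((2 : ℝ) ^ j) ^ (s + 2) / (((2 : ℝ) ^ j) ^ 7 * K ^ (2 * s - 2)) +
          ∑ j ∈ (range P.card).filter
            (fun j => K < C * 4 ^ j ∧ (4 : ℝ) ^ j < (P.card : ℝ) ^ (1 / 6 : ℝ)),
            1 / ((2 : ℝ) ^ j) ^ 4) ≤
          (P.card : ℝ) ^ (4 / 3 : ℝ) * (T + 2 * C ^ 2 / K ^ 2) :=
          mul_le_mul_of_nonneg_left (add_le_add hsum (le_trans hsub hg4)) hn0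
        have e2 : (P.card : ℝ) ^ (4 / 3 : ℝ) * (T + 2 * C ^ 2 / K ^ 2) =
            (P.card : ℝ) ^ (4 / 3 : ℝ) * T + 2 * C ^ 2 * ((P.card : ℝ) ^ (4 / 3 : ℝ) / K ^ 2) := by
          ring
        have e3 : 2 * C ^ 2 * ((P.card : ℝ) ^ (4 / 3 : ℝ) / K ^ 2) ≤
            2 * C ^ 2 * FF s P.card (Fintype.card ι) :=
          mul_le_mul_of_nonneg_left hb2 (by positivity)
        linarith
      have h4 : C * (K * (P.card : ℝ) ^ (1 / 3 : ℝ) * Fintype.card ι + (P.card : ℝ) ^ (4 / 3 : ℝ) *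
          (∑ j ∈ (range P.card).filter
            (fun j => K < C * 4 ^ j ∧ (4 : ℝ) ^ j < (P.card : ℝ) ^ (1 / 6 : ℝ)),
            ((2 : ℝ) ^ j) ^ (s + 2) / (((2 : ℝ) ^ j) ^ 7 * K ^ (2 * s - 2)) +
          ∑ j ∈ (range P.card).filter
            (fun j => K < C * 4 ^ j ∧ (4 : ℝ) ^ j < (P.card : ℝ) ^ (1 / 6 : ℝ)),
            1 / ((2 : ℝ) ^ j) ^ 4)) ≤
          C * (Cst * FF s P.card (Fintype.card ι) +
            (3 + 2 * C ^ 2) * FF s P.card (Fintype.card ι)) :=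
        mul_le_mul_of_nonneg_left (add_le_add hb1 h3) (by linarith)
      calc _ ≤ _ := h2
        _ ≤ _ := h4
        _ = _ := by ring
    rcases Nat.lt_or_ge s 5 with hs5 | hs5
    · have hs4 : s = 4 := by omega
      subst hs4
      obtain ⟨K, hK, hb1, hb2⟩ := bal4 4 P.card (Fintype.card ι) hP hι Cst hCst
      have hK1 : 1 ≤ K := le_trans hCst hK
      have hg1 := geo1 P.card K hK1
      have hF : 0 ≤ FF 4 P.card (Fintype.card ι) := le_trans (by positivity) hb2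
      refine key K hK hb1 hb2 (2 / K ^ 2) ?_ ?_
      · have e : (P.card : ℝ) ^ (4 / 3 : ℝ) * (2 / K ^ 2) =
            2 * ((P.card : ℝ) ^ (4 / 3 : ℝ) / K ^ 2) := by ring
        rw [e]
        linarith
      · refine le_trans ?_ hg1
        have e46 : 4 + 2 = 6 := rfl
        have e26 : 2 * 4 - 2 = 6 := rfl
        rw [e46, e26]
        apply Finset.sum_le_sum_of_subset_of_nonneg
        · exact Finset.filter_subset _ _
        · intro j _ _
          positivity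
    · obtain ⟨K, hK, hb1, hb2, hb3⟩ := bal5 s P.card (Fintype.card ι) hs5 hP hι Cst hCst
      have hK1 : 1 ≤ K := le_trans hCst hK
      have hg5 := geo5 s P.card K hs5 hP hK1
      refine key K hK hb1 hb2 (3 * ((P.card : ℝ) ^ ((s - 5) / 12 : ℝ) *
        Real.log (P.card + 2)) / K ^ (2 * s - 2)) ?_ ?_
      · have e : (P.card : ℝ) ^ (4 / 3 : ℝ) * (3 * ((P.card : ℝ) ^ ((s - 5) / 12 : ℝ) *
            Real.log (P.card + 2)) / K ^ (2 * s - 2)) =
            3 * ((P.card : ℝ) ^ (4 / 3 : ℝ) * (((P.card : ℝ) ^ ((s - 5) / 12 : ℝ) *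
              Real.log (P.card + 2)) / K ^ (2 * s - 2))) := by ring
        rw [e]
        linarith
      · refine le_trans ?_ hg5
        apply Finset.sum_le_sum_of_subset_of_nonneg
        · intro j hj
          rw [Finset.mem_filter] at hj ⊢
          exact ⟨hj.1, hj.2.2⟩
        · intro j _ _
          positivity

end Pool.Agent.H39.HG
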