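import Mathlib

/-!
# The sum over the scales for `s ≥ 5`, general form (pure real numbers)

The same as `geo5` in `Pool/Agent/H39/HG/Geo.lean` (finished proof there; copy and adapt): `16 ^ j < A` gives `2 ^ j < A ^ (1/4)`,
`(2 ^ j) ^ (s + 2) / (2 ^ j) ^ 7 = (2 ^ j) ^ (s - 5) ≤ A ^ ((s - 5) / 4)`, and the number of such `j` is at most
`1 + log A / log 16 ≤ 3 log (A + 2)` (`A ≥ 1`, `log 3 ≥ 1`).
-/

set_option autoImplicit false

namespace Pool.Agent.H39.HG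

open Finset
open scoped Classical

theorem geoB (s J : ℕ) (A K : ℝ) (hs : 5 ≤ s) (hA : 1 ≤ A) (hK : 1 ≤ K) :
    ∑ j ∈ (range J).filter (fun j => (16 : ℝ) ^ j < A),
      ((2 : ℝ) ^ j) ^ (s + 2) / (((2 : ℝ) ^ j) ^ 7 * K ^ (2 * s - 2)) ≤
      3 * (A ^ ((s - 5) / 4 : ℝ) * Real.log (A + 2)) / K ^ (2 * s - 2) := by
  have hK0 : 0 < K := by linarith
  have hn0 : (0 : ℝ) < A := by linarith
  obtain ⟨t, rfl⟩ := Nat.exists_eq_add_of_le hs
  set S := (range J).filter (fun j => (16 : ℝ) ^ j < A) with hS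
  have ht : (((5 + t : ℕ) : ℝ) - 5) / 4 = (1 / 4 : ℝ) * t := by
    push_cast
    ring
  rw [ht]
  -- each term
  have hterm : ∀ j ∈ S, ((2 : ℝ) ^ j) ^ (5 + t + 2) / (((2 : ℝ) ^ j) ^ 7 * K ^ (2 * (5 + t) - 2)) ≤
      A ^ ((1 / 4 : ℝ) * t) / K ^ (2 * (5 + t) - 2) := by
    intro j hj
    have hj4 : (16 : ℝ) ^ j < A := (mem_filter.1 hj).2
    have h2 : (0 : ℝ) < 2 ^ j := by positivity
    have h12 : (0 : ℝ) < A ^ (1 / 4 : ℝ) := Real.rpow_pos_of_pos hn0 _
    have hsq : (A ^ (1 / 4 : ℝ)) ^ 4 = A := by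
      rw [← Real.rpow_natCast, ← Real.rpow_mul hn0.le]
      norm_num
    have h44 : ((2 : ℝ) ^ j) ^ 4 = 16 ^ j := by
      rw [← pow_mul, mul_comm, pow_mul]
      norm_num
    have hle : (2 : ℝ) ^ j ≤ A ^ (1 / 4 : ℝ) := by
      refine le_of_lt (lt_of_pow_lt_pow_left₀ 4 h12.le ?_)
      rw [hsq, h44]
      exact hj4
    have he : ((2 : ℝ) ^ j) ^ (5 + t + 2) / (((2 : ℝ) ^ j) ^ 7 * K ^ (2 * (5 + t) - 2)) =
        ((2 : ℝ) ^ j) ^ t / K ^ (2 * (5 + t) - 2) := by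
      rw [show 5 + t + 2 = 7 + t by ring, pow_add]
      rw [mul_div_mul_left _ _ (by positivity)]
    rw [he, Real.rpow_mul hn0.le, Real.rpow_natCast]
    gcongr
  -- the number of terms
  have hlog2 : 0 < Real.log 2 := Real.log_pos (by norm_num)
  have hcard : (S.card : ℝ) ≤ 3 * Real.log (A + 2) := by
    set x : ℝ := Real.log A / (4 * Real.log 2) with hx
    have hx0 : 0 ≤ x := div_nonneg (Real.log_nonneg hA) (by positivity)
    have hsub : S ⊆ range (⌊x⌋₊ + 1) := by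
      intro j hj
      have hj4 : (16 : ℝ) ^ j < A := (mem_filter.1 hj).2
      have h1 := Real.log_lt_log (by positivity) hj4
      rw [Real.log_pow, show (16 : ℝ) = 2 ^ 4 by norm_num, Real.log_pow] at h1
      push_cast at h1
      have h2 : (j : ℝ) ≤ x := by
        rw [hx, le_div_iff₀ (by positivity)]
        linarith
      rw [mem_range]
      exact Nat.lt_succ_of_le (Nat.le_floor h2)
    have hc : S.card ≤ ⌊x⌋₊ + 1 := by
      have := card_le_card hsub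
      rwa [card_range] at this
    have hc2 : (S.card : ℝ) ≤ x + 1 := by
      have h3 : (S.card : ℝ) ≤ (⌊x⌋₊ : ℝ) + 1 := by exact_mod_cast hc
      have h4 := Nat.floor_le hx0
      linarith
    have hl2 : (0.6931471803 : ℝ) < Real.log 2 := Real.log_two_gt_d9
    have hxl : x ≤ Real.log A := by
      rw [hx]
      refine div_le_self (Real.log_nonneg hA) ?_
      linarith
    have h5 : Real.log A ≤ Real.log (A + 2) := Real.log_le_log hn0 (by linarith)
    have h6 : (1 : ℝ) ≤ 2 * Real.log (A + 2) := by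
      have h7 : Real.log 2 ≤ Real.log (A + 2) := Real.log_le_log (by norm_num) (by linarith)
      linarith
    linarith
  have hb : (0 : ℝ) ≤ A ^ ((1 / 4 : ℝ) * t) / K ^ (2 * (5 + t) - 2) := by positivity
  calc ∑ j ∈ S, ((2 : ℝ) ^ j) ^ (5 + t + 2) / (((2 : ℝ) ^ j) ^ 7 * K ^ (2 * (5 + t) - 2))
      ≤ S.card • (A ^ ((1 / 4 : ℝ) * t) / K ^ (2 * (5 + t) - 2)) :=
        sum_le_card_nsmul _ _ _ hterm
    _ = (S.card : ℝ) * (A ^ ((1 / 4 : ℝ) * t) / K ^ (2 * (5 + t) - 2)) := nsmul_eq_mul _ _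
    _ ≤ (3 * Real.log (A + 2)) * (A ^ ((1 / 4 : ℝ) * t) / K ^ (2 * (5 + t) - 2)) :=
        mul_le_mul_of_nonneg_right hcard hb
    _ = 3 * (A ^ ((1 / 4 : ℝ) * t) * Real.log (A + 2)) / K ^ (2 * (5 + t) - 2) := by
        ring
end Pool.Agent.H39.HG
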