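import Pool.Agent.H39.HG.ScalB
import Pool.Agent.H39.HG.Geo
import Pool.Agent.H39.HG.GeoB
import Pool.Agent.H39.HG.BalB

/-!
# Theorem A, general scale

The same as `Pool/Agent/H39/HG/Core.lean` (finished proof there; copy and adapt) with `scalesB`, `geo4`, `geo1`, `geoB` (with `A = h / u ≥ 1`), `balB4`, `balB5`. If
`P` is empty the left side is `0`.
-/

set_option autoImplicit false

namespace Pool.Agent.H39.HG

open Finset
open scoped Classical

private theorem CoreB_GF0 (s h : ℕ) (u : ℝ) (hu : 0 < u) (n N : ℕ) : 0 ≤ GF s h u n N := by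
  have h0 : (0 : ℝ) ≤ (h : ℝ) / u := div_nonneg (Nat.cast_nonneg h) hu.le
  have h1 : 0 ≤ ((h : ℝ) / u) ^ ((s - 5) / 4 : ℝ) * Real.log (h / u + 2) :=
    mul_nonneg (Real.rpow_nonneg h0 _) (Real.log_nonneg (by linarith))
  unfold GF
  split_ifs
  · positivity
  · have h2 := Real.rpow_nonneg (mul_nonneg (show (0 : ℝ) ≤ (h : ℝ) * n by positivity) h1)
      (1 / (2 * s - 1) : ℝ)
    have h3 : (0 : ℝ) ≤ (N : ℝ) ^ (1 - 1 / (2 * s - 1) : ℝ) := Real.rpow_nonneg (by positivity) _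
    have h4 := mul_nonneg h3 h2
    have h5 : (0 : ℝ) ≤ ((h : ℝ) * n) ^ (1 / 3 : ℝ) * (N : ℝ) ^ (2 / 3 : ℝ) + N := by positivity
    linarith

theorem coreB (s : ℕ) (hs : 4 ≤ s) (S C1 κ0 : ℝ) (hS : 0 ≤ S) (hC1 : 0 ≤ C1) :
    ∃ C : ℝ, 1 ≤ C ∧
    ∀ (h : ℕ) (r u : ℝ), 1 ≤ h → 0 < r → 0 < u → r ^ 2 = h * u ^ 3 → h * u ≤ 1 →
    ∀ (P : Finset (ℝ × ℝ)) (ι : Type) [Fintype ι] (U : ι → Set (ℝ × ℝ))
    (m σ : ι → ℝ × ℝ → ℝ), (P.card : ℝ) * u ^ 3 ≤ 4 → Hom h r P →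
    (∀ i, Lab S (U i) (m i) (σ i)) →
    (∀ Q ⊆ P, ∀ κ : ℝ, κ0 ≤ κ → ∀ Λ : Finset ι,
      (∀ i ∈ Λ, κ ≤ ((Q.filter fun p => p ∈ U i).card : ℝ)) →
      (∑ i ∈ Λ, ((Q.filter fun p => p ∈ U i).card : ℝ)) * κ ^ (2 * s - 2) ≤
        C1 * ((Q.card : ℝ) ^ s + Q.card * κ ^ (2 * s - 2))) →
    (∑ i, ((P.filter fun p => p ∈ U i).card : ℝ)) * u ≤
      C * GF s h u P.card (Fintype.card ι) := by
  obtain ⟨C, Cst, hC, hCst, H⟩ := scalesB s (by omega) S C1 κ0 hS hC1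
  have hC' : 1 ≤ C * (Cst + 3 + 2 * C ^ 2) := by
    have h1 : 1 ≤ Cst + 3 + 2 * C ^ 2 := by nlinarith [sq_nonneg C]
    nlinarith [mul_le_mul hC h1 (by norm_num) (by linarith)]
  refine ⟨C * (Cst + 3 + 2 * C ^ 2), hC', ?_⟩
  intro h r u hh hr hu hru hhu P ι _ U m σ hPu hHom hLab hcomb
  have h0 := H h r u hh hr hu hru hhu P ι U m σ hPu hHom hLab hcomb
  have hGF0 := CoreB_GF0 s h u hu P.card (Fintype.card ι)
  have hh1 : (1 : ℝ) ≤ (h : ℝ) := by exact_mod_cast hh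
  have hA : (1 : ℝ) ≤ (h : ℝ) / u := by
    rw [le_div_iff₀ hu]
    nlinarith
  rcases Nat.eq_zero_or_pos (Fintype.card ι) with hι | hι
  · have hemp : IsEmpty ι := Fintype.card_eq_zero_iff.mp hι
    rw [Finset.univ_eq_empty, Finset.sum_empty, zero_mul]
    exact mul_nonneg (by linarith) hGF0
  rcases Nat.eq_zero_or_pos P.card with hP | hP
  · have hP0 : P = ∅ := Finset.card_eq_zero.mp hP
    have e : (∑ i, ((P.filter fun p => p ∈ U i).card : ℝ)) = 0 := by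
      rw [hP0]
      simp
    rw [e, zero_mul]
    exact mul_nonneg (by linarith) hGF0
  have key : ∀ K : ℝ, Cst ≤ K →
      K * (Fintype.card ι : ℝ) ≤ Cst * GF s h u P.card (Fintype.card ι) →
      (h : ℝ) * P.card / K ^ 2 ≤ GF s h u P.card (Fintype.card ι) →
      ∀ T : ℝ, (h : ℝ) * P.card * T ≤ 3 * GF s h u P.card (Fintype.card ι) →
      (∀ J : ℕ, ∑ j ∈ (range J).filter
          (fun j => K < C * 4 ^ j ∧ (16 : ℝ) ^ j < h / u),
        ((2 : ℝ) ^ j) ^ (s + 2) / (((2 : ℝ) ^ j) ^ 7 * K ^ (2 * s - 2)) ≤ T) →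
      (∑ i, ((P.filter fun p => p ∈ U i).card : ℝ)) * u ≤
        C * (Cst + 3 + 2 * C ^ 2) * GF s h u P.card (Fintype.card ι) := by
    intro K hK hb1 hb2 T hT hsum
    have hK1 : 1 ≤ K := le_trans hCst hK
    obtain ⟨J, h2⟩ := h0 K hK
    have hg4 := geo4 J C K hC hK1
    have hsub : ∑ j ∈ (range J).filter
          (fun j => K < C * 4 ^ j ∧ (16 : ℝ) ^ j < h / u),
        1 / ((2 : ℝ) ^ j) ^ 4 ≤
        ∑ j ∈ (range J).filter (fun j => K < C * 4 ^ j), 1 / ((2 : ℝ) ^ j) ^ 4 := by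
      apply Finset.sum_le_sum_of_subset_of_nonneg
      · intro j hj
        rw [Finset.mem_filter] at hj ⊢
        exact ⟨hj.1, hj.2.1⟩
      · intro j _ _
        positivity
    have hn0 : (0 : ℝ) ≤ (h : ℝ) * P.card := by positivity
    rw [Finset.sum_add_distrib] at h2
    have h3 : (h : ℝ) * P.card *
        (∑ j ∈ (range J).filter
          (fun j => K < C * 4 ^ j ∧ (16 : ℝ) ^ j < h / u),
          ((2 : ℝ) ^ j) ^ (s + 2) / (((2 : ℝ) ^ j) ^ 7 * K ^ (2 * s - 2)) +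
        ∑ j ∈ (range J).filter
          (fun j => K < C * 4 ^ j ∧ (16 : ℝ) ^ j < h / u),
          1 / ((2 : ℝ) ^ j) ^ 4) ≤
        (3 + 2 * C ^ 2) * GF s h u P.card (Fintype.card ι) := by
      have e1 : (h : ℝ) * P.card *
        (∑ j ∈ (range J).filter
          (fun j => K < C * 4 ^ j ∧ (16 : ℝ) ^ j < h / u),
          ((2 : ℝ) ^ j) ^ (s + 2) / (((2 : ℝ) ^ j) ^ 7 * K ^ (2 * s - 2)) +
        ∑ j ∈ (range J).filter
          (fun j => K < C * 4 ^ j ∧ (16 : ℝ) ^ j < h / u),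
          1 / ((2 : ℝ) ^ j) ^ 4) ≤
        (h : ℝ) * P.card * (T + 2 * C ^ 2 / K ^ 2) :=
        mul_le_mul_of_nonneg_left (add_le_add (hsum J) (le_trans hsub hg4)) hn0
      have e2 : (h : ℝ) * P.card * (T + 2 * C ^ 2 / K ^ 2) =
          (h : ℝ) * P.card * T + 2 * C ^ 2 * ((h : ℝ) * P.card / K ^ 2) := by
        ring
      have e3 : 2 * C ^ 2 * ((h : ℝ) * P.card / K ^ 2) ≤
          2 * C ^ 2 * GF s h u P.card (Fintype.card ι) :=
        mul_le_mul_of_nonneg_left hb2 (by positivity)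
      linarith
    have h4 : C * (K * Fintype.card ι + (h : ℝ) * P.card *
        (∑ j ∈ (range J).filter
          (fun j => K < C * 4 ^ j ∧ (16 : ℝ) ^ j < h / u),
          ((2 : ℝ) ^ j) ^ (s + 2) / (((2 : ℝ) ^ j) ^ 7 * K ^ (2 * s - 2)) +
        ∑ j ∈ (range J).filter
          (fun j => K < C * 4 ^ j ∧ (16 : ℝ) ^ j < h / u),
          1 / ((2 : ℝ) ^ j) ^ 4)) ≤
        C * (Cst * GF s h u P.card (Fintype.card ι) +
          (3 + 2 * C ^ 2) * GF s h u P.card (Fintype.card ι)) :=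
      mul_le_mul_of_nonneg_left (add_le_add hb1 h3) (by linarith)
    calc _ ≤ _ := h2
      _ ≤ _ := h4
      _ = _ := by ring
  rcases Nat.lt_or_ge s 5 with hs5 | hs5
  · have hs4 : s = 4 := by omega
    subst hs4
    obtain ⟨K, hK, hb1, hb2⟩ := balB4 4 h u hu P.card (Fintype.card ι) hh hP hι Cst hCst
    have hK1 : 1 ≤ K := le_trans hCst hK
    refine key K hK hb1 hb2 (2 / K ^ 2) ?_ ?_
    · have e : (h : ℝ) * P.card * (2 / K ^ 2) =
          2 * ((h : ℝ) * P.card / K ^ 2) := by ring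
      rw [e]
      linarith
    · intro J
      have hg1 := geo1 J K hK1
      refine le_trans ?_ hg1
      have e46 : 4 + 2 = 6 := rfl
      have e26 : 2 * 4 - 2 = 6 := rfl
      rw [e46, e26]
      apply Finset.sum_le_sum_of_subset_of_nonneg
      · exact Finset.filter_subset _ _
      · intro j _ _
        positivity
  · obtain ⟨K, hK, hb1, hb2, hb3⟩ := balB5 s h u hs5 hu P.card (Fintype.card ι) hh hP hι Cst hCst
    have hK1 : 1 ≤ K := le_trans hCst hK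
    refine key K hK hb1 hb2 (3 * (((h : ℝ) / u) ^ ((s - 5) / 4 : ℝ) *
      Real.log (h / u + 2)) / K ^ (2 * s - 2)) ?_ ?_
    · have e : (h : ℝ) * P.card * (3 * (((h : ℝ) / u) ^ ((s - 5) / 4 : ℝ) *
          Real.log (h / u + 2)) / K ^ (2 * s - 2)) =
          3 * ((h : ℝ) * P.card * ((((h : ℝ) / u) ^ ((s - 5) / 4 : ℝ) *
            Real.log (h / u + 2)) / K ^ (2 * s - 2))) := by ring
      rw [e]
      linarith
    · intro J
      have hg5 := geoB s J ((h : ℝ) / u) K hs5 hA hK1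
      refine le_trans ?_ hg5
      apply Finset.sum_le_sum_of_subset_of_nonneg
      · intro j hj
        rw [Finset.mem_filter] at hj ⊢
        exact ⟨hj.1, hj.2.2⟩
      · intro j _ _
        positivity

end Pool.Agent.H39.HG
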