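import Pool.Agent.H22.PS.Defs

/-!
# Incidences on homogeneous point sets: definitions

Paper: `/team-store/h39_homog.md`. `Hom h r P`: every closed square of side `r` contains at most `h` points of `P`.
`Lab S U m σ`: the points of `U` carry a slope `m` and a height `σ` with the properties (L) of the paper.
`tub P a w x y m`: the points of `P` in the tube with centre `(x, y)`, slope `m`, half length `a`, half height `w`.
`ps`, `Ps`, `om`, `GG`, `vv`: the functions of Lemma V. `FF s n N`: the bound.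
-/

set_option autoImplicit false

namespace Pool.Agent.H39.HG

open Finset MeasureTheory
open scoped Classical

/-- every closed square of side `r` contains at most `h` points of `P` -/
def Hom (h : ℕ) (r : ℝ) (P : Finset (ℝ × ℝ)) : Prop :=
  ∀ u v : ℝ, (P.filter fun p => (u ≤ p.1 ∧ p.1 ≤ u + r) ∧ v ≤ p.2 ∧ p.2 ≤ v + r).card ≤ h

/-- slopes `m` and heights `σ` for the points of `U` -/
def Lab (S : ℝ) (U : Set (ℝ × ℝ)) (m σ : ℝ × ℝ → ℝ) : Prop :=
  ∀ p ∈ U, (|m p| ≤ 1 ∧ 0 ≤ σ p ∧ σ p ≤ S) ∧ ∀ q ∈ U, |p.1 - q.1| ≤ |σ p - σ q| ∧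
    |m p - m q| ≤ |σ p - σ q| ∧ |q.2 - p.2 - m p * (q.1 - p.1)| ≤ (σ p - σ q) ^ 2

/-- the points of `P` in a tube -/
noncomputable def tub (P : Finset (ℝ × ℝ)) (a w x y m : ℝ) : Finset (ℝ × ℝ) :=
  P.filter fun p => |p.1 - x| ≤ a ∧ |p.2 - y - m * (p.1 - x)| ≤ w

/-- twice the inner interval minus the double interval -/
noncomputable def ps (w v : ℝ) : ℝ :=
  2 * (if |v| ≤ w then 1 else 0) - (if |v| ≤ 2 * w then 1 else 0)

/-- the autocorrelation of `ps w` -/
noncomputable def Ps (w u : ℝ) : ℝ := ∫ v, ps w v * ps w (v - u)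

/-- the weight of the slopes -/
noncomputable def om (m : ℝ) : ℝ := (max 0 (9 - m ^ 2)) ^ 2

/-- the kernel -/
noncomputable def GG (w a b : ℝ) : ℝ := ∫ m, om m * Ps w (b - m * a)

/-- twice the number of points of a tube minus the number of points of the tube of double height;
the parameters are `z = (x, y, m)` -/
noncomputable def vv (P : Finset (ℝ × ℝ)) (a w : ℝ) (z : ℝ × ℝ × ℝ) : ℝ :=
  2 * ((tub P a w z.1 z.2.1 z.2.2).card : ℝ) - ((tub P a (2 * w) z.1 z.2.1 z.2.2).card : ℝ)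

/-- the bound for `n` points and `N` curves; the last term is absent for `s ≤ 4` -/
noncomputable def FF (s n N : ℕ) : ℝ :=
  (n : ℝ) ^ (2 / 3 : ℝ) * (N : ℝ) ^ (2 / 3 : ℝ) + (n : ℝ) ^ (1 / 3 : ℝ) * N +
    (if s ≤ 4 then 0 else (n : ℝ) ^ (1 / 3 : ℝ) * (N : ℝ) ^ (1 - 1 / (2 * s - 1) : ℝ) *
      ((n : ℝ) * (n : ℝ) ^ ((s - 5) / 12 : ℝ) * Real.log (n + 2)) ^ (1 / (2 * s - 1) : ℝ))

end Pool.Agent.H39.HG
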