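import Pool.Agent.H39.HG.Defs

/-!
# The bound in terms of the scale `u`

`h` points in every square of side `r`, `r ^ 2 = h u ^ 3`, `n` points, `N` curves. `GF s h u n N` is the bound for `u` times the number of
incidences; the last term is absent for `s ≤ 4`.
-/

set_option autoImplicit false

namespace Pool.Agent.H39.HG

open Finset
open scoped Classical

/-- the bound for `u` times the number of incidences -/
noncomputable def GF (s h : ℕ) (u : ℝ) (n N : ℕ) : ℝ :=
  ((h : ℝ) * n) ^ (1 / 3 : ℝ) * (N : ℝ) ^ (2 / 3 : ℝ) + N +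
    (if s ≤ 4 then 0 else (N : ℝ) ^ (1 - 1 / (2 * s - 1) : ℝ) *
      ((h : ℝ) * n * (((h : ℝ) / u) ^ ((s - 5) / 4 : ℝ) * Real.log (h / u + 2))) ^
        (1 / (2 * s - 1) : ℝ))

end Pool.Agent.H39.HG
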