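import Pool.Agent.H39.HG.Defs

/-!
# Properties of the bound `FF`

All terms are nonnegative (`Real.log (n + 2) ≥ 0`). `FF_ge`: `N ≤ n ^ (1/3) N` for `n ≥ 1`. `FF_mono`: monotone powers in `N`; the exponent
`1 - 1 / (2 s - 1)` is in `[0, 1]` for `s ≥ 5`. `FF_mul`: with `a ≥ 1` natural, `(a N) ^ (2/3) ≤ a N ^ (2/3)`,
`(a N) ^ (1 - 1/(2s-1)) ≤ a N ^ (...)` (`Real.mul_rpow`, `Real.rpow_le_self_of_one_le` type bound). `FF_diag4`: `n ^ (2/3) n ^ (2/3) = n ^ (4/3)`,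
`n ^ (1/3) n = n ^ (4/3)` (for `n = 0` all is `0`: note `0 ^ (4/3) = 0`). `FF_diag5`: the last term is
`n ^ (1/3) n ^ (1 - 1/(2s-1)) n ^ (1/(2s-1)) X ^ (1/(2s-1)) = n ^ (4/3) X ^ (1/(2s-1))` with `X = n ^ ((s-5)/12) log (n+2)`,
`X ^ (1/(2s-1)) = n ^ ((s-5)/(12 (2s-1))) (log (n+2)) ^ (1/(2s-1)) ≤ n ^ ((s-5)/(24 s - 12)) log (n+2)` as `log (n + 2) ≥ 1` for `n ≥ 1`; and `n ^ (4/3) ≤` that.
-/

set_option autoImplicit false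

namespace Pool.Agent.H39.HG

open Finset
open scoped Classical

private theorem FFB_log_nonneg (n : ℕ) : 0 ≤ Real.log ((n : ℝ) + 2) := by
  apply Real.log_nonneg
  have h : (0 : ℝ) ≤ (n : ℝ) := Nat.cast_nonneg n
  linarith

private theorem FFB_log_ge_one (n : ℕ) (hn : 1 ≤ n) : 1 ≤ Real.log ((n : ℝ) + 2) := by
  have h : (1 : ℝ) ≤ (n : ℝ) := by exact_mod_cast hn
  rw [Real.le_log_iff_exp_le (by linarith)]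
  have := Real.exp_one_lt_d9
  linarith

private theorem FFB_term_nonneg (s n N : ℕ) :
    0 ≤ (n : ℝ) ^ (1 / 3 : ℝ) * (N : ℝ) ^ (1 - 1 / (2 * s - 1) : ℝ) *
      ((n : ℝ) * (n : ℝ) ^ ((s - 5) / 12 : ℝ) * Real.log (n + 2)) ^ (1 / (2 * s - 1) : ℝ) := by
  have h1 := FFB_log_nonneg n
  have h0 : (0 : ℝ) ≤ (n : ℝ) := Nat.cast_nonneg n
  have hN : (0 : ℝ) ≤ (N : ℝ) := Nat.cast_nonneg N
  have h2 : (0 : ℝ) ≤ (n : ℝ) * (n : ℝ) ^ ((s - 5) / 12 : ℝ) * Real.log (n + 2) :=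
    mul_nonneg (mul_nonneg h0 (Real.rpow_nonneg h0 _)) h1
  exact mul_nonneg (mul_nonneg (Real.rpow_nonneg h0 _) (Real.rpow_nonneg hN _))
    (Real.rpow_nonneg h2 _)

private theorem FFB_exp (s : ℕ) (hs : ¬ s ≤ 4) :
    (0 : ℝ) < 2 * s - 1 ∧ (0 : ℝ) ≤ 1 - 1 / (2 * s - 1) ∧ (1 - 1 / (2 * s - 1) : ℝ) ≤ 1 ∧
      (0 : ℝ) ≤ 1 / (2 * s - 1) ∧ (1 / (2 * s - 1) : ℝ) ≤ 1 := by
  have h : (5 : ℝ) ≤ (s : ℝ) := by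
    have : 5 ≤ s := by omega
    exact_mod_cast this
  have h1 : (0 : ℝ) < 2 * s - 1 := by linarith
  have h2 : (0 : ℝ) ≤ 1 / (2 * (s : ℝ) - 1) := by positivity
  have h3 : (1 / (2 * (s : ℝ) - 1) : ℝ) ≤ 1 := by
    rw [div_le_one h1]
    linarith
  refine ⟨h1, by linarith, by linarith, h2, h3⟩

theorem FF_nonneg (s n N : ℕ) : 0 ≤ FF s n N := by
  have h0 : (0 : ℝ) ≤ (n : ℝ) := Nat.cast_nonneg n
  have hN : (0 : ℝ) ≤ (N : ℝ) := Nat.cast_nonneg N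
  have h1 : (0 : ℝ) ≤ (n : ℝ) ^ (2 / 3 : ℝ) * (N : ℝ) ^ (2 / 3 : ℝ) := by positivity
  have h2 : (0 : ℝ) ≤ (n : ℝ) ^ (1 / 3 : ℝ) * N := by positivity
  have h3 := FFB_term_nonneg s n N
  unfold FF
  split_ifs <;> linarith

theorem FF_ge (s n N : ℕ) (hn : 1 ≤ n) : (N : ℝ) ≤ FF s n N := by
  have h0 : (0 : ℝ) ≤ (n : ℝ) := Nat.cast_nonneg n
  have hN : (0 : ℝ) ≤ (N : ℝ) := Nat.cast_nonneg N
  have hn1 : (1 : ℝ) ≤ (n : ℝ) := by exact_mod_cast hn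
  have h1 : (0 : ℝ) ≤ (n : ℝ) ^ (2 / 3 : ℝ) * (N : ℝ) ^ (2 / 3 : ℝ) := by positivity
  have h2 : (N : ℝ) ≤ (n : ℝ) ^ (1 / 3 : ℝ) * N := by
    have : (1 : ℝ) ≤ (n : ℝ) ^ (1 / 3 : ℝ) := Real.one_le_rpow hn1 (by norm_num)
    nlinarith
  have h3 := FFB_term_nonneg s n N
  unfold FF
  split_ifs <;> linarith

theorem FF_mono (s n N N' : ℕ) (h : N ≤ N') : FF s n N ≤ FF s n N' := by
  have h0 : (0 : ℝ) ≤ (n : ℝ) := Nat.cast_nonneg n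
  have hN : (0 : ℝ) ≤ (N : ℝ) := Nat.cast_nonneg N
  have hNN : (N : ℝ) ≤ (N' : ℝ) := by exact_mod_cast h
  have h1 : (n : ℝ) ^ (2 / 3 : ℝ) * (N : ℝ) ^ (2 / 3 : ℝ) ≤
      (n : ℝ) ^ (2 / 3 : ℝ) * (N' : ℝ) ^ (2 / 3 : ℝ) :=
    mul_le_mul_of_nonneg_left (Real.rpow_le_rpow hN hNN (by norm_num)) (Real.rpow_nonneg h0 _)
  have h2 : (n : ℝ) ^ (1 / 3 : ℝ) * N ≤ (n : ℝ) ^ (1 / 3 : ℝ) * N' :=
    mul_le_mul_of_nonneg_left hNN (Real.rpow_nonneg h0 _)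
  unfold FF
  split_ifs with hs
  · linarith
  · obtain ⟨e0, e1, e2, e3, e4⟩ := FFB_exp s hs
    have hL := FFB_log_nonneg n
    have h4 : (0 : ℝ) ≤ (n : ℝ) * (n : ℝ) ^ ((s - 5) / 12 : ℝ) * Real.log (n + 2) :=
      mul_nonneg (mul_nonneg h0 (Real.rpow_nonneg h0 _)) hL
    have h3 : (n : ℝ) ^ (1 / 3 : ℝ) * (N : ℝ) ^ (1 - 1 / (2 * s - 1) : ℝ) *
        ((n : ℝ) * (n : ℝ) ^ ((s - 5) / 12 : ℝ) * Real.log (n + 2)) ^ (1 / (2 * s - 1) : ℝ) ≤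
        (n : ℝ) ^ (1 / 3 : ℝ) * (N' : ℝ) ^ (1 - 1 / (2 * s - 1) : ℝ) *
        ((n : ℝ) * (n : ℝ) ^ ((s - 5) / 12 : ℝ) * Real.log (n + 2)) ^ (1 / (2 * s - 1) : ℝ) :=
      mul_le_mul_of_nonneg_right
        (mul_le_mul_of_nonneg_left (Real.rpow_le_rpow hN hNN e1) (Real.rpow_nonneg h0 _))
        (Real.rpow_nonneg h4 _)
    linarith

private theorem FFB_mul_rpow (a N : ℕ) (ha : 1 ≤ a) (e : ℝ) (he : e ≤ 1) :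
    ((a * N : ℕ) : ℝ) ^ e ≤ (a : ℝ) * (N : ℝ) ^ e := by
  have hN : (0 : ℝ) ≤ (N : ℝ) := Nat.cast_nonneg N
  have ha0 : (0 : ℝ) ≤ (a : ℝ) := Nat.cast_nonneg a
  have ha1 : (1 : ℝ) ≤ (a : ℝ) := by exact_mod_cast ha
  rw [Nat.cast_mul, Real.mul_rpow ha0 hN]
  apply mul_le_mul_of_nonneg_right _ (Real.rpow_nonneg hN _)
  calc (a : ℝ) ^ e ≤ (a : ℝ) ^ (1 : ℝ) := Real.rpow_le_rpow_of_exponent_le ha1 he
    _ = a := Real.rpow_one _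

theorem FF_mul (s n N a : ℕ) (ha : 1 ≤ a) : FF s n (a * N) ≤ a * FF s n N := by
  have h0 : (0 : ℝ) ≤ (n : ℝ) := Nat.cast_nonneg n
  have h1 : (n : ℝ) ^ (2 / 3 : ℝ) * ((a * N : ℕ) : ℝ) ^ (2 / 3 : ℝ) ≤
      (n : ℝ) ^ (2 / 3 : ℝ) * ((a : ℝ) * (N : ℝ) ^ (2 / 3 : ℝ)) :=
    mul_le_mul_of_nonneg_left (FFB_mul_rpow a N ha _ (by norm_num)) (Real.rpow_nonneg h0 _)
  have h2 : (n : ℝ) ^ (1 / 3 : ℝ) * ((a * N : ℕ) : ℝ) = a * ((n : ℝ) ^ (1 / 3 : ℝ) * N) := by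
    rw [Nat.cast_mul]; ring
  unfold FF
  split_ifs with hs
  · rw [h2]
    nlinarith [h1]
  · obtain ⟨e0, e1, e2, e3, e4⟩ := FFB_exp s hs
    have hL := FFB_log_nonneg n
    have h4 : (0 : ℝ) ≤ (n : ℝ) * (n : ℝ) ^ ((s - 5) / 12 : ℝ) * Real.log (n + 2) :=
      mul_nonneg (mul_nonneg h0 (Real.rpow_nonneg h0 _)) hL
    have h3 : (n : ℝ) ^ (1 / 3 : ℝ) * ((a * N : ℕ) : ℝ) ^ (1 - 1 / (2 * s - 1) : ℝ) *
        ((n : ℝ) * (n : ℝ) ^ ((s - 5) / 12 : ℝ) * Real.log (n + 2)) ^ (1 / (2 * s - 1) : ℝ) ≤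
        (n : ℝ) ^ (1 / 3 : ℝ) * ((a : ℝ) * (N : ℝ) ^ (1 - 1 / (2 * s - 1) : ℝ)) *
        ((n : ℝ) * (n : ℝ) ^ ((s - 5) / 12 : ℝ) * Real.log (n + 2)) ^ (1 / (2 * s - 1) : ℝ) :=
      mul_le_mul_of_nonneg_right
        (mul_le_mul_of_nonneg_left (FFB_mul_rpow a N ha _ e2) (Real.rpow_nonneg h0 _))
        (Real.rpow_nonneg h4 _)
    rw [h2]
    calc _ ≤ (n : ℝ) ^ (2 / 3 : ℝ) * ((a : ℝ) * (N : ℝ) ^ (2 / 3 : ℝ)) +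
          a * ((n : ℝ) ^ (1 / 3 : ℝ) * N) +
          (n : ℝ) ^ (1 / 3 : ℝ) * ((a : ℝ) * (N : ℝ) ^ (1 - 1 / (2 * s - 1) : ℝ)) *
        ((n : ℝ) * (n : ℝ) ^ ((s - 5) / 12 : ℝ) * Real.log (n + 2)) ^ (1 / (2 * s - 1) : ℝ) :=
          add_le_add (add_le_add h1 le_rfl) h3
      _ = _ := by ring

theorem FF_four (n N : ℕ) : FF 4 n N =
    (n : ℝ) ^ (2 / 3 : ℝ) * (N : ℝ) ^ (2 / 3 : ℝ) + (n : ℝ) ^ (1 / 3 : ℝ) * N := by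
  unfold FF
  rw [if_pos le_rfl, add_zero]

theorem FF_diag (s n : ℕ) (hs : 5 ≤ s) (hn : 1 ≤ n) : FF s n n ≤
    3 * ((n : ℝ) ^ (4 / 3 + (s - 5) / (24 * s - 12) : ℝ) * Real.log (n + 2)) := by
  have hs4 : ¬ s ≤ 4 := by omega
  obtain ⟨e0, e1, e2, e3, e4⟩ := FFB_exp s hs4
  have hsR : (5 : ℝ) ≤ (s : ℝ) := by exact_mod_cast hs
  have hn1 : (1 : ℝ) ≤ (n : ℝ) := by exact_mod_cast hn
  have hn0 : (0 : ℝ) < (n : ℝ) := by linarith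
  have hL := FFB_log_ge_one n hn
  have hL0 : (0 : ℝ) ≤ Real.log ((n : ℝ) + 2) := by linarith
  have hd : (0 : ℝ) ≤ ((s : ℝ) - 5) / (24 * s - 12) := by
    apply div_nonneg <;> linarith
  have hA : (n : ℝ) ^ (4 / 3 : ℝ) ≤
      (n : ℝ) ^ (4 / 3 + (s - 5) / (24 * s - 12) : ℝ) * Real.log (n + 2) := by
    calc (n : ℝ) ^ (4 / 3 : ℝ) ≤ (n : ℝ) ^ (4 / 3 + (s - 5) / (24 * s - 12) : ℝ) :=
          Real.rpow_le_rpow_of_exponent_le hn1 (by linarith)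
      _ = (n : ℝ) ^ (4 / 3 + (s - 5) / (24 * s - 12) : ℝ) * 1 := (mul_one _).symm
      _ ≤ _ := mul_le_mul_of_nonneg_left hL (Real.rpow_nonneg hn0.le _)
  have h1 : (n : ℝ) ^ (2 / 3 : ℝ) * (n : ℝ) ^ (2 / 3 : ℝ) = (n : ℝ) ^ (4 / 3 : ℝ) := by
    rw [← Real.rpow_add hn0]; norm_num
  have h2 : (n : ℝ) ^ (1 / 3 : ℝ) * n = (n : ℝ) ^ (4 / 3 : ℝ) := by
    calc (n : ℝ) ^ (1 / 3 : ℝ) * n = (n : ℝ) ^ (1 / 3 : ℝ) * (n : ℝ) ^ (1 : ℝ) := by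
          rw [Real.rpow_one]
      _ = _ := by rw [← Real.rpow_add hn0]; norm_num
  have h3 : (n : ℝ) ^ (1 / 3 : ℝ) * (n : ℝ) ^ (1 - 1 / (2 * s - 1) : ℝ) *
      ((n : ℝ) * (n : ℝ) ^ ((s - 5) / 12 : ℝ) * Real.log (n + 2)) ^ (1 / (2 * s - 1) : ℝ) ≤
      (n : ℝ) ^ (4 / 3 + (s - 5) / (24 * s - 12) : ℝ) * Real.log (n + 2) := by
    have hB : (n : ℝ) * (n : ℝ) ^ ((s - 5) / 12 : ℝ) = (n : ℝ) ^ (1 + (s - 5) / 12 : ℝ) := by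
      rw [Real.rpow_add hn0, Real.rpow_one]
    rw [hB, Real.mul_rpow (Real.rpow_nonneg hn0.le _) hL0, ← Real.rpow_mul hn0.le,
      ← Real.rpow_add hn0, ← mul_assoc, ← Real.rpow_add hn0]
    have hexp : (1 / 3 : ℝ) + (1 - 1 / (2 * s - 1)) + (1 + (s - 5) / 12) * (1 / (2 * s - 1)) =
        4 / 3 + (s - 5) / (24 * s - 12) := by
      have : (24 * (s : ℝ) - 12) = 12 * (2 * s - 1) := by ring
      rw [this]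
      field_simp
      ring
    rw [hexp]
    apply mul_le_mul_of_nonneg_left _ (Real.rpow_nonneg hn0.le _)
    calc Real.log ((n : ℝ) + 2) ^ (1 / (2 * s - 1) : ℝ) ≤ Real.log ((n : ℝ) + 2) ^ (1 : ℝ) :=
          Real.rpow_le_rpow_of_exponent_le hL e4
      _ = _ := Real.rpow_one _
  unfold FF
  rw [if_neg hs4, h1, h2]
  linarith

end Pool.Agent.H39.HG
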