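import Pool.Agent.H39.HG.SqI
import Pool.Agent.H39.HG.Tel
import Pool.Agent.H39.HG.Top

/-!
# Few rich tubes

`C0 = 2100 h + 8` (or larger), `w0 = 7 d ^ 2`, `a = 3 d`. If `r ≤ w0` then `top_card` (`r ≤ d ≤ 3 d`) gives `|tub| ≤ 50 h * 21 d ^ 3 / r ^ 2 < C0 d ^ 3 / r ^ 2`
(`d ^ 3 / r ^ 2 > 0`); this is the second statement, and then the set of the first one is empty. Let `w0 < r`, `n` the least number with
`r ≤ 2 ^ n w0`; `1 ≤ n`, `2 ^ i w0 < r` for `i < n`. `T i = #(tub P (3 d) (2 ^ i w0) z)`; `2 T i - T (i + 1) = vv P (3 d) (2 ^ i w0) z`.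
By `top_card` `T n / (2 ^ n w0) ≤ 150 h d / r ^ 2`; on the set in question `T 0 / w0 ≥ C0 d / (7 r ^ 2)`, so the difference is at least
`C0 d / (14 r ^ 2) > 0` and by `tel`
`1 ≤ Φ z := (14 r ^ 2 / (C0 d)) ^ 2 * 4 ∑_{i<n} (√2) ^ i * om z.2.2 * vv_i ^ 2 / (2 * 2 ^ i w0) ^ 2` (as `om ≥ 1` for `|m| ≤ 2`). `Φ ≥ 0` is integrable and
`∫ Φ ≤ (14 r ^ 2 / (C0 d)) ^ 2 ∑ (√2) ^ i C (3 d) (2 ^ i w0) / (r ^ 2 (2 ^ i w0) ^ 2) = (...) * (3 C d / (r ^ 2 w0)) ∑ (√2) ^ i / 2 ^ i ≤ C' r ^ 2 / d ^ 3` by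
`sq_int h`, `geo`. Markov: the set is contained in `{z | 1 ≤ ENNReal.ofReal (Φ z)}`, `meas_ge_le_lintegral_div` or
`mul_meas_ge_le_lintegral₀`, `ofReal_integral_eq_lintegral_ofReal`.
-/

set_option autoImplicit false

namespace Pool.Agent.H39.HG

open Finset MeasureTheory
open scoped Classical

private theorem Few_om (m : ℝ) (hm : |m| ≤ 2) : 1 ≤ om m := by
  unfold om
  have h1 : m ^ 2 ≤ 4 := by
    have := sq_le_sq' (by linarith [abs_nonneg m] : -(2 : ℝ) ≤ |m|) hm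
    rw [sq_abs] at this
    linarith
  have h2 : (5 : ℝ) ≤ max 0 (9 - m ^ 2) := le_max_of_le_right (by linarith)
  nlinarith

private theorem Few_om0 (m : ℝ) : 0 ≤ om m := by
  unfold om
  positivity

/-- the function of Markov's inequality -/
private noncomputable def FewPhi (P : Finset (ℝ × ℝ)) (a w0 : ℝ) (n : ℕ) (z : ℝ × ℝ × ℝ) : ℝ :=
  ∑ i ∈ range n, (4 * (Real.sqrt 2) ^ i / (2 * (2 ^ i * w0)) ^ 2) *
    (om z.2.2 * vv P a (2 ^ i * w0) z ^ 2)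

private theorem Few_phi_nonneg (P : Finset (ℝ × ℝ)) (a w0 : ℝ) (n : ℕ) (z : ℝ × ℝ × ℝ) :
    0 ≤ FewPhi P a w0 n z := by
  unfold FewPhi
  refine sum_nonneg fun i _ => ?_
  have := Few_om0 z.2.2
  positivity

private theorem Few_point (P : Finset (ℝ × ℝ)) (a w0 : ℝ) (hw0 : 0 < w0) (n : ℕ) (z : ℝ × ℝ × ℝ)
    (hm : |z.2.2| ≤ 2) :
    (((tub P a w0 z.1 z.2.1 z.2.2).card : ℝ) / w0 -
      ((tub P a (2 ^ n * w0) z.1 z.2.1 z.2.2).card : ℝ) / (2 ^ n * w0)) ^ 2 ≤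
        FewPhi P a w0 n z := by
  have h1 := tel n w0 hw0 fun i => ((tub P a (2 ^ i * w0) z.1 z.2.1 z.2.2).card : ℝ)
  simp only [pow_zero, one_mul] at h1
  refine h1.trans ?_
  unfold FewPhi
  rw [mul_sum]
  refine sum_le_sum fun i _ => ?_
  have h2 : (2 : ℝ) ^ (i + 1) * w0 = 2 * (2 ^ i * w0) := by ring
  have h3 : 2 * ((tub P a (2 ^ i * w0) z.1 z.2.1 z.2.2).card : ℝ) -
      ((tub P a (2 ^ (i + 1) * w0) z.1 z.2.1 z.2.2).card : ℝ) = vv P a (2 ^ i * w0) z := by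
    unfold vv
    rw [h2]
  rw [h3]
  have h4 : 4 * ((Real.sqrt 2) ^ i * (vv P a (2 ^ i * w0) z / (2 * (2 ^ i * w0))) ^ 2) =
      (4 * (Real.sqrt 2) ^ i / (2 * (2 ^ i * w0)) ^ 2) * (1 * vv P a (2 ^ i * w0) z ^ 2) := by
    rw [div_pow]
    ring
  rw [h4]
  have h5 := Few_om z.2.2 hm
  have h6 : 0 ≤ 4 * (Real.sqrt 2) ^ i / (2 * (2 ^ i * w0)) ^ 2 := by positivity
  refine mul_le_mul_of_nonneg_left ?_ h6
  exact mul_le_mul_of_nonneg_right h5 (sq_nonneg _)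

private theorem Few_int (h : ℕ) : ∃ C : ℝ, 0 ≤ C ∧ ∀ (r a w0 : ℝ) (P : Finset (ℝ × ℝ)) (n : ℕ),
    0 < r → Hom h r P → (P.card : ℝ) * r ^ 2 ≤ 1 → 0 < w0 → (∀ i < n, 2 ^ i * w0 ≤ r) → 0 < a →
    Integrable (FewPhi P a w0 n) ∧ ∫ z, FewPhi P a w0 n z ≤ C * (a / (w0 * r ^ 2)) := by
  obtain ⟨C, hC, hs⟩ := sq_int h
  refine ⟨4 * C, by positivity, ?_⟩
  intro r a w0 P n hr hP hc hw0 hn ha
  have hi : ∀ i ∈ range n, Integrable fun z : ℝ × ℝ × ℝ =>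
      (4 * (Real.sqrt 2) ^ i / (2 * (2 ^ i * w0)) ^ 2) *
        (om z.2.2 * vv P a (2 ^ i * w0) z ^ 2) := by
    intro i hi
    refine Integrable.const_mul ?_ _
    exact (hs r a (2 ^ i * w0) P hr hP hc (by positivity) (hn i (mem_range.mp hi)) ha).1
  have hfun : FewPhi P a w0 n = fun z : ℝ × ℝ × ℝ => ∑ i ∈ range n,
      (4 * (Real.sqrt 2) ^ i / (2 * (2 ^ i * w0)) ^ 2) *
        (om z.2.2 * vv P a (2 ^ i * w0) z ^ 2) := rfl
  rw [hfun]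
  refine ⟨integrable_finsetSum _ hi, ?_⟩
  rw [integral_finsetSum _ hi]
  calc ∑ i ∈ range n, ∫ z : ℝ × ℝ × ℝ, (4 * (Real.sqrt 2) ^ i / (2 * (2 ^ i * w0)) ^ 2) *
        (om z.2.2 * vv P a (2 ^ i * w0) z ^ 2)
      ≤ ∑ i ∈ range n, (C * (a / (w0 * r ^ 2))) * ((Real.sqrt 2) ^ i / 2 ^ i) := by
        refine sum_le_sum fun i hi' => ?_
        rw [integral_const_mul]
        have h1 := (hs r a (2 ^ i * w0) P hr hP hc (by positivity)
          (hn i (mem_range.mp hi')) ha).2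
        have h2 : 0 ≤ 4 * (Real.sqrt 2) ^ i / (2 * (2 ^ i * w0)) ^ 2 := by positivity
        refine (mul_le_mul_of_nonneg_left h1 h2).trans (le_of_eq ?_)
        have h3 : (2 : ℝ) ^ i ≠ 0 := by positivity
        field_simp
        ring
    _ = (C * (a / (w0 * r ^ 2))) * ∑ i ∈ range n, (Real.sqrt 2) ^ i / 2 ^ i := by
        rw [mul_sum]
    _ ≤ (C * (a / (w0 * r ^ 2))) * 4 :=
        mul_le_mul_of_nonneg_left (geo n) (by positivity)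
    _ = 4 * C * (a / (w0 * r ^ 2)) := by ring

private theorem Few_markov (f : ℝ × ℝ × ℝ → ℝ) (hf : Integrable f) (h0 : ∀ z, 0 ≤ f z)
    (δ B : ℝ) (hδ : 0 < δ) (hB : ∫ z, f z ≤ δ * B) (s : Set (ℝ × ℝ × ℝ)) (hs : ∀ z ∈ s, δ ≤ f z) :
    volume s ≤ ENNReal.ofReal B := by
  have h1 : s ⊆ {z | 1 ≤ ENNReal.ofReal (f z / δ)} := by
    intro z hz
    have h2 : (1 : ℝ) ≤ f z / δ := by
      rw [le_div_iff₀ hδ]
      linarith [hs z hz]
    change (1 : ENNReal) ≤ ENNReal.ofReal (f z / δ)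
    calc (1 : ENNReal) = ENNReal.ofReal 1 := by simp
      _ ≤ ENNReal.ofReal (f z / δ) := ENNReal.ofReal_le_ofReal h2
  have h3 : Integrable fun z => f z / δ := hf.div_const δ
  have h4 := mul_meas_ge_le_lintegral₀ (μ := (volume : Measure (ℝ × ℝ × ℝ)))
    (f := fun z => ENNReal.ofReal (f z / δ)) h3.aestronglyMeasurable.aemeasurable.ennreal_ofReal 1
  rw [one_mul] at h4
  have h5 := ofReal_integral_eq_lintegral_ofReal h3
    (Filter.Eventually.of_forall fun z => div_nonneg (h0 z) hδ.le)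
  rw [← h5] at h4
  refine (measure_mono h1).trans (h4.trans ?_)
  refine ENNReal.ofReal_le_ofReal ?_
  rw [integral_div]
  rw [div_le_iff₀ hδ]
  linarith

theorem few_rich (h : ℕ) : ∃ C0 C : ℝ, 8 ≤ C0 ∧ 0 ≤ C ∧ ∀ (r d : ℝ) (P : Finset (ℝ × ℝ)),
    0 < r → r ≤ d → Hom h r P → (P.card : ℝ) * r ^ 2 ≤ 1 →
    volume {z : ℝ × ℝ × ℝ | |z.2.2| ≤ 2 ∧ C0 * (d ^ 3 / r ^ 2) ≤
      ((tub P (3 * d) (7 * d ^ 2) z.1 z.2.1 z.2.2).card : ℝ)} ≤
        ENNReal.ofReal (C * (r ^ 2 / d ^ 3)) ∧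
    (r ≤ 7 * d ^ 2 → ∀ z : ℝ × ℝ × ℝ, |z.2.2| ≤ 2 →
      ((tub P (3 * d) (7 * d ^ 2) z.1 z.2.1 z.2.2).card : ℝ) < C0 * (d ^ 3 / r ^ 2)) := by
  obtain ⟨C1, hC1, hint⟩ := Few_int h
  have hh : (0 : ℝ) ≤ h := Nat.cast_nonneg h
  refine ⟨2100 * h + 8, 2 * C1, by linarith, by positivity, ?_⟩
  intro r d P hr hrd hP hc
  have hd : 0 < d := lt_of_lt_of_le hr hrd
  have hsec : r ≤ 7 * d ^ 2 → ∀ z : ℝ × ℝ × ℝ, |z.2.2| ≤ 2 →
      ((tub P (3 * d) (7 * d ^ 2) z.1 z.2.1 z.2.2).card : ℝ) <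
        (2100 * h + 8) * (d ^ 3 / r ^ 2) := by
    intro hrw z hz
    have h1 := top_card h r hr P hP (3 * d) (7 * d ^ 2) z.1 z.2.1 z.2.2 hz hrw (by linarith)
    have h2 : 3 * d * (7 * d ^ 2) / r ^ 2 = 21 * (d ^ 3 / r ^ 2) := by ring
    rw [h2] at h1
    have h3 : 0 < d ^ 3 / r ^ 2 := by positivity
    have h4 : 0 ≤ (h : ℝ) * (d ^ 3 / r ^ 2) := by positivity
    nlinarith
  refine ⟨?_, hsec⟩
  by_cases hrw : r ≤ 7 * d ^ 2
  · have hempty : {z : ℝ × ℝ × ℝ | |z.2.2| ≤ 2 ∧ (2100 * h + 8) * (d ^ 3 / r ^ 2) ≤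
        ((tub P (3 * d) (7 * d ^ 2) z.1 z.2.1 z.2.2).card : ℝ)} = ∅ := by
      refine Set.eq_empty_iff_forall_notMem.mpr fun z hz => ?_
      exact absurd hz.2 (not_le.mpr (hsec hrw z hz.1))
    rw [hempty]
    simp
  · push Not at hrw
    have hw0 : (0 : ℝ) < 7 * d ^ 2 := by positivity
    have hex : ∃ n : ℕ, r ≤ 2 ^ n * (7 * d ^ 2) := by
      obtain ⟨n, hn⟩ := pow_unbounded_of_one_lt (r / (7 * d ^ 2)) (by norm_num : (1 : ℝ) < 2)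
      refine ⟨n, ?_⟩
      rw [div_lt_iff₀ hw0] at hn
      exact hn.le
    classical
    let n := Nat.find hex
    have hn : r ≤ 2 ^ n * (7 * d ^ 2) := Nat.find_spec hex
    have hlt : ∀ i < n, 2 ^ i * (7 * d ^ 2) ≤ r := fun i hi =>
      (not_le.mp (Nat.find_min hex hi)).le
    obtain ⟨hI, hB⟩ := hint r (3 * d) (7 * d ^ 2) P n hr hP hc hw0 hlt (by positivity)
    have hδ : 0 < ((2100 * h + 8) * d / (14 * r ^ 2)) := by positivity
    refine Few_markov (FewPhi P (3 * d) (7 * d ^ 2) n) hI (Few_phi_nonneg _ _ _ _)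
      (((2100 * h + 8) * d / (14 * r ^ 2)) ^ 2) _ (by positivity) ?_ _ ?_
    · refine hB.trans ?_
      have h1 : C1 * (3 * d / (7 * d ^ 2 * r ^ 2)) = (3 * C1 / 7) * (1 / (d * r ^ 2)) := by
        field_simp
      have h2 : ((2100 * h + 8) * d / (14 * r ^ 2)) ^ 2 * (2 * C1 * (r ^ 2 / d ^ 3)) =
          ((2100 * h + 8) ^ 2 * C1 / 98) * (1 / (d * r ^ 2)) := by
        field_simp
        ring
      rw [h1, h2]
      refine mul_le_mul_of_nonneg_right ?_ (by positivity)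
      have h3 : (64 : ℝ) ≤ (2100 * h + 8) ^ 2 := by nlinarith
      nlinarith
    · rintro z ⟨hz, hcard⟩
      refine le_trans ?_ (Few_point P (3 * d) (7 * d ^ 2) hw0 n z hz)
      have h1 := top_card h r hr P hP (3 * d) (2 ^ n * (7 * d ^ 2)) z.1 z.2.1 z.2.2 hz hn
        (by linarith)
      have hW : (0 : ℝ) < 2 ^ n * (7 * d ^ 2) := by positivity
      have h2 : ((tub P (3 * d) (2 ^ n * (7 * d ^ 2)) z.1 z.2.1 z.2.2).card : ℝ) /
          (2 ^ n * (7 * d ^ 2)) ≤ 150 * h * (d / r ^ 2) := by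
        rw [div_le_iff₀ hW]
        refine h1.trans (le_of_eq ?_)
        ring
      have h3 : (2100 * h + 8) / 7 * (d / r ^ 2) ≤
          ((tub P (3 * d) (7 * d ^ 2) z.1 z.2.1 z.2.2).card : ℝ) / (7 * d ^ 2) := by
        rw [le_div_iff₀ hw0]
        refine le_trans (le_of_eq ?_) hcard
        ring
      have h4 : (2100 * h + 8) * d / (14 * r ^ 2) = (2100 * h + 8) / 14 * (d / r ^ 2) := by
        ring
      refine pow_le_pow_left₀ hδ.le ?_ 2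
      rw [h4]
      have h5 : 0 < d / r ^ 2 := by positivity
      nlinarith

end Pool.Agent.H39.HG
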