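import Pool.Agent.H39.HG.MainB

/-!
# The bound in terms of `r` and `h`

`u = (r ^ 2 / h) ^ (1/3)`, so `u ^ 3 = r ^ 2 / h`, `1 / u = h ^ (1/3) r ^ (-2/3)`; `h u ≤ 1` iff `h ^ 3 r ^ 2 / h ≤ 1` iff `h r ≤ 1`. `mainB` and
division by `u`. `finB4`: `GF_four`. `finB5`: `GF_diag`; `h / u = h ^ (4/3) r ^ (-2/3)`; as `h ≤ 1 / r`: `h / u ≤ r ^ (-2)`, `log (h / u + 2) ≤ 2 log (1 / r + 2)`, and
`(h (h / u) ^ ((s-5)/4)) ^ (1/(2s-1)) = h ^ ((s-2)/(3(2s-1))) r ^ (-(s-5)/(6(2s-1)))`, where `(s-2)/(3(2s-1)) ≤ 1/3`; so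
`I ≤ C h ^ (1/3) r ^ (-2/3) n (h ^ (1/3) + 1 + h ^ (1/3) r ^ (-(s-5)/(12 s - 6)) 2 log (1/r + 2))` (`X ^ (1/(2s-1)) ≤ X` for `X ≥ 1`; here `log (1/r+2) ≥ 1`).
-/

set_option autoImplicit false

namespace Pool.Agent.H39.HG

open Finset MvPolynomial Pool.Agent.H22.PS
open scoped Classical

private lemma FinB_u (h : ℕ) (r : ℝ) (hh : 1 ≤ h) (hr : 0 < r) (hhr : h * r ≤ 1) :
    ∃ u : ℝ, 0 < u ∧ r ^ 2 = h * u ^ 3 ∧ h * u ≤ 1 ∧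
      (1 / u = (h : ℝ) ^ (1 / 3 : ℝ) * r ^ (-(2 / 3) : ℝ)) := by
  have hh0 : (0 : ℝ) < h := by exact_mod_cast (show 0 < h by omega)
  refine ⟨(h : ℝ) ^ (-(1 / 3) : ℝ) * r ^ (2 / 3 : ℝ), by positivity, ?_, ?_, ?_⟩
  · have e1 : ((h : ℝ) ^ (-(1 / 3) : ℝ)) ^ 3 = (h : ℝ)⁻¹ := by
      rw [← Real.rpow_natCast ((h : ℝ) ^ (-(1 / 3) : ℝ)), ← Real.rpow_mul hh0.le,
        show (-(1 / 3) : ℝ) * ((3 : ℕ) : ℝ) = -1 by norm_num, Real.rpow_neg_one]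
    have e2 : (r ^ (2 / 3 : ℝ)) ^ 3 = r ^ 2 := by
      rw [← Real.rpow_natCast (r ^ (2 / 3 : ℝ)), ← Real.rpow_mul hr.le,
        show (2 / 3 : ℝ) * ((3 : ℕ) : ℝ) = ((2 : ℕ) : ℝ) by norm_num, Real.rpow_natCast]
    rw [mul_pow, e1, e2]
    field_simp
  · have e : (h : ℝ) * ((h : ℝ) ^ (-(1 / 3) : ℝ) * r ^ (2 / 3 : ℝ)) = ((h : ℝ) * r) ^ (2 / 3 : ℝ) := by
      rw [Real.mul_rpow hh0.le hr.le, ← mul_assoc]
      congr 1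
      have : (h : ℝ) * (h : ℝ) ^ (-(1 / 3) : ℝ) = (h : ℝ) ^ (1 : ℝ) * (h : ℝ) ^ (-(1 / 3) : ℝ) := by
        rw [Real.rpow_one]
      rw [this, ← Real.rpow_add hh0]; norm_num
    rw [e]
    exact Real.rpow_le_one (by positivity) hhr (by norm_num)
  · rw [one_div, mul_inv, ← Real.rpow_neg hh0.le, ← Real.rpow_neg hr.le]
    norm_num

theorem finB4 (t k : ℕ) : ∃ C : ℝ, 0 ≤ C ∧
    ∀ (h : ℕ) (r : ℝ), 1 ≤ h → 0 < r → h * r ≤ 1 →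
    ∀ (P : Finset (ℝ × ℝ)) (Γ : Finset (Set (ℝ × ℝ))),
    (∀ p ∈ P, (0 ≤ p.1 ∧ p.1 ≤ 1) ∧ 0 ≤ p.2 ∧ p.2 ≤ 1) → Hom h r P →
    (∀ γ ∈ Γ, ∃ f : MvPolynomial (Fin 2) ℝ, f ≠ 0 ∧ f.totalDegree ≤ k ∧ γ = Zs f) →
    (¬ ∃ S ⊆ P, ∃ T ⊆ Γ, S.card = 4 ∧ T.card = t ∧ ∀ p ∈ S, ∀ γ ∈ T, p ∈ γ) →
    ((∑ γ ∈ Γ, (P.filter fun p => p ∈ γ).card : ℕ) : ℝ) ≤
      C * ((h : ℝ) ^ (1 / 3 : ℝ) * r ^ (-(2 / 3) : ℝ) *
        (((h : ℝ) * P.card) ^ (1 / 3 : ℝ) * (Γ.card : ℝ) ^ (2 / 3 : ℝ) + Γ.card)) := by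
  obtain ⟨C, hC, H⟩ := mainB 4 t k le_rfl
  refine ⟨C, hC, fun h r hh hr hhr P Γ hP hom hΓ hK => ?_⟩
  obtain ⟨u, hu, h1, h2, h3⟩ := FinB_u h r hh hr hhr
  have h4 := H h r u hh hr hu h1 h2 P Γ hP hom hΓ hK
  rw [GF_four] at h4
  have h5 : ((∑ γ ∈ Γ, (P.filter fun p => p ∈ γ).card : ℕ) : ℝ) ≤ C *
      (((h : ℝ) * P.card) ^ (1 / 3 : ℝ) * (Γ.card : ℝ) ^ (2 / 3 : ℝ) + Γ.card) * (1 / u) := by
    rw [mul_one_div, le_div_iff₀ hu]; exact h4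
  refine h5.trans (le_of_eq ?_)
  rw [h3]; ring

theorem finB5 (s t k : ℕ) (hs : 5 ≤ s) : ∃ C : ℝ, 0 ≤ C ∧
    ∀ (h : ℕ) (r : ℝ), 1 ≤ h → 0 < r → h * r ≤ 1 →
    ∀ (P : Finset (ℝ × ℝ)) (Γ : Finset (Set (ℝ × ℝ))),
    (∀ p ∈ P, (0 ≤ p.1 ∧ p.1 ≤ 1) ∧ 0 ≤ p.2 ∧ p.2 ≤ 1) → Hom h r P →
    (∀ γ ∈ Γ, ∃ f : MvPolynomial (Fin 2) ℝ, f ≠ 0 ∧ f.totalDegree ≤ k ∧ γ = Zs f) →
    (¬ ∃ S ⊆ P, ∃ T ⊆ Γ, S.card = s ∧ T.card = t ∧ ∀ p ∈ S, ∀ γ ∈ T, p ∈ γ) →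
    Γ.card ≤ P.card →
    ((∑ γ ∈ Γ, (P.filter fun p => p ∈ γ).card : ℕ) : ℝ) ≤
      C * ((h : ℝ) ^ (2 / 3 : ℝ) * r ^ (-(2 / 3 + (s - 5) / (12 * s - 6)) : ℝ) *
        Real.log (1 / r + 2) * P.card) := by
  obtain ⟨C, hC, H⟩ := mainB s t k (by omega)
  refine ⟨4 * C, by positivity, fun h r hh hr hhr P Γ hP hom hΓ hK hcard => ?_⟩
  obtain ⟨u, hu, h1, h2, h3⟩ := FinB_u h r hh hr hhr
  have h4 := H h r u hh hr hu h1 h2 P Γ hP hom hΓ hK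
  have h5 := GF_diag s h u hs hh hu P.card Γ.card hcard
  have hh0 : (1 : ℝ) ≤ h := by exact_mod_cast hh
  have hhp : (0 : ℝ) < h := by linarith
  have hs5 : (5 : ℝ) ≤ s := by exact_mod_cast hs
  have hr1 : r ≤ 1 := by nlinarith
  have hinv : 1 ≤ 1 / r := by rw [le_div_iff₀ hr]; linarith
  set n : ℝ := (P.card : ℝ) with hn
  have hn0 : 0 ≤ n := by positivity
  set L : ℝ := Real.log (1 / r + 2) with hL
  have hlog3 : (1 : ℝ) ≤ Real.log 3 := by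
    rw [Real.le_log_iff_exp_le (by norm_num)]
    exact (Real.exp_one_lt_d9.trans (by norm_num)).le
  have hL1 : 1 ≤ L := hlog3.trans (Real.log_le_log (by norm_num) (by linarith))
  set e : ℝ := ((s : ℝ) - 5) / (12 * s - 6) with he
  have he0 : 0 ≤ e := div_nonneg (by linarith) (by linarith)
  have hre : 1 ≤ r ^ (-e) := Real.one_le_rpow_of_pos_of_le_one_of_nonpos hr hr1 (by linarith)
  have hh3 : 1 ≤ (h : ℝ) ^ (1 / 3 : ℝ) := Real.one_le_rpow hh0 (by norm_num)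
  have hA : (h : ℝ) / u = (h : ℝ) ^ (4 / 3 : ℝ) * r ^ (-(2 / 3) : ℝ) := by
    rw [div_eq_mul_one_div, h3, ← mul_assoc]
    congr 1
    have : (h : ℝ) * (h : ℝ) ^ (1 / 3 : ℝ) = (h : ℝ) ^ (1 : ℝ) * (h : ℝ) ^ (1 / 3 : ℝ) := by
      rw [Real.rpow_one]
    rw [this, ← Real.rpow_add hhp]; norm_num
  have hApos : 0 < (h : ℝ) / u := by positivity
  have hA1 : 1 ≤ (h : ℝ) / u := by
    rw [le_div_iff₀ hu]; nlinarith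
  have hAle : (h : ℝ) / u ≤ 1 / r ^ 2 := by
    rw [hA]
    have e1 : (h : ℝ) ^ (4 / 3 : ℝ) ≤ (1 / r) ^ (4 / 3 : ℝ) :=
      Real.rpow_le_rpow hhp.le (by rw [le_div_iff₀ hr]; exact hhr) (by norm_num)
    have e2 : (1 / r) ^ (4 / 3 : ℝ) = r ^ (-(4 / 3) : ℝ) := by
      rw [one_div, Real.inv_rpow hr.le, Real.rpow_neg hr.le]
    have e3 : r ^ (-(4 / 3) : ℝ) * r ^ (-(2 / 3) : ℝ) = 1 / r ^ 2 := by
      rw [← Real.rpow_add hr, show (-(4 / 3) + -(2 / 3) : ℝ) = -((2 : ℕ) : ℝ) by norm_num,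
        Real.rpow_neg hr.le, Real.rpow_natCast, one_div]
    calc (h : ℝ) ^ (4 / 3 : ℝ) * r ^ (-(2 / 3) : ℝ) ≤ r ^ (-(4 / 3) : ℝ) * r ^ (-(2 / 3) : ℝ) := by
          rw [← e2]; gcongr
      _ = _ := e3
  have hlA : Real.log (h / u + 2) ≤ 2 * L := by
    have : (h : ℝ) / u + 2 ≤ (1 / r + 2) ^ 2 := by
      have e1 : 1 / r ^ 2 = (1 / r) ^ 2 := by rw [one_div_pow]
      rw [e1] at hAle
      nlinarith
    calc Real.log (h / u + 2) ≤ Real.log ((1 / r + 2) ^ 2) := Real.log_le_log (by positivity) this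
      _ = 2 * L := by rw [Real.log_pow, hL]; norm_num
  have hlA1 : 1 ≤ Real.log (h / u + 2) :=
    hlog3.trans (Real.log_le_log (by norm_num) (by linarith))
  have hthird : ((h : ℝ) * (((h : ℝ) / u) ^ ((s - 5) / 4 : ℝ) * Real.log (h / u + 2))) ^
        (1 / (2 * s - 1) : ℝ) ≤ (h : ℝ) ^ (1 / 3 : ℝ) * r ^ (-e) * (2 * L) := by
    have hq : (0 : ℝ) < 2 * s - 1 := by linarith
    rw [← mul_assoc, Real.mul_rpow (by positivity) (by linarith)]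
    have e1 : (h : ℝ) * ((h : ℝ) / u) ^ ((s - 5) / 4 : ℝ) =
        (h : ℝ) ^ (((s : ℝ) - 2) / 3) * r ^ (-(((s : ℝ) - 5) / 6)) := by
      rw [hA, Real.mul_rpow (by positivity) (by positivity), ← Real.rpow_mul hhp.le,
        ← Real.rpow_mul hr.le, ← mul_assoc]
      have : (h : ℝ) * (h : ℝ) ^ ((4 / 3 : ℝ) * ((s - 5) / 4)) =
          (h : ℝ) ^ (1 : ℝ) * (h : ℝ) ^ ((4 / 3 : ℝ) * ((s - 5) / 4)) := by
        rw [Real.rpow_one]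
      rw [this, ← Real.rpow_add hhp]
      congr 2
      · ring
      · ring
    have e2 : ((h : ℝ) ^ (((s : ℝ) - 2) / 3) * r ^ (-(((s : ℝ) - 5) / 6))) ^ (1 / (2 * s - 1) : ℝ) =
        (h : ℝ) ^ (((s : ℝ) - 2) / (3 * (2 * s - 1))) * r ^ (-e) := by
      rw [Real.mul_rpow (by positivity) (by positivity), ← Real.rpow_mul hhp.le,
        ← Real.rpow_mul hr.le]
      congr 2
      · field_simp
      · rw [he]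
        have : (12 : ℝ) * s - 6 = 6 * (2 * s - 1) := by ring
        rw [this]; field_simp
    have e3 : (h : ℝ) ^ (((s : ℝ) - 2) / (3 * (2 * s - 1))) ≤ (h : ℝ) ^ (1 / 3 : ℝ) := by
      apply Real.rpow_le_rpow_of_exponent_le hh0
      rw [div_le_div_iff₀ (by positivity) (by norm_num)]
      linarith
    have e4 : Real.log (h / u + 2) ^ (1 / (2 * s - 1) : ℝ) ≤ 2 * L := by
      refine (Real.rpow_le_self_of_one_le hlA1 ?_).trans hlA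
      rw [div_le_one hq]; linarith
    rw [e1, e2]
    have hre0 : 0 < r ^ (-e) := by linarith
    gcongr
  have hhL : 1 ≤ (h : ℝ) ^ (1 / 3 : ℝ) * r ^ (-e) * L := by
    have : 1 ≤ (h : ℝ) ^ (1 / 3 : ℝ) * r ^ (-e) := by nlinarith
    nlinarith
  have hsum : (h : ℝ) ^ (1 / 3 : ℝ) + 1 +
      ((h : ℝ) * (((h : ℝ) / u) ^ ((s - 5) / 4 : ℝ) * Real.log (h / u + 2))) ^
        (1 / (2 * s - 1) : ℝ) ≤ 4 * ((h : ℝ) ^ (1 / 3 : ℝ) * r ^ (-e) * L) := by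
    have e1 : (h : ℝ) ^ (1 / 3 : ℝ) ≤ (h : ℝ) ^ (1 / 3 : ℝ) * r ^ (-e) * L := by
      have : 1 ≤ r ^ (-e) * L := by nlinarith
      rw [mul_assoc]; nlinarith
    linarith
  have h6 : ((∑ γ ∈ Γ, (P.filter fun p => p ∈ γ).card : ℕ) : ℝ) ≤
      C * (n * (4 * ((h : ℝ) ^ (1 / 3 : ℝ) * r ^ (-e) * L))) * (1 / u) := by
    rw [mul_one_div, le_div_iff₀ hu]
    refine h4.trans (mul_le_mul_of_nonneg_left (h5.trans ?_) hC)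
    exact mul_le_mul_of_nonneg_left hsum hn0
  refine h6.trans (le_of_eq ?_)
  rw [h3]
  have e7 : (h : ℝ) ^ (2 / 3 : ℝ) = (h : ℝ) ^ (1 / 3 : ℝ) * (h : ℝ) ^ (1 / 3 : ℝ) := by
    rw [← Real.rpow_add hhp]; norm_num
  have e8 : r ^ (-(2 / 3 + e) : ℝ) = r ^ (-(2 / 3) : ℝ) * r ^ (-e) := by
    rw [← Real.rpow_add hr]; congr 1; ring
  rw [e7, e8]; ring

end Pool.Agent.H39.HG
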