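import Pool.Agent.H39.HG.DefsB

/-!
# Properties of the bound `GF`

Compare `Pool/Agent/H39/HG/FFB.lean` (finished proofs there). `GF_diag`: for `N ≤ n` and `A = h / u`:
`GF ≤ h ^ (1/3) n + n + n (h A ^ ((s-5)/4) log (A + 2)) ^ (1/(2s-1))` (monotone in `N`, `N = n`).
-/

set_option autoImplicit false

namespace Pool.Agent.H39.HG

open Finset
open scoped Classical

private theorem GFB_base (s h : ℕ) (u : ℝ) (hu : 0 < u) :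
    0 ≤ ((h : ℝ) / u) ^ ((s - 5) / 4 : ℝ) * Real.log (h / u + 2) := by
  have h0 : (0 : ℝ) ≤ (h : ℝ) / u := div_nonneg (Nat.cast_nonneg h) hu.le
  exact mul_nonneg (Real.rpow_nonneg h0 _) (Real.log_nonneg (by linarith))

private theorem GFB_X (s h : ℕ) (u : ℝ) (hu : 0 < u) (n : ℕ) :
    0 ≤ ((h : ℝ) * n * (((h : ℝ) / u) ^ ((s - 5) / 4 : ℝ) * Real.log (h / u + 2))) ^
        (1 / (2 * s - 1) : ℝ) :=
  Real.rpow_nonneg (mul_nonneg (by positivity) (GFB_base s h u hu)) _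

private theorem GFB_exp (s : ℕ) (hs : ¬ s ≤ 4) :
    (0 : ℝ) < 2 * s - 1 ∧ (0 : ℝ) < 1 - 1 / (2 * s - 1) ∧ (1 - 1 / (2 * s - 1) : ℝ) ≤ 1 := by
  have h : (5 : ℝ) ≤ (s : ℝ) := by
    have : 5 ≤ s := by omega
    exact_mod_cast this
  have h1 : (0 : ℝ) < 2 * s - 1 := by linarith
  have h2 : (0 : ℝ) ≤ 1 / (2 * (s : ℝ) - 1) := by positivity
  have h3 : (1 / (2 * (s : ℝ) - 1) : ℝ) < 1 := by
    rw [div_lt_one h1]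
    linarith
  refine ⟨h1, by linarith, by linarith⟩

private theorem GFB_T (s h : ℕ) (u : ℝ) (hu : 0 < u) (n N : ℕ) :
    0 ≤ (if s ≤ 4 then 0 else (N : ℝ) ^ (1 - 1 / (2 * s - 1) : ℝ) *
      ((h : ℝ) * n * (((h : ℝ) / u) ^ ((s - 5) / 4 : ℝ) * Real.log (h / u + 2))) ^
        (1 / (2 * s - 1) : ℝ) : ℝ) := by
  split_ifs
  · exact le_rfl
  · exact mul_nonneg (Real.rpow_nonneg (Nat.cast_nonneg N) _) (GFB_X s h u hu n)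

private theorem GFB_mul_rpow (a N : ℕ) (ha : 1 ≤ a) (e : ℝ) (he : e ≤ 1) :
    ((a * N : ℕ) : ℝ) ^ e ≤ (a : ℝ) * (N : ℝ) ^ e := by
  have hN : (0 : ℝ) ≤ (N : ℝ) := Nat.cast_nonneg N
  have ha0 : (0 : ℝ) ≤ (a : ℝ) := Nat.cast_nonneg a
  have ha1 : (1 : ℝ) ≤ (a : ℝ) := by exact_mod_cast ha
  rw [Nat.cast_mul, Real.mul_rpow ha0 hN]
  apply mul_le_mul_of_nonneg_right _ (Real.rpow_nonneg hN _)
  calc (a : ℝ) ^ e ≤ (a : ℝ) ^ (1 : ℝ) := Real.rpow_le_rpow_of_exponent_le ha1 he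
    _ = a := Real.rpow_one _

theorem GF_nonneg (s h : ℕ) (u : ℝ) (hu : 0 < u) (n N : ℕ) : 0 ≤ GF s h u n N := by
  have h1 := GFB_T s h u hu n N
  have h2 : (0 : ℝ) ≤ ((h : ℝ) * n) ^ (1 / 3 : ℝ) * (N : ℝ) ^ (2 / 3 : ℝ) + N := by positivity
  unfold GF
  linarith

theorem GF_ge (s h : ℕ) (u : ℝ) (hu : 0 < u) (n N : ℕ) : (N : ℝ) ≤ GF s h u n N := by
  have h1 := GFB_T s h u hu n N
  have h2 : (0 : ℝ) ≤ ((h : ℝ) * n) ^ (1 / 3 : ℝ) * (N : ℝ) ^ (2 / 3 : ℝ) := by positivity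
  unfold GF
  linarith

theorem GF_mono (s h : ℕ) (u : ℝ) (hu : 0 < u) (n N N' : ℕ) (hN : N ≤ N') :
    GF s h u n N ≤ GF s h u n N' := by
  have hN0 : (0 : ℝ) ≤ (N : ℝ) := Nat.cast_nonneg N
  have hNN : (N : ℝ) ≤ (N' : ℝ) := by exact_mod_cast hN
  have h1 : ((h : ℝ) * n) ^ (1 / 3 : ℝ) * (N : ℝ) ^ (2 / 3 : ℝ) ≤
      ((h : ℝ) * n) ^ (1 / 3 : ℝ) * (N' : ℝ) ^ (2 / 3 : ℝ) :=
    mul_le_mul_of_nonneg_left (Real.rpow_le_rpow hN0 hNN (by norm_num))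
      (Real.rpow_nonneg (by positivity) _)
  unfold GF
  split_ifs with hs
  · linarith
  · obtain ⟨e0, e1, e2⟩ := GFB_exp s hs
    have h3 : (N : ℝ) ^ (1 - 1 / (2 * s - 1) : ℝ) *
      ((h : ℝ) * n * (((h : ℝ) / u) ^ ((s - 5) / 4 : ℝ) * Real.log (h / u + 2))) ^
        (1 / (2 * s - 1) : ℝ) ≤ (N' : ℝ) ^ (1 - 1 / (2 * s - 1) : ℝ) *
      ((h : ℝ) * n * (((h : ℝ) / u) ^ ((s - 5) / 4 : ℝ) * Real.log (h / u + 2))) ^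
        (1 / (2 * s - 1) : ℝ) :=
      mul_le_mul_of_nonneg_right (Real.rpow_le_rpow hN0 hNN e1.le) (GFB_X s h u hu n)
    linarith

theorem GF_mul (s h : ℕ) (u : ℝ) (hu : 0 < u) (n N a : ℕ) (ha : 1 ≤ a) :
    GF s h u n (a * N) ≤ a * GF s h u n N := by
  have h1 : ((h : ℝ) * n) ^ (1 / 3 : ℝ) * ((a * N : ℕ) : ℝ) ^ (2 / 3 : ℝ) ≤
      ((h : ℝ) * n) ^ (1 / 3 : ℝ) * ((a : ℝ) * (N : ℝ) ^ (2 / 3 : ℝ)) :=
    mul_le_mul_of_nonneg_left (GFB_mul_rpow a N ha _ (by norm_num))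
      (Real.rpow_nonneg (by positivity) _)
  have h2 : ((a * N : ℕ) : ℝ) = a * (N : ℝ) := Nat.cast_mul a N
  unfold GF
  split_ifs with hs
  · have h3 : ((a * N : ℕ) : ℝ) ≤ a * (N : ℝ) := h2.le
    calc _ ≤ ((h : ℝ) * n) ^ (1 / 3 : ℝ) * ((a : ℝ) * (N : ℝ) ^ (2 / 3 : ℝ)) + a * (N : ℝ) + 0 :=
          add_le_add (add_le_add h1 h3) le_rfl
      _ = _ := by ring
  · obtain ⟨e0, e1, e2⟩ := GFB_exp s hs
    have h3 : ((a * N : ℕ) : ℝ) ≤ a * (N : ℝ) := h2.le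
    have h4 : ((a * N : ℕ) : ℝ) ^ (1 - 1 / (2 * s - 1) : ℝ) *
      ((h : ℝ) * n * (((h : ℝ) / u) ^ ((s - 5) / 4 : ℝ) * Real.log (h / u + 2))) ^
        (1 / (2 * s - 1) : ℝ) ≤ ((a : ℝ) * (N : ℝ) ^ (1 - 1 / (2 * s - 1) : ℝ)) *
      ((h : ℝ) * n * (((h : ℝ) / u) ^ ((s - 5) / 4 : ℝ) * Real.log (h / u + 2))) ^
        (1 / (2 * s - 1) : ℝ) :=
      mul_le_mul_of_nonneg_right (GFB_mul_rpow a N ha _ e2) (GFB_X s h u hu n)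
    calc _ ≤ ((h : ℝ) * n) ^ (1 / 3 : ℝ) * ((a : ℝ) * (N : ℝ) ^ (2 / 3 : ℝ)) + a * (N : ℝ) +
          ((a : ℝ) * (N : ℝ) ^ (1 - 1 / (2 * s - 1) : ℝ)) *
      ((h : ℝ) * n * (((h : ℝ) / u) ^ ((s - 5) / 4 : ℝ) * Real.log (h / u + 2))) ^
        (1 / (2 * s - 1) : ℝ) :=
          add_le_add (add_le_add h1 h3) h4
      _ = _ := by ring

theorem GF_four (h : ℕ) (u : ℝ) (n N : ℕ) : GF 4 h u n N =
    ((h : ℝ) * n) ^ (1 / 3 : ℝ) * (N : ℝ) ^ (2 / 3 : ℝ) + N := by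
  unfold GF
  rw [if_pos le_rfl, add_zero]

theorem GF_diag (s h : ℕ) (u : ℝ) (hs : 5 ≤ s) (hh : 1 ≤ h) (hu : 0 < u) (n N : ℕ)
    (hN : N ≤ n) : GF s h u n N ≤ (n : ℝ) * ((h : ℝ) ^ (1 / 3 : ℝ) + 1 +
      ((h : ℝ) * (((h : ℝ) / u) ^ ((s - 5) / 4 : ℝ) * Real.log (h / u + 2))) ^
        (1 / (2 * s - 1) : ℝ)) := by
  refine (GF_mono s h u hu n N n hN).trans ?_
  have hs4 : ¬ s ≤ 4 := by omega
  obtain ⟨e0, e1, e2⟩ := GFB_exp s hs4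
  have hb := GFB_base s h u hu
  have hh0 : (0 : ℝ) ≤ (h : ℝ) := Nat.cast_nonneg h
  set Y : ℝ := ((h : ℝ) / u) ^ ((s - 5) / 4 : ℝ) * Real.log (h / u + 2) with hY
  unfold GF
  rw [if_neg hs4, ← hY]
  rcases Nat.eq_zero_or_pos n with hn | hn
  · subst hn
    have z1 : (((0 : ℕ) : ℝ)) ^ (2 / 3 : ℝ) = 0 := by
      rw [Nat.cast_zero, Real.zero_rpow (by norm_num)]
    have z2 : (((0 : ℕ) : ℝ)) ^ (1 - 1 / (2 * s - 1) : ℝ) = 0 := by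
      rw [Nat.cast_zero, Real.zero_rpow e1.ne']
    rw [z1, z2]
    simp
  · have hn0 : (0 : ℝ) < (n : ℝ) := by exact_mod_cast hn
    have t1 : ((h : ℝ) * n) ^ (1 / 3 : ℝ) * (n : ℝ) ^ (2 / 3 : ℝ) = n * (h : ℝ) ^ (1 / 3 : ℝ) := by
      rw [Real.mul_rpow hh0 hn0.le, mul_assoc, ← Real.rpow_add hn0]
      norm_num
      ring
    have t2 : (n : ℝ) ^ (1 - 1 / (2 * s - 1) : ℝ) * ((h : ℝ) * n * Y) ^ (1 / (2 * s - 1) : ℝ) =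
        n * ((h : ℝ) * Y) ^ (1 / (2 * s - 1) : ℝ) := by
      rw [show (h : ℝ) * n * Y = n * (h * Y) by ring, Real.mul_rpow hn0.le (mul_nonneg hh0 hb),
        ← mul_assoc, ← Real.rpow_add hn0]
      rw [sub_add_cancel, Real.rpow_one]
    rw [t1, t2]
    exact le_of_eq (by ring)

end Pool.Agent.H39.HG
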