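import Pool.Agent.H39.HG.GgB
import Pool.Agent.H39.HG.Cov

/-!
# Sum of the kernel over a homogeneous set, constant linear in `h`

The same as `Pool/Agent/H39/HG/GSum.lean` (finished proof there; copy it) with the constant `C * h`, `C` independent of `h`
(the constant in that proof is a multiple of `h`; if it has an additive term use `h ≥ 1` for non empty `P`: one point in a square).
-/

set_option autoImplicit false

namespace Pool.Agent.H39.HG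

open Finset
open scoped Classical

private theorem GSumB_sq (M : ℕ) : ∑ i ∈ range (M + 1), (1 : ℝ) / ((i : ℝ) + 1) ^ 2 ≤ 2 - 1 / ((M : ℝ) + 1) := by
  induction M with
  | zero => simp; norm_num
  | succ M ih =>
    rw [sum_range_succ]
    have hM : (0 : ℝ) ≤ (M : ℝ) := Nat.cast_nonneg M
    have h1 : (1 : ℝ) / (((M + 1 : ℕ) : ℝ) + 1) ^ 2 ≤ 1 / ((M : ℝ) + 1) - 1 / (((M + 1 : ℕ) : ℝ) + 1) := by
      push_cast
      rw [div_sub_div _ _ (by positivity) (by positivity), div_le_div_iff₀ (by positivity) (by positivity)]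
      nlinarith
    linarith

private theorem GSumB_card (h : ℕ) (r : ℝ) (hr : 0 < r) (P : Finset (ℝ × ℝ)) (hP : Hom h r P) (p : ℝ × ℝ)
    (w : ℝ) (hwr : w ≤ r) (i : ℕ) (F : Finset (ℝ × ℝ))
    (hF : ∀ q ∈ F, q ∈ P ∧ |p.2 - q.2| ≤ 3 * |p.1 - q.1| + 4 * w ∧ ⌊|p.1 - q.1| / r⌋₊ = i) :
    (F.card : ℝ) ≤ 60 * h * ((i : ℝ) + 1) := by
  have hi : (0 : ℝ) ≤ (i : ℝ) := Nat.cast_nonneg i
  have hB : 0 ≤ 2 * (3 * (i : ℝ) + 7) * r := by positivity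
  have h1 := rect_card h r hr P hP (p.1 + i * r) (p.2 - (3 * (i : ℝ) + 7) * r) r
    (2 * (3 * (i : ℝ) + 7) * r) hr.le hB
  have h2 := rect_card h r hr P hP (p.1 - ((i : ℝ) + 1) * r) (p.2 - (3 * (i : ℝ) + 7) * r) r
    (2 * (3 * (i : ℝ) + 7) * r) hr.le hB
  have hsub : F ⊆ (P.filter fun q => (p.1 + i * r ≤ q.1 ∧ q.1 ≤ p.1 + i * r + r) ∧
      p.2 - (3 * (i : ℝ) + 7) * r ≤ q.2 ∧ q.2 ≤ p.2 - (3 * (i : ℝ) + 7) * r + 2 * (3 * (i : ℝ) + 7) * r) ∪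
      (P.filter fun q => (p.1 - ((i : ℝ) + 1) * r ≤ q.1 ∧ q.1 ≤ p.1 - ((i : ℝ) + 1) * r + r) ∧
      p.2 - (3 * (i : ℝ) + 7) * r ≤ q.2 ∧ q.2 ≤ p.2 - (3 * (i : ℝ) + 7) * r + 2 * (3 * (i : ℝ) + 7) * r) := by
    intro q hq
    obtain ⟨hqP, hqb, hqi⟩ := hF q hq
    have h3 : 0 ≤ |p.1 - q.1| / r := div_nonneg (abs_nonneg _) hr.le
    have h4 := Nat.floor_le h3
    have h5 := Nat.lt_floor_add_one (|p.1 - q.1| / r)
    rw [hqi] at h4 h5
    rw [le_div_iff₀ hr] at h4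
    rw [div_lt_iff₀ hr] at h5
    have h6 : |p.2 - q.2| ≤ (3 * (i : ℝ) + 7) * r := by nlinarith
    rw [abs_le] at h6
    rw [mem_union, mem_filter, mem_filter]
    rcases le_total 0 (p.1 - q.1) with h7 | h7
    · right
      rw [abs_of_nonneg h7] at h4 h5
      exact ⟨hqP, ⟨by linarith, by nlinarith⟩, by linarith [h6.1, h6.2], by nlinarith [h6.1, h6.2]⟩
    · left
      rw [abs_of_nonpos h7] at h4 h5
      exact ⟨hqP, ⟨by linarith, by nlinarith⟩, by linarith [h6.1, h6.2], by nlinarith [h6.1, h6.2]⟩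
  have h3 : (F.card : ℝ) ≤ (h * (r / r + 1) * (2 * (3 * (i : ℝ) + 7) * r / r + 1)) +
      (h * (r / r + 1) * (2 * (3 * (i : ℝ) + 7) * r / r + 1)) := by
    refine le_trans ?_ (add_le_add h1 h2)
    exact_mod_cast (card_le_card hsub).trans (card_union_le _ _)
  rw [div_self hr.ne', mul_div_cancel_right₀ _ hr.ne'] at h3
  have hh : (0 : ℝ) ≤ (h : ℝ) := Nat.cast_nonneg h
  nlinarith [mul_nonneg hh hi]

theorem gg_sumB : ∃ C : ℝ, 0 ≤ C ∧ ∀ (h : ℕ) (r : ℝ) (P : Finset (ℝ × ℝ)), 0 < r →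
    Hom h r P → ∀ w : ℝ, 0 < w → w ≤ r → ∀ p : ℝ × ℝ,
    ∑ q ∈ P, |GG w (p.1 - q.1) (p.2 - q.2)| ≤ C * h * w := by
  obtain ⟨C₀, hC₀, hG⟩ := gg_le
  refine ⟨960 * C₀, by positivity, ?_⟩
  intro h r P hr hP w hw hwr p
  have hh : (0 : ℝ) ≤ (h : ℝ) := Nat.cast_nonneg h
  obtain ⟨P', hP'⟩ : ∃ P' : Finset (ℝ × ℝ), P' = P.filter fun q => |p.2 - q.2| ≤ 3 * |p.1 - q.1| + 4 * w :=
    ⟨_, rfl⟩
  have h1 : ∑ q ∈ P, |GG w (p.1 - q.1) (p.2 - q.2)| = ∑ q ∈ P', |GG w (p.1 - q.1) (p.2 - q.2)| := by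
    rw [hP', sum_filter]
    refine sum_congr rfl fun q _ => ?_
    by_cases hq : |p.2 - q.2| ≤ 3 * |p.1 - q.1| + 4 * w
    · rw [if_pos hq]
    · rw [if_neg hq, (hG w _ _ hw).2.2 (not_le.1 hq), abs_zero]
  rw [h1]
  obtain ⟨M, hM⟩ : ∃ M : ℕ, ∀ q ∈ P', ⌊|p.1 - q.1| / r⌋₊ ∈ range (M + 1) := by
    refine ⟨P'.sup fun q => ⌊|p.1 - q.1| / r⌋₊, fun q hq => ?_⟩
    rw [mem_range, Nat.lt_succ_iff]
    exact le_sup (f := fun q : ℝ × ℝ => ⌊|p.1 - q.1| / r⌋₊) hq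
  rw [← sum_fiberwise_of_maps_to hM]
  have h2 : ∀ i ∈ range (M + 1), ∑ q ∈ P'.filter (fun q => ⌊|p.1 - q.1| / r⌋₊ = i),
      |GG w (p.1 - q.1) (p.2 - q.2)| ≤ 480 * h * C₀ * w * (1 / ((i : ℝ) + 1) ^ 2) := by
    intro i _
    have hi : (0 : ℝ) ≤ (i : ℝ) := Nat.cast_nonneg i
    have hterm : ∀ q ∈ P'.filter (fun q => ⌊|p.1 - q.1| / r⌋₊ = i),
        |GG w (p.1 - q.1) (p.2 - q.2)| ≤ C₀ * w * (8 / ((i : ℝ) + 1) ^ 3) := by
      intro q hq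
      rw [mem_filter] at hq
      rcases Nat.eq_zero_or_pos i with h0 | h0
      · refine (hG w _ _ hw).1.trans ?_
        rw [h0]
        have : 0 ≤ C₀ * w := by positivity
        norm_num
        linarith
      · have hi1 : (1 : ℝ) ≤ (i : ℝ) := by exact_mod_cast h0
        have h3 : 0 ≤ |p.1 - q.1| / r := div_nonneg (abs_nonneg _) hr.le
        have h4 := Nat.floor_le h3
        rw [hq.2, le_div_iff₀ hr] at h4
        have hir : 0 < (i : ℝ) * r := by positivity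
        have ha : p.1 - q.1 ≠ 0 := by
          intro h5
          rw [h5, abs_zero] at h4
          linarith
        refine ((hG w _ _ hw).2.1 ha).trans ?_
        rw [mul_assoc]
        refine mul_le_mul_of_nonneg_left ?_ hC₀
        have h5 : ((i : ℝ) * r) ^ 3 ≤ |p.1 - q.1| ^ 3 := pow_le_pow_left₀ hir.le h4 3
        have h6 : w ^ 3 ≤ r ^ 3 := pow_le_pow_left₀ hw.le hwr 3
        have h7 : ((i : ℝ) + 1) ^ 3 ≤ (2 * (i : ℝ)) ^ 3 := pow_le_pow_left₀ (by linarith) (by linarith) 3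
        rw [mul_div_assoc', div_le_div_iff₀ (pow_pos (lt_of_lt_of_le hir h4) 3) (by positivity)]
        have h8 : w ^ 3 * ((i : ℝ) + 1) ^ 3 ≤ 8 * |p.1 - q.1| ^ 3 := by
          calc w ^ 3 * ((i : ℝ) + 1) ^ 3 ≤ r ^ 3 * (2 * (i : ℝ)) ^ 3 :=
                mul_le_mul h6 h7 (by positivity) (by positivity)
            _ = 8 * ((i : ℝ) * r) ^ 3 := by ring
            _ ≤ 8 * |p.1 - q.1| ^ 3 := by linarith
        calc w ^ 4 * ((i : ℝ) + 1) ^ 3 = w * (w ^ 3 * ((i : ℝ) + 1) ^ 3) := by ring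
          _ ≤ w * (8 * |p.1 - q.1| ^ 3) := mul_le_mul_of_nonneg_left h8 hw.le
          _ = w * 8 * |p.1 - q.1| ^ 3 := by ring
    have hcard := GSumB_card h r hr P hP p w hwr i (P'.filter (fun q => ⌊|p.1 - q.1| / r⌋₊ = i)) (by
      intro q hq
      rw [mem_filter, hP', mem_filter] at hq
      exact ⟨hq.1.1, hq.1.2, hq.2⟩)
    calc ∑ q ∈ P'.filter (fun q => ⌊|p.1 - q.1| / r⌋₊ = i), |GG w (p.1 - q.1) (p.2 - q.2)|
        ≤ (P'.filter (fun q => ⌊|p.1 - q.1| / r⌋₊ = i)).card • (C₀ * w * (8 / ((i : ℝ) + 1) ^ 3)) :=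
          sum_le_card_nsmul _ _ _ hterm
      _ = ((P'.filter (fun q => ⌊|p.1 - q.1| / r⌋₊ = i)).card : ℝ) * (C₀ * w * (8 / ((i : ℝ) + 1) ^ 3)) := by
          rw [nsmul_eq_mul]
      _ ≤ (60 * h * ((i : ℝ) + 1)) * (C₀ * w * (8 / ((i : ℝ) + 1) ^ 3)) :=
          mul_le_mul_of_nonneg_right hcard (by positivity)
      _ = 480 * h * C₀ * w * (1 / ((i : ℝ) + 1) ^ 2) := by
          field_simp
          ring
  calc ∑ i ∈ range (M + 1), ∑ q ∈ P'.filter (fun q => ⌊|p.1 - q.1| / r⌋₊ = i),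
        |GG w (p.1 - q.1) (p.2 - q.2)|
      ≤ ∑ i ∈ range (M + 1), 480 * h * C₀ * w * (1 / ((i : ℝ) + 1) ^ 2) := sum_le_sum h2
    _ = 480 * h * C₀ * w * ∑ i ∈ range (M + 1), (1 / ((i : ℝ) + 1) ^ 2) := by rw [mul_sum]
    _ ≤ 480 * h * C₀ * w * 2 := by
        refine mul_le_mul_of_nonneg_left ?_ (by positivity)
        have h3 := GSumB_sq M
        have h4 : 0 ≤ 1 / ((M : ℝ) + 1) := by positivity
        linarith
    _ = 960 * C₀ * h * w := by ring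

end Pool.Agent.H39.HG
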