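import Pool.Agent.H39.HG.Defs

/-!
# The function `Ps`

`ps w` is a step function, `|ps w v| ≤ 1`, zero for `|v| > 2 w`, even, integral `2 (2 w) - 4 w = 0`. `Ps w u = ∫ ps w v * ps w (v - u)` is the
convolution of `ps w` with itself (`ps w` is even); integrable by `Integrable.integrable_convolution`, total integral
`(∫ ps w) ^ 2 = 0` by `integral_convolution` (or Fubini: `integral_integral_swap`, translation invariance).
-/

set_option autoImplicit false

namespace Pool.Agent.H39.HG

open Finset MeasureTheory
open scoped Classical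

private theorem PsB_set (c : ℝ) : MeasurableSet {v : ℝ | |v| ≤ c} :=
  measurableSet_le (by fun_prop) measurable_const

private theorem PsB_setIcc (c : ℝ) : {v : ℝ | |v| ≤ c} = Set.Icc (-c) c := by
  ext v; simp [abs_le]

private theorem PsB_ind (c : ℝ) : (fun v : ℝ => if |v| ≤ c then (1 : ℝ) else 0) =
    Set.indicator (Set.Icc (-c) c) (fun _ => (1 : ℝ)) := by
  funext v
  by_cases h : |v| ≤ c
  · have h' : v ∈ Set.Icc (-c) c := abs_le.mp h
    simp [h, Set.indicator_of_mem h']
  · have h' : v ∉ Set.Icc (-c) c := fun k => h (abs_le.mpr k)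
    simp [h, Set.indicator_of_notMem h']

private theorem PsB_indInt (c : ℝ) : Integrable (fun v : ℝ => if |v| ≤ c then (1 : ℝ) else 0) := by
  rw [PsB_ind]
  exact (integrable_indicator_iff measurableSet_Icc).mpr
    (integrableOn_const (by simp) (by simp))

private theorem PsB_indVal (c : ℝ) (hc : 0 ≤ c) :
    ∫ v : ℝ, (if |v| ≤ c then (1 : ℝ) else 0) = 2 * c := by
  rw [PsB_ind, integral_indicator measurableSet_Icc, setIntegral_const]
  simp only [smul_eq_mul, mul_one]
  rw [measureReal_def, Real.volume_Icc, ENNReal.toReal_ofReal (by linarith)]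
  ring

theorem ps_meas (w : ℝ) : Measurable (ps w) := by
  unfold ps
  exact (Measurable.const_mul (Measurable.ite (PsB_set w) measurable_const measurable_const) 2).sub
    (Measurable.ite (PsB_set (2 * w)) measurable_const measurable_const)

theorem ps_abs (w v : ℝ) : |ps w v| ≤ 1 := by
  unfold ps
  have h0 := abs_nonneg v
  by_cases h1 : |v| ≤ w
  · have h2 : |v| ≤ 2 * w := by linarith
    simp only [h1, h2, if_true]
    norm_num
  · by_cases h2 : |v| ≤ 2 * w
    · simp only [h1, h2, if_true, if_false]
      norm_num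
    · simp only [h1, h2, if_false]
      norm_num

theorem ps_zero (w v : ℝ) (hw : 0 ≤ w) (hv : 2 * w < |v|) : ps w v = 0 := by
  unfold ps
  have h1 : ¬ |v| ≤ w := by
    intro h; linarith
  have h2 : ¬ |v| ≤ 2 * w := not_le.mpr hv
  simp only [h1, h2, if_false]
  norm_num

theorem ps_int (w : ℝ) (hw : 0 < w) : Integrable (ps w) := by
  have h := ((PsB_indInt w).const_mul 2).sub (PsB_indInt (2 * w))
  exact h

private theorem PsB_psEven (w v : ℝ) : ps w (-v) = ps w v := by
  unfold ps; rw [abs_neg]

private theorem PsB_psTot (w : ℝ) (hw : 0 < w) : ∫ v, ps w v = 0 := by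
  have h : (fun v => ps w v) = fun v => 2 * (if |v| ≤ w then (1 : ℝ) else 0) -
      (if |v| ≤ 2 * w then (1 : ℝ) else 0) := rfl
  rw [h, integral_sub ((PsB_indInt w).const_mul 2) (PsB_indInt (2 * w)), integral_const_mul,
    PsB_indVal w hw.le, PsB_indVal (2 * w) (by linarith)]
  ring

private theorem PsB_bd (w u v : ℝ) (hw : 0 < w) :
    |ps w v * ps w (v - u)| ≤ (if |v| ≤ 2 * w then (1 : ℝ) else 0) := by
  by_cases h : |v| ≤ 2 * w
  · simp only [h, if_true]
    rw [abs_mul]
    have h1 := ps_abs w v
    have h2 := ps_abs w (v - u)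
    have h3 := abs_nonneg (ps w v)
    have h4 := abs_nonneg (ps w (v - u))
    nlinarith
  · simp only [h, if_false]
    rw [ps_zero w v hw.le (not_le.mp h)]
    simp

theorem Ps_abs (w u : ℝ) (hw : 0 < w) : |Ps w u| ≤ 4 * w := by
  unfold Ps
  have h := norm_integral_le_of_norm_le (μ := (volume : Measure ℝ)) (PsB_indInt (2 * w))
    (f := fun v => ps w v * ps w (v - u))
    (Filter.Eventually.of_forall fun v => by
      rw [Real.norm_eq_abs]; exact PsB_bd w u v hw)
  rw [PsB_indVal (2 * w) (by linarith), Real.norm_eq_abs] at h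
  linarith

theorem Ps_even (w u : ℝ) : Ps w (-u) = Ps w u := by
  unfold Ps
  have h := integral_sub_right_eq_self (μ := (volume : Measure ℝ))
    (fun v => ps w v * ps w (v - -u)) u
  rw [← h]
  congr 1
  funext v
  have e : v - u - -u = v := by ring
  rw [e, mul_comm]

theorem Ps_zero (w u : ℝ) (hw : 0 < w) (hu : 4 * w < |u|) : Ps w u = 0 := by
  unfold Ps
  have h : (fun v => ps w v * ps w (v - u)) = fun _ => (0 : ℝ) := by
    funext v
    by_cases h1 : |v| ≤ 2 * w
    · have h2 : 2 * w < |v - u| := by
        have h3 : |u| ≤ |v| + |v - u| := by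
          have h4 := abs_sub_abs_le_abs_sub u v
          rw [abs_sub_comm u v] at h4
          linarith
        linarith
      rw [ps_zero w (v - u) hw.le h2, mul_zero]
    · rw [ps_zero w v hw.le (not_le.mp h1), zero_mul]
  rw [h, integral_zero]

private theorem PsB_conv (w : ℝ) :
    Ps w = MeasureTheory.convolution (ps w) (ps w) (ContinuousLinearMap.mul ℝ ℝ) volume := by
  funext u
  unfold Ps MeasureTheory.convolution
  congr 1
  funext v
  rw [ContinuousLinearMap.mul_apply', ← PsB_psEven w (u - v)]
  congr 2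
  ring

theorem Ps_int (w : ℝ) (hw : 0 < w) : Integrable (Ps w) := by
  rw [PsB_conv]
  exact (ps_int w hw).integrable_convolution (ContinuousLinearMap.mul ℝ ℝ) (ps_int w hw)

theorem Ps_tot (w : ℝ) (hw : 0 < w) : ∫ u, Ps w u = 0 := by
  rw [PsB_conv, integral_convolution (ContinuousLinearMap.mul ℝ ℝ) (ps_int w hw) (ps_int w hw),
    PsB_psTot w hw]
  simp

end Pool.Agent.H39.HG
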