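import Pool.Agent.H39.HG.OmB
import Pool.Agent.H39.HG.PsB

/-!
# Bounds for the kernel

(1) `|GG w a b| ≤ ∫_{|m| ≤ 3} 81 * 4 w`, so `C ≥ 6 * 81 * 4`. (3) If `|b| > 3 |a| + 4 w` then for `|m| ≤ 3` we have `|b - m a| > 4 w` and
`Ps = 0` (`Ps_zero`), and for `|m| > 3` `om = 0`. (2) Let `a ≠ 0`. Substitution `u = b - m a` (`integral_comp_mul_left` etc.; `m = (b - u) / a`):
`GG w a b = (1 / |a|) ∫ om ((b - u) / a) * Ps w u du`; replace `u` by `-u` (`Ps_even`, `integral_neg_eq_self`) and take the mean, subtract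
`2 om (b / a) ∫ Ps = 0` (`Ps_tot`):
`GG w a b = (1 / (2 |a|)) ∫ (om (b/a - u/a) + om (b/a + u/a) - 2 om (b/a)) Ps w u du`; by `om_diff2`, `Ps_abs`, `Ps_zero` the absolute value is
at most `(1 / (2 |a|)) * 400 (4 w / a) ^ 2 * 4 w * 8 w`. All integrands are bounded with compact support and measurable (`om_cont`,
`Ps_int`).
-/

set_option autoImplicit false

namespace Pool.Agent.H39.HG

open Finset MeasureTheory
open scoped Classical

private theorem GgB_ind (c : ℝ) : (fun v : ℝ => if |v| ≤ c then (1 : ℝ) else 0) =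
    Set.indicator (Set.Icc (-c) c) (fun _ => (1 : ℝ)) := by
  funext v
  by_cases h : |v| ≤ c
  · have h' : v ∈ Set.Icc (-c) c := abs_le.mp h
    simp [h, Set.indicator_of_mem h']
  · have h' : v ∉ Set.Icc (-c) c := fun k => h (abs_le.mpr k)
    simp [h, Set.indicator_of_notMem h']

private theorem GgB_indInt (c : ℝ) : Integrable (fun v : ℝ => if |v| ≤ c then (1 : ℝ) else 0) := by
  rw [GgB_ind]
  exact (integrable_indicator_iff measurableSet_Icc).mpr
    (integrableOn_const (by simp) (by simp))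

private theorem GgB_indVal (c : ℝ) (hc : 0 ≤ c) :
    ∫ v : ℝ, (if |v| ≤ c then (1 : ℝ) else 0) = 2 * c := by
  rw [GgB_ind, integral_indicator measurableSet_Icc, setIntegral_const]
  simp only [smul_eq_mul, mul_one]
  rw [measureReal_def, Real.volume_Icc, ENNReal.toReal_ofReal (by linarith)]
  ring

/-- a function bounded by `M` on `|v| ≤ c` and zero outside -/
private theorem GgB_bd (f : ℝ → ℝ) (c M : ℝ) (hc : 0 ≤ c)
    (h1 : ∀ v, |v| ≤ c → |f v| ≤ M) (h2 : ∀ v, c < |v| → f v = 0) :
    |∫ v, f v| ≤ M * (2 * c) := by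
  have h := norm_integral_le_of_norm_le (μ := (volume : Measure ℝ)) ((GgB_indInt c).const_mul M)
    (f := f) (Filter.Eventually.of_forall fun v => by
      rw [Real.norm_eq_abs]
      by_cases hv : |v| ≤ c
      · simp only [hv, if_true, mul_one]
        exact h1 v hv
      · simp only [hv, if_false, mul_zero]
        rw [h2 v (not_le.mp hv), abs_zero])
  rw [integral_const_mul, GgB_indVal c hc, Real.norm_eq_abs] at h
  exact h

private theorem GgB_int (w b a : ℝ) (hw : 0 < w) (s : ℝ) :
    Integrable (fun u => om ((b + s * u) / a) * Ps w u) := by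
  have hc : Continuous (fun u : ℝ => om ((b + s * u) / a)) :=
    om_cont.comp (by fun_prop)
  refine (Ps_int w hw).bdd_mul (c := 81) hc.aestronglyMeasurable ?_
  refine Filter.Eventually.of_forall fun u => ?_
  rw [Real.norm_eq_abs, abs_of_nonneg (om_nonneg _)]
  exact om_le _

private theorem GgB_sub (w a b : ℝ) (ha : a ≠ 0) :
    GG w a b = |a⁻¹| * ∫ u, om ((b - u) / a) * Ps w u := by
  unfold GG
  set f : ℝ → ℝ := fun u => om ((b - u) / a) * Ps w u with hf
  have e1 : (fun m : ℝ => om m * Ps w (b - m * a)) = fun m : ℝ => (fun y => f (b - y)) (m * a) := by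
    funext m
    show _ = f (b - m * a)
    rw [hf]
    show _ = om ((b - (b - m * a)) / a) * Ps w (b - m * a)
    have : (b - (b - m * a)) / a = m := by
      field_simp
      ring
    rw [this]
  rw [e1, MeasureTheory.Measure.integral_comp_mul_right (fun y => f (b - y)) a, smul_eq_mul]
  congr 1
  exact integral_sub_left_eq_self f volume b

private theorem GgB_sym (w a b : ℝ) (hw : 0 < w) (ha : a ≠ 0) :
    2 * ∫ u, om ((b - u) / a) * Ps w u =
      ∫ u, (om (b / a + u / a) + om (b / a - u / a) - 2 * om (b / a)) * Ps w u := by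
  have i1 := GgB_int w b a hw (-1)
  have i2 := GgB_int w b a hw 1
  have i3 := (Ps_int w hw).const_mul (2 * om (b / a))
  have e1 : ∫ u, om ((b - u) / a) * Ps w u = ∫ u, om ((b + 1 * u) / a) * Ps w u := by
    have h := integral_neg_eq_self (fun u => om ((b + 1 * u) / a) * Ps w u) (volume : Measure ℝ)
    rw [← h]
    congr 1
    funext u
    rw [Ps_even]
    congr 2
    ring
  have e2 : ∫ u, om ((b - u) / a) * Ps w u = ∫ u, om ((b + -1 * u) / a) * Ps w u := by
    congr 1
    funext u
    congr 2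
    ring
  have e3 : ∫ u, 2 * om (b / a) * Ps w u = 0 := by
    rw [integral_const_mul, Ps_tot w hw, mul_zero]
  have e4 : (fun u => (om (b / a + u / a) + om (b / a - u / a) - 2 * om (b / a)) * Ps w u) =
      fun u => (om ((b + 1 * u) / a) * Ps w u + om ((b + -1 * u) / a) * Ps w u) -
        2 * om (b / a) * Ps w u := by
    funext u
    have h1 : (b + 1 * u) / a = b / a + u / a := by ring
    have h2 : (b + -1 * u) / a = b / a - u / a := by ring
    rw [h1, h2]
    ring
  have e5 : ∫ u, ((om ((b + 1 * u) / a) * Ps w u + om ((b + -1 * u) / a) * Ps w u) -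
        2 * om (b / a) * Ps w u) = (∫ u, om ((b + 1 * u) / a) * Ps w u) +
        (∫ u, om ((b + -1 * u) / a) * Ps w u) - ∫ u, 2 * om (b / a) * Ps w u := by
    have h1 := integral_sub (μ := (volume : Measure ℝ)) (i2.add i1) i3
    have h2 := integral_add (μ := (volume : Measure ℝ)) i2 i1
    rw [← h2]
    exact h1
  rw [e4, e5, e3, ← e1, ← e2]
  ring

theorem gg_le : ∃ C : ℝ, 0 ≤ C ∧ ∀ w a b : ℝ, 0 < w → |GG w a b| ≤ C * w ∧
    (a ≠ 0 → |GG w a b| ≤ C * (w ^ 4 / |a| ^ 3)) ∧ (3 * |a| + 4 * w < |b| → GG w a b = 0) := by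
  refine ⟨102400 + 1944, by norm_num, fun w a b hw => ⟨?_, ?_, ?_⟩⟩
  · have h := GgB_bd (fun m => om m * Ps w (b - m * a)) 3 (324 * w) (by norm_num) (by
      intro v _
      show |om v * Ps w (b - v * a)| ≤ _
      rw [abs_mul, abs_of_nonneg (om_nonneg v)]
      have h1 := om_le v
      have h2 := Ps_abs w (b - v * a) hw
      have h3 := abs_nonneg (Ps w (b - v * a))
      have h4 := om_nonneg v
      calc om v * |Ps w (b - v * a)| ≤ 81 * (4 * w) := mul_le_mul h1 h2 h3 (by norm_num)
        _ = 324 * w := by ring) (by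
      intro v hv
      show om v * Ps w (b - v * a) = 0
      rw [om_zero v hv.le, zero_mul])
    have h5 : |GG w a b| ≤ 324 * w * (2 * 3) := h
    linarith
  · intro ha
    have ha2 : 0 < |a| := abs_pos.mpr ha
    have h := GgB_bd (fun u => (om (b / a + u / a) + om (b / a - u / a) - 2 * om (b / a)) * Ps w u)
      (4 * w) (400 * ((4 * w) ^ 2 / |a| ^ 2) * (4 * w)) (by linarith) (by
      intro u hu
      show |(om (b / a + u / a) + om (b / a - u / a) - 2 * om (b / a)) * Ps w u| ≤ _
      rw [abs_mul]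
      have h1 := om_diff2 (b / a) (u / a)
      have h2 := Ps_abs w u hw
      have h3 : (u / a) ^ 2 ≤ (4 * w) ^ 2 / |a| ^ 2 := by
        rw [div_pow, ← sq_abs a]
        apply div_le_div_of_nonneg_right _ (by positivity)
        rw [← sq_abs u]
        exact pow_le_pow_left₀ (abs_nonneg u) hu 2
      exact mul_le_mul (le_trans h1 (by linarith)) h2 (abs_nonneg _) (by positivity)) (by
      intro u hu
      show (om (b / a + u / a) + om (b / a - u / a) - 2 * om (b / a)) * Ps w u = 0
      rw [Ps_zero w u hw hu, mul_zero])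
    rw [← GgB_sym w a b hw ha, abs_mul, abs_of_pos (by norm_num : (0 : ℝ) < 2)] at h
    rw [GgB_sub w a b ha, abs_mul, abs_abs, abs_inv]
    have h6 : |∫ u, om ((b - u) / a) * Ps w u| ≤ 102400 * (w ^ 4 / |a| ^ 2) := by
      have : 400 * ((4 * w) ^ 2 / |a| ^ 2) * (4 * w) * (2 * (4 * w)) = 2 * (102400 * (w ^ 4 / |a| ^ 2)) := by
        ring
      linarith
    have h7 : |a|⁻¹ * |∫ u, om ((b - u) / a) * Ps w u| ≤ |a|⁻¹ * (102400 * (w ^ 4 / |a| ^ 2)) :=
      mul_le_mul_of_nonneg_left h6 (by positivity)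
    have h8 : |a|⁻¹ * (102400 * (w ^ 4 / |a| ^ 2)) = 102400 * (w ^ 4 / |a| ^ 3) := by
      field_simp
    have h9 : 0 ≤ w ^ 4 / |a| ^ 3 := by positivity
    rw [h8] at h7
    linarith
  · intro hb
    unfold GG
    have h : (fun m => om m * Ps w (b - m * a)) = fun _ => (0 : ℝ) := by
      funext m
      rcases le_total 3 |m| with hm | hm
      · rw [om_zero m hm, zero_mul]
      · have h1 : 4 * w < |b - m * a| := by
          have h2 := abs_sub_abs_le_abs_sub b (m * a)
          have h3 : |m * a| ≤ 3 * |a| := by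
            rw [abs_mul]
            exact mul_le_mul_of_nonneg_right hm (abs_nonneg a)
          linarith
        rw [Ps_zero w _ hw h1, mul_zero]
    rw [h, integral_zero]

end Pool.Agent.H39.HG
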