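import Mathlib

/-!
# The variation function of a continuous function with few solutions of `g x = v`

`V x = (eVariationOn g (Set.Ioo a b ∩ Set.Iic x)).toReal`. (1) For every monotone finite sequence `x_0 ≤ ... ≤ x_m` in
`Ioo a b` we have `∑ |g (x_(i+1)) - g (x_i)| ≤ 2 N`: the left side is `∫ v, ∑_i 1[v strictly between g (x_i) and g (x_(i+1))]`
(lintegral over `Icc (-1) 1`, an interval of length `2`), and for every `v` the integrand is at most `N`: by the intermediate
value theorem (`intermediate_value_Ioo`, `intermediate_value_Ioo'` on `Icc (x_i) (x_(i+1))`) each such `i` gives a point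
`x ∈ Ioo (x_i) (x_(i+1))` with `g x = v`, these open intervals are disjoint, so the points are different elements of the set `X`
of `hN v`. Hence `eVariationOn g (Ioo a b) ≤ 2 N` (definition as a supremum; `eVariationOn`), so it is finite.
(2) `|g x - g y| ≤ V y - V x` for `x ≤ y`: `eVariationOn.add_le_union` or `eVariationOn.Icc_add_Icc`, and
`eVariationOn.edist_le`. An alternative without `eVariationOn`: `V x` = supremum of the sums over finite sequences in
`(a, x]`.
-/

set_option autoImplicit false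

namespace Pool.Agent.H39.HG

open Finset
open scoped Classical

/-- the open interval between `g x` and `g y` -/
private def VarF_I (g : ℝ → ℝ) (x y : ℝ) : Set ℝ := Set.Ioo (min (g x) (g y)) (max (g x) (g y))

private theorem VarF_ivt (g : ℝ → ℝ) (a b : ℝ) (hg : ContinuousOn g (Set.Ioo a b)) {x y v : ℝ}
    (hx : x ∈ Set.Ioo a b) (hy : y ∈ Set.Ioo a b) (hxy : x ≤ y) (hv : v ∈ VarF_I g x y) :
    ∃ t ∈ Set.Ioo x y, g t = v := by
  have hc : ContinuousOn g (Set.Icc x y) :=
    hg.mono fun z hz => ⟨lt_of_lt_of_le hx.1 hz.1, lt_of_le_of_lt hz.2 hy.2⟩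
  rcases le_total (g x) (g y) with h | h
  · have h2 : v ∈ Set.Ioo (g x) (g y) := by
      unfold VarF_I at hv
      rwa [min_eq_left h, max_eq_right h] at hv
    obtain ⟨t, ht, rfl⟩ := intermediate_value_Ioo hxy hc h2
    exact ⟨t, ht, rfl⟩
  · have h2 : v ∈ Set.Ioo (g y) (g x) := by
      unfold VarF_I at hv
      rwa [min_eq_right h, max_eq_left h] at hv
    obtain ⟨t, ht, rfl⟩ := intermediate_value_Ioo' hxy hc h2
    exact ⟨t, ht, rfl⟩

private theorem VarF_card (g : ℝ → ℝ) (a b : ℝ) (N : ℕ) (hg : ContinuousOn g (Set.Ioo a b))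
    (hN : ∀ v : ℝ, ∃ X : Finset ℝ, X.card ≤ N ∧ ∀ x ∈ Set.Ioo a b, g x = v → x ∈ X)
    (m : ℕ) (u : ℕ → ℝ) (hu : Monotone u) (hus : ∀ i, u i ∈ Set.Ioo a b) (v : ℝ) :
    ((range m).filter fun i => v ∈ VarF_I g (u i) (u (i + 1))).card ≤ N := by
  obtain ⟨X, hX, hX2⟩ := hN v
  refine le_trans ?_ hX
  have h1 : ∀ i, v ∈ VarF_I g (u i) (u (i + 1)) → ∃ t ∈ Set.Ioo (u i) (u (i + 1)), g t = v :=
    fun i hi => VarF_ivt g a b hg (hus i) (hus (i + 1)) (hu (Nat.le_succ i)) hi
  choose! t ht1 ht2 using h1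
  apply Finset.card_le_card_of_injOn t
  · intro i hi
    have hi' := (Finset.mem_filter.mp (Finset.mem_coe.mp hi)).2
    exact Finset.mem_coe.mpr (hX2 _ ⟨lt_trans (hus i).1 (ht1 i hi').1, lt_trans (ht1 i hi').2 (hus (i + 1)).2⟩
      (ht2 i hi'))
  · intro i hi j hj hij
    have hi' := ht1 i (Finset.mem_filter.mp (Finset.mem_coe.mp hi)).2
    have hj' := ht1 j (Finset.mem_filter.mp (Finset.mem_coe.mp hj)).2
    rw [hij] at hi'
    rcases lt_trichotomy i j with h | h | h
    · have : u (i + 1) ≤ u j := hu h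
      linarith [hi'.1, hi'.2, hj'.1, hj'.2]
    · exact h
    · have : u (j + 1) ≤ u i := hu h
      linarith [hi'.1, hi'.2, hj'.1, hj'.2]

open MeasureTheory in
private theorem VarF_sum (g : ℝ → ℝ) (a b : ℝ) (N : ℕ) (hg : ContinuousOn g (Set.Ioo a b))
    (hb : ∀ x ∈ Set.Ioo a b, |g x| ≤ 1)
    (hN : ∀ v : ℝ, ∃ X : Finset ℝ, X.card ≤ N ∧ ∀ x ∈ Set.Ioo a b, g x = v → x ∈ X)
    (m : ℕ) (u : ℕ → ℝ) (hu : Monotone u) (hus : ∀ i, u i ∈ Set.Ioo a b) :
    ∑ i ∈ range m, edist (g (u (i + 1))) (g (u i)) ≤ 2 * (N : ENNReal) := by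
  have h1 : ∀ i, edist (g (u (i + 1))) (g (u i)) =
      ∫⁻ v, (VarF_I g (u i) (u (i + 1))).indicator (1 : ℝ → ENNReal) v := by
    intro i
    unfold VarF_I
    rw [lintegral_indicator_one measurableSet_Ioo, Real.volume_Ioo, edist_dist, Real.dist_eq,
      max_sub_min_eq_abs]
  simp_rw [h1]
  rw [← lintegral_finsetSum]
  swap
  · intro i _
    exact measurable_one.indicator measurableSet_Ioo
  calc ∫⁻ v, ∑ i ∈ range m, (VarF_I g (u i) (u (i + 1))).indicator (1 : ℝ → ENNReal) v
      ≤ ∫⁻ v, (Set.Icc (-1 : ℝ) 1).indicator (fun _ => (N : ENNReal)) v := by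
        apply lintegral_mono
        intro v
        simp only
        by_cases hv : v ∈ Set.Icc (-1 : ℝ) 1
        · rw [Set.indicator_of_mem hv]
          have h2 : ∑ i ∈ range m, (VarF_I g (u i) (u (i + 1))).indicator (1 : ℝ → ENNReal) v =
              (((range m).filter fun i => v ∈ VarF_I g (u i) (u (i + 1))).card : ENNReal) := by
            rw [Finset.card_filter]
            push_cast
            apply Finset.sum_congr rfl
            intro i _
            simp [Set.indicator_apply]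
          rw [h2]
          exact_mod_cast VarF_card g a b N hg hN m u hu hus v
        · rw [Set.indicator_of_notMem hv]
          apply le_of_eq
          apply Finset.sum_eq_zero
          intro i _
          apply Set.indicator_of_notMem
          intro h
          apply hv
          have e1 := abs_le.mp (hb _ (hus i))
          have e2 := abs_le.mp (hb _ (hus (i + 1)))
          exact ⟨le_of_lt (lt_of_le_of_lt (le_min e1.1 e2.1) h.1), le_of_lt (lt_of_lt_of_le h.2 (max_le e1.2 e2.2))⟩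
    _ = 2 * (N : ENNReal) := by
        rw [lintegral_indicator_const measurableSet_Icc, Real.volume_Icc, mul_comm]
        congr 1
        norm_num

theorem var_fun (g : ℝ → ℝ) (a b : ℝ) (N : ℕ) (hg : ContinuousOn g (Set.Ioo a b))
    (hb : ∀ x ∈ Set.Ioo a b, |g x| ≤ 1)
    (hN : ∀ v : ℝ, ∃ X : Finset ℝ, X.card ≤ N ∧ ∀ x ∈ Set.Ioo a b, g x = v → x ∈ X) :
    ∃ V : ℝ → ℝ, (∀ x ∈ Set.Ioo a b, 0 ≤ V x ∧ V x ≤ 2 * N) ∧
      ∀ x ∈ Set.Ioo a b, ∀ y ∈ Set.Ioo a b, x ≤ y → |g x - g y| ≤ V y - V x := by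
  have h1 : eVariationOn g (Set.Ioo a b) ≤ 2 * (N : ENNReal) := by
    apply iSup_le
    rintro ⟨m, ⟨u, hu, hus⟩⟩
    exact VarF_sum g a b N hg hb hN m u hu hus
  have h2 : ∀ x, eVariationOn g (Set.Ioo a b ∩ Set.Iic x) ≤ 2 * (N : ENNReal) := fun x =>
    le_trans (eVariationOn.mono g Set.inter_subset_left) h1
  have h3 : ∀ x, eVariationOn g (Set.Ioo a b ∩ Set.Iic x) ≠ ⊤ := fun x =>
    ne_top_of_le_ne_top (ENNReal.mul_ne_top (by norm_num) (ENNReal.natCast_ne_top N)) (h2 x)
  refine ⟨fun x => (eVariationOn g (Set.Ioo a b ∩ Set.Iic x)).toReal, ?_, ?_⟩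
  · intro x _
    refine ⟨ENNReal.toReal_nonneg, ?_⟩
    have := ENNReal.toReal_mono (ENNReal.mul_ne_top (by norm_num) (ENNReal.natCast_ne_top N)) (h2 x)
    simpa using this
  · intro x hx y hy hxy
    have h4 : eVariationOn g (Set.Ioo a b ∩ Set.Iic x) + eVariationOn g (Set.Icc x y) ≤
        eVariationOn g (Set.Ioo a b ∩ Set.Iic y) := by
      refine le_trans (eVariationOn.add_le_union g ?_) (eVariationOn.mono g ?_)
      · intro z hz t ht
        exact le_trans hz.2 ht.1
      · rintro z (hz | hz)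
        · exact ⟨hz.1, le_trans hz.2 hxy⟩
        · exact ⟨⟨lt_of_lt_of_le hx.1 hz.1, lt_of_le_of_lt hz.2 hy.2⟩, hz.2⟩
    have h5 : edist (g x) (g y) ≤ eVariationOn g (Set.Icc x y) :=
      eVariationOn.edist_le g ⟨le_rfl, hxy⟩ ⟨hxy, le_rfl⟩
    have h6 : eVariationOn g (Set.Ioo a b ∩ Set.Iic x) + edist (g x) (g y) ≤
        eVariationOn g (Set.Ioo a b ∩ Set.Iic y) := le_trans (by gcongr) h4
    have h7 := ENNReal.toReal_mono (h3 y) h6
    rw [ENNReal.toReal_add (h3 x) (edist_ne_top _ _), edist_dist,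
      ENNReal.toReal_ofReal dist_nonneg, Real.dist_eq] at h7
    simp only
    linarith

end Pool.Agent.H39.HG
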