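import Pool.Agent.H39.HG.Defs
import Pool.Agent.H39.HG.VarF

/-!
# Labels for one arc

If `ψ` is constant (first case of `hN`) put `V = 0`, otherwise `V` from `var_fun ψ a b N`. `m p = ψ p.1`, `σ p = p.1 + V p.1` (for
`p` in the set). For `x ≤ y` in `Ioo a b` both `y - x` and `V y - V x ≥ |ψ x - ψ y| ≥ 0` are at most `σ (y, _) - σ (x, _)`, their sum.
The last condition of `Lab`: `φ y - φ x - ψ x (y - x) = (ψ ξ - ψ x) (y - x)` with `ξ` between `x` and `y` (mean value theorem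
`exists_hasDerivAt_eq_slope` or `exists_deriv_eq_slope`), `|ψ ξ - ψ x| ≤ |V ξ - V x| ≤ |V y - V x| ≤ |σ - σ|` and `|y - x| ≤ |σ - σ|`.
Here `p`, `q` come in both orders. `0 ≤ σ p ≤ 1 + 2 N` since `0 ≤ p.1 ≤ 1`.
-/

set_option autoImplicit false

namespace Pool.Agent.H39.HG

open Finset
open scoped Classical

theorem lab_arc (N : ℕ) (a b : ℝ) (φ ψ : ℝ → ℝ)
    (hd : ∀ x ∈ Set.Ioo a b, HasDerivAt φ (ψ x) x) (hc : ContinuousOn ψ (Set.Ioo a b))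
    (h1 : ∀ x ∈ Set.Ioo a b, |ψ x| ≤ 1)
    (hN : (∃ c, ∀ x ∈ Set.Ioo a b, ψ x = c) ∨
      ∀ v : ℝ, ∃ X : Finset ℝ, X.card ≤ N ∧ ∀ x ∈ Set.Ioo a b, ψ x = v → x ∈ X) :
    ∃ m σ : ℝ × ℝ → ℝ, Lab (1 + 2 * N)
      {p | (a < p.1 ∧ p.1 < b) ∧ (0 ≤ p.1 ∧ p.1 ≤ 1) ∧ φ p.1 = p.2} m σ := by
  have hV : ∃ V : ℝ → ℝ, (∀ x ∈ Set.Ioo a b, 0 ≤ V x ∧ V x ≤ 2 * N) ∧
      ∀ x ∈ Set.Ioo a b, ∀ y ∈ Set.Ioo a b, x ≤ y → |ψ x - ψ y| ≤ V y - V x := by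
    rcases hN with ⟨c, hc'⟩ | hN
    · refine ⟨fun _ => 0, fun x _ => ⟨le_rfl, by positivity⟩, fun x hx y hy _ => ?_⟩
      rw [hc' x hx, hc' y hy]
      simp
    · exact var_fun ψ a b N hc h1 hN
  obtain ⟨V, hV1, hV2⟩ := hV
  have k1 : ∀ x ∈ Set.Ioo a b, ∀ y ∈ Set.Ioo a b, x ≤ y →
      |x - y| ≤ |(x + V x) - (y + V y)| ∧ |ψ x - ψ y| ≤ |(x + V x) - (y + V y)| := by
    intro x hx y hy hxy
    have h := hV2 x hx y hy hxy
    have h0 := abs_nonneg (ψ x - ψ y)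
    have e : |(x + V x) - (y + V y)| = (y + V y) - (x + V x) := by
      rw [abs_sub_comm, abs_of_nonneg (by linarith)]
    rw [e, abs_sub_comm x y, abs_of_nonneg (by linarith : (0 : ℝ) ≤ y - x)]
    constructor <;> linarith
  have key : ∀ x ∈ Set.Ioo a b, ∀ y ∈ Set.Ioo a b,
      |x - y| ≤ |(x + V x) - (y + V y)| ∧ |ψ x - ψ y| ≤ |(x + V x) - (y + V y)| := by
    intro x hx y hy
    rcases le_total x y with h | h
    · exact k1 x hx y hy h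
    · have h2 := k1 y hy x hx h
      rw [abs_sub_comm x y, abs_sub_comm (ψ x), abs_sub_comm (x + V x)]
      exact h2
  have mv : ∀ x ∈ Set.Ioo a b, ∀ y ∈ Set.Ioo a b, x ≤ y → ∃ ξ ∈ Set.Icc x y,
      φ y - φ x = ψ ξ * (y - x) := by
    intro x hx y hy hxy
    rcases hxy.eq_or_lt with rfl | hlt
    · exact ⟨x, ⟨le_rfl, le_rfl⟩, by ring⟩
    · obtain ⟨ξ, hξ, he⟩ := exists_hasDerivAt_eq_slope φ ψ hlt
        (fun z hz => (hd z ⟨hx.1.trans_le hz.1, hz.2.trans_lt hy.2⟩).continuousAt.continuousWithinAt)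
        (fun z hz => hd z ⟨hx.1.trans hz.1, hz.2.trans hy.2⟩)
      refine ⟨ξ, ⟨hξ.1.le, hξ.2.le⟩, ?_⟩
      rw [he]
      have : y - x ≠ 0 := (sub_pos.2 hlt).ne'
      field_simp
  have mono : ∀ x ∈ Set.Ioo a b, ∀ y ∈ Set.Ioo a b, x ≤ y → V x ≤ V y := by
    intro x hx y hy hxy
    have h := hV2 x hx y hy hxy
    have h0 := abs_nonneg (ψ x - ψ y)
    linarith
  have fin : ∀ x ∈ Set.Ioo a b, ∀ y ∈ Set.Ioo a b,
      |φ y - φ x - ψ x * (y - x)| ≤ ((x + V x) - (y + V y)) ^ 2 := by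
    intro x hx y hy
    have hk := (key x hx y hy).1
    have hm : ∃ c, φ y - φ x = c * (y - x) ∧ |c - ψ x| ≤ |(x + V x) - (y + V y)| := by
      rcases le_total x y with h | h
      · obtain ⟨ξ, hξ, he⟩ := mv x hx y hy h
        have hξ' : ξ ∈ Set.Ioo a b := ⟨hx.1.trans_le hξ.1, hξ.2.trans_lt hy.2⟩
        refine ⟨ψ ξ, he, ?_⟩
        have h1 := hV2 x hx ξ hξ' hξ.1
        have h2 := mono ξ hξ' y hy hξ.2
        rw [abs_sub_comm (ψ ξ), abs_sub_comm (x + V x)]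
        refine (h1.trans ?_).trans (le_abs_self _)
        linarith
      · obtain ⟨ξ, hξ, he⟩ := mv y hy x hx h
        have hξ' : ξ ∈ Set.Ioo a b := ⟨hy.1.trans_le hξ.1, hξ.2.trans_lt hx.2⟩
        refine ⟨ψ ξ, by linarith, ?_⟩
        have h1 := hV2 ξ hξ' x hx hξ.2
        have h2 := mono y hy ξ hξ' hξ.1
        refine (h1.trans ?_).trans (le_abs_self _)
        linarith
    obtain ⟨c, hc1, hc2⟩ := hm
    rw [hc1, show c * (y - x) - ψ x * (y - x) = (c - ψ x) * (y - x) by ring, abs_mul,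
      ← sq_abs ((x + V x) - (y + V y)), sq]
    rw [abs_sub_comm x y] at hk
    exact mul_le_mul hc2 hk (abs_nonneg _) (abs_nonneg _)
  refine ⟨fun p => ψ p.1, fun p => p.1 + V p.1, ?_⟩
  intro p hp
  obtain ⟨hp1, hp2, hp3⟩ := hp
  have hp4 : p.1 ∈ Set.Ioo a b := hp1
  refine ⟨⟨h1 _ hp4, by linarith [(hV1 _ hp4).1, hp2.1], ?_⟩, ?_⟩
  · show p.1 + V p.1 ≤ 1 + 2 * N
    linarith [(hV1 _ hp4).2, hp2.2]
  · intro q hq
    obtain ⟨hq1, hq2, hq3⟩ := hq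
    have hq4 : q.1 ∈ Set.Ioo a b := hq1
    refine ⟨(key _ hp4 _ hq4).1, (key _ hp4 _ hq4).2, ?_⟩
    have h := fin _ hp4 _ hq4
    rw [hp3, hq3] at h
    exact h

end Pool.Agent.H39.HG
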