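import Pool.Agent.H39.HG.Arc1
import Pool.Agent.H39.HG.Imp
import Pool.Agent.H39.HG.LabA

/-!
# Labels for an irreducible curve

`N0` from `arc_ref k`; `N = max N0 (k * k)`, `S = 1 + 2 (k * k)`.
If `pderiv 1 f = 0`: the points in question have `pderiv 0 f = 0` there, by `slope_fin` with `v = 0` and `ne_both` there are at
most `k * k` of them: `E` = these points, `U j = ∅`. Otherwise take the arcs of `arc_ref`. If the arc `j` has the first
alternative (`|f_x| ≤ |f_y|`) put `U j = {p | (a j < p.1 ∧ p.1 < b j) ∧ (0 ≤ p.1 ∧ p.1 ≤ 1) ∧ φ j p.1 = p.2}` and use `lab_arc (k * k)` with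
`ψ x = - f_x / f_y` along the arc: derivative by `hasDeriv_imp`, `|ψ| ≤ 1`, continuity by `Pool.Agent.H19.RD.cont_eval`;
`ψ x = v` means `f_x + v f_y = 0` at `(x, φ x)`: if for some `v` the polynomial `f_x + v f_y` is zero then `ψ = v` is constant,
otherwise `slope_fin` for all `v` (`X` = the abscissas of `T`). If the arc has the second alternative put `U j = ∅`; the points with
`|f_x| ≤ |f_y|` are not on it. Pad with `U j = ∅` for the indices `≥ N0` (`Lab` on the empty set is trivial).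
-/

set_option autoImplicit false

namespace Pool.Agent.H39.HG

open Finset MvPolynomial Pool.Agent.H22.PS
open scoped Classical

private theorem Labs_one (k : ℕ) (f : MvPolynomial (Fin 2) ℝ) (hf : Irreducible f)
    (hk : f.totalDegree ≤ k) (a b : ℝ) (φ : ℝ → ℝ) (hφ : ContinuousOn φ (Set.Ioo a b))
    (h0 : ∀ x ∈ Set.Ioo a b, (x, φ x) ∈ Zs f ∧ eval ![x, φ x] (pderiv 1 f) ≠ 0)
    (h1 : ∀ x ∈ Set.Ioo a b,
      |eval ![x, φ x] (pderiv 0 f)| ≤ |eval ![x, φ x] (pderiv 1 f)|) :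
    ∃ m σ : ℝ × ℝ → ℝ, Lab (1 + 2 * ((k * k : ℕ) : ℝ))
      {p | (a < p.1 ∧ p.1 < b) ∧ (0 ≤ p.1 ∧ p.1 ≤ 1) ∧ φ p.1 = p.2} m σ := by
  have hz : ∀ x ∈ Set.Ioo a b, eval ![x, φ x] f = 0 := fun x hx => (h0 x hx).1
  have hd := hasDeriv_imp f φ a b hφ hz fun x hx => (h0 x hx).2
  have hev : ∀ g : MvPolynomial (Fin 2) ℝ,
      ContinuousOn (fun x => eval ![x, φ x] g) (Set.Ioo a b) := by
    intro g
    have h2 : ContinuousOn (fun x : ℝ => (x, φ x)) (Set.Ioo a b) := continuousOn_id.prodMk hφ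
    have h3 := (Pool.Agent.H19.RD.cont_eval g).comp_continuousOn h2
    refine h3.congr fun x hx => ?_
    rfl
  obtain ⟨ψ, hψ⟩ : ∃ ψ : ℝ → ℝ, ∀ x,
      ψ x = -(eval ![x, φ x] (pderiv 0 f)) / eval ![x, φ x] (pderiv 1 f) := ⟨_, fun _ => rfl⟩
  have hd' : ∀ x ∈ Set.Ioo a b, HasDerivAt φ (ψ x) x := by
    intro x hx
    rw [hψ]
    exact hd x hx
  have hc : ContinuousOn ψ (Set.Ioo a b) := by
    have h2 := (hev (pderiv 0 f)).neg.div (hev (pderiv 1 f)) fun x hx => (h0 x hx).2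
    refine h2.congr fun x hx => ?_
    rw [hψ]
    rfl
  refine lab_arc (k * k) a b φ ψ hd' hc ?_ ?_
  · intro x hx
    rw [hψ, abs_div, abs_neg]
    exact div_le_one_of_le₀ (h1 x hx) (abs_nonneg _)
  · have key : ∀ v : ℝ, ∀ x ∈ Set.Ioo a b,
        (ψ x = v ↔ eval ![x, φ x] (pderiv 0 f + C v * pderiv 1 f) = 0) := by
      intro v x hx
      rw [hψ, div_eq_iff (h0 x hx).2, eval_add, eval_mul, eval_C]
      constructor
      · intro h
        linarith
      · intro h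
        linarith
    by_cases hv : ∃ v : ℝ, pderiv 0 f + C v * pderiv 1 f = 0
    · obtain ⟨v, hv⟩ := hv
      refine Or.inl ⟨v, fun x hx => ?_⟩
      refine (key v x hx).2 ?_
      rw [hv]
      exact map_zero _
    · refine Or.inr fun v => ?_
      rcases slope_fin k f hf hk v with h | ⟨T, hT, hmem⟩
      · exact absurd ⟨v, h⟩ hv
      · refine ⟨T.image Prod.fst, card_image_le.trans hT, fun x hx hxv => ?_⟩
        rw [mem_image]
        exact ⟨(x, φ x), hmem _ (h0 x hx).1 ((key v x hx).1 hxv), rfl⟩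

private theorem Labs_arc (k : ℕ) (f : MvPolynomial (Fin 2) ℝ) (hf : Irreducible f)
    (hk : f.totalDegree ≤ k) (a b : ℝ) (φ : ℝ → ℝ) (hφ : ContinuousOn φ (Set.Ioo a b))
    (h0 : ∀ x ∈ Set.Ioo a b, (x, φ x) ∈ Zs f ∧ eval ![x, φ x] (pderiv 1 f) ≠ 0)
    (h1 : (∀ x ∈ Set.Ioo a b,
        |eval ![x, φ x] (pderiv 0 f)| ≤ |eval ![x, φ x] (pderiv 1 f)|) ∨
      ∀ x ∈ Set.Ioo a b, |eval ![x, φ x] (pderiv 1 f)| < |eval ![x, φ x] (pderiv 0 f)|) :
    ∃ (U : Set (ℝ × ℝ)) (m σ : ℝ × ℝ → ℝ), Lab (1 + 2 * ((k * k : ℕ) : ℝ)) U m σ ∧ U ⊆ Zs f ∧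
      ∀ p : ℝ × ℝ, (0 ≤ p.1 ∧ p.1 ≤ 1) →
        |eval ![p.1, p.2] (pderiv 0 f)| ≤ |eval ![p.1, p.2] (pderiv 1 f)| →
        (a < p.1 ∧ p.1 < b) → φ p.1 = p.2 → p ∈ U := by
  rcases h1 with h1 | h1
  · obtain ⟨m, σ, hL⟩ := Labs_one k f hf hk a b φ hφ h0 h1
    refine ⟨_, m, σ, hL, ?_, ?_⟩
    · rintro ⟨x, y⟩ ⟨h2, h3, h4⟩
      have h5 := (h0 x h2).1
      have h6 : φ x = y := h4
      rwa [h6] at h5
    · intro p hp h2 h3 h4
      exact ⟨h3, hp, h4⟩
  · refine ⟨∅, fun _ => 0, fun _ => 0, ?_, Set.empty_subset _, ?_⟩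
    · intro p hp
      exact absurd hp (Set.notMem_empty p)
    · intro p hp h2 h3 h4
      exfalso
      have h5 := h1 p.1 h3
      rw [h4] at h5
      exact absurd h5 (not_lt.2 h2)

theorem labels (k : ℕ) : ∃ (N : ℕ) (S : ℝ), 0 ≤ S ∧ ∀ f : MvPolynomial (Fin 2) ℝ,
    Irreducible f → f.totalDegree ≤ k →
    ∃ (U : Fin N → Set (ℝ × ℝ)) (m σ : Fin N → ℝ × ℝ → ℝ) (E : Finset (ℝ × ℝ)), E.card ≤ N ∧
      (∀ j, Lab S (U j) (m j) (σ j)) ∧ (∀ j, U j ⊆ Zs f) ∧
      (∀ p ∈ Zs f, (0 ≤ p.1 ∧ p.1 ≤ 1) →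
        |eval ![p.1, p.2] (pderiv 0 f)| ≤ |eval ![p.1, p.2] (pderiv 1 f)| →
        p ∉ E → ∃ j, p ∈ U j) := by
  obtain ⟨N0, hN0⟩ := arc_ref k
  refine ⟨max N0 (k * k), 1 + 2 * ((k * k : ℕ) : ℝ), by positivity, fun f hf hk => ?_⟩
  by_cases hy : pderiv 1 f = 0
  · have hx : pderiv 0 f ≠ 0 := (ne_both f hf).resolve_right fun h => h hy
    rcases slope_fin k f hf hk 0 with h | ⟨T, hT, hmem⟩
    · exfalso
      rw [C_0, zero_mul, add_zero] at h
      exact hx h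
    · refine ⟨fun _ => ∅, fun _ _ => 0, fun _ _ => 0, T, hT.trans (le_max_right _ _), ?_, ?_, ?_⟩
      · intro j p hp
        exact absurd hp (Set.notMem_empty p)
      · intro j
        exact Set.empty_subset _
      · intro p hp h0 h1 h2
        exfalso
        refine h2 (hmem p hp ?_)
        rw [hy, map_zero, abs_zero] at h1
        have h3 : eval ![p.1, p.2] (pderiv 0 f) = 0 := abs_eq_zero.1 (le_antisymm h1 (abs_nonneg _))
        rw [C_0, zero_mul, add_zero]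
        exact h3
  · obtain ⟨a, b, φ, E, hE, hφ, h0, h1, h2⟩ := hN0 f hf hk hy
    have hch := fun j => Labs_arc k f hf hk (a j) (b j) (φ j) (hφ j) (h0 j) (h1 j)
    choose U m σ hL hU hc using hch
    refine ⟨fun j => if h : (j : ℕ) < N0 then U ⟨j, h⟩ else ∅,
      fun j => if h : (j : ℕ) < N0 then m ⟨j, h⟩ else fun _ => 0,
      fun j => if h : (j : ℕ) < N0 then σ ⟨j, h⟩ else fun _ => 0, E,
      hE.trans (le_max_left _ _), ?_, ?_, ?_⟩
    · intro j
      by_cases h : (j : ℕ) < N0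
      · simp only [h, dif_pos]
        exact hL _
      · simp only [h, dif_neg, not_false_eq_true]
        intro p hp
        exact absurd hp (Set.notMem_empty p)
    · intro j
      by_cases h : (j : ℕ) < N0
      · simp only [h, dif_pos]
        exact hU _
      · simp only [h, dif_neg, not_false_eq_true]
        exact Set.empty_subset _
    · intro p hp h3 h4 h5
      obtain ⟨j, h6, h7⟩ := h2 p hp h3 h5
      refine ⟨⟨j, j.2.trans_le (le_max_left _ _)⟩, ?_⟩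
      show p ∈ if h : (j : ℕ) < N0 then U ⟨j, h⟩ else ∅
      rw [dif_pos j.2]
      exact hc j p h3 h4 h6 h7

end Pool.Agent.H39.HG
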