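import Pool.Agent.H39.HG.Core
import Pool.Agent.H39.HG.Labs
import Pool.Agent.H39.HG.Rich
import Pool.Agent.H39.HG.FFB

/-!
# The flat half

`P` empty: the left side is `0`. `N0, S` from `labels k`, `C1, κ0` from `ps_rich s t k μ`, `C` from `core s h hs S C1 κ0`. For every `i` choose
`U i j`, `m i j`, `σ i j` (`j : Fin N0`), `E i`. For fixed `j` apply `core` to `U · j`: for `Q ⊆ P` and `Λ` as in its hypothesis,
`Q.filter (· ∈ U i j) ⊆ Q.filter (· ∈ Zs (g i))`, so `κ ≤ #(Q ∩ Zs (g i))` and the sum is at most the sum in `ps_rich`.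
The set in question for `i` is contained in `E i ∪ ⋃_j (P ∩ U i j)`, so the left side is at most
`N0 #ι + ∑_j ∑_i #(P ∩ U i j) ≤ N0 FF + N0 C FF` (`FF_ge`).
-/

set_option autoImplicit false

namespace Pool.Agent.H39.HG

open Finset MvPolynomial Pool.Agent.H22.PS
open scoped Classical

theorem half (s t k μ h : ℕ) (hs : 4 ≤ s) : ∃ C : ℝ, 0 ≤ C ∧
    ∀ (P : Finset (ℝ × ℝ)) (ι : Type) [Fintype ι] (g : ι → MvPolynomial (Fin 2) ℝ),
    (∀ p ∈ P, 0 ≤ p.1 ∧ p.1 ≤ 1) → Hom h ((P.card : ℝ) ^ (-(1 / 2) : ℝ)) P →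
    (∀ i, Irreducible (g i) ∧ (g i).totalDegree ≤ k) →
    (∀ i j, i ≠ j → ∃ T : Finset (ℝ × ℝ), T.card ≤ μ ∧ Zs (g i) ∩ Zs (g j) ⊆ T) →
    (∀ S ⊆ P, S.card = s → (univ.filter fun i => ∀ p ∈ S, p ∈ Zs (g i)).card < t) →
    (∑ i, ((P.filter fun p => p ∈ Zs (g i) ∧ |eval ![p.1, p.2] (pderiv 0 (g i))| ≤
      |eval ![p.1, p.2] (pderiv 1 (g i))|).card : ℝ)) ≤
      C * FF s P.card (Fintype.card ι) := by
  obtain ⟨N0, S, hS, hlab⟩ := labels k
  obtain ⟨C1, κ0, hC1, hκ0, hrich⟩ := ps_rich s t k μ (by omega)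
  obtain ⟨C, hC, hcore⟩ := core s h hs S C1 κ0 hS (by linarith)
  have hC0 : 0 ≤ C := by linarith
  refine ⟨N0 + N0 * C, by positivity, ?_⟩
  intro P ι _ g hP hHom hg hinter hcomb
  rcases P.eq_empty_or_nonempty with rfl | hne
  · have h0 : (∑ i, (((∅ : Finset (ℝ × ℝ)).filter fun p => p ∈ Zs (g i) ∧
        |eval ![p.1, p.2] (pderiv 0 (g i))| ≤ |eval ![p.1, p.2] (pderiv 1 (g i))|).card : ℝ)) = 0 :=
      sum_eq_zero fun i _ => by rw [filter_empty, card_empty, Nat.cast_zero]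
    rw [h0]
    exact mul_nonneg (by positivity) (FF_nonneg _ _ _)
  have hn : 1 ≤ P.card := hne.card_pos
  choose U m σ E hE hLab hU hcov using fun i => hlab (g i) (hg i).1 (hg i).2
  have hj : ∀ j : Fin N0, (∑ i, ((P.filter fun p => p ∈ U i j).card : ℝ)) ≤
      C * FF s P.card (Fintype.card ι) := by
    intro j
    refine hcore P ι (fun i => U i j) (fun i => m i j) (fun i => σ i j) hn hHom
      (fun i => hLab i j) ?_
    intro Q hQ κ hκ Λ hΛ
    have hle : ∀ i, ((Q.filter fun p => p ∈ U i j).card : ℝ) ≤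
        ((Q.filter fun p => p ∈ Zs (g i)).card : ℝ) := by
      intro i
      exact_mod_cast card_le_card (monotone_filter_right Q fun p _ hp => hU i j hp)
    have h1 := hrich ι g P hg hinter hcomb Q hQ κ hκ Λ (fun i hi => (hΛ i hi).trans (hle i))
    have hκ1 : 0 ≤ κ := by linarith
    exact le_trans (mul_le_mul_of_nonneg_right (sum_le_sum fun i _ => hle i) (by positivity)) h1
  have hi : ∀ i, ((P.filter fun p => p ∈ Zs (g i) ∧ |eval ![p.1, p.2] (pderiv 0 (g i))| ≤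
      |eval ![p.1, p.2] (pderiv 1 (g i))|).card : ℝ) ≤
      N0 + ∑ j, ((P.filter fun p => p ∈ U i j).card : ℝ) := by
    intro i
    have hsub : (P.filter fun p => p ∈ Zs (g i) ∧ |eval ![p.1, p.2] (pderiv 0 (g i))| ≤
        |eval ![p.1, p.2] (pderiv 1 (g i))|) ⊆
        E i ∪ (univ : Finset (Fin N0)).biUnion fun j => P.filter fun p => p ∈ U i j := by
      intro p hp
      rw [mem_filter] at hp
      obtain ⟨hpP, hpZ, hpd⟩ := hp
      by_cases hpE : p ∈ E i
      · exact mem_union_left _ hpE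
      · obtain ⟨j, hpj⟩ := hcov i p hpZ (hP p hpP) hpd hpE
        exact mem_union_right _ (mem_biUnion.2 ⟨j, mem_univ _, mem_filter.2 ⟨hpP, hpj⟩⟩)
    have h1 := (card_le_card hsub).trans (card_union_le _ _)
    have h2 : ((univ : Finset (Fin N0)).biUnion fun j => P.filter fun p => p ∈ U i j).card ≤
        ∑ j, (P.filter fun p => p ∈ U i j).card := card_biUnion_le
    have h3 := hE i
    have h4 : (P.filter fun p => p ∈ Zs (g i) ∧ |eval ![p.1, p.2] (pderiv 0 (g i))| ≤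
        |eval ![p.1, p.2] (pderiv 1 (g i))|).card ≤ N0 + ∑ j, (P.filter fun p => p ∈ U i j).card := by
      omega
    exact_mod_cast h4
  have hFF := FF_ge s P.card (Fintype.card ι) hn
  calc (∑ i, ((P.filter fun p => p ∈ Zs (g i) ∧ |eval ![p.1, p.2] (pderiv 0 (g i))| ≤
      |eval ![p.1, p.2] (pderiv 1 (g i))|).card : ℝ))
      ≤ ∑ i, ((N0 : ℝ) + ∑ j, ((P.filter fun p => p ∈ U i j).card : ℝ)) := sum_le_sum fun i _ => hi i
    _ = N0 * (Fintype.card ι : ℝ) + ∑ j, ∑ i, ((P.filter fun p => p ∈ U i j).card : ℝ) := by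
        rw [sum_add_distrib, sum_const, card_univ, nsmul_eq_mul, mul_comm, sum_comm]
    _ ≤ N0 * FF s P.card (Fintype.card ι) + ∑ _j : Fin N0, C * FF s P.card (Fintype.card ι) :=
        add_le_add (mul_le_mul_of_nonneg_left hFF (Nat.cast_nonneg _)) (sum_le_sum fun j _ => hj j)
    _ = (N0 + N0 * C) * FF s P.card (Fintype.card ι) := by
        rw [sum_const, card_univ, Fintype.card_fin, nsmul_eq_mul]
        ring

end Pool.Agent.H39.HG
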