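import Pool.Agent.H39.HG.CoreB
import Pool.Agent.H39.HG.Labs
import Pool.Agent.H39.HG.Rich
import Pool.Agent.H39.HG.GFB

/-!
# The flat half, general scale

The same as `Pool/Agent/H39/HG/Half.lean` (finished proof there; copy and adapt) with `coreB`, `GF_ge` (and `u ≤ 1` for the exceptional points:
`u N0 #ι ≤ N0 GF`, since `u ≤ h u ≤ 1`).
-/

set_option autoImplicit false

namespace Pool.Agent.H39.HG

open Finset MvPolynomial Pool.Agent.H22.PS
open scoped Classical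

theorem halfB (s t k μ : ℕ) (hs : 4 ≤ s) : ∃ C : ℝ, 0 ≤ C ∧
    ∀ (h : ℕ) (r u : ℝ), 1 ≤ h → 0 < r → 0 < u → r ^ 2 = h * u ^ 3 → h * u ≤ 1 →
    ∀ (P : Finset (ℝ × ℝ)) (ι : Type) [Fintype ι] (g : ι → MvPolynomial (Fin 2) ℝ),
    (P.card : ℝ) * u ^ 3 ≤ 4 → (∀ p ∈ P, 0 ≤ p.1 ∧ p.1 ≤ 1) → Hom h r P →
    (∀ i, Irreducible (g i) ∧ (g i).totalDegree ≤ k) →
    (∀ i j, i ≠ j → ∃ T : Finset (ℝ × ℝ), T.card ≤ μ ∧ Zs (g i) ∩ Zs (g j) ⊆ T) →
    (∀ S ⊆ P, S.card = s → (univ.filter fun i => ∀ p ∈ S, p ∈ Zs (g i)).card < t) →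
    (∑ i, ((P.filter fun p => p ∈ Zs (g i) ∧ |eval ![p.1, p.2] (pderiv 0 (g i))| ≤
      |eval ![p.1, p.2] (pderiv 1 (g i))|).card : ℝ)) * u ≤
      C * GF s h u P.card (Fintype.card ι) := by
  obtain ⟨N0, S, hS, hlab⟩ := labels k
  obtain ⟨C1, κ0, hC1, hκ0, hrich⟩ := ps_rich s t k μ (by omega)
  obtain ⟨C, hC, hcore⟩ := coreB s hs S C1 κ0 hS (by linarith)
  have hC0 : 0 ≤ C := by linarith
  refine ⟨N0 + N0 * C, by positivity, ?_⟩
  intro h r u hh hr hu hru hhu P ι _ g hPu hP hHom hg hinter hcomb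
  choose U m σ E hE hLab hU hcov using fun i => hlab (g i) (hg i).1 (hg i).2
  have hj : ∀ j : Fin N0, (∑ i, ((P.filter fun p => p ∈ U i j).card : ℝ)) * u ≤
      C * GF s h u P.card (Fintype.card ι) := by
    intro j
    refine hcore h r u hh hr hu hru hhu P ι (fun i => U i j) (fun i => m i j) (fun i => σ i j) hPu
      hHom (fun i => hLab i j) ?_
    intro Q hQ κ hκ Λ hΛ
    have hle : ∀ i, ((Q.filter fun p => p ∈ U i j).card : ℝ) ≤
        ((Q.filter fun p => p ∈ Zs (g i)).card : ℝ) := by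
      intro i
      exact_mod_cast card_le_card (monotone_filter_right Q fun p _ hp => hU i j hp)
    have h1 := hrich ι g P hg hinter hcomb Q hQ κ hκ Λ (fun i hi => (hΛ i hi).trans (hle i))
    have hκ1 : 0 ≤ κ := by linarith
    exact le_trans (mul_le_mul_of_nonneg_right (sum_le_sum fun i _ => hle i) (by positivity)) h1
  have hi : ∀ i, ((P.filter fun p => p ∈ Zs (g i) ∧ |eval ![p.1, p.2] (pderiv 0 (g i))| ≤
      |eval ![p.1, p.2] (pderiv 1 (g i))|).card : ℝ) ≤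
      N0 + ∑ j, ((P.filter fun p => p ∈ U i j).card : ℝ) := by
    intro i
    have hsub : (P.filter fun p => p ∈ Zs (g i) ∧ |eval ![p.1, p.2] (pderiv 0 (g i))| ≤
        |eval ![p.1, p.2] (pderiv 1 (g i))|) ⊆
        E i ∪ (univ : Finset (Fin N0)).biUnion fun j => P.filter fun p => p ∈ U i j := by
      intro p hp
      rw [mem_filter] at hp
      obtain ⟨hpP, hpZ, hpd⟩ := hp
      by_cases hpE : p ∈ E i
      · exact mem_union_left _ hpE
      · obtain ⟨j, hpj⟩ := hcov i p hpZ (hP p hpP) hpd hpE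
        exact mem_union_right _ (mem_biUnion.2 ⟨j, mem_univ _, mem_filter.2 ⟨hpP, hpj⟩⟩)
    have h1 := (card_le_card hsub).trans (card_union_le _ _)
    have h2 : ((univ : Finset (Fin N0)).biUnion fun j => P.filter fun p => p ∈ U i j).card ≤
        ∑ j, (P.filter fun p => p ∈ U i j).card := card_biUnion_le
    have h3 := hE i
    have h4 : (P.filter fun p => p ∈ Zs (g i) ∧ |eval ![p.1, p.2] (pderiv 0 (g i))| ≤
        |eval ![p.1, p.2] (pderiv 1 (g i))|).card ≤ N0 + ∑ j, (P.filter fun p => p ∈ U i j).card := by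
      omega
    exact_mod_cast h4
  have hGF := GF_ge s h u hu P.card (Fintype.card ι)
  have hh1 : (1 : ℝ) ≤ h := by exact_mod_cast hh
  have hu1 : u ≤ 1 := by
    have : u ≤ h * u := le_mul_of_one_le_left hu.le hh1
    linarith
  have hcι : (0 : ℝ) ≤ (Fintype.card ι : ℝ) := Nat.cast_nonneg _
  have hNu : (N0 : ℝ) * (Fintype.card ι : ℝ) * u ≤ N0 * GF s h u P.card (Fintype.card ι) := by
    have h1 : (N0 : ℝ) * (Fintype.card ι : ℝ) * u ≤ N0 * (Fintype.card ι : ℝ) :=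
      mul_le_of_le_one_right (mul_nonneg (Nat.cast_nonneg _) hcι) hu1
    exact h1.trans (mul_le_mul_of_nonneg_left hGF (Nat.cast_nonneg _))
  calc (∑ i, ((P.filter fun p => p ∈ Zs (g i) ∧ |eval ![p.1, p.2] (pderiv 0 (g i))| ≤
      |eval ![p.1, p.2] (pderiv 1 (g i))|).card : ℝ)) * u
      ≤ (∑ i, ((N0 : ℝ) + ∑ j, ((P.filter fun p => p ∈ U i j).card : ℝ))) * u :=
        mul_le_mul_of_nonneg_right (sum_le_sum fun i _ => hi i) hu.le
    _ = N0 * (Fintype.card ι : ℝ) * u +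
          ∑ j, (∑ i, ((P.filter fun p => p ∈ U i j).card : ℝ)) * u := by
        rw [sum_add_distrib, sum_const, card_univ, nsmul_eq_mul, mul_comm (Fintype.card ι : ℝ),
          sum_comm, add_mul, sum_mul]
    _ ≤ N0 * GF s h u P.card (Fintype.card ι) +
          ∑ _j : Fin N0, C * GF s h u P.card (Fintype.card ι) :=
        add_le_add hNu (sum_le_sum fun j _ => hj j)
    _ = (N0 + N0 * C) * GF s h u P.card (Fintype.card ι) := by
        rw [sum_const, card_univ, Fintype.card_fin, nsmul_eq_mul]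
        ring

end Pool.Agent.H39.HG
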