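import Pool.Agent.H39.HG.Lev
import Pool.Agent.H39.HG.Few

/-!
# One level in terms of `2 ^ j`

`C0`, `C2` from `few_rich h`. With `n = #P ≥ 1`, `r = n ^ (-1/2)`, `d = 2 ^ j n ^ (-1/3)`, `2 ^ j ≤ n ^ (1/3)`: `r ≤ d` (`n ^ (-1/2) ≤ n ^ (-1/3)`), `d ≤ 1`,
`d ^ 3 / r ^ 2 = 8 ^ j`, `n r ^ 2 = 1`, `8 d ^ 4 = 8 * 16 ^ j n ^ (-4/3)`. Put `T = C0 8 ^ j`, `κ = K 2 ^ j ≥ κ0` (if `Cst ≥ κ0`), `V = C2 / 8 ^ j`,
`B = C1 (8 T) ^ s / κ ^ (2 s - 2) + C1 (8 T)`. `level` gives `#𝒢 * 8 * 16 ^ j * n ^ (-4/3) ≤ C2 / 8 ^ j * B`, that is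
`#𝒢 ≤ C n ^ (4/3) (1 / 16 ^ j) (1 / 8 ^ j) (8 ^ (s j) / (K ^ (2 s - 2) 4 ^ (j (s - 1))) + 8 ^ j)
 = C n ^ (4/3) ((2 ^ j) ^ (s + 2) / ((2 ^ j) ^ 7 K ^ (2 s - 2)) + 1 / (2 ^ j) ^ 4)`, as `3 s - 2 (s - 1) = s + 2`.
If `𝒢` is not empty then the set of `few_rich` is not empty (the point `(e.2.1, e.2.2, m)` by `tub_sub` with `x = xp`, ...), so not `r ≤ 7 d ^ 2`, so
`7 * 4 ^ j < n ^ (1/6)`. This gives the second conclusion.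
-/

set_option autoImplicit false

namespace Pool.Agent.H39.HG

open Finset MeasureTheory
open scoped Classical

private theorem levA_pow (N : ℝ) (hN : 1 ≤ N) : ∃ t : ℝ, 1 ≤ t ∧ N ^ (1 / 6 : ℝ) = t ∧ N = t ^ 6 ∧
    N ^ (-(1 / 3) : ℝ) = (t ^ 2)⁻¹ ∧ N ^ (-(1 / 2) : ℝ) = (t ^ 3)⁻¹ ∧ N ^ (4 / 3 : ℝ) = t ^ 8 := by
  have h0 : 0 ≤ N := by linarith
  refine ⟨N ^ (1 / 6 : ℝ), Real.one_le_rpow hN (by norm_num), rfl, ?_, ?_, ?_, ?_⟩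
  · rw [← Real.rpow_natCast, ← Real.rpow_mul h0]
    norm_num
  · rw [← Real.rpow_natCast, ← Real.rpow_mul h0, Real.rpow_neg h0]
    norm_num
  · rw [← Real.rpow_natCast, ← Real.rpow_mul h0, Real.rpow_neg h0]
    norm_num
  · rw [← Real.rpow_natCast, ← Real.rpow_mul h0]
    norm_num

private theorem levA_sum {S Q κ C1 T : ℝ} {s : ℕ} (hκ : 0 < κ) (hC1 : 0 ≤ C1) (hQ0 : 0 ≤ Q)
    (hQ : Q ≤ T) (h : S * κ ^ (2 * s - 2) ≤ C1 * (Q ^ s + Q * κ ^ (2 * s - 2))) :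
    S ≤ C1 * T ^ s / κ ^ (2 * s - 2) + C1 * T := by
  have hk : 0 < κ ^ (2 * s - 2) := by positivity
  have h1 : Q ^ s ≤ T ^ s := pow_le_pow_left₀ hQ0 hQ s
  have h2 : C1 * (Q ^ s + Q * κ ^ (2 * s - 2)) ≤ C1 * (T ^ s + T * κ ^ (2 * s - 2)) :=
    mul_le_mul_of_nonneg_left (add_le_add h1 (mul_le_mul_of_nonneg_right hQ hk.le)) hC1
  have h3 : (C1 * T ^ s / κ ^ (2 * s - 2) + C1 * T) * κ ^ (2 * s - 2) =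
      C1 * (T ^ s + T * κ ^ (2 * s - 2)) := by
    field_simp
  have h4 := h.trans h2
  rw [← h3] at h4
  exact le_of_mul_le_mul_right h4 hk

private theorem levA_alg {t y K C0 C1 C2 g : ℝ} {s : ℕ} (hs : 2 ≤ s) (ht : 1 ≤ t) (hy : 1 ≤ y)
    (hK : 1 ≤ K) (hC0 : 8 ≤ C0) (hC1 : 0 ≤ C1) (hC2 : 0 ≤ C2)
    (h : g * (8 * (y * (t ^ 2)⁻¹) ^ 4) ≤ C2 / y ^ 3 *
      (C1 * (8 * (C0 * y ^ 3)) ^ s / (K * y) ^ (2 * s - 2) + C1 * (8 * (C0 * y ^ 3)))) :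
    g ≤ (1 + C2 * C1 * (8 * C0) ^ s + 8 * C1 * C0 * C2) * (t ^ 8 *
      (y ^ (s + 2) / (y ^ 7 * K ^ (2 * s - 2)) + 1 / y ^ 4)) := by
  have hy0 : 0 < y := by linarith
  have ht0 : 0 < t := by linarith
  have hK0 : 0 < K := by linarith
  have hC00 : 0 < C0 := by linarith
  obtain ⟨u, rfl⟩ : ∃ u, s = u + 2 := ⟨s - 2, by omega⟩
  have e1 : 2 * (u + 2) - 2 = 2 * (u + 1) := by omega
  rw [e1] at h ⊢
  have hA : 0 ≤ y ^ (u + 2 + 2) / (y ^ 7 * K ^ (2 * (u + 1))) := by positivity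
  have hB : 0 ≤ 1 / y ^ 4 := by positivity
  have h1 : C2 / y ^ 3 * (C1 * (8 * (C0 * y ^ 3)) ^ (u + 2) / (K * y) ^ (2 * (u + 1)) +
      C1 * (8 * (C0 * y ^ 3))) = (8 * (y * (t ^ 2)⁻¹) ^ 4) * (t ^ 8 / 8 *
      (C2 * C1 * (8 * C0) ^ (u + 2) * (y ^ (u + 2 + 2) / (y ^ 7 * K ^ (2 * (u + 1)))) +
        8 * C1 * C0 * C2 * (1 / y ^ 4))) := by
    field_simp
    ring
  rw [h1, mul_comm g] at h
  have h2 : 0 < 8 * (y * (t ^ 2)⁻¹) ^ 4 := by positivity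
  have h3 := le_of_mul_le_mul_left h h2
  refine h3.trans ?_
  have h4 : 0 ≤ C2 * C1 * (8 * C0) ^ (u + 2) := by positivity
  have h5 : 0 ≤ 8 * C1 * C0 * C2 := by positivity
  set A := y ^ (u + 2 + 2) / (y ^ 7 * K ^ (2 * (u + 1)))
  set Bb := 1 / y ^ 4
  set c := C2 * C1 * (8 * C0) ^ (u + 2)
  set c' := 8 * C1 * C0 * C2
  have h6 : (1 + c + c') * (t ^ 8 * (A + Bb)) = t ^ 8 * ((1 + c + c') * (A + Bb)) := by ring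
  rw [h6]
  have ht8 : 0 ≤ t ^ 8 := by positivity
  have h7 : c * A + c' * Bb ≤ 8 * ((1 + c + c') * (A + Bb)) := by
    nlinarith [mul_nonneg h4 hA, mul_nonneg h4 hB, mul_nonneg h5 hA, mul_nonneg h5 hB]
  calc t ^ 8 / 8 * (c * A + c' * Bb) ≤ t ^ 8 / 8 * (8 * ((1 + c + c') * (A + Bb))) :=
        mul_le_mul_of_nonneg_left h7 (by positivity)
    _ = t ^ 8 * ((1 + c + c') * (A + Bb)) := by ring

theorem level_two (s h : ℕ) (hs : 2 ≤ s) (C1 κ0 : ℝ) (hC1 : 0 ≤ C1) :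
    ∃ C0 C Cst : ℝ, 8 ≤ C0 ∧ 1 ≤ C ∧ 1 ≤ Cst ∧
    ∀ (P : Finset (ℝ × ℝ)) (ι : Type) [Fintype ι] (Pg : ι → Finset (ℝ × ℝ))
    (m : ι → ℝ × ℝ → ℝ), 1 ≤ P.card → Hom h ((P.card : ℝ) ^ (-(1 / 2) : ℝ)) P →
    (∀ g, Pg g ⊆ P) →
    (∀ Q ⊆ P, ∀ κ : ℝ, κ0 ≤ κ → ∀ Λ : Finset ι, (∀ i ∈ Λ, κ ≤ ((Pg i ∩ Q).card : ℝ)) →
      (∑ i ∈ Λ, ((Pg i ∩ Q).card : ℝ)) * κ ^ (2 * s - 2) ≤
        C1 * ((Q.card : ℝ) ^ s + Q.card * κ ^ (2 * s - 2))) →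
    ∀ K : ℝ, Cst ≤ K → ∀ (j : ℕ) (d : ℝ), d = 2 ^ j * (P.card : ℝ) ^ (-(1 / 3) : ℝ) → d ≤ 1 →
    ∀ 𝒢 : Finset (ι × (ℝ × ℝ)), (∀ e ∈ 𝒢, e.2 ∈ Pg e.1 ∧ |m e.1 e.2| ≤ 1) →
    (∀ e ∈ 𝒢, C0 * 8 ^ j ≤ ((tub P (2 * d) (3 * d ^ 2) e.2.1 e.2.2 (m e.1 e.2)).card : ℝ)) →
    (∀ e ∈ 𝒢, ((tub P (4 * d) (12 * d ^ 2) e.2.1 e.2.2 (m e.1 e.2)).card : ℝ) ≤
      8 * (C0 * 8 ^ j)) →
    (∀ e ∈ 𝒢, K * 2 ^ j ≤
      ((Pg e.1 ∩ tub P (2 * d) (3 * d ^ 2) e.2.1 e.2.2 (m e.1 e.2)).card : ℝ)) →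
    (𝒢.card : ℝ) ≤ C * ((P.card : ℝ) ^ (4 / 3 : ℝ) *
      (((2 : ℝ) ^ j) ^ (s + 2) / (((2 : ℝ) ^ j) ^ 7 * K ^ (2 * s - 2)) +
        1 / ((2 : ℝ) ^ j) ^ 4)) ∧
    (𝒢.Nonempty → (4 : ℝ) ^ j < (P.card : ℝ) ^ (1 / 6 : ℝ)) := by
  obtain ⟨C0, C2, hC0, hC2, hfew⟩ := few_rich h
  refine ⟨C0, 1 + C2 * C1 * (8 * C0) ^ s + 8 * C1 * C0 * C2, max 1 κ0, hC0, ?_, le_max_left _ _,
    ?_⟩
  · have h1 : 0 ≤ C2 * C1 * (8 * C0) ^ s := by positivity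
    have h2 : 0 ≤ 8 * C1 * C0 * C2 := by positivity
    linarith
  intro P ι _ Pg m hP hHom hPg hcount K hK j d hd hd1 𝒢 h1 h2 h3 h4
  have hN : (1 : ℝ) ≤ (P.card : ℝ) := by exact_mod_cast hP
  obtain ⟨t, ht, e16, e6, e13, e12, e43⟩ := levA_pow _ hN
  have ht0 : 0 < t := by linarith
  obtain ⟨y, hy, hydef⟩ : ∃ y : ℝ, 1 ≤ y ∧ (2 : ℝ) ^ j = y := ⟨2 ^ j, one_le_pow₀ (by norm_num), rfl⟩
  have hy0 : 0 < y := by linarith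
  have e8 : (8 : ℝ) ^ j = y ^ 3 := by
    rw [← hydef, ← pow_mul, mul_comm, pow_mul]
    norm_num
  have e4 : (4 : ℝ) ^ j = y ^ 2 := by
    rw [← hydef, ← pow_mul, mul_comm, pow_mul]
    norm_num
  have hK1 : 1 ≤ K := (le_max_left _ _).trans hK
  have hK2 : κ0 ≤ K := (le_max_right _ _).trans hK
  rw [e8] at h2 h3
  rw [hydef, e13] at hd
  rw [hydef] at h4
  rw [e12] at hHom
  have hd0 : 0 < d := by rw [hd]; positivity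
  have hr0 : 0 < (t ^ 3)⁻¹ := by positivity
  have hrd : (t ^ 3)⁻¹ ≤ d := by
    rw [hd]
    have h5 : (t ^ 3)⁻¹ ≤ (t ^ 2)⁻¹ :=
      inv_anti₀ (by positivity) (pow_le_pow_right₀ ht (by norm_num))
    have h6 : (t ^ 2)⁻¹ ≤ y * (t ^ 2)⁻¹ := le_mul_of_one_le_left (by positivity) hy
    exact h5.trans h6
  have hNr : (P.card : ℝ) * ((t ^ 3)⁻¹) ^ 2 ≤ 1 := by
    rw [e6]
    apply le_of_eq
    field_simp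
  obtain ⟨hvol, hsmall⟩ := hfew _ _ P hr0 hrd hHom hNr
  have e3 : d ^ 3 / ((t ^ 3)⁻¹) ^ 2 = y ^ 3 := by
    rw [hd]
    field_simp
  have e3' : ((t ^ 3)⁻¹) ^ 2 / d ^ 3 = (y ^ 3)⁻¹ := by
    rw [← e3, inv_div]
  rw [e3, e3'] at hvol
  rw [e3] at hsmall
  refine ⟨?_, ?_⟩
  · have hκ : 0 < K * y := by positivity
    have hlev := level P ι Pg hPg m 𝒢 d (C0 * y ^ 3) (K * y)
      (C1 * (8 * (C0 * y ^ 3)) ^ s / (K * y) ^ (2 * s - 2) + C1 * (8 * (C0 * y ^ 3)))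
      (C2 * (y ^ 3)⁻¹) hd0 hd1 (by positivity) (by positivity) h1 h2 h3 h4 (by
        intro Q hQ hQc Λ hΛ
        refine levA_sum hκ hC1 (Nat.cast_nonneg _) hQc (hcount Q hQ (K * y) ?_ Λ hΛ)
        exact hK2.trans (le_mul_of_one_le_right (by linarith) hy)) hvol
    rw [hd] at hlev
    rw [hydef, e43]
    refine levA_alg hs ht hy hK1 hC0 hC1 hC2 ?_
    rw [div_eq_mul_inv]
    exact hlev
  · rintro ⟨e, he⟩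
    rw [e4, e16]
    by_contra hc
    push Not at hc
    have h5 : (t ^ 3)⁻¹ ≤ 7 * d ^ 2 := by
      rw [hd]
      have h6 : 7 * (y * (t ^ 2)⁻¹) ^ 2 = (t ^ 3)⁻¹ * (7 * (y ^ 2 / t)) := by
        field_simp
      rw [h6]
      apply le_mul_of_one_le_right hr0.le
      have h7 : 1 ≤ y ^ 2 / t := by
        rw [le_div_iff₀ ht0, one_mul]
        exact hc
      linarith
    have h6 := hsmall h5 (e.2.1, e.2.2, m e.1 e.2) (by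
      have := (h1 e he).2
      show |m e.1 e.2| ≤ 2
      linarith)
    have h7 := h2 e he
    have h8 : tub P (2 * d) (3 * d ^ 2) e.2.1 e.2.2 (m e.1 e.2) ⊆
        tub P (3 * d) (7 * d ^ 2) e.2.1 e.2.2 (m e.1 e.2) := by
      intro p hp
      rw [tub, Finset.mem_filter] at hp ⊢
      obtain ⟨h9, h10, h11⟩ := hp
      refine ⟨h9, h10.trans (by linarith), h11.trans ?_⟩
      nlinarith [sq_nonneg d]
    have h9 : ((tub P (2 * d) (3 * d ^ 2) e.2.1 e.2.2 (m e.1 e.2)).card : ℝ) ≤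
        ((tub P (3 * d) (7 * d ^ 2) e.2.1 e.2.2 (m e.1 e.2)).card : ℝ) := by
      exact_mod_cast Finset.card_le_card h8
    have h10 : ((tub P (3 * d) (7 * d ^ 2) e.2.1 e.2.2 (m e.1 e.2)).card : ℝ) < C0 * y ^ 3 := h6
    linarith

end Pool.Agent.H39.HG
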