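import Pool.Agent.H39.HG.Lev
import Pool.Agent.H39.HG.FewB

/-!
# One level in terms of `2 ^ j`, general scale

The same as `Pool/Agent/H39/HG/LevA.lean` (finished proof there; copy and adapt). `C0`, `C2` from `few_richB`. `r ^ 2 = h u ^ 3`, `d = 2 ^ j u`: `r ≤ u ≤ d`
(`r ^ 2 = h u * u ^ 2 ≤ u ^ 2`), `h d ^ 3 / r ^ 2 = 8 ^ j`, `r ^ 4 = h ^ 2 u ^ 6`. Put `T = C0 8 ^ j`, `κ = K 2 ^ j ≥ κ0` (`Cst = max 1 κ0`),
`V = C2 #P r ^ 4 / (h d ^ 3) = C2 #P h u ^ 3 / 8 ^ j`, `B = C1 (8 T) ^ s / κ ^ (2 s - 2) + C1 (8 T)`. `level` gives `#𝒢 * 8 * 16 ^ j * u ^ 4 ≤ V B`, that is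
`u #𝒢 ≤ C h #P (1 / 16 ^ j) (1 / 8 ^ j) (8 ^ (s j) / (K ^ (2 s - 2) 4 ^ (j (s - 1))) + 8 ^ j)
 = C h #P ((2 ^ j) ^ (s + 2) / ((2 ^ j) ^ 7 K ^ (2 s - 2)) + 1 / (2 ^ j) ^ 4)`.
If `𝒢` is not empty then not `r ≤ 7 d ^ 2` (second part of `few_richB` and `tub_sub`), so `7 * 4 ^ j u ^ 2 < r`; squares: `49 * 16 ^ j u ^ 4 < h u ^ 3`, `16 ^ j < h / u`.
-/

set_option autoImplicit false

namespace Pool.Agent.H39.HG

open Finset MeasureTheory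
open scoped Classical

private theorem levB_sum {S Q κ C1 T : ℝ} {s : ℕ} (hκ : 0 < κ) (hC1 : 0 ≤ C1) (hQ0 : 0 ≤ Q)
    (hQ : Q ≤ T) (h : S * κ ^ (2 * s - 2) ≤ C1 * (Q ^ s + Q * κ ^ (2 * s - 2))) :
    S ≤ C1 * T ^ s / κ ^ (2 * s - 2) + C1 * T := by
  have hk : 0 < κ ^ (2 * s - 2) := by positivity
  have h1 : Q ^ s ≤ T ^ s := pow_le_pow_left₀ hQ0 hQ s
  have h2 : C1 * (Q ^ s + Q * κ ^ (2 * s - 2)) ≤ C1 * (T ^ s + T * κ ^ (2 * s - 2)) :=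
    mul_le_mul_of_nonneg_left (add_le_add h1 (mul_le_mul_of_nonneg_right hQ hk.le)) hC1
  have h3 : (C1 * T ^ s / κ ^ (2 * s - 2) + C1 * T) * κ ^ (2 * s - 2) =
      C1 * (T ^ s + T * κ ^ (2 * s - 2)) := by
    field_simp
  have h4 := h.trans h2
  rw [← h3] at h4
  exact le_of_mul_le_mul_right h4 hk

private theorem levB_alg {u y K C0 C1 C2 g H n : ℝ} {s : ℕ} (hs : 2 ≤ s) (hu : 0 < u) (hy : 1 ≤ y)
    (hK : 1 ≤ K) (hC0 : 0 ≤ C0) (hC1 : 0 ≤ C1) (hC2 : 0 ≤ C2) (hH : 0 ≤ H) (hn : 0 ≤ n)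
    (h : g * (8 * (y * u) ^ 4) ≤ C2 * (n * (H * u ^ 3) / y ^ 3) *
      (C1 * (8 * (C0 * y ^ 3)) ^ s / (K * y) ^ (2 * s - 2) + C1 * (8 * (C0 * y ^ 3)))) :
    g * u ≤ (1 + C2 * C1 * (8 * C0) ^ s + 8 * C1 * C0 * C2) * (H * n *
      (y ^ (s + 2) / (y ^ 7 * K ^ (2 * s - 2)) + 1 / y ^ 4)) := by
  have hy0 : 0 < y := by linarith
  have hK0 : 0 < K := by linarith
  obtain ⟨v, rfl⟩ : ∃ v, s = v + 2 := ⟨s - 2, by omega⟩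
  have e1 : 2 * (v + 2) - 2 = 2 * (v + 1) := by omega
  rw [e1] at h ⊢
  have hA : 0 ≤ y ^ (v + 2 + 2) / (y ^ 7 * K ^ (2 * (v + 1))) := by positivity
  have hB : 0 ≤ 1 / y ^ 4 := by positivity
  have h1 : C2 * (n * (H * u ^ 3) / y ^ 3) * (C1 * (8 * (C0 * y ^ 3)) ^ (v + 2) /
      (K * y) ^ (2 * (v + 1)) + C1 * (8 * (C0 * y ^ 3))) = (8 * y ^ 4 * u ^ 3) * (H * n / 8 *
      (C2 * C1 * (8 * C0) ^ (v + 2) * (y ^ (v + 2 + 2) / (y ^ 7 * K ^ (2 * (v + 1)))) +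
        8 * C1 * C0 * C2 * (1 / y ^ 4))) := by
    field_simp
    ring
  have h1' : g * (8 * (y * u) ^ 4) = (8 * y ^ 4 * u ^ 3) * (g * u) := by ring
  rw [h1, h1'] at h
  have h2 : 0 < 8 * y ^ 4 * u ^ 3 := by positivity
  have h3 := le_of_mul_le_mul_left h h2
  refine h3.trans ?_
  have h4 : 0 ≤ C2 * C1 * (8 * C0) ^ (v + 2) := by positivity
  have h5 : 0 ≤ 8 * C1 * C0 * C2 := by positivity
  set A := y ^ (v + 2 + 2) / (y ^ 7 * K ^ (2 * (v + 1)))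
  set Bb := 1 / y ^ 4
  set c := C2 * C1 * (8 * C0) ^ (v + 2)
  set c' := 8 * C1 * C0 * C2
  have h6 : (1 + c + c') * (H * n * (A + Bb)) = H * n * ((1 + c + c') * (A + Bb)) := by ring
  rw [h6]
  have h7 : c * A + c' * Bb ≤ 8 * ((1 + c + c') * (A + Bb)) := by
    nlinarith [mul_nonneg h4 hA, mul_nonneg h4 hB, mul_nonneg h5 hA, mul_nonneg h5 hB]
  calc H * n / 8 * (c * A + c' * Bb) ≤ H * n / 8 * (8 * ((1 + c + c') * (A + Bb))) :=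
        mul_le_mul_of_nonneg_left h7 (by positivity)
    _ = H * n * ((1 + c + c') * (A + Bb)) := by ring

theorem level_twoB (s : ℕ) (hs : 2 ≤ s) (C1 κ0 : ℝ) (hC1 : 0 ≤ C1) :
    ∃ C0 C Cst : ℝ, 32 ≤ C0 ∧ 1 ≤ C ∧ 1 ≤ Cst ∧
    ∀ (h : ℕ) (r u : ℝ), 1 ≤ h → 0 < r → 0 < u → r ^ 2 = h * u ^ 3 → h * u ≤ 1 →
    ∀ (P : Finset (ℝ × ℝ)) (ι : Type) [Fintype ι] (Pg : ι → Finset (ℝ × ℝ))
    (m : ι → ℝ × ℝ → ℝ), Hom h r P → (∀ g, Pg g ⊆ P) →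
    (∀ Q ⊆ P, ∀ κ : ℝ, κ0 ≤ κ → ∀ Λ : Finset ι, (∀ i ∈ Λ, κ ≤ ((Pg i ∩ Q).card : ℝ)) →
      (∑ i ∈ Λ, ((Pg i ∩ Q).card : ℝ)) * κ ^ (2 * s - 2) ≤
        C1 * ((Q.card : ℝ) ^ s + Q.card * κ ^ (2 * s - 2))) →
    ∀ K : ℝ, Cst ≤ K → ∀ (j : ℕ) (d : ℝ), d = 2 ^ j * u → d ≤ 1 →
    ∀ 𝒢 : Finset (ι × (ℝ × ℝ)), (∀ e ∈ 𝒢, e.2 ∈ Pg e.1 ∧ |m e.1 e.2| ≤ 1) →
    (∀ e ∈ 𝒢, C0 * 8 ^ j ≤ ((tub P (2 * d) (3 * d ^ 2) e.2.1 e.2.2 (m e.1 e.2)).card : ℝ)) →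
    (∀ e ∈ 𝒢, ((tub P (4 * d) (12 * d ^ 2) e.2.1 e.2.2 (m e.1 e.2)).card : ℝ) ≤
      8 * (C0 * 8 ^ j)) →
    (∀ e ∈ 𝒢, K * 2 ^ j ≤
      ((Pg e.1 ∩ tub P (2 * d) (3 * d ^ 2) e.2.1 e.2.2 (m e.1 e.2)).card : ℝ)) →
    (𝒢.card : ℝ) * u ≤ C * (h * P.card *
      (((2 : ℝ) ^ j) ^ (s + 2) / (((2 : ℝ) ^ j) ^ 7 * K ^ (2 * s - 2)) +
        1 / ((2 : ℝ) ^ j) ^ 4)) ∧
    (𝒢.Nonempty → (16 : ℝ) ^ j < h / u) := by
  obtain ⟨C0, C2, hC0, hC2, hfew⟩ := few_richB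
  refine ⟨C0, 1 + C2 * C1 * (8 * C0) ^ s + 8 * C1 * C0 * C2, max 1 κ0, hC0, ?_, le_max_left _ _,
    ?_⟩
  · have h1 : 0 ≤ C2 * C1 * (8 * C0) ^ s := by positivity
    have h2 : 0 ≤ 8 * C1 * C0 * C2 := by positivity
    linarith
  intro h r u hh hr hu hru hhu P ι _ Pg m hHom hPg hcount K hK j d hd hd1 𝒢 h1 h2 h3 h4
  have hh1 : (1 : ℝ) ≤ h := by exact_mod_cast hh
  have hh0 : (0 : ℝ) < h := by linarith
  obtain ⟨y, hy, hydef⟩ : ∃ y : ℝ, 1 ≤ y ∧ (2 : ℝ) ^ j = y := ⟨2 ^ j, one_le_pow₀ (by norm_num), rfl⟩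
  have hy0 : 0 < y := by linarith
  have e8 : (8 : ℝ) ^ j = y ^ 3 := by
    rw [← hydef, ← pow_mul, mul_comm, pow_mul]
    norm_num
  have e16 : (16 : ℝ) ^ j = y ^ 4 := by
    rw [← hydef, ← pow_mul, mul_comm, pow_mul]
    norm_num
  have hK1 : 1 ≤ K := (le_max_left _ _).trans hK
  have hK2 : κ0 ≤ K := (le_max_right _ _).trans hK
  rw [e8] at h2 h3
  rw [hydef] at hd h4
  have hd0 : 0 < d := by
    rw [hd]
    positivity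
  have hru' : r ≤ u := by
    have h5 : r ^ 2 ≤ u ^ 2 := by
      rw [hru]
      have h6 : (h : ℝ) * u ^ 3 = (h * u) * u ^ 2 := by ring
      rw [h6]
      exact mul_le_of_le_one_left (by positivity) hhu
    exact (pow_le_pow_iff_left₀ hr.le hu.le two_ne_zero).1 h5
  have hrd : r ≤ d := by
    rw [hd]
    exact hru'.trans (le_mul_of_one_le_left hu.le hy)
  obtain ⟨hvol, hsmall⟩ := hfew h r d P hh hr hrd hHom
  have e3 : (h : ℝ) * d ^ 3 / r ^ 2 = y ^ 3 := by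
    rw [hru, hd]
    field_simp
  have e3' : (P.card : ℝ) * r ^ 4 / (h * d ^ 3) = (P.card : ℝ) * (h * u ^ 3) / y ^ 3 := by
    have h5 : r ^ 4 = (h * u ^ 3) ^ 2 := by
      rw [← hru]
      ring
    rw [h5, hd]
    field_simp
  rw [e3, e3'] at hvol
  rw [e3] at hsmall
  refine ⟨?_, ?_⟩
  · have hκ : 0 < K * y := by positivity
    have hC00 : 0 ≤ C0 := by linarith
    have hlev := level P ι Pg hPg m 𝒢 d (C0 * y ^ 3) (K * y)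
      (C1 * (8 * (C0 * y ^ 3)) ^ s / (K * y) ^ (2 * s - 2) + C1 * (8 * (C0 * y ^ 3)))
      (C2 * ((P.card : ℝ) * (h * u ^ 3) / y ^ 3)) hd0 hd1 (by positivity) (by positivity)
      h1 h2 h3 h4 (by
        intro Q hQ hQc Λ hΛ
        refine levB_sum hκ hC1 (Nat.cast_nonneg _) hQc (hcount Q hQ (K * y) ?_ Λ hΛ)
        exact hK2.trans (le_mul_of_one_le_right (by linarith) hy)) hvol
    rw [hd] at hlev
    rw [hydef]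
    exact levB_alg hs hu hy hK1 hC00 hC1 hC2 hh0.le (Nat.cast_nonneg _) hlev
  · rintro ⟨e, he⟩
    rw [e16]
    by_contra hc
    push Not at hc
    have h5 : r ≤ 7 * d ^ 2 := by
      have h6 : r ^ 2 ≤ (7 * d ^ 2) ^ 2 := by
        rw [hru, hd]
        have h7 : (h : ℝ) ≤ y ^ 4 * u := by
          rwa [div_le_iff₀ hu] at hc
        have h8 : (h : ℝ) * u ^ 3 ≤ (y ^ 4 * u) * u ^ 3 :=
          mul_le_mul_of_nonneg_right h7 (by positivity)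
        have h9 : (0 : ℝ) ≤ y ^ 4 * u * u ^ 3 := by positivity
        calc (h : ℝ) * u ^ 3 ≤ (y ^ 4 * u) * u ^ 3 := h8
          _ ≤ 49 * ((y ^ 4 * u) * u ^ 3) := by linarith
          _ = (7 * (y * u) ^ 2) ^ 2 := by ring
      exact (pow_le_pow_iff_left₀ hr.le (by positivity) two_ne_zero).1 h6
    have h6 := hsmall h5 (e.2.1, e.2.2, m e.1 e.2) (by
      have := (h1 e he).2
      show |m e.1 e.2| ≤ 2
      linarith)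
    have h7 := h2 e he
    have h8 : tub P (2 * d) (3 * d ^ 2) e.2.1 e.2.2 (m e.1 e.2) ⊆
        tub P (3 * d) (7 * d ^ 2) e.2.1 e.2.2 (m e.1 e.2) := by
      intro p hp
      rw [tub, Finset.mem_filter] at hp ⊢
      obtain ⟨h9, h10, h11⟩ := hp
      refine ⟨h9, h10.trans (by linarith), h11.trans ?_⟩
      nlinarith [sq_nonneg d]
    have h9 : ((tub P (2 * d) (3 * d ^ 2) e.2.1 e.2.2 (m e.1 e.2)).card : ℝ) ≤
        ((tub P (3 * d) (7 * d ^ 2) e.2.1 e.2.2 (m e.1 e.2)).card : ℝ) := by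
      exact_mod_cast Finset.card_le_card h8
    have h10 : ((tub P (3 * d) (7 * d ^ 2) e.2.1 e.2.2 (m e.1 e.2)).card : ℝ) < C0 * y ^ 3 := h6
    linarith

end Pool.Agent.H39.HG
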