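import Pool.Agent.H39.HG.Irr
import Pool.Agent.H22.PS.Fac
import Pool.Agent.H19.RD.Hole

/-!
# All curves

Compare with `Pool/Agent/H22/PS/Main.lean` and `Lines.lean` (same bookkeeping). `P` empty: the left side is `0`. `comps` gives for every `γ ∈ Γ` at most `k`
components. Components with less than `s` points of `P`: in total at most `s k #Γ ≤ s k FF`. Let `Ls` be the set of the components with at least `s` points
(`#Ls ≤ k #Γ`); `line_mult`: the rest is at most `t ∑_{c ∈ Ls} #(P ∩ c)`. Apply `irr_bound s (k * t + 1) k (k * k) h` with the index type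
`{c // c ∈ Ls}`, `g c` the chosen irreducible polynomial: different `c`, `c'` have `g c`, `g c'` not associated (associated polynomials have the same
zero set), so `IsRelPrime`, and by `Pool.Agent.H19.RD.bez_pts` at most `k * k` common zeros (a finite set `T`; see `shift_inter` or `slope_fin` for the
passage from a bound for all finite subsets to a finite set). `K`-free: if `S ⊆ P`, `#S = s`, then every `c ∈ Ls` containing `S` is a component of
some `γ ∈ Γ` containing `S`; there are less than `t` such `γ` (otherwise a subset with `t` elements), each has at most `k` components: at most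
`k * t` such `c`. (`t = 0`: then no `S ⊆ P` with `#S = s`.) Finally `FF s n (k #Γ) ≤ (k + 1) FF s n #Γ` (`FF_mul`, `FF_mono`).
-/

set_option autoImplicit false

namespace Pool.Agent.H39.HG

open Finset MvPolynomial Pool.Agent.H22.PS
open scoped Classical

private theorem mainH_bez (P Q : MvPolynomial (Fin 2) ℝ) (hP : P ≠ 0) (hQ : Q ≠ 0)
    (h : IsRelPrime P Q) (T : Finset (ℝ × ℝ)) (hT : ∀ p ∈ T, p ∈ Zs P ∧ p ∈ Zs Q) :
    T.card ≤ P.totalDegree * Q.totalDegree := by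
  have hinj : Function.Injective fun p : ℝ × ℝ => (![p.1, p.2] : Fin 2 → ℝ) := by
    intro p q hpq
    have h0 := congrFun hpq 0
    have h1 := congrFun hpq 1
    exact Prod.ext h0 h1
  rw [← Finset.card_image_of_injective T hinj]
  refine Pool.Agent.H19.RD.bez_pts P Q hP hQ h _ ?_
  intro v hv
  obtain ⟨p, hp, rfl⟩ := Finset.mem_image.mp hv
  exact hT p hp

private theorem mainH_T (k : ℕ) (g g' : MvPolynomial (Fin 2) ℝ) (hg : Irreducible g)
    (hg' : Irreducible g') (hd : g.totalDegree ≤ k) (hd' : g'.totalDegree ≤ k)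
    (hne : Zs g ≠ Zs g') : ∃ T : Finset (ℝ × ℝ), T.card ≤ k * k ∧ Zs g ∩ Zs g' ⊆ T := by
  have hrel : IsRelPrime g g' := by
    rw [hg.isRelPrime_iff_not_dvd]
    intro hdv
    have has : Associated g g' := (hg.dvd_irreducible_iff_associated hg').1 hdv
    obtain ⟨u, hu⟩ := has
    apply hne
    ext x
    simp only [Zs, Set.mem_ofPred_eq]
    rw [← hu, map_mul]
    have hu2 : eval ![x.1, x.2] (u : MvPolynomial (Fin 2) ℝ) ≠ 0 := by
      have := u.isUnit.map (eval ![x.1, x.2])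
      exact this.ne_zero
    constructor
    · intro h1
      rw [h1, zero_mul]
    · intro h1
      exact (mul_eq_zero.1 h1).resolve_right hu2
  have hbd : ∀ T : Finset (ℝ × ℝ), (T : Set (ℝ × ℝ)) ⊆ Zs g ∩ Zs g' → T.card ≤ k * k := by
    intro T hT
    have h1 := mainH_bez g g' hg.ne_zero hg'.ne_zero hrel T
      (fun p hp => ⟨(hT hp).1, (hT hp).2⟩)
    exact h1.trans (Nat.mul_le_mul hd hd')
  have hfin : (Zs g ∩ Zs g').Finite := by
    by_contra hinf
    obtain ⟨T, hT, hTc⟩ := Set.Infinite.exists_subset_card_eq hinf (k * k + 1)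
    have := hbd T hT
    omega
  refine ⟨hfin.toFinset, hbd _ ?_, ?_⟩
  · intro p hp
    exact (Set.Finite.mem_toFinset hfin).1 hp
  · intro p hp
    exact (Set.Finite.mem_toFinset hfin).2 hp

theorem main_h (s t k h : ℕ) (hs : 4 ≤ s) : ∃ C : ℝ, 0 ≤ C ∧
    ∀ (P : Finset (ℝ × ℝ)) (Γ : Finset (Set (ℝ × ℝ))),
    (∀ p ∈ P, (0 ≤ p.1 ∧ p.1 ≤ 1) ∧ 0 ≤ p.2 ∧ p.2 ≤ 1) →
    Hom h ((P.card : ℝ) ^ (-(1 / 2) : ℝ)) P →
    (∀ γ ∈ Γ, ∃ f : MvPolynomial (Fin 2) ℝ, f ≠ 0 ∧ f.totalDegree ≤ k ∧ γ = Zs f) →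
    (¬ ∃ S ⊆ P, ∃ T ⊆ Γ, S.card = s ∧ T.card = t ∧ ∀ p ∈ S, ∀ γ ∈ T, p ∈ γ) →
    ((∑ γ ∈ Γ, (P.filter fun p => p ∈ γ).card : ℕ) : ℝ) ≤ C * FF s P.card Γ.card := by
  obtain ⟨C0, hC0, hirr⟩ := irr_bound s (k * t + 1) k (k * k) h hs
  refine ⟨k * s + t * (C0 * (k + 1)), by positivity, ?_⟩
  intro P Γ hbox hHom hΓ hK
  have hFF := FF_nonneg s P.card Γ.card
  rcases Finset.eq_empty_or_nonempty P with hP | hP
  · have h0 : (∑ γ ∈ Γ, (P.filter fun p => p ∈ γ).card : ℕ) = 0 := by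
      refine Finset.sum_eq_zero fun γ _ => ?_
      rw [hP, Finset.filter_empty, Finset.card_empty]
    rw [h0, Nat.cast_zero]
    positivity
  have hn : 1 ≤ P.card := Finset.card_pos.2 hP
  -- components
  have hcomp : ∀ γ : Set (ℝ × ℝ), ∃ S : Finset (Set (ℝ × ℝ)), S.card ≤ k ∧ (γ ∈ Γ →
      (∀ c ∈ S, ∃ g : MvPolynomial (Fin 2) ℝ, Irreducible g ∧ g.totalDegree ≤ k ∧ c = Zs g) ∧
      (∀ c ∈ S, c ⊆ γ) ∧ (∀ p ∈ γ, ∃ c ∈ S, p ∈ c)) := by
    intro γ
    by_cases h : γ ∈ Γ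
    · obtain ⟨f, hf, hfk, rfl⟩ := hΓ γ h
      obtain ⟨S, h1, h2, h3, h4⟩ := comps k f hf hfk
      exact ⟨S, h1, fun _ => ⟨h2, h3, h4⟩⟩
    · exact ⟨∅, by simp, fun h' => absurd h' h⟩
  choose cp hcard hcp using hcomp
  let N : Set (ℝ × ℝ) → ℕ := fun c => (P.filter fun p => p ∈ c).card
  have hcov : ∀ γ ∈ Γ, N γ ≤ ∑ c ∈ cp γ, N c := by
    intro γ hγ
    have h1 : P.filter (fun p => p ∈ γ) ⊆ (cp γ).biUnion fun c => P.filter fun p => p ∈ c := by
      intro p hp
      rw [mem_filter] at hp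
      obtain ⟨c, hc, hpc⟩ := (hcp γ hγ).2.2 p hp.2
      rw [mem_biUnion]
      exact ⟨c, hc, by rw [mem_filter]; exact ⟨hp.1, hpc⟩⟩
    exact (card_le_card h1).trans card_biUnion_le
  have hone : ∀ γ ∈ Γ, N γ ≤ k * s +
      ∑ c ∈ (cp γ).filter (fun c => s ≤ (P.filter fun p => p ∈ c).card),
        (P.filter fun p => p ∈ c).card := by
    intro γ hγ
    have h1 : ∑ c ∈ cp γ, N c = ∑ c ∈ (cp γ).filter (fun c => ¬ s ≤ N c), N c +
          ∑ c ∈ (cp γ).filter (fun c => s ≤ N c), N c := by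
      rw [add_comm]
      exact (sum_filter_add_sum_filter_not (cp γ) (fun c => s ≤ N c) _).symm
    have h4 : ∑ c ∈ (cp γ).filter (fun c => ¬ s ≤ N c), N c ≤ k * s := by
      calc ∑ c ∈ (cp γ).filter (fun c => ¬ s ≤ N c), N c
          ≤ ∑ c ∈ (cp γ).filter (fun c => ¬ s ≤ N c), s := by
            apply sum_le_sum
            intro c hc
            rw [mem_filter] at hc
            omega
        _ = ((cp γ).filter (fun c => ¬ s ≤ N c)).card * s := by
            rw [sum_const, smul_eq_mul]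
        _ ≤ k * s := by
            apply Nat.mul_le_mul_right
            exact le_trans (card_le_card (filter_subset _ _)) (hcard γ)
    have h5 := hcov γ hγ
    rw [h1] at h5
    exact h5.trans (Nat.add_le_add_right h4 _)
  -- rich components
  obtain ⟨Ls, hLs⟩ : ∃ Ls : Finset (Set (ℝ × ℝ)), Ls = (Γ.biUnion cp).filter fun c => s ≤ N c :=
    ⟨_, rfl⟩
  have hmem : ∀ c, c ∈ Ls ↔ (∃ γ ∈ Γ, c ∈ cp γ) ∧ s ≤ (P.filter fun p => p ∈ c).card := by
    intro c
    rw [hLs, mem_filter, mem_biUnion]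
  have hmult := line_mult s t P Γ hK cp (fun γ hγ c hc => (hcp γ hγ).2.1 c hc) Ls hmem
  have hg : ∀ c : Ls, ∃ g : MvPolynomial (Fin 2) ℝ,
      Irreducible g ∧ g.totalDegree ≤ k ∧ (c : Set (ℝ × ℝ)) = Zs g := by
    rintro ⟨c, hc⟩
    obtain ⟨⟨γ, hγ, hcγ⟩, -⟩ := (hmem c).1 hc
    exact (hcp γ hγ).1 c hcγ
  choose g hg1 hg2 hg3 using hg
  have hmain := hirr P Ls g hbox hHom (fun i => ⟨hg1 i, hg2 i⟩) (by
    intro i j hij
    refine mainH_T k (g i) (g j) (hg1 i) (hg1 j) (hg2 i) (hg2 j) ?_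
    intro h1
    apply hij
    apply Subtype.ext
    rw [hg3 i, hg3 j, h1]) (by
    intro S hS hSc
    have h1 : (Γ.filter fun γ => ∀ p ∈ S, p ∈ γ).card ≤ t := by
      by_contra hcon
      push Not at hcon
      obtain ⟨T, hT, hTc⟩ := Finset.exists_subset_card_eq hcon.le
      refine hK ⟨S, hS, T, hT.trans (Finset.filter_subset _ _), hSc, hTc, fun p hp γ hγ => ?_⟩
      exact (Finset.mem_filter.1 (hT hγ)).2 p hp
    have h2 : (univ.filter fun i : Ls => ∀ p ∈ S, p ∈ Zs (g i)).card ≤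
        ((Γ.filter fun γ => ∀ p ∈ S, p ∈ γ).biUnion cp).card := by
      refine Finset.card_le_card_of_injOn (fun i => (i : Set (ℝ × ℝ))) ?_ ?_
      · intro i hi
        have hi' := (Finset.mem_filter.1 hi).2
        obtain ⟨⟨γ, hγ, hcγ⟩, -⟩ := (hmem i.1).1 i.2
        refine Finset.mem_coe.2 (Finset.mem_biUnion.2 ⟨γ, Finset.mem_filter.2 ⟨hγ, ?_⟩, hcγ⟩)
        intro p hp
        refine (hcp γ hγ).2.1 _ hcγ ?_
        rw [hg3 i]
        exact hi' p hp
      · intro i _ j _ hij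
        exact Subtype.ext hij
    have h3 : ((Γ.filter fun γ => ∀ p ∈ S, p ∈ γ).biUnion cp).card ≤
        (Γ.filter fun γ => ∀ p ∈ S, p ∈ γ).card * k :=
      card_biUnion_le_card_mul _ _ _ fun γ _ => hcard γ
    have h4 : (Γ.filter fun γ => ∀ p ∈ S, p ∈ γ).card * k ≤ t * k := Nat.mul_le_mul_right _ h1
    have h5 : t * k = k * t := Nat.mul_comm _ _
    omega)
  have hLc : Ls.card ≤ (k + 1) * Γ.card := by
    have h1 : Ls.card ≤ Γ.card * k := by
      rw [hLs]
      refine (card_le_card (filter_subset _ _)).trans ?_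
      apply card_biUnion_le_card_mul
      intro γ _
      exact hcard γ
    have h2 : Γ.card * k ≤ (k + 1) * Γ.card := by
      rw [Nat.mul_comm]
      exact Nat.mul_le_mul_right _ (Nat.le_succ k)
    exact h1.trans h2
  have hsum : ((∑ c ∈ Ls, (P.filter fun p => p ∈ c).card : ℕ) : ℝ) ≤
      C0 * ((k + 1) * FF s P.card Γ.card) := by
    have h1 : ((∑ c ∈ Ls, (P.filter fun p => p ∈ c).card : ℕ) : ℝ)
        = ∑ i : Ls, ((P.filter fun p => p ∈ Zs (g i)).card : ℝ) := by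
      rw [Nat.cast_sum, ← Finset.sum_coe_sort Ls]
      refine Finset.sum_congr rfl fun i _ => ?_
      rw [← hg3 i]
    rw [h1]
    refine hmain.trans (mul_le_mul_of_nonneg_left ?_ hC0)
    rw [Fintype.card_coe]
    refine (FF_mono s P.card _ _ hLc).trans ?_
    have h2 := FF_mul s P.card Γ.card (k + 1) (by omega)
    push_cast at h2
    exact h2
  have htot : (∑ γ ∈ Γ, (P.filter fun p => p ∈ γ).card : ℕ) ≤
      Γ.card * (k * s) + t * ∑ c ∈ Ls, (P.filter fun p => p ∈ c).card := by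
    calc ∑ γ ∈ Γ, (P.filter fun p => p ∈ γ).card
        ≤ ∑ γ ∈ Γ, (k * s +
            ∑ c ∈ (cp γ).filter (fun c => s ≤ (P.filter fun p => p ∈ c).card),
              (P.filter fun p => p ∈ c).card) := sum_le_sum hone
      _ = Γ.card * (k * s) + ∑ γ ∈ Γ,
            ∑ c ∈ (cp γ).filter (fun c => s ≤ (P.filter fun p => p ∈ c).card),
              (P.filter fun p => p ∈ c).card := by
          rw [sum_add_distrib, sum_const, smul_eq_mul]
      _ ≤ _ := Nat.add_le_add_left hmult _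
  have htot' : ((∑ γ ∈ Γ, (P.filter fun p => p ∈ γ).card : ℕ) : ℝ) ≤
      Γ.card * (k * s) + t * ((∑ c ∈ Ls, (P.filter fun p => p ∈ c).card : ℕ) : ℝ) := by
    exact_mod_cast htot
  have hG := FF_ge s P.card Γ.card hn
  have e1 : (Γ.card : ℝ) * (k * s) ≤ k * s * FF s P.card Γ.card := by
    rw [mul_comm]
    exact mul_le_mul_of_nonneg_left hG (by positivity)
  have e2 : (t : ℝ) * ((∑ c ∈ Ls, (P.filter fun p => p ∈ c).card : ℕ) : ℝ) ≤
      t * (C0 * ((k + 1) * FF s P.card Γ.card)) :=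
    mul_le_mul_of_nonneg_left hsum (Nat.cast_nonneg _)
  calc ((∑ γ ∈ Γ, (P.filter fun p => p ∈ γ).card : ℕ) : ℝ)
      ≤ k * s * FF s P.card Γ.card + t * (C0 * ((k + 1) * FF s P.card Γ.card)) := by linarith
    _ = (k * s + t * (C0 * (k + 1))) * FF s P.card Γ.card := by ring

end Pool.Agent.H39.HG
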