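import Pool.Agent.H39.HG.Defs

/-!
# The weight of the slopes

`om m = (max 0 (9 - m ^ 2)) ^ 2`. `om_diff2`: `om` has the derivative `g m = - 4 m max 0 (9 - m ^ 2)` everywhere (the function
`u ↦ (max 0 u) ^ 2` has the derivative `2 max 0 u`), and `g` is Lipschitz with constant `72` (on `|m| ≤ 3` its derivative is
`-36 + 12 m ^ 2`, of absolute value at most `72`, and `g = 0` for `|m| ≥ 3`); so for `η ≥ 0` the function
`F t = om (m + t) + om (m - t) - 2 om m` has `F 0 = 0` and `|F' t| = |g (m + t) - g (m - t)| ≤ 144 t`, `|F η| ≤ 72 η ^ 2`. Even in `η`.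
-/

set_option autoImplicit false

namespace Pool.Agent.H39.HG

open Finset
open scoped Classical

theorem om_nonneg (m : ℝ) : 0 ≤ om m := by
  unfold om
  positivity

theorem om_le (m : ℝ) : om m ≤ 81 := by
  unfold om
  have h1 : max 0 (9 - m ^ 2) ≤ 9 := max_le (by norm_num) (by nlinarith [sq_nonneg m])
  have h2 : 0 ≤ max 0 (9 - m ^ 2) := le_max_left _ _
  nlinarith

theorem om_zero (m : ℝ) (hm : 3 ≤ |m|) : om m = 0 := by
  have h1 : 9 - m ^ 2 ≤ 0 := by
    have h2 : 3 * 3 ≤ |m| * |m| := mul_self_le_mul_self (by norm_num) hm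
    rw [abs_mul_abs_self] at h2
    nlinarith
  unfold om
  rw [max_eq_left h1]
  norm_num

theorem om_big (m : ℝ) (hm : |m| ≤ 2) : 1 ≤ om m := by
  have h2 : |m| * |m| ≤ 2 * 2 := mul_self_le_mul_self (abs_nonneg m) hm
  rw [abs_mul_abs_self] at h2
  have h1 : 1 ≤ max 0 (9 - m ^ 2) := le_trans (by nlinarith) (le_max_right _ _)
  unfold om
  nlinarith

theorem om_cont : Continuous om := by
  unfold om
  fun_prop

private lemma phi_sq (u v : ℝ) :
    |(max 0 v) ^ 2 - (max 0 u) ^ 2 - 2 * max 0 u * (v - u)| ≤ (v - u) ^ 2 := by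
  rcases le_total 0 u with hu | hu <;> rcases le_total 0 v with hv | hv
  · rw [max_eq_right hu, max_eq_right hv, abs_le]
    constructor <;> nlinarith [sq_nonneg (v - u)]
  · rw [max_eq_right hu, max_eq_left hv, abs_le]
    have h1 : 0 ≤ u * (-v) := mul_nonneg hu (by linarith)
    constructor <;> nlinarith [sq_nonneg u, sq_nonneg v]
  · rw [max_eq_left hu, max_eq_right hv, abs_le]
    have h1 : 0 ≤ v * (-u) := mul_nonneg hv (by linarith)
    constructor <;> nlinarith [sq_nonneg u, sq_nonneg v]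
  · rw [max_eq_left hu, max_eq_left hv, abs_le]
    constructor <;> nlinarith [sq_nonneg (v - u)]

theorem om_diff2 (m η : ℝ) : |om (m + η) + om (m - η) - 2 * om m| ≤ 400 * η ^ 2 := by
  rcases le_total 1 |η| with hη | hη
  · have e2 : 1 ≤ η ^ 2 := by
      have h2 : 1 * 1 ≤ |η| * |η| := mul_self_le_mul_self (by norm_num) hη
      rw [abs_mul_abs_self] at h2
      nlinarith
    have a1 := om_nonneg (m + η)
    have a2 := om_le (m + η)
    have b1 := om_nonneg (m - η)
    have b2 := om_le (m - η)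
    have c1 := om_nonneg m
    have c2 := om_le m
    rw [abs_le]
    constructor <;> linarith
  · rcases le_total 4 |m| with hm | hm
    · have h1 : om (m + η) = 0 := om_zero _ (by
        have h := abs_sub_abs_le_abs_sub m (-η)
        rw [sub_neg_eq_add, abs_neg] at h
        linarith)
      have h2 : om (m - η) = 0 := om_zero _ (by
        have h := abs_sub_abs_le_abs_sub m η
        linarith)
      have h3 : om m = 0 := om_zero _ (by linarith)
      rw [h1, h2, h3]
      norm_num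
      positivity
    · have hm2 : m ^ 2 ≤ 16 := by
        have h2 : |m| * |m| ≤ 4 * 4 := mul_self_le_mul_self (abs_nonneg m) hm
        rw [abs_mul_abs_self] at h2
        nlinarith
      have hη2 : η ^ 2 ≤ 1 := by
        have h2 : |η| * |η| ≤ 1 * 1 := mul_self_le_mul_self (abs_nonneg η) hη
        rw [abs_mul_abs_self] at h2
        nlinarith
      have h1 := phi_sq (9 - m ^ 2) (9 - (m + η) ^ 2)
      have h2 := phi_sq (9 - m ^ 2) (9 - (m - η) ^ 2)
      have h3 : max 0 (9 - m ^ 2) ≤ 9 := max_le (by norm_num) (by nlinarith [sq_nonneg m])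
      have h4 : 0 ≤ max 0 (9 - m ^ 2) := le_max_left _ _
      have h5 : (9 - (m + η) ^ 2 - (9 - m ^ 2)) ^ 2 + (9 - (m - η) ^ 2 - (9 - m ^ 2)) ^ 2 ≤ 130 * η ^ 2 := by
        have e1 : (9 - (m + η) ^ 2 - (9 - m ^ 2)) ^ 2 + (9 - (m - η) ^ 2 - (9 - m ^ 2)) ^ 2 =
            (8 * m ^ 2 + 2 * η ^ 2) * η ^ 2 := by ring
        rw [e1]
        exact mul_le_mul_of_nonneg_right (by linarith) (sq_nonneg η)
      have h6 : max 0 (9 - m ^ 2) * η ^ 2 ≤ 9 * η ^ 2 := mul_le_mul_of_nonneg_right h3 (sq_nonneg η)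
      have h7 : 0 ≤ max 0 (9 - m ^ 2) * η ^ 2 := mul_nonneg h4 (sq_nonneg η)
      have e0 : om (m + η) + om (m - η) - 2 * om m =
          ((max 0 (9 - (m + η) ^ 2)) ^ 2 - (max 0 (9 - m ^ 2)) ^ 2 -
            2 * max 0 (9 - m ^ 2) * (9 - (m + η) ^ 2 - (9 - m ^ 2))) +
          ((max 0 (9 - (m - η) ^ 2)) ^ 2 - (max 0 (9 - m ^ 2)) ^ 2 -
            2 * max 0 (9 - m ^ 2) * (9 - (m - η) ^ 2 - (9 - m ^ 2))) -
          4 * (max 0 (9 - m ^ 2) * η ^ 2) := by
        unfold om
        ring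
      rw [abs_le] at h1 h2
      rw [e0, abs_le]
      constructor <;> nlinarith [h1.1, h1.2, h2.1, h2.2, sq_nonneg η]

end Pool.Agent.H39.HG
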