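import Pool.Agent.H39.HG.Defs
import Pool.Agent.H39.HG.Bad
import Pool.Agent.H39.HG.Crs

/-!
# One curve: poor pieces and the crossing scale

`n = #P`, `A = P.filter (· ∈ U)`, `J` from `top_level n` (`2 ^ J ≤ n ^ (1/3) < 2 ^ (J+1)`), `d0 = n ^ (-1/3)`, `d_j = 2 ^ j d0 ≤ 1` for `j ≤ J`.
`f p = ⌊σ p / d0⌋₊ ≤ S n ^ (1/3) < M 2 ^ J` with `M = ⌈2 S⌉₊ + 1 ≤ 2 S + 2`. `Bd` = the points `p ∈ A` whose piece
`{q ∈ A : f q / 2 ^ j = f p / 2 ^ j}` has less than `K 2 ^ j` points for some `j ≤ J`; by `bad_card` at most `M K 2 ^ J ≤ M K n ^ (1/3)`.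
Two points of a piece of level `j` have `|σ q - σ p| < d_j` (`Nat.floor` and `Nat.div`: `f q, f p` are in `[v 2 ^ j, (v + 1) 2 ^ j)`), so by `Lab`
the piece is contained in `tub P (2 d_j) (3 d_j ^ 2) p.1 p.2 (m p)`. For `p ∈ A`, `p ∉ Bd` let
`t j = #(tub P (2 d_j) (3 d_j ^ 2) p.1 p.2 (m p))`: `t j ≥ K 2 ^ j` for all `j ≤ J`, `t 0 ≥ K ≥ C0`,
`t J ≤ n < (2 ^ (J+1)) ^ 3 = 8 * 8 ^ J ≤ C0 8 ^ J`; `crossing` gives `j < J` with `C0 8 ^ j ≤ t j`, `t (j+1) < C0 8 ^ (j+1)`, and `2 d_(j+1) = 4 d_j`,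
`3 d_(j+1) ^ 2 = 12 d_j ^ 2`; also `K 2 ^ (j+1) ≤ t (j+1) < C0 8 ^ (j+1)`, so `K < 4 C0 4 ^ j`. `j < J ≤ n`.
-/

set_option autoImplicit false

namespace Pool.Agent.H39.HG

open Finset
open scoped Classical

private theorem OneC_close (d0 : ℝ) (hd0 : 0 < d0) (s t : ℝ) (hs : 0 ≤ s) (ht : 0 ≤ t) (j : ℕ)
    (h : ⌊s / d0⌋₊ / 2 ^ j = ⌊t / d0⌋₊ / 2 ^ j) : |s - t| < 2 ^ j * d0 := by
  have hs0 : 0 ≤ s / d0 := by positivity
  have ht0 : 0 ≤ t / d0 := by positivity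
  set a := ⌊s / d0⌋₊ with ha
  set b := ⌊t / d0⌋₊ with hb
  set v := b / 2 ^ j with hv
  have hpos : 0 < 2 ^ j := Nat.two_pow_pos j
  have a1 : v * 2 ^ j ≤ a := by rw [← h]; exact Nat.div_mul_le_self a (2 ^ j)
  have a2 : a < (v + 1) * 2 ^ j := by
    rw [← h]; exact (Nat.div_lt_iff_lt_mul hpos).mp (Nat.lt_succ_self _)
  have b1 : v * 2 ^ j ≤ b := Nat.div_mul_le_self b (2 ^ j)
  have b2 : b < (v + 1) * 2 ^ j := (Nat.div_lt_iff_lt_mul hpos).mp (Nat.lt_succ_self _)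
  have a1' : (v : ℝ) * 2 ^ j ≤ a := by exact_mod_cast a1
  have a2' : (a : ℝ) + 1 ≤ (v + 1) * 2 ^ j := by exact_mod_cast a2
  have b1' : (v : ℝ) * 2 ^ j ≤ b := by exact_mod_cast b1
  have b2' : (b : ℝ) + 1 ≤ (v + 1) * 2 ^ j := by exact_mod_cast b2
  have a3 : (a : ℝ) ≤ s / d0 := Nat.floor_le hs0
  have a4 : s / d0 < a + 1 := Nat.lt_floor_add_one _
  have b3 : (b : ℝ) ≤ t / d0 := Nat.floor_le ht0
  have b4 : t / d0 < b + 1 := Nat.lt_floor_add_one _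
  have c1 : s / d0 - t / d0 < 2 ^ j := by nlinarith
  have c2 : t / d0 - s / d0 < 2 ^ j := by nlinarith
  have e1 : s - t = (s / d0 - t / d0) * d0 := by field_simp
  rw [abs_lt]
  constructor
  · rw [e1]; nlinarith
  · rw [e1]; nlinarith

theorem one_curve (S C0 K : ℝ) (hS : 0 ≤ S) (hC0 : 8 ≤ C0) (hK : C0 ≤ K) (P : Finset (ℝ × ℝ))
    (hP : 1 ≤ P.card) (U : Set (ℝ × ℝ)) (m σ : ℝ × ℝ → ℝ) (hL : Lab S U m σ) :
    ∃ Bd : Finset (ℝ × ℝ), (Bd.card : ℝ) ≤ (2 * S + 2) * (K * (P.card : ℝ) ^ (1 / 3 : ℝ)) ∧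
      ∀ p ∈ P.filter (fun p => p ∈ U), p ∉ Bd → ∃ j < P.card, ∃ d : ℝ,
        d = 2 ^ j * (P.card : ℝ) ^ (-(1 / 3) : ℝ) ∧ d ≤ 1 ∧ K < 4 * C0 * 4 ^ j ∧
        C0 * 8 ^ j ≤ ((tub P (2 * d) (3 * d ^ 2) p.1 p.2 (m p)).card : ℝ) ∧
        ((tub P (4 * d) (12 * d ^ 2) p.1 p.2 (m p)).card : ℝ) ≤ 8 * (C0 * 8 ^ j) ∧
        K * 2 ^ j ≤ ((P.filter (fun q => q ∈ U) ∩
          tub P (2 * d) (3 * d ^ 2) p.1 p.2 (m p)).card : ℝ) := by
  obtain ⟨J, hJn, hJ1, hJ2⟩ := top_level P.card hP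
  have hn : (0 : ℝ) < P.card := by exact_mod_cast hP
  set r : ℝ := (P.card : ℝ) ^ (1 / 3 : ℝ) with hr
  have hr0 : 0 < r := Real.rpow_pos_of_pos hn _
  have hd0 : (P.card : ℝ) ^ (-(1 / 3) : ℝ) = r⁻¹ := by rw [Real.rpow_neg hn.le]
  have hr3 : (P.card : ℝ) = r ^ 3 := by
    rw [hr, ← Real.rpow_natCast, ← Real.rpow_mul hn.le]; norm_num
  rw [hd0]
  set d0 : ℝ := r⁻¹ with hd0'
  have hd0p : 0 < d0 := inv_pos.mpr hr0
  set A := P.filter (fun p => p ∈ U) with hA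
  let f : ℝ × ℝ → ℕ := fun p => ⌊σ p / d0⌋₊
  set M : ℕ := ⌈2 * S⌉₊ + 1 with hM
  have hMr : (M : ℝ) = (⌈2 * S⌉₊ : ℝ) + 1 := by rw [hM, Nat.cast_add, Nat.cast_one]
  have hK0 : 0 ≤ K := by linarith
  have hAU : ∀ p ∈ A, p ∈ U := fun p hp => (Finset.mem_filter.mp hp).2
  have hf : ∀ x ∈ A, f x < M * 2 ^ J := by
    intro x hx
    obtain ⟨⟨-, h0, h1⟩, -⟩ := hL x (hAU x hx)
    have h2 : 0 ≤ σ x / d0 := div_nonneg h0 hd0p.le
    have h3 : (f x : ℝ) ≤ σ x / d0 := Nat.floor_le h2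
    have h4 : σ x / d0 = σ x * r := by rw [hd0', div_inv_eq_mul]
    have h5 : σ x * r ≤ S * (2 ^ (J + 1)) :=
      mul_le_mul h1 hJ2.le hr0.le hS
    have h6 : (2 * S : ℝ) ≤ (⌈2 * S⌉₊ : ℝ) := Nat.le_ceil _
    have h7 : (0 : ℝ) < 2 ^ J := by positivity
    have h8 : (f x : ℝ) < (M : ℝ) * 2 ^ J := by
      rw [hMr]
      rw [pow_succ] at h5
      nlinarith
    exact_mod_cast h8
  have hbad := bad_card A f J M hf K hK0
  set Bd := A.filter fun x => ∃ j ≤ J,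
      ((A.filter fun y => f y / 2 ^ j = f x / 2 ^ j).card : ℝ) < K * 2 ^ j with hBd
  refine ⟨Bd, ?_, ?_⟩
  · refine hbad.trans ?_
    have h1 : (M : ℝ) ≤ 2 * S + 2 := by
      rw [hMr]
      have := Nat.ceil_lt_add_one (by positivity : (0 : ℝ) ≤ 2 * S)
      linarith
    have h2 : K * 2 ^ J ≤ K * r := mul_le_mul_of_nonneg_left hJ1 hK0
    have h3 : 0 ≤ K * 2 ^ J := by positivity
    exact mul_le_mul h1 h2 h3 (by positivity)
  · intro p hp hpB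
    have hpU := hAU p hp
    obtain ⟨⟨hm1, hσ0, hσ1⟩, hLp⟩ := hL p hpU
    have hrich : ∀ j ≤ J, K * 2 ^ j ≤ ((A.filter fun y => f y / 2 ^ j = f p / 2 ^ j).card : ℝ) := by
      intro j hj
      by_contra hc
      push Not at hc
      exact hpB (Finset.mem_filter.mpr ⟨hp, j, hj, hc⟩)
    have hsub : ∀ j : ℕ, (A.filter fun y => f y / 2 ^ j = f p / 2 ^ j) ⊆
        A ∩ tub P (2 * (2 ^ j * d0)) (3 * (2 ^ j * d0) ^ 2) p.1 p.2 (m p) := by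
      intro j q hq
      rw [Finset.mem_filter] at hq
      obtain ⟨hqA, hqf⟩ := hq
      obtain ⟨⟨-, hσq0, hσq1⟩, -⟩ := hL q (hAU q hqA)
      have hcl : |σ q - σ p| < 2 ^ j * d0 := OneC_close d0 hd0p (σ q) (σ p) hσq0 hσ0 j hqf
      obtain ⟨k1, -, k3⟩ := hLp q (hAU q hqA)
      have hcl' : |σ p - σ q| < 2 ^ j * d0 := by rw [abs_sub_comm]; exact hcl
      have hd : 0 < 2 ^ j * d0 := mul_pos (pow_pos two_pos j) hd0p
      rw [Finset.mem_inter]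
      refine ⟨hqA, ?_⟩
      unfold tub
      rw [Finset.mem_filter]
      refine ⟨(Finset.mem_filter.mp hqA).1, ?_, ?_⟩
      · rw [abs_sub_comm]; linarith
      · have h5 : (σ p - σ q) ^ 2 ≤ (2 ^ j * d0) ^ 2 := by
          rw [← sq_abs (σ p - σ q)]
          exact pow_le_pow_left₀ (abs_nonneg _) hcl'.le 2
        nlinarith [sq_nonneg (2 ^ j * d0)]
    have hsub2 : ∀ j : ℕ, A ∩ tub P (2 * (2 ^ j * d0)) (3 * (2 ^ j * d0) ^ 2) p.1 p.2 (m p) ⊆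
        tub P (2 * (2 ^ j * d0)) (3 * (2 ^ j * d0) ^ 2) p.1 p.2 (m p) := fun j =>
      Finset.inter_subset_right
    let t : ℕ → ℝ := fun j =>
      ((tub P (2 * (2 ^ j * d0)) (3 * (2 ^ j * d0) ^ 2) p.1 p.2 (m p)).card : ℝ)
    have ht : ∀ j ≤ J, K * 2 ^ j ≤ t j := by
      intro j hj
      refine (hrich j hj).trans ?_
      exact Nat.cast_le.mpr (Finset.card_le_card ((hsub j).trans (hsub2 j)))
    have ht0 : C0 ≤ t 0 := by
      have := ht 0 (Nat.zero_le _)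
      simp only [pow_zero, mul_one] at this
      linarith
    have htJ : t J < C0 * 8 ^ J := by
      have h1 : t J ≤ (P.card : ℝ) := by
        exact Nat.cast_le.mpr (Finset.card_le_card (Finset.filter_subset _ _))
      have h2 : r ^ 3 < (2 ^ (J + 1)) ^ 3 := pow_lt_pow_left₀ hJ2 hr0.le (by norm_num)
      have h3 : ((2 : ℝ) ^ (J + 1)) ^ 3 = 8 * 8 ^ J := by
        rw [← pow_mul, show (8 : ℝ) = 2 ^ 3 by norm_num, ← pow_mul, ← pow_add]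
        congr 1; ring
      have h4 : (0 : ℝ) < 8 ^ J := by positivity
      rw [hr3] at h1
      nlinarith
    obtain ⟨j, hjJ, hj1, hj2⟩ := crossing t C0 J ht0 htJ
    refine ⟨j, by omega, 2 ^ j * d0, rfl, ?_, ?_, hj1, ?_, ?_⟩
    · have h1 : (2 : ℝ) ^ j ≤ 2 ^ J := pow_le_pow_right₀ (by norm_num) hjJ.le
      rw [hd0', ← div_eq_mul_inv, div_le_one hr0]
      linarith
    · have h1 := ht (j + 1) hjJ
      have h2 : K * 2 ^ (j + 1) < C0 * 8 ^ (j + 1) := lt_of_le_of_lt h1 hj2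
      have h3 : (8 : ℝ) ^ (j + 1) = 4 * 4 ^ j * 2 ^ (j + 1) := by
        rw [show (8 : ℝ) = 4 * 2 by norm_num, mul_pow]; ring
      have h4 : (0 : ℝ) < 2 ^ (j + 1) := by positivity
      rw [h3] at h2
      have h5 : K * 2 ^ (j + 1) < (4 * C0 * 4 ^ j) * 2 ^ (j + 1) := by linarith
      exact lt_of_mul_lt_mul_right h5 h4.le
    · have h1 : t (j + 1) = ((tub P (4 * (2 ^ j * d0)) (12 * (2 ^ j * d0) ^ 2) p.1 p.2
          (m p)).card : ℝ) := by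
        have e1 : 2 * ((2 : ℝ) ^ (j + 1) * d0) = 4 * (2 ^ j * d0) := by ring
        have e2 : 3 * ((2 : ℝ) ^ (j + 1) * d0) ^ 2 = 12 * (2 ^ j * d0) ^ 2 := by ring
        show ((tub P (2 * ((2 : ℝ) ^ (j + 1) * d0)) (3 * ((2 : ℝ) ^ (j + 1) * d0) ^ 2) p.1 p.2
          (m p)).card : ℝ) = _
        rw [e1, e2]
      rw [← h1]
      have h2 : C0 * 8 ^ (j + 1) = 8 * (C0 * 8 ^ j) := by ring
      rw [← h2]
      exact hj2.le
    · refine (hrich j hjJ.le).trans ?_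
      exact Nat.cast_le.mpr (Finset.card_le_card (hsub j))

end Pool.Agent.H39.HG
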