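import Pool.Agent.H39.HG.OmB
import Pool.Agent.H39.HG.PsB

/-!
# The integral of a pair term

`z = (x, y, m)`. The integrand is bounded, measurable and has compact support: `|x - p.1| ≤ a`, `|m| ≤ 3`, and
`|p.2 - y - m (p.1 - x)| ≤ 2 w` bound `y`; so it is integrable (first factor for the support; `Integrable` of a bounded measurable function on a
set of finite measure, for example `Integrable.mono'` with the indicator of a box). Fubini
(`integral_prod` twice, `volume` on the product; order `x`, then `m`, then `y`, by `integral_prod_symm` or `integral_integral_swap`): for fixed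
`x`, `m` put `v = p.2 - y - m (p.1 - x)` (substitution `y ↦ v`, `integral_sub_left_eq_self`, `integral_neg_eq_self`); then
`q.2 - y - m (q.1 - x) = v - u` with `u = (p.2 - q.2) - m (p.1 - q.1)`, so the inner integral is `om m * Ps w u` (for every `x` with both
`|p.1 - x| ≤ a` and `|q.1 - x| ≤ a`), the integral over `m` is `GG w (p.1 - q.1) (p.2 - q.2)`, and the measure of
`{x | |p.1 - x| ≤ a ∧ |q.1 - x| ≤ a}` is at most `2 a`.
-/

set_option autoImplicit false

namespace Pool.Agent.H39.HG

open Finset MeasureTheory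
open scoped Classical

/-- the term of the point `p` -/
noncomputable def tm (a w : ℝ) (p : ℝ × ℝ) (z : ℝ × ℝ × ℝ) : ℝ :=
  (if |p.1 - z.1| ≤ a then 1 else 0) * ps w (p.2 - z.2.1 - z.2.2 * (p.1 - z.1))

private theorem PairI_tm_meas (a w : ℝ) (p : ℝ × ℝ) : Measurable (tm a w p) := by
  unfold tm
  apply Measurable.mul
  · apply Measurable.ite
    · exact measurableSet_le
        (by fun_prop : Continuous fun z : ℝ × ℝ × ℝ => |p.1 - z.1|).measurable measurable_const
    · exact measurable_const
    · exact measurable_const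
  · exact (ps_meas w).comp (by fun_prop : Continuous fun z : ℝ × ℝ × ℝ =>
      p.2 - z.2.1 - z.2.2 * (p.1 - z.1)).measurable

private theorem PairI_tm_abs (a w : ℝ) (p : ℝ × ℝ) (z : ℝ × ℝ × ℝ) : |tm a w p z| ≤ 1 := by
  unfold tm
  split_ifs
  · rw [one_mul]
    exact ps_abs _ _
  · rw [zero_mul, abs_zero]
    exact zero_le_one

private theorem PairI_tm_supp (a w : ℝ) (hw : 0 < w) (p : ℝ × ℝ) (z : ℝ × ℝ × ℝ)
    (h : tm a w p z ≠ 0) :
    |p.1 - z.1| ≤ a ∧ |p.2 - z.2.1 - z.2.2 * (p.1 - z.1)| ≤ 2 * w := by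
  unfold tm at h
  constructor
  · by_contra hc
    apply h
    rw [if_neg hc, zero_mul]
  · by_contra hc
    apply h
    rw [ps_zero w _ hw.le (not_le.mp hc), mul_zero]

private theorem PairI_int (a w : ℝ) (ha : 0 < a) (hw : 0 < w) (p q : ℝ × ℝ) :
    Integrable (fun z : ℝ × ℝ × ℝ => om z.2.2 * (tm a w p z * tm a w q z)) := by
  set B : Set (ℝ × ℝ × ℝ) := Set.Icc (p.1 - a) (p.1 + a) ×ˢ
    (Set.Icc (p.2 - (2 * w + 3 * a)) (p.2 + (2 * w + 3 * a)) ×ˢ Set.Icc (-3) 3) with hB
  have hBc : IsCompact B := isCompact_Icc.prod (isCompact_Icc.prod isCompact_Icc)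
  have hBm : MeasurableSet B := hBc.measurableSet
  have hBi : Integrable (B.indicator (fun _ => (81 : ℝ))) := by
    rw [integrable_indicator_iff hBm]
    exact ContinuousOn.integrableOn_compact hBc continuousOn_const
  refine hBi.mono' ((om_cont.measurable.comp (measurable_snd.comp measurable_snd)).mul
    ((PairI_tm_meas a w p).mul (PairI_tm_meas a w q))).aestronglyMeasurable ?_
  filter_upwards with z
  by_cases hz : z ∈ B
  · rw [Set.indicator_of_mem hz, Real.norm_eq_abs, abs_mul, abs_mul]
    have h1 : |om z.2.2| ≤ 81 := by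
      rw [abs_of_nonneg (om_nonneg _)]
      exact om_le _
    have h2 := PairI_tm_abs a w p z
    have h3 := PairI_tm_abs a w q z
    calc |om z.2.2| * (|tm a w p z| * |tm a w q z|) ≤ 81 * (1 * 1) := by gcongr
      _ = 81 := by norm_num
  · rw [Set.indicator_of_notMem hz]
    have h0 : om z.2.2 * (tm a w p z * tm a w q z) = 0 := by
      by_contra hne
      apply hz
      have h1 : om z.2.2 ≠ 0 := left_ne_zero_of_mul hne
      have h2 : tm a w p z ≠ 0 := left_ne_zero_of_mul (right_ne_zero_of_mul hne)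
      have h3 : |z.2.2| < 3 := by
        by_contra h
        exact h1 (om_zero _ (not_lt.mp h))
      obtain ⟨h4, h5⟩ := PairI_tm_supp a w hw p z h2
      have h6 : |z.2.2 * (p.1 - z.1)| ≤ 3 * a := by
        rw [abs_mul]
        exact mul_le_mul h3.le h4 (abs_nonneg _) (by norm_num)
      have h3' := abs_lt.mp h3
      have h4' := abs_le.mp h4
      have h5' := abs_le.mp h5
      have h6' := abs_le.mp h6
      rw [hB, Set.mem_prod, Set.mem_prod, Set.mem_Icc, Set.mem_Icc, Set.mem_Icc]
      refine ⟨⟨?_, ?_⟩, ⟨?_, ?_⟩, ?_, ?_⟩ <;> linarith [h3'.1, h3'.2, h4'.1, h4'.2, h5'.1, h5'.2, h6'.1, h6'.2]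
    rw [h0, norm_zero]

private theorem PairI_inner (w : ℝ) (p q : ℝ × ℝ) (x m : ℝ) :
    ∫ y, ps w (p.2 - y - m * (p.1 - x)) * ps w (q.2 - y - m * (q.1 - x)) =
      Ps w ((p.2 - q.2) - m * (p.1 - q.1)) := by
  unfold Ps
  rw [← integral_sub_left_eq_self (fun v => ps w v * ps w (v - (p.2 - q.2 - m * (p.1 - q.1))))
    volume (p.2 - m * (p.1 - x))]
  apply integral_congr_ae
  filter_upwards with y
  have e1 : p.2 - y - m * (p.1 - x) = p.2 - m * (p.1 - x) - y := by ring
  have e2 : q.2 - y - m * (q.1 - x) =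
      p.2 - m * (p.1 - x) - y - (p.2 - q.2 - m * (p.1 - q.1)) := by ring
  rw [e1, e2]

theorem pair_int (a w : ℝ) (ha : 0 < a) (hw : 0 < w) (p q : ℝ × ℝ) :
    Integrable (fun z : ℝ × ℝ × ℝ => om z.2.2 * (tm a w p z * tm a w q z)) ∧
    ∫ z : ℝ × ℝ × ℝ, om z.2.2 * (tm a w p z * tm a w q z) ≤
      2 * a * |GG w (p.1 - q.1) (p.2 - q.2)| := by
  have hI := PairI_int a w ha hw p q
  refine ⟨hI, ?_⟩
  set c := GG w (p.1 - q.1) (p.2 - q.2) with hc
  set S : Set ℝ := Set.Icc (p.1 - a) (p.1 + a) ∩ Set.Icc (q.1 - a) (q.1 + a) with hS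
  have hSm : MeasurableSet S := measurableSet_Icc.inter measurableSet_Icc
  have hI' : Integrable (fun z : ℝ × ℝ × ℝ => om z.2.2 * (tm a w p z * tm a w q z))
      ((volume : Measure ℝ).prod (volume : Measure (ℝ × ℝ))) := hI
  have h1 : ∫ z : ℝ × ℝ × ℝ, om z.2.2 * (tm a w p z * tm a w q z) =
      ∫ x, S.indicator (fun _ => c) x := by
    have h2 : ∫ z : ℝ × ℝ × ℝ, om z.2.2 * (tm a w p z * tm a w q z) =
        ∫ x : ℝ, ∫ v : ℝ × ℝ, om v.2 * (tm a w p (x, v) * tm a w q (x, v)) :=
      integral_prod _ hI'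
    rw [h2]
    apply integral_congr_ae
    filter_upwards [hI'.prod_right_ae] with x hx
    have hx' : Integrable (fun v : ℝ × ℝ => om v.2 * (tm a w p (x, v) * tm a w q (x, v)))
      ((volume : Measure ℝ).prod (volume : Measure ℝ)) := hx
    have h3 : ∫ v : ℝ × ℝ, om v.2 * (tm a w p (x, v) * tm a w q (x, v)) =
        ∫ m : ℝ, ∫ y : ℝ, om m * (tm a w p (x, (y, m)) * tm a w q (x, (y, m))) :=
      integral_prod_symm _ hx'
    rw [h3]
    by_cases hxS : x ∈ S
    · rw [Set.indicator_of_mem hxS, hc]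
      unfold GG
      apply integral_congr_ae
      filter_upwards with m
      rw [integral_const_mul]
      congr 1
      rw [← PairI_inner w p q x m]
      apply integral_congr_ae
      filter_upwards with y
      have hp : |p.1 - x| ≤ a := by
        have := hxS.1
        rw [Set.mem_Icc] at this
        rw [abs_le]
        constructor <;> linarith [this.1, this.2]
      have hq : |q.1 - x| ≤ a := by
        have := hxS.2
        rw [Set.mem_Icc] at this
        rw [abs_le]
        constructor <;> linarith [this.1, this.2]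
      unfold tm
      simp only []
      rw [if_pos hp, if_pos hq, one_mul, one_mul]
    · rw [Set.indicator_of_notMem hxS]
      have h4 : ∀ m y : ℝ, om m * (tm a w p (x, (y, m)) * tm a w q (x, (y, m))) = 0 := by
        intro m y
        by_contra hne
        apply hxS
        have h2 : tm a w p (x, (y, m)) ≠ 0 := left_ne_zero_of_mul (right_ne_zero_of_mul hne)
        have h2' : tm a w q (x, (y, m)) ≠ 0 := right_ne_zero_of_mul (right_ne_zero_of_mul hne)
        have h5 := abs_le.mp (PairI_tm_supp a w hw p _ h2).1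
        have h6 := abs_le.mp (PairI_tm_supp a w hw q _ h2').1
        simp only [] at h5 h6
        rw [hS, Set.mem_inter_iff, Set.mem_Icc, Set.mem_Icc]
        refine ⟨⟨?_, ?_⟩, ?_, ?_⟩ <;> linarith [h5.1, h5.2, h6.1, h6.2]
      simp only [h4, integral_zero]
  rw [h1, integral_indicator_const c hSm, smul_eq_mul]
  have h7 : volume.real S ≤ 2 * a := by
    have h8 : volume.real (Set.Icc (p.1 - a) (p.1 + a)) = 2 * a := by
      rw [Real.volume_real_Icc_of_le (by linarith)]
      ring
    rw [← h8]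
    exact measureReal_mono Set.inter_subset_left (by rw [Real.volume_Icc]; exact ENNReal.ofReal_ne_top)
  have h9 : 0 ≤ volume.real S := measureReal_nonneg
  calc volume.real S * c ≤ volume.real S * |c| := by
        exact mul_le_mul_of_nonneg_left (le_abs_self c) h9
    _ ≤ 2 * a * |c| := mul_le_mul_of_nonneg_right h7 (abs_nonneg c)

end Pool.Agent.H39.HG
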