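import Pool.Agent.H39.HG.LevB
import Pool.Agent.H39.HG.OneCB

/-!
# All scales, general scale `u`

The same as `Pool/Agent/H39/HG/Scal.lean` (finished proof there; copy and adapt) with `level_twoB` and `one_curveB`: `J` with `2 ^ J u ≤ 1 < 2 ^ (J+1) u`
(exists since `0 < u ≤ 1`; `u ≤ h u ≤ 1`). The sum is over `j < J`.
-/

set_option autoImplicit false

namespace Pool.Agent.H39.HG

open Finset MeasureTheory
open scoped Classical

theorem scalesB (s : ℕ) (hs : 2 ≤ s) (S C1 κ0 : ℝ) (hS : 0 ≤ S) (hC1 : 0 ≤ C1) :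
    ∃ C Cst : ℝ, 1 ≤ C ∧ 1 ≤ Cst ∧
    ∀ (h : ℕ) (r u : ℝ), 1 ≤ h → 0 < r → 0 < u → r ^ 2 = h * u ^ 3 → h * u ≤ 1 →
    ∀ (P : Finset (ℝ × ℝ)) (ι : Type) [Fintype ι] (U : ι → Set (ℝ × ℝ))
    (m σ : ι → ℝ × ℝ → ℝ), (P.card : ℝ) * u ^ 3 ≤ 4 → Hom h r P →
    (∀ i, Lab S (U i) (m i) (σ i)) →
    (∀ Q ⊆ P, ∀ κ : ℝ, κ0 ≤ κ → ∀ Λ : Finset ι,
      (∀ i ∈ Λ, κ ≤ ((Q.filter fun p => p ∈ U i).card : ℝ)) →
      (∑ i ∈ Λ, ((Q.filter fun p => p ∈ U i).card : ℝ)) * κ ^ (2 * s - 2) ≤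
        C1 * ((Q.card : ℝ) ^ s + Q.card * κ ^ (2 * s - 2))) →
    ∀ K : ℝ, Cst ≤ K → ∃ J : ℕ,
    (∑ i, ((P.filter fun p => p ∈ U i).card : ℝ)) * u ≤
      C * (K * Fintype.card ι + h * P.card *
        ∑ j ∈ (range J).filter (fun j => K < C * 4 ^ j ∧ (16 : ℝ) ^ j < h / u),
          (((2 : ℝ) ^ j) ^ (s + 2) / (((2 : ℝ) ^ j) ^ 7 * K ^ (2 * s - 2)) +
            1 / ((2 : ℝ) ^ j) ^ 4)) := by
  obtain ⟨C0, C2, Cst2, hC0, hC2, hCst2, hlev⟩ := level_twoB s hs C1 κ0 hC1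
  refine ⟨max (2 * S + 2) (max C2 (4 * C0)), max Cst2 C0, ?_, ?_, ?_⟩
  · exact le_trans (by linarith : (1 : ℝ) ≤ 2 * S + 2) (le_max_left _ _)
  · exact hCst2.trans (le_max_left _ _)
  intro h r u hh hr hu hru hhu P ι _ U m σ hP hHom hLab hcount K hK
  have hhR : (1 : ℝ) ≤ h := by exact_mod_cast hh
  have hu1 : u ≤ 1 := by
    have h1 : 1 * u ≤ h * u := mul_le_mul_of_nonneg_right hhR hu.le
    linarith
  obtain ⟨J, hJ1, hJ2⟩ := exists_nat_pow_near (one_le_one_div hu hu1) (by norm_num : (1 : ℝ) < 2)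
  have hJ : (2 : ℝ) ^ J * u ≤ 1 := (le_div_iff₀ hu).1 hJ1
  have hJ' : 1 < (2 : ℝ) ^ (J + 1) * u := (div_lt_iff₀ hu).1 hJ2
  refine ⟨J, ?_⟩
  set C : ℝ := max (2 * S + 2) (max C2 (4 * C0)) with hC
  have hCS : 2 * S + 2 ≤ C := le_max_left _ _
  have hCC2 : C2 ≤ C := (le_max_left _ _).trans (le_max_right _ _)
  have hCC0 : 4 * C0 ≤ C := (le_max_right _ _).trans (le_max_right _ _)
  have hK2 : Cst2 ≤ K := (le_max_left _ _).trans hK
  have hKC0 : C0 ≤ K := (le_max_right _ _).trans hK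
  have hK0 : 0 ≤ K := by linarith
  set n : ℝ := (P.card : ℝ) with hn
  have hn0 : 0 ≤ n := Nat.cast_nonneg _
  have hhn0 : 0 ≤ h * n := mul_nonneg (by linarith) hn0
  let Pg : ι → Finset (ℝ × ℝ) := fun i => P.filter fun p => p ∈ U i
  have hPgQ : ∀ Q ⊆ P, ∀ i, Pg i ∩ Q = Q.filter fun p => p ∈ U i := by
    intro Q hQ i
    ext p
    simp only [Pg, Finset.mem_inter, Finset.mem_filter]
    constructor
    · rintro ⟨⟨_, h1⟩, h2⟩
      exact ⟨h2, h1⟩
    · rintro ⟨h1, h2⟩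
      exact ⟨⟨hQ h1, h2⟩, h1⟩
  have hcount' : ∀ Q ⊆ P, ∀ κ : ℝ, κ0 ≤ κ → ∀ Λ : Finset ι,
      (∀ i ∈ Λ, κ ≤ ((Pg i ∩ Q).card : ℝ)) →
      (∑ i ∈ Λ, ((Pg i ∩ Q).card : ℝ)) * κ ^ (2 * s - 2) ≤
        C1 * ((Q.card : ℝ) ^ s + Q.card * κ ^ (2 * s - 2)) := by
    intro Q hQ κ hκ Λ hΛ
    have h1 := hcount Q hQ κ hκ Λ (fun i hi => by rw [← hPgQ Q hQ i]; exact hΛ i hi)
    simpa only [hPgQ Q hQ] using h1
  choose Bd hBd1 hBd2 using
    fun i => one_curveB S C0 K hS hC0 hKC0 u hu J hJ hJ' P hP (U i) (m i) (σ i) (hLab i)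
  let W : ℕ → ι → ℝ × ℝ → Prop := fun j i p =>
    ∃ d : ℝ, d = 2 ^ j * u ∧ d ≤ 1 ∧ K < 4 * C0 * 4 ^ j ∧
        C0 * 8 ^ j ≤ ((tub P (2 * d) (3 * d ^ 2) p.1 p.2 (m i p)).card : ℝ) ∧
        ((tub P (4 * d) (12 * d ^ 2) p.1 p.2 (m i p)).card : ℝ) ≤ 8 * (C0 * 8 ^ j) ∧
        K * 2 ^ j ≤ ((P.filter (fun q => q ∈ U i) ∩
          tub P (2 * d) (3 * d ^ 2) p.1 p.2 (m i p)).card : ℝ)
  let G : ℕ → Finset (ι × (ℝ × ℝ)) := fun j =>
    (Finset.univ ×ˢ P).filter fun e => e.2 ∈ Pg e.1 ∧ W j e.1 e.2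
  let T : ℕ → ℝ := fun j =>
    (((2 : ℝ) ^ j) ^ (s + 2) / (((2 : ℝ) ^ j) ^ 7 * K ^ (2 * s - 2)) + 1 / ((2 : ℝ) ^ j) ^ 4)
  have hT0 : ∀ j, 0 ≤ T j := fun j => by
    simp only [T]
    positivity
  have hG : ∀ j, (G j).Nonempty → ((G j).card : ℝ) * u ≤ C2 * (h * n * T j) ∧
      (K < C * 4 ^ j ∧ (16 : ℝ) ^ j < h / u) := by
    intro j hne
    obtain ⟨e0, he0⟩ := id hne
    obtain ⟨-, -, d, hd, hd1, hKd, -, -, -⟩ := Finset.mem_filter.mp he0
    have key := hlev h r u hh hr hu hru hhu P ι Pg m hHom (fun i => Finset.filter_subset _ _)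
      hcount' K hK2 j d hd hd1 (G j) ?_ ?_ ?_ ?_
    · refine ⟨key.1, ?_, key.2 hne⟩
      refine hKd.trans_le ?_
      exact mul_le_mul_of_nonneg_right hCC0 (by positivity)
    · intro e he
      obtain ⟨-, he1, -⟩ := Finset.mem_filter.mp he
      exact ⟨he1, (hLab e.1 e.2 (Finset.mem_filter.mp he1).2).1.1⟩
    · intro e he
      obtain ⟨-, -, d', hd', -, -, h4, -, -⟩ := Finset.mem_filter.mp he
      rw [hd, ← hd']
      exact h4
    · intro e he
      obtain ⟨-, -, d', hd', -, -, -, h5, -⟩ := Finset.mem_filter.mp he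
      rw [hd, ← hd']
      exact h5
    · intro e he
      obtain ⟨-, -, d', hd', -, -, -, -, h6⟩ := Finset.mem_filter.mp he
      rw [hd, ← hd']
      exact h6
  have hcover : ∀ i, ((Pg i).card : ℝ) * u ≤ (2 * S + 2) * K +
      ∑ j ∈ range J, (((Pg i).filter fun p => W j i p).card : ℝ) * u := by
    intro i
    have h1 : Pg i ⊆ Bd i ∪ (range J).biUnion fun j => (Pg i).filter fun p => W j i p := by
      intro p hp
      by_cases hb : p ∈ Bd i
      · exact Finset.mem_union_left _ hb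
      · obtain ⟨j, hj, hW⟩ := hBd2 i p hp hb
        exact Finset.mem_union_right _
          (Finset.mem_biUnion.mpr ⟨j, Finset.mem_range.mpr hj, Finset.mem_filter.mpr ⟨hp, hW⟩⟩)
    have h2 : (Pg i).card ≤ (Bd i).card +
        ∑ j ∈ range J, ((Pg i).filter fun p => W j i p).card :=
      (Finset.card_le_card h1).trans ((Finset.card_union_le _ _).trans
        (Nat.add_le_add_left Finset.card_biUnion_le _))
    have h3 : ((Pg i).card : ℝ) ≤ ((Bd i).card : ℝ) +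
        ∑ j ∈ range J, (((Pg i).filter fun p => W j i p).card : ℝ) := by
      exact_mod_cast h2
    have h4 := hBd1 i
    have h5 := mul_le_mul_of_nonneg_right h3 hu.le
    rw [add_mul, Finset.sum_mul] at h5
    linarith
  have hfib : ∀ j, (∑ i, (((Pg i).filter fun p => W j i p).card : ℝ)) ≤ ((G j).card : ℝ) := by
    intro j
    have h1 : (G j).card = ∑ i : ι, ((G j).filter fun e => e.1 = i).card :=
      Finset.card_eq_sum_card_fiberwise (f := Prod.fst) (t := Finset.univ)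
        (fun _ _ => Finset.mem_coe.mpr (Finset.mem_univ _))
    have h2 : (∑ i, ((Pg i).filter fun p => W j i p).card) ≤ (G j).card := by
      rw [h1]
      refine Finset.sum_le_sum fun i _ => ?_
      refine Finset.card_le_card_of_injOn (fun p => (i, p)) ?_ ?_
      · intro p hp
        have hp' := Finset.mem_filter.mp (Finset.mem_coe.mp hp)
        refine Finset.mem_coe.mpr (Finset.mem_filter.mpr ⟨Finset.mem_filter.mpr ⟨?_, hp'.1, hp'.2⟩, rfl⟩)
        exact Finset.mem_product.mpr ⟨Finset.mem_univ _, (Finset.mem_filter.mp hp'.1).1⟩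
      · intro p _ q _ hpq
        exact (Prod.mk.inj hpq).2
    exact_mod_cast h2
  have hsumG : (∑ j ∈ range J, ((G j).card : ℝ) * u) ≤
      ∑ j ∈ (range J).filter
        (fun j => K < C * 4 ^ j ∧ (16 : ℝ) ^ j < h / u), C * (h * n * T j) := by
    rw [Finset.sum_filter]
    refine Finset.sum_le_sum fun j _ => ?_
    by_cases hne : (G j).Nonempty
    · obtain ⟨h1, h2⟩ := hG j hne
      rw [if_pos h2]
      refine h1.trans (mul_le_mul_of_nonneg_right hCC2 ?_)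
      exact mul_nonneg hhn0 (hT0 j)
    · rw [Finset.not_nonempty_iff_eq_empty] at hne
      rw [hne, Finset.card_empty, Nat.cast_zero, zero_mul]
      split_ifs
      · exact mul_nonneg (by linarith) (mul_nonneg hhn0 (hT0 j))
      · exact le_rfl
  calc (∑ i, ((Pg i).card : ℝ)) * u = ∑ i, ((Pg i).card : ℝ) * u := Finset.sum_mul _ _ _
    _ ≤ ∑ i : ι, ((2 * S + 2) * K +
      ∑ j ∈ range J, (((Pg i).filter fun p => W j i p).card : ℝ) * u) :=
        Finset.sum_le_sum fun i _ => hcover i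
    _ = (2 * S + 2) * K * Fintype.card ι +
      ∑ j ∈ range J, ∑ i, (((Pg i).filter fun p => W j i p).card : ℝ) * u := by
        rw [Finset.sum_add_distrib, Finset.sum_comm (s := Finset.univ) (t := range J),
          Finset.sum_const, Finset.card_univ, nsmul_eq_mul]
        ring
    _ ≤ C * K * Fintype.card ι +
      ∑ j ∈ (range J).filter
        (fun j => K < C * 4 ^ j ∧ (16 : ℝ) ^ j < h / u), C * (h * n * T j) := by
        refine add_le_add ?_ ((Finset.sum_le_sum fun j _ => ?_).trans hsumG)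
        · exact mul_le_mul_of_nonneg_right (mul_le_mul_of_nonneg_right hCS hK0) (Nat.cast_nonneg _)
        · rw [← Finset.sum_mul]
          exact mul_le_mul_of_nonneg_right (hfib j) hu.le
    _ = _ := by
        rw [← Finset.mul_sum, ← Finset.mul_sum]
        simp only [T]
        ring

end Pool.Agent.H39.HG
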