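import Pool.Agent.H39.HG.GSum
import Pool.Agent.H39.HG.PairI

/-!
# The second moment

`vv P a w z = ∑ p ∈ P, tm a w p z` (definitions of `tub`, `ps`: `2 * 1[|v| ≤ w] - 1[|v| ≤ 2 w]`, `card_filter`), so
`om * vv ^ 2 = ∑_p ∑_q om * (tm p * tm q)` (`sum_mul_sum`), integrate termwise (`integral_finset_sum`), `pair_int`, then `gg_sum h`:
`∑_p ∑_q 2 a |GG| ≤ 2 a * #P * C w` and `#P ≤ 1 / r ^ 2`.
-/

set_option autoImplicit false

namespace Pool.Agent.H39.HG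

open Finset MeasureTheory
open scoped Classical

private theorem SqI_vv (P : Finset (ℝ × ℝ)) (a w : ℝ) (z : ℝ × ℝ × ℝ) :
    vv P a w z = ∑ p ∈ P, tm a w p z := by
  have h1 : ∀ w' : ℝ, ((tub P a w' z.1 z.2.1 z.2.2).card : ℝ) = ∑ p ∈ P,
      ((if |p.1 - z.1| ≤ a then (1 : ℝ) else 0) *
        (if |p.2 - z.2.1 - z.2.2 * (p.1 - z.1)| ≤ w' then 1 else 0)) := by
    intro w'
    unfold tub
    rw [card_filter]
    push_cast
    refine sum_congr rfl fun p _ => ?_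
    by_cases h2 : |p.1 - z.1| ≤ a
    · by_cases h3 : |p.2 - z.2.1 - z.2.2 * (p.1 - z.1)| ≤ w'
      · simp [h2, h3]
      · simp [h2, h3]
    · simp [h2]
  unfold vv
  rw [h1, h1, mul_sum, ← sum_sub_distrib]
  refine sum_congr rfl fun p _ => ?_
  unfold tm ps
  ring

private theorem SqI_sq (P : Finset (ℝ × ℝ)) (a w : ℝ) (z : ℝ × ℝ × ℝ) :
    om z.2.2 * vv P a w z ^ 2 = ∑ p ∈ P, ∑ q ∈ P, om z.2.2 * (tm a w p z * tm a w q z) := by
  rw [SqI_vv, sq, sum_mul_sum, mul_sum]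
  refine sum_congr rfl fun p _ => ?_
  rw [mul_sum]

theorem sq_int (h : ℕ) : ∃ C : ℝ, 0 ≤ C ∧ ∀ (r a w : ℝ) (P : Finset (ℝ × ℝ)), 0 < r →
    Hom h r P → (P.card : ℝ) * r ^ 2 ≤ 1 → 0 < w → w ≤ r → 0 < a →
    Integrable (fun z : ℝ × ℝ × ℝ => om z.2.2 * vv P a w z ^ 2) ∧
    ∫ z : ℝ × ℝ × ℝ, om z.2.2 * vv P a w z ^ 2 ≤ C * (a * w / r ^ 2) := by
  obtain ⟨C, hC, hsum⟩ := gg_sum h
  refine ⟨2 * C, by positivity, ?_⟩
  intro r a w P hr hom hP hw hwr ha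
  have hfun : (fun z : ℝ × ℝ × ℝ => om z.2.2 * vv P a w z ^ 2) =
      fun z => ∑ p ∈ P, ∑ q ∈ P, om z.2.2 * (tm a w p z * tm a w q z) := by
    funext z
    exact SqI_sq P a w z
  have hint : ∀ p ∈ P, Integrable (fun z : ℝ × ℝ × ℝ =>
      ∑ q ∈ P, om z.2.2 * (tm a w p z * tm a w q z)) := fun p _ =>
    integrable_finsetSum P fun q _ => (pair_int a w ha hw p q).1
  rw [hfun]
  refine ⟨integrable_finsetSum P hint, ?_⟩
  rw [integral_finsetSum P hint]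
  have h1 : ∀ p ∈ P, ∫ z : ℝ × ℝ × ℝ, ∑ q ∈ P, om z.2.2 * (tm a w p z * tm a w q z) ≤
      2 * a * (C * w) := by
    intro p _
    rw [integral_finsetSum P fun q _ => (pair_int a w ha hw p q).1]
    calc ∑ q ∈ P, ∫ z : ℝ × ℝ × ℝ, om z.2.2 * (tm a w p z * tm a w q z)
        ≤ ∑ q ∈ P, 2 * a * |GG w (p.1 - q.1) (p.2 - q.2)| :=
          sum_le_sum fun q _ => (pair_int a w ha hw p q).2
      _ = 2 * a * ∑ q ∈ P, |GG w (p.1 - q.1) (p.2 - q.2)| := by rw [mul_sum]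
      _ ≤ 2 * a * (C * w) :=
          mul_le_mul_of_nonneg_left (hsum r P hr hom w hw hwr p) (by positivity)
  have h2 : (P.card : ℝ) ≤ 1 / r ^ 2 := by
    rw [le_div_iff₀ (by positivity)]
    exact hP
  calc ∑ p ∈ P, ∫ z : ℝ × ℝ × ℝ, ∑ q ∈ P, om z.2.2 * (tm a w p z * tm a w q z)
      ≤ ∑ _p ∈ P, 2 * a * (C * w) := sum_le_sum h1
    _ = (P.card : ℝ) * (2 * a * (C * w)) := by rw [sum_const, nsmul_eq_mul]
    _ ≤ 1 / r ^ 2 * (2 * a * (C * w)) := mul_le_mul_of_nonneg_right h2 (by positivity)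
    _ = 2 * C * (a * w / r ^ 2) := by ring

end Pool.Agent.H39.HG
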